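import Pool.Agent.MP_3ee8cb_gt.CR.SpecA

/-! Block triangular determinants on a product. -/

namespace Pool.Agent.MP_3ee8cb_gt.CR

open Module

theorem blk_tri {V : Type} [AddCommGroup V] [Module ℝ V] [FiniteDimensional ℝ V]
    (f : V × V →ₗ[ℝ] V × V) (P M N : V →ₗ[ℝ] V)
    (h : ∀ a, f a = (P a.1, N a.1 + M a.2)) :
    LinearMap.det f = LinearMap.det P * LinearMap.det M := by
  classical
  let b := Module.finBasis ℝ V
  have e : LinearMap.toMatrix (b.prod b) (b.prod b) f =
      Matrix.fromBlocks (LinearMap.toMatrix b b P) 0 (LinearMap.toMatrix b b N)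
        (LinearMap.toMatrix b b M) := by
    ext i j
    rcases i with i | i <;> rcases j with j | j <;>
      simp [LinearMap.toMatrix_apply, h]
  rw [← LinearMap.det_toMatrix (b.prod b), e, Matrix.det_fromBlocks_zero₁₂,
    LinearMap.det_toMatrix, LinearMap.det_toMatrix]

theorem blk_swap {V : Type} [AddCommGroup V] [Module ℝ V] :
    |LinearMap.det (LinearEquiv.prodComm ℝ V V).toLinearMap| = 1 := by
  set s : V × V →ₗ[ℝ] V × V := (LinearEquiv.prodComm ℝ V V).toLinearMap
    with hs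
  have h2 : s ∘ₗ s = LinearMap.id := by
    apply LinearMap.ext
    intro a
    simp [hs]
  have h3 : LinearMap.det s * LinearMap.det s = 1 := by
    rw [← LinearMap.det_comp, h2, LinearMap.det_id]
  rcases mul_self_eq_one_iff.mp h3 with h | h <;> simp [h]

theorem blk : SBLK := by
  intro n f P M N
  refine ⟨fun h => ?_, fun h => ?_⟩
  · exact blk_tri (f : E n × E n →ₗ[ℝ] E n × E n) (P : E n →ₗ[ℝ] E n) (M : E n →ₗ[ℝ] E n)
      (N : E n →ₗ[ℝ] E n) h
  · have h1 := blk_tri ((f : E n × E n →ₗ[ℝ] E n × E n) ∘ₗ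
        (LinearEquiv.prodComm ℝ (E n) (E n)).toLinearMap)
      (P : E n →ₗ[ℝ] E n) (M : E n →ₗ[ℝ] E n) (N : E n →ₗ[ℝ] E n) (by
        intro a
        exact h (a.2, a.1))
    rw [LinearMap.det_comp] at h1
    have h2 := congrArg abs h1
    rw [abs_mul, blk_swap, mul_one, abs_mul] at h2
    exact h2

end Pool.Agent.MP_3ee8cb_gt.CR
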