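import Pool.Agent.MP_3ee8cb_gt.CR.SpecB
import Pool.Agent.MP_98f34a_gt.H36.Brouwer

/-! A continuous map at bounded hyperbolic distance from the identity is onto. -/

namespace Pool.Agent.MP_3ee8cb_gt.CR

open scoped RealInnerProductSpace

theorem brw_num {u s N : ℝ} (hu : 1 ≤ u) (hs : s ≤ N) (hN : 0 ≤ N) (h : 1 + s ^ 2 ≤ u ^ 2) :
    1 ≤ (u - s) * (2 * N + 1) := by
  have h0 : 0 ≤ u - s := by
    by_contra hn
    nlinarith
  rcases le_total (N + 1) u with h1 | h1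
  · nlinarith
  · have h2 : 1 ≤ (u - s) * (u + s) := by nlinarith
    have h3 : (u - s) * (u + s) ≤ (u - s) * (2 * N + 1) :=
      mul_le_mul_of_nonneg_left (by linarith) h0
    linarith

theorem brw : SBRW := by
  intro n G C hG hC z
  by_contra hz
  have hne : ∀ y, G y - z ≠ 0 := fun y e => hz ⟨y, sub_eq_zero.1 e⟩
  have hpos : ∀ y, 0 < ‖G y - z‖ := fun y => norm_pos_iff.2 (hne y)
  set R : ℝ := (|C| + 1) * (2 * ‖z‖ + 1) with hR
  have hR0 : 0 < R := by positivity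
  have hn : ∀ y, ‖(-(R / ‖G y - z‖)) • (G y - z)‖ = R := fun y => by
    rw [norm_smul, norm_neg, Real.norm_of_nonneg (div_pos hR0 (hpos y)).le,
      div_mul_cancel₀ _ (hpos y).ne']
  obtain ⟨y, hy⟩ := MP_98f34a_gt.H36.brouwer_euclid
    (fun y => (-(R / ‖G y - z‖)) • (G y - z))
    (((continuous_const.div (hG.sub continuous_const).norm fun y => (hpos y).ne').neg).smul
      (hG.sub continuous_const)) R fun y => (hn y).le
  have hyR : ‖y‖ = R := by rw [← hy]; exact hn y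
  have h1 : ⟪G y - z, y⟫ ≤ 0 := by
    have : ⟪G y - z, (-(R / ‖G y - z‖)) • (G y - z)⟫ ≤ 0 := by
      rw [real_inner_smul_right]
      exact mul_nonpos_of_nonpos_of_nonneg (neg_nonpos.2 (div_pos hR0 (hpos y)).le)
        real_inner_self_nonneg
    rwa [hy] at this
  have h2 : ⟪G y, y⟫ ≤ ‖z‖ * R := by
    rw [inner_sub_left] at h1
    have := real_inner_le_norm z y
    rw [hyR] at this
    linarith
  have h3 : |⟪G y, y⟫| ≤ ‖G y‖ * R := by
    have := abs_real_inner_le_norm (G y) y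
    rwa [hyR] at this
  set u := √(1 + ‖G y‖ ^ 2) with hu
  have hu2 : u ^ 2 = 1 + ‖G y‖ ^ 2 := Real.sq_sqrt (by positivity)
  have hu1 : 1 ≤ u := Real.one_le_sqrt.2 (by nlinarith [sq_nonneg ‖G y‖])
  have hs1 : ⟪G y, y⟫ / R ≤ ‖z‖ := (div_le_iff₀ hR0).2 h2
  have hs2 : (⟪G y, y⟫ / R) ^ 2 ≤ ‖G y‖ ^ 2 := by
    refine sq_le_sq' ?_ ?_
    · rw [le_div_iff₀ hR0]; linarith [(abs_le.1 h3).1]
    · rw [div_le_iff₀ hR0]; exact (abs_le.1 h3).2
  have h4 := brw_num hu1 hs1 (norm_nonneg z) (by linarith)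
  have h5 : R ≤ √(1 + ‖y‖ ^ 2) := Real.le_sqrt_of_sq_le (by rw [hyR]; linarith)
  have h6 := hC y
  have h7 : -B (up (G y)) (up y) = u * √(1 + ‖y‖ ^ 2) - ⟪G y, y⟫ := by
    simp only [B, up, hu]; ring
  have h8 : u * R ≤ u * √(1 + ‖y‖ ^ 2) := mul_le_mul_of_nonneg_left h5 (by linarith)
  have h9 : (u - ⟪G y, y⟫ / R) * R = u * R - ⟪G y, y⟫ := by field_simp
  have h10 : |C| + 1 ≤ (u - ⟪G y, y⟫ / R) * R := by
    have : (u - ⟪G y, y⟫ / R) * R =
        (|C| + 1) * ((u - ⟪G y, y⟫ / R) * (2 * ‖z‖ + 1)) := by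
      generalize u - ⟪G y, y⟫ / R = d
      rw [hR]; ring
    rw [this]
    exact le_mul_of_one_le_right (by positivity) h4
  linarith [le_abs_self C]

end Pool.Agent.MP_3ee8cb_gt.CR
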