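import Pool.Agent.MP_3ee8cb_gt.CR.SpecA

/-! Properties of the Busemann functions of the geodesics. -/

namespace Pool.Agent.MP_3ee8cb_gt.CR

open Set Filter Topology

variable {n : ℕ} {g : Met n} {Γ : Type} [Group Γ] [MulAction Γ (E n)] {Φ : ℝ → UT g → UT g}
  {l : E n → E n → ℝ} {a : Γ → E n → E n} {φ : UT g → E n × E n} {ψ : E n × E n → UT g}

theorem bu_le (db : DBP g) (hm : MinP g Φ) (p : UT g) (x : E n) (t : ℝ) :
    bus g Φ p x ≤ dd g x (Φ t p).1.1 - t := by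
  refine ciInf_le (f := fun t : ℝ => dd g x (Φ t p).1.1 - t) ⟨-dd g (Φ 0 p).1.1 x, ?_⟩ t
  rintro _ ⟨s, rfl⟩
  have h1 := db.tri (Φ 0 p).1.1 x (Φ s p).1.1
  have h2 := neg_le_abs (0 - s)
  rw [hm] at h1
  change _ ≤ dd g x (Φ s p).1.1 - s
  linarith

theorem bu_ge (db : DBP g) (hm : MinP g Φ) (p : UT g) (x : E n) (b T : ℝ)
    (h : ∀ t, T ≤ t → b ≤ dd g x (Φ t p).1.1 - t) : b ≤ bus g Φ p x := by
  refine le_ciInf fun s => ?_
  have h1 := h (max s T) (le_max_right _ _)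
  have h2 := db.tri x (Φ s p).1.1 (Φ (max s T) p).1.1
  rw [hm, abs_sub_comm, abs_of_nonneg (sub_nonneg.2 (le_max_left s T))] at h2
  linarith

theorem bu_inj (C : Conj g Φ l a φ ψ) {p q : UT g} (h : φ p = φ q) : p = q := by
  rw [← C.left p, h, C.left]

theorem bu_flow (C : Conj g Φ l a φ ψ) (s t : ℝ) (p : UT g) : Φ s (Φ t p) = Φ (s + t) p := by
  refine bu_inj C ?_
  rw [C.flow, C.flow, C.flow]
  simp only [smul_smul, ← Real.exp_add, neg_add]

theorem bu_ne (C : Conj g Φ l a φ ψ) (p : UT g) : (φ p).1 ≠ 0 ∧ (φ p).2 ≠ 0 := by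
  have h0 : ∀ b, l 0 b = 0 := fun b => by simpa using C.bd.hom 0 0 b le_rfl
  have h := C.mem p
  constructor
  · intro e
    rw [e, h0] at h
    norm_num at h
  · intro e
    rw [e, C.bd.symm, h0] at h
    norm_num at h

theorem bu_equi (R : RP g Γ Φ) (C : Conj g Φ l a φ ψ) (γ : Γ) (p q : UT g)
    (h : q.1 = tm γ p.1) (t : ℝ) : (Φ t q).1.1 = γ • (Φ t p).1.1 := by
  let q' : UT g := ⟨tm γ (Φ t p).1, (R.deck.iso γ _ _ _).trans (Φ t p).2⟩
  have e : Φ t q = q' := by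
    refine bu_inj C ?_
    rw [C.equi γ (Φ t p) q' rfl, C.flow, C.flow, C.equi γ p q h,
      C.act.hom γ _ _ (Real.exp_pos _) (bu_ne C p).1, C.act.hom γ _ _ (Real.exp_pos _) (bu_ne C p).2]
  rw [e]
  rfl

theorem bu_asym (R : RP g Γ Φ) (C : Conj g Φ l a φ ψ) (U : UcP g l φ) (hm : MinP g Φ)
    (p p' : UT g) (h : (φ p).1 = (φ p').1) (x : E n) : bus g Φ p x ≤ bus g Φ p' x := by
  refine le_of_forall_pos_le_add fun ε hε => ?_
  obtain ⟨δ, hδ, H⟩ := U.foot ε hε
  have hg : ∀ t, gap l (φ (Φ t p)) (φ (Φ t p')) =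
      Real.exp (-t) * (Real.exp (-t) * l (φ p').2 (φ p).2) := by
    intro t
    have e : (φ (Φ t p)).1 = (φ (Φ t p')).1 := by rw [C.flow, C.flow, h]
    have e1 : l (φ (Φ t p)).1 (φ (Φ t p')).2 = 2 := by rw [e, C.mem]
    have e2 : l (φ (Φ t p')).1 (φ (Φ t p)).2 = 2 := by rw [← e, C.mem]
    have e3 : l (φ (Φ t p)).1 (φ (Φ t p')).1 = 0 := by rw [e, C.bd.self]
    rw [gap, e1, e2, e3, C.flow, C.flow]
    simp only [sub_self, abs_zero, add_zero, zero_add]
    rw [C.bd.hom _ _ _ (Real.exp_pos _).le, C.bd.symm, C.bd.hom _ _ _ (Real.exp_pos _).le]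
  have ht : Tendsto (fun t : ℝ => Real.exp (-t) * (Real.exp (-t) * l (φ p').2 (φ p).2)) atTop
      (𝓝 (0 * (0 * l (φ p').2 (φ p).2))) :=
    Real.tendsto_exp_neg_atTop_nhds_zero.mul (Real.tendsto_exp_neg_atTop_nhds_zero.mul_const _)
  rw [zero_mul] at ht
  obtain ⟨T, hT⟩ := eventually_atTop.1 (ht.eventually (ge_mem_nhds hδ))
  have := bu_ge R.db hm p' x (bus g Φ p x - ε) T fun t ht => by
    have h1 := H _ _ ((hg t).trans_le (hT t ht))
    have h2 := bu_le R.db hm p x t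
    have h3 := R.db.tri x (Φ t p').1.1 (Φ t p).1.1
    rw [R.db.symm (Φ t p').1.1] at h3
    linarith
  linarith

theorem bu : SBU := by
  intro n g Γ _ _ Φ l a φ ψ R C U hm
  have db := R.db
  refine ⟨fun p x y => ?_, fun p t => le_antisymm ?_ ?_,
    fun p p' h x => le_antisymm (bu_asym R C U hm p p' h x) (bu_asym R C U hm p' p h.symm x),
    fun p t x => le_antisymm ?_ ?_, fun p x => ?_, fun γ p q h x => ?_⟩
  · have := bu_ge db hm p y (bus g Φ p x - dd g x y) 0 fun t _ => by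
      have h1 := bu_le db hm p x t
      have h2 := db.tri x y (Φ t p).1.1
      linarith
    linarith
  · simpa [db.refl] using bu_le db hm p (Φ t p).1.1 t
  · refine bu_ge db hm p _ _ 0 fun s _ => ?_
    have := neg_le_abs (t - s)
    rw [hm]
    linarith
  · have := bu_ge db hm p x (bus g Φ (Φ t p) x - t) 0 fun s _ => by
      have h1 := bu_le db hm (Φ t p) x (s - t)
      rw [bu_flow C, sub_add_cancel] at h1
      linarith
    linarith
  · refine bu_ge db hm _ x _ 0 fun s _ => ?_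
    have h1 := bu_le db hm p x (s + t)
    rw [bu_flow C]
    linarith
  · have := bu_ge db hm p x (-bus g Φ (ng p) x) 0 fun s _ => by
      have := bu_ge db hm (ng p) x (s - dd g x (Φ s p).1.1) 0 fun t _ => by
        have e : (Φ t (ng p)).1.1 = (Φ (-t) p).1.1 := by rw [R.fl.rev]; rfl
        have h1 := db.tri (Φ s p).1.1 x (Φ (-t) p).1.1
        have h2 := le_abs_self (s - -t)
        rw [hm, db.symm (Φ s p).1.1 x] at h1
        rw [e]
        linarith
      linarith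
    linarith
  · unfold bus
    congr 1
    funext t
    rw [bu_equi R C γ p q h, R.inv]

end Pool.Agent.MP_3ee8cb_gt.CR
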