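import Pool.Agent.MP_3ee8cb_gt.CR.SpecB

/-! Lorentz maps preserve the measure on the light cone. -/

namespace Pool.Agent.MP_3ee8cb_gt.CR

open Set MeasureTheory

theorem cone_cont {n : ℕ} (A : V n →L[ℝ] V n) : Continuous (ca A) :=
  (A.continuous.comp (continuous_norm.prodMk continuous_id)).snd

theorem cone_nu {n : ℕ} (hn : 0 < n) {s : Set (E n)} (hs : MeasurableSet s) :
    nu n s = ∫⁻ k in s \ {0}, ENNReal.ofReal ‖k‖⁻¹ := by
  have : Nonempty (Fin n) := ⟨⟨0, hn⟩⟩
  rw [nu, withDensity_apply _ hs]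
  exact setLIntegral_congr (sdiff_null_ae_eq_self (measure_singleton _)).symm

theorem cone : SCONE := by
  intro n hn hL hD A hA
  obtain ⟨A', hA', h1, h2⟩ := hL.inv A hA
  have hl : ∀ k, ca A' (ca A k) = k := fun k => by
    rw [ca, ← hL.acn A hA, h1]; rfl
  have hr : ∀ k, ca A (ca A' k) = k := fun k => by
    rw [ca, ← hL.acn A' hA', h2]; rfl
  have hm : Measurable (ca A) := (cone_cont A).measurable
  refine ⟨hm, Measure.ext fun s hs => ?_⟩
  have ht : MeasurableSet (ca A ⁻¹' s \ {0}) := (hm hs).diff (measurableSet_singleton _)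
  have him : ca A '' (ca A ⁻¹' s \ {0}) = s \ {0} := by
    refine Subset.antisymm ?_ fun y hy => ⟨ca A' y, ⟨?_, hL.ane A' hA' y hy.2⟩, hr y⟩
    · rintro _ ⟨k, hk, rfl⟩
      exact ⟨hk.1, hL.ane A hA k hk.2⟩
    · rw [mem_preimage, hr]; exact hy.1
  rw [Measure.map_apply hm hs, cone_nu hn (hm hs), cone_nu hn hs, ← him,
    lintegral_image_eq_lintegral_abs_det_fderiv_mul volume ht (f' := fderiv ℝ (ca A))
      (fun k hk => ?_) (Function.LeftInverse.injective hl).injOn]
  · refine setLIntegral_congr_fun ht fun k hk => ?_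
    obtain ⟨D, -, hd, hdet, -⟩ := hD A k hA hk.2
    have h3 : ‖ca A k‖ ≠ 0 := norm_ne_zero_iff.2 (hL.ane A hA k hk.2)
    simp only [hd.fderiv, hdet]
    rw [← ENNReal.ofReal_mul (by positivity)]
    congr 1
    field_simp
  · obtain ⟨D, -, hd, -⟩ := hD A k hA hk.2
    exact hd.differentiableAt.hasFDerivAt.hasFDerivWithinAt

end Pool.Agent.MP_3ee8cb_gt.CR
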