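import Pool.Agent.MP_3ee8cb_gt.CR.SpecB

/-! The cotangent lift preserves the volume. -/

namespace Pool.Agent.MP_3ee8cb_gt.CR

open Set MeasureTheory

variable {n : ℕ}

theorem cot_ca (A : V n →L[ℝ] V n) : Continuous (ca A) := by
  unfold ca cn
  fun_prop

theorem cot_meas (A : V n →L[ℝ] V n) : Measurable (TA A) := by
  have h1 : Measurable fun w : E n × E n => ca A w.1 := (cot_ca A).measurable.comp measurable_fst
  have h2 : Continuous fun w : E n × E n => A (0, -w.2) := by fun_prop
  have h3 : Measurable fun w : E n × E n => qL (ca A w.1) (A (0, -w.2)) := by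
    simp only [qL_apply]
    exact (h2.fst.measurable.smul (h1.norm.inv.smul h1)).sub h2.snd.measurable
  exact h1.prodMk h3

theorem cot_img (H : LorP n) (A : V n →L[ℝ] V n) (hA : Lor A) :
    InjOn (ca A) {k | k ≠ 0} ∧ ca A '' {k | k ≠ 0} = {k | k ≠ 0} := by
  obtain ⟨A', hA', h1, h2⟩ := H.inv A hA
  constructor
  · intro k _ k' _ h
    have h3 : A (cn k) = A (cn k') := by rw [H.acn A hA, H.acn A hA, h]
    have h4 : cn k = cn k' := by rw [← h1 (cn k), h3, h1]
    exact congrArg Prod.snd h4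
  · ext k
    constructor
    · rintro ⟨k', hk', rfl⟩
      exact H.ane A hA k' hk'
    · intro hk
      refine ⟨ca A' k, H.ane A' hA' k hk, ?_⟩
      unfold ca
      have h3 := H.acn A' hA' k
      unfold ca at h3
      rw [← h3, h2]
      rfl

theorem cot (_hb : SBLK) : SCOT := by
  intro n hn H hD A hA
  have : Nonempty (Fin n) := ⟨⟨0, hn⟩⟩
  have hS : MeasurableSet {k : E n | k ≠ 0} := (measurableSet_singleton (0 : E n)).compl
  have hae : ∀ᵐ k : E n, k ∈ {k : E n | k ≠ 0} := by
    have := (Set.countable_singleton (0 : E n)).ae_notMem (volume : Measure (E n))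
    exact this
  have hres : (volume : Measure (E n)).restrict {k : E n | k ≠ 0} = volume :=
    Measure.restrict_eq_self_of_ae_mem hae
  choose! D L hd hdet hL hl using fun k => hD A k hA
  refine ⟨cot_meas A, Measure.ext fun s hs => ?_⟩
  rw [Measure.map_apply (cot_meas A) hs, Measure.volume_eq_prod,
    Measure.prod_apply (cot_meas A hs), Measure.prod_apply hs]
  have h1 := lintegral_image_eq_lintegral_abs_det_fderiv_mul (volume : Measure (E n)) hS
    (fun k hk => (hd k hk).hasFDerivWithinAt) (cot_img H A hA).1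
    fun k => volume (Prod.mk k ⁻¹' s)
  rw [(cot_img H A hA).2, hres] at h1
  rw [h1]
  refine lintegral_congr_ae (hae.mono fun k hk => ?_)
  have hk0 : 0 < ‖k‖ := norm_pos_iff.mpr hk
  have hk1 : 0 < ‖ca A k‖ := norm_pos_iff.mpr (H.ane A hA k hk)
  have h2 : Prod.mk k ⁻¹' (TA A ⁻¹' s) = L k ⁻¹' (Prod.mk (ca A k) ⁻¹' s) := by
    ext q
    simp only [mem_preimage, TA, hL k hk q]
  have h3 : LinearMap.det (L k : E n →ₗ[ℝ] E n) ≠ 0 := by
    intro h
    have h4 : |(L k).det| = 0 := by
      rw [abs_eq_zero]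
      exact h
    rw [hl k hk] at h4
    exact (div_pos hk0 hk1).ne' h4
  have h5 : |(LinearMap.det (L k : E n →ₗ[ℝ] E n))⁻¹| = |(D k).det| := by
    have h6 : |LinearMap.det (L k : E n →ₗ[ℝ] E n)| = ‖k‖ / ‖ca A k‖ := hl k hk
    rw [abs_inv, h6, hdet k hk, inv_div]
  dsimp only
  rw [h2, Measure.addHaar_preimage_continuousLinearMap _ h3, h5]

end Pool.Agent.MP_3ee8cb_gt.CR
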