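import Pool.Agent.MP_3ee8cb_gt.CR.SpecB

/-! The translates of the second set cover the first set, whose translates are disjoint. -/

namespace Pool.Agent.MP_3ee8cb_gt.CR

open Set MeasureTheory
open scoped RealInnerProductSpace

variable {n : ℕ} {Γ : Type} [Group Γ] {A : Γ → V n →L[ℝ] V n}

theorem cov_mul (L : LorP n) (R : Rep A) (γ δ : Γ) (z : E n × E n) (hz : z.1 ≠ 0) :
    TA (A γ) (TA (A δ) z) = TA (A (γ * δ)) z := by
  have e : ca (A γ) (ca (A δ) z.1) = ca (A (γ * δ)) z.1 := by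
    rw [ca, ← L.acn _ (R.lor δ), ← R.mul, ca]
  have := L.ta _ (R.lor γ) (ca (A δ) z.1) (A δ (0, -z.2)) (L.ane _ (R.lor δ) _ hz)
  rw [e, ← R.mul] at this
  exact this

theorem cov_one (R : Rep A) (z : E n × E n) : TA (A 1) z = z := by
  have e : ca (A 1) z.1 = z.1 := by rw [ca, R.one]; rfl
  rw [TA, e, R.one, qL_apply]
  simp

theorem cov_qq (L : LorP n) {A : V n →L[ℝ] V n} (hA : Lor A) (k m : E n) (hk : k ≠ 0) :
    TA A (k, qq k m) = (ca A k, qq (ca A k) (ca A m)) := by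
  rw [qq, ← map_smul, L.ta A hA k _ hk, map_smul, map_smul, L.acn A hA, qq]

theorem cov (hp : SPACK) : SCOV := by
  intro n g Γ _ _ A β v m X H hc hΓ F D hF hs hD hD' hE
  have L := H.lor
  have R := H.rep
  have hpos : ∀ x k, k ≠ 0 → 0 < lp k (m x k) := fun x k hk => by
    rw [H.bd.tou x k hk]
    linarith [H.bd.pos x k hk]
  refine hp (E n × E n) Γ volume (fun γ => TA (A γ)) {w | w.1 ≠ 0} _ _
    (fun γ => hc _ (R.lor γ)) (fun γ z hz => ⟨L.ane _ (R.lor γ) _ hz, ?_⟩) ?_ hE ?_ ?_ ?_ ?_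
  · rw [cov_mul L R _ _ z hz, inv_mul_cancel, cov_one R]
  · exact (measurable_fst (measurableSet_singleton 0)).compl
  · rintro _ ⟨a, ha, rfl⟩
    exact ha.2.1
  · rintro _ ⟨a, ha, rfl⟩
    exact ha.2.1
  · rintro γ δ z hz ⟨a, ha, h1⟩ ⟨b, hb, h2⟩
    have h3 := cov_mul L R (δ * γ⁻¹) γ z hz
    rw [inv_mul_cancel_right, ← h1, ← h2, cov_qq L (R.lor _) _ _ ha.2.1,
      ← (H.bd.equi (δ * γ⁻¹) a.1 a.2 ha.2.1).2] at h3
    obtain ⟨h4, h5⟩ := Prod.mk.inj h3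
    rw [h4] at h5
    have h6 := H.bd.inj _ _ _ hb.2.1
      (L.qd.inj _ _ _ hb.2.1 (hpos _ _ hb.2.1) (hpos _ _ hb.2.1) h5)
    exact (mul_inv_eq_one.1 (hD' _ _ ha.1 (h6 ▸ hb.1))).symm
  · rintro _ ⟨⟨x, k⟩, ⟨-, hk, hb⟩, rfl⟩
    have h1 : ⟪qq k (m x k), k⟫ = β x k := by
      have := L.qd.tou k (m x k) hk (hpos x k hk)
      rw [H.bd.tou x k hk] at this
      linarith
    obtain ⟨y, hy⟩ := L.qon k (qq k (m x k)) hk (by rw [h1]; exact H.bd.pos x k hk)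
    obtain ⟨x', rfl⟩ := hs y
    obtain ⟨γ, hγ⟩ := hD x'
    refine ⟨γ⁻¹, _, ⟨(γ • x', ca (A γ) k), ⟨hγ, L.ane _ (R.lor γ) _ hk, ?_⟩, rfl⟩, ?_⟩
    · change -B (up (F (γ • x'))) (cn (ca (A γ) k)) ≤ 1
      rw [hF.equi, ← L.acn _ (R.lor γ), (R.lor γ).pres, ← L.qin k _ hk, hy, h1]
      exact hb
    · change (k, qq k (m x k)) = TA (A γ⁻¹) (ca (A γ) k, qL (ca (A γ) k) (up (F (γ • x'))))
      rw [hF.equi, ← L.ta _ (R.lor γ) k _ hk, cov_mul L R _ _ _ hk, inv_mul_cancel, cov_one R, hy]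

end Pool.Agent.MP_3ee8cb_gt.CR
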