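import Pool.Agent.MP_3ee8cb_gt.CR.SpecA

/-! Basic properties of the Riemannian distance. -/

namespace Pool.Agent.MP_3ee8cb_gt.CR

open Set MeasureTheory

variable {n : ℕ} {g : Met n}

theorem db_nn (hg : Riem g) (x v : E n) : 0 ≤ g x v v := by
  by_cases h : v = 0
  · simp [h]
  · exact (hg.pos x v h).le

theorem db_seg_nonneg (x y : E n) : 0 ≤ seg g x y :=
  intervalIntegral.integral_nonneg zero_le_one fun _ _ => Real.sqrt_nonneg _

theorem db_seg_self (x : E n) : seg g x x = 0 := by simp [seg]

theorem db_seg_symm (x y : E n) : seg g x y = seg g y x := by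
  have h := intervalIntegral.integral_comp_sub_left (a := 0) (b := 1)
    (fun t : ℝ => √(g (y + t • (x - y)) (x - y) (x - y))) 1
  simp only [sub_self, sub_zero] at h
  unfold seg
  rw [← h]
  refine intervalIntegral.integral_congr fun t _ => ?_
  have e1 : y + (1 - t) • (x - y) = x + t • (y - x) := by module
  have e2 : x - y = -(y - x) := (neg_sub y x).symm
  simp only [e1]
  rw [e2]
  simp only [map_neg, neg_apply, neg_neg]

theorem db_seg_cont (hg : Riem g) : Continuous fun a : E n × E n => seg g a.1 a.2 := by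
  have hc := hg.smooth.continuous
  unfold seg
  refine intervalIntegral.continuous_parametric_intervalIntegral_of_continuous'
    (f := fun (a : E n × E n) (t : ℝ) =>
      √(g (a.1 + t • (a.2 - a.1)) (a.2 - a.1) (a.2 - a.1))) ?_ 0 1
  refine Real.continuous_sqrt.comp ?_
  refine Continuous.clm_apply (Continuous.clm_apply (hc.comp ?_) ?_) ?_ <;> fun_prop

theorem db_bdd (x y : E n) :
    BddAbove {r | ∃ u : E n → ℝ, (∀ a b, u b - u a ≤ seg g a b) ∧ r = u y - u x} := by
  refine ⟨seg g x y, ?_⟩
  rintro r ⟨u, hu, rfl⟩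
  exact hu x y

theorem db_test (u : E n → ℝ) (hu : ∀ a b, u b - u a ≤ seg g a b) (x y : E n) :
    u y - u x ≤ dd g x y :=
  le_csSup (db_bdd x y) ⟨u, hu, rfl⟩

theorem db_le (x y : E n) (c : ℝ)
    (h : ∀ u : E n → ℝ, (∀ a b, u b - u a ≤ seg g a b) → u y - u x ≤ c) : dd g x y ≤ c := by
  refine csSup_le ⟨0, fun _ => 0, fun a b => ?_, by simp⟩ ?_
  · simpa using db_seg_nonneg a b
  · rintro r ⟨u, hu, rfl⟩
    exact h u hu

theorem db_nonneg (x y : E n) : 0 ≤ dd g x y := by
  simpa using db_test (g := g) (fun _ => 0) (fun a b => by simpa using db_seg_nonneg a b) x y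

theorem db_le_seg (x y : E n) : dd g x y ≤ seg g x y := db_le x y _ fun _ hu => hu x y

theorem db_symm_le (x y : E n) : dd g x y ≤ dd g y x := by
  refine db_le x y _ fun u hu => ?_
  have h := db_test (g := g) (fun a => -u a) (fun a b => by
    have := hu b a
    rw [db_seg_symm] at this
    linarith) y x
  linarith

theorem db_symm (x y : E n) : dd g x y = dd g y x := le_antisymm (db_symm_le x y) (db_symm_le y x)

theorem db_tri (x y z : E n) : dd g x z ≤ dd g x y + dd g y z := by
  refine db_le x z _ fun u hu => ?_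
  have h1 := db_test u hu x y
  have h2 := db_test u hu y z
  linarith

theorem db_cont (hg : Riem g) : Continuous fun a : E n × E n => dd g a.1 a.2 := by
  rw [continuous_iff_continuousAt]
  intro b
  have hs := db_seg_cont hg
  have h1 : Continuous fun a : E n × E n => seg g b.1 a.1 :=
    hs.comp (f := fun a : E n × E n => (b.1, a.1)) (by fun_prop)
  have h2 : Continuous fun a : E n × E n => seg g b.2 a.2 :=
    hs.comp (f := fun a : E n × E n => (b.2, a.2)) (by fun_prop)
  have h3 : Filter.Tendsto (fun a : E n × E n => seg g b.1 a.1 + seg g b.2 a.2) (nhds b)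
      (nhds 0) := by
    have := (h1.tendsto b).add (h2.tendsto b)
    simpa [db_seg_self] using this
  rw [ContinuousAt, tendsto_iff_dist_tendsto_zero]
  refine squeeze_zero (fun _ => dist_nonneg) (fun a => ?_) h3
  rw [Real.dist_eq, abs_le]
  have t1 := db_tri (g := g) b.1 a.1 b.2
  have t2 := db_tri (g := g) a.1 a.2 b.2
  have t3 := db_tri (g := g) a.1 b.1 a.2
  have t4 := db_tri (g := g) b.1 b.2 a.2
  have s1 := db_le_seg (g := g) b.1 a.1
  have s2 := db_le_seg (g := g) b.2 a.2
  have y1 := db_symm (g := g) b.1 a.1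
  have y2 := db_symm (g := g) b.2 a.2
  constructor <;> linarith

theorem db_piece (a v : E n) (c d : ℝ) (hc : 0 ≤ c) :
    seg g (a + d • v) (a + (c + d) • v) = ∫ t in d..(c + d), √(g (a + t • v) v v) := by
  have h := intervalIntegral.smul_integral_comp_mul_add (a := 0) (b := 1)
    (fun t : ℝ => √(g (a + t • v) v v)) c d
  simp only [mul_zero, zero_add, mul_one, smul_eq_mul] at h
  rw [← h, ← intervalIntegral.integral_const_mul]
  unfold seg
  refine intervalIntegral.integral_congr fun t _ => ?_
  have e1 : a + (c + d) • v - (a + d • v) = c • v := by module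
  have e2 : a + d • v + t • c • v = a + (c * t + d) • v := by module
  simp only [e1, e2, map_smul, smul_apply, smul_eq_mul]
  rw [← mul_assoc, Real.sqrt_mul (mul_self_nonneg c), Real.sqrt_mul_self hc]

theorem db_add (hg : Riem g) (a b : E n) (s : ℝ) (h0 : 0 ≤ s) (h1 : s ≤ 1) :
    seg g a (a + s • (b - a)) + seg g (a + s • (b - a)) b = seg g a b := by
  have hc := hg.smooth.continuous
  have hf : Continuous fun t : ℝ => √(g (a + t • (b - a)) (b - a) (b - a)) := by
    refine Real.continuous_sqrt.comp ?_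
    refine Continuous.clm_apply (Continuous.clm_apply (hc.comp ?_) ?_) ?_ <;> fun_prop
  have p1 := db_piece (g := g) a (b - a) s 0 h0
  have p2 := db_piece (g := g) a (b - a) (1 - s) s (by linarith)
  simp only [zero_smul, add_zero] at p1
  simp only [sub_add_cancel, one_smul, add_sub_cancel] at p2
  rw [p1, p2, intervalIntegral.integral_add_adjacent_intervals (hf.intervalIntegrable _ _)
    (hf.intervalIntegrable _ _)]
  rfl

theorem db_coer (hg : Riem g) (x : E n) : ∃ c : ℝ, 0 < c ∧ ∀ v, c * ‖v‖ ^ 2 ≤ g x v v := by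
  have hf : Continuous fun v : E n => g x v v := by fun_prop
  obtain ⟨c, hc, h⟩ := (isCompact_sphere (0 : E n) 1).exists_forall_le' hf.continuousOn
    (a := 0) fun v hv => hg.pos x v (by
      rintro rfl
      simp at hv)
  refine ⟨c, hc, fun v => ?_⟩
  by_cases hv : v = 0
  · simp [hv]
  · have hn : 0 < ‖v‖ := norm_pos_iff.2 hv
    have h1 := h (‖v‖⁻¹ • v) (by
      rw [mem_sphere_zero_iff_norm, norm_smul, norm_inv, norm_norm, inv_mul_cancel₀ hn.ne'])
    simp only [map_smul, smul_apply, smul_eq_mul] at h1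
    have h2 : ‖v‖⁻¹ * (‖v‖⁻¹ * g x v v) * ‖v‖ ^ 2 = g x v v := by field_simp
    rw [← h2]
    exact mul_le_mul_of_nonneg_right h1 (by positivity)

theorem db_upp (hg : Riem g) (x : E n) (ε : ℝ) (hε : 0 < ε) :
    ∃ r, 0 < r ∧ ∀ y z, ‖y - x‖ ≤ r → ‖z - x‖ ≤ r →
      seg g y z ≤ (1 + ε) * √(g x (z - y) (z - y)) := by
  have hc := hg.smooth.continuous
  obtain ⟨c, hc0, hco⟩ := db_coer hg x
  obtain ⟨δ, hδ, hd⟩ := Metric.continuous_iff.1 hc x (ε * c) (mul_pos hε hc0)
  refine ⟨δ / 2, half_pos hδ, fun y z hy hz => ?_⟩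
  have hf : Continuous fun t : ℝ => √(g (y + t • (z - y)) (z - y) (z - y)) := by
    refine Real.continuous_sqrt.comp ?_
    refine Continuous.clm_apply (Continuous.clm_apply (hc.comp ?_) ?_) ?_ <;> fun_prop
  have key : ∀ t ∈ Icc (0 : ℝ) 1, √(g (y + t • (z - y)) (z - y) (z - y)) ≤
      (1 + ε) * √(g x (z - y) (z - y)) := by
    intro t ht
    have hw : dist (y + t • (z - y)) x < δ := by
      have e : y + t • (z - y) - x = (1 - t) • (y - x) + t • (z - x) := by module
      rw [dist_eq_norm, e]
      have h1 := norm_add_le ((1 - t) • (y - x)) (t • (z - x))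
      rw [norm_smul, norm_smul, Real.norm_of_nonneg ht.1,
        Real.norm_of_nonneg (sub_nonneg.2 ht.2)] at h1
      have h2 := mul_le_mul_of_nonneg_left hy (sub_nonneg.2 ht.2)
      have h3 := mul_le_mul_of_nonneg_left hz ht.1
      linarith
    have h1 := hd _ hw
    rw [dist_eq_norm] at h1
    have h2 := (g (y + t • (z - y)) - g x).le_opNorm₂ (z - y) (z - y)
    have h3 := le_trans (le_abs_self _) h2
    simp only [sub_apply] at h3
    have h4 := hco (z - y)
    have h5 := db_nn hg x (z - y)
    have h6 : ‖g (y + t • (z - y)) - g x‖ * ‖z - y‖ * ‖z - y‖ ≤ ε * (c * ‖z - y‖ ^ 2) := by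
      have := mul_le_mul_of_nonneg_right h1.le (sq_nonneg ‖z - y‖)
      nlinarith
    have h7 := mul_le_mul_of_nonneg_left h4 hε.le
    have h8 : g (y + t • (z - y)) (z - y) (z - y) ≤ (1 + ε) ^ 2 * g x (z - y) (z - y) := by
      have := mul_nonneg hε.le h5
      have := mul_nonneg hε.le this
      nlinarith
    calc √(g (y + t • (z - y)) (z - y) (z - y)) ≤ √((1 + ε) ^ 2 * g x (z - y) (z - y)) :=
          Real.sqrt_le_sqrt h8
      _ = (1 + ε) * √(g x (z - y) (z - y)) := by
          rw [Real.sqrt_mul (sq_nonneg _), Real.sqrt_sq (by linarith)]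
  have h := intervalIntegral.integral_mono_on zero_le_one (hf.intervalIntegrable (μ := volume) 0 1)
    (continuous_const.intervalIntegrable 0 1) key
  simpa [seg] using h

theorem db : SDB := fun _ _ hg =>
  { refl := fun x => le_antisymm ((db_le_seg x x).trans (db_seg_self x).le) (db_nonneg x x)
    nonneg := db_nonneg
    symm := db_symm
    tri := db_tri
    le_seg := db_le_seg
    test := db_test
    cont := db_cont hg
    add := db_add hg
    upp := db_upp hg }

end Pool.Agent.MP_3ee8cb_gt.CR
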