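import Pool.Agent.MP_3ee8cb_gt.CR.RDBRa

/-! du Bois-Reymond: a length minimising unit speed curve is a geodesic. -/

namespace Pool.Agent.MP_3ee8cb_gt.CR

open Set MeasureTheory Filter Topology

variable {n : ℕ}

lemma dbr_H {g : Met n} (hg : Riem g) :
    ContDiff ℝ 1 fun z : E n × E n => g z.1 z.2 z.2 := by
  have h1 : ContDiff ℝ 1 g := hg.smooth.of_le (by norm_num)
  exact ((h1.comp contDiff_fst).clm_apply contDiff_snd).clm_apply contDiff_snd

lemma dbr_DH {g : Met n} (hg : Riem g) (x a y b : E n) :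
    fderiv ℝ (fun z : E n × E n => g z.1 z.2 z.2) (x, a) (y, b) =
      fderiv ℝ g x y a a + 2 * g x a b := by
  have h1 : HasDerivAt (fun e : ℝ => ((x, a) : E n × E n) + e • (y, b)) (y, b) 0 := by
    simpa using ((hasDerivAt_id (0 : ℝ)).smul_const ((y, b) : E n × E n)).const_add (x, a)
  have h2 := ((dbr_H hg).differentiable (by norm_num) (((x, a) : E n × E n) +
    (0 : ℝ) • (y, b))).hasFDerivAt.comp_hasDerivAt (0 : ℝ) h1
  have h3 : HasDerivAt (fun e : ℝ => x + e • y) y 0 := by
    simpa using ((hasDerivAt_id (0 : ℝ)).smul_const y).const_add x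
  have h4 : HasDerivAt (fun e : ℝ => a + e • b) b 0 := by
    simpa using ((hasDerivAt_id (0 : ℝ)).smul_const b).const_add a
  have h5 := (hg.smooth.differentiable (by norm_num) (x + (0 : ℝ) • y)).hasFDerivAt.comp_hasDerivAt
    (0 : ℝ) h3
  have h6 := (h5.clm_apply h4).clm_apply h4
  have h7 := h2.unique h6
  simp only [zero_smul, add_zero, Function.comp_apply, ContinuousLinearMap.add_apply] at h7
  rw [h7, hg.symm x b a]
  ring

lemma dbr_first {g : Met n} (hg : Riem g) (hlen : LenP g) {τ : ℝ → E n} {L : ℝ} {K : NNReal}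
    (hL : 0 < L) (hτ : LipschitzWith K τ) (hd : dd g (τ 0) (τ L) = L)
    (hu : ∀ᵐ t, t ∈ Icc 0 L → g (τ t) (deriv τ t) (deriv τ t) = 1) (w : E n)
    (ψ : ℝ → ℝ) (S : ℝ) (hψ : AEStronglyMeasurable ψ volume) (hψb : ∀ t ∈ Icc 0 L, |ψ t| ≤ S)
    (hψ0 : ∫ t in (0 : ℝ)..L, ψ t = 0) :
    ∫ t in (0 : ℝ)..L, ((∫ s in (0 : ℝ)..t, ψ s) *
      (fderiv ℝ g (τ t) w (deriv τ t) (deriv τ t) / 2) + ψ t * g (τ t) (deriv τ t) w) = 0 := by
  have huI : uIcc 0 L = Icc 0 L := uIcc_of_le hL.le
  have hsub : uIoc 0 L ⊆ Icc 0 L := huI ▸ uIoc_subset_uIcc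
  have hS : 0 ≤ S := (abs_nonneg _).trans (hψb 0 ⟨le_rfl, hL.le⟩)
  have hψI : IntervalIntegrable ψ volume 0 L := by
    rw [intervalIntegrable_iff_integrableOn_Icc_of_le hL.le]
    refine Measure.integrableOn_of_bounded (M := S) (by simp) hψ ?_
    filter_upwards [ae_restrict_mem measurableSet_Icc] with t ht
    exact hψb t ht
  set φ : ℝ → ℝ := fun t => ∫ s in (0 : ℝ)..t, ψ s with hφ
  have hφL : LipschitzOnWith S.toNNReal φ (Icc 0 L) := by
    apply LipschitzOnWith.of_dist_le_mul
    intro s hs t ht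
    have h1 : φ s - φ t = ∫ x in t..s, ψ x := by
      simp only [hφ]
      apply intervalIntegral.integral_interval_sub_left
      · exact hψI.mono_set (by rw [huI]; exact uIcc_subset_Icc ⟨le_rfl, hL.le⟩ hs)
      · exact hψI.mono_set (by rw [huI]; exact uIcc_subset_Icc ⟨le_rfl, hL.le⟩ ht)
    rw [Real.dist_eq, Real.dist_eq, h1, Real.coe_toNNReal _ hS]
    exact intervalIntegral.norm_integral_le_of_norm_le_const (f := ψ) (C := S) fun x hx =>
      hψb x (uIcc_subset_Icc ht hs (uIoc_subset_uIcc hx))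
  have hφc : ContinuousOn φ (Icc 0 L) := hφL.continuousOn
  obtain ⟨R1, hR1⟩ := isCompact_Icc.exists_bound_of_continuousOn
    (hτ.continuous.continuousOn (s := Icc 0 L))
  obtain ⟨R2, hR2⟩ := isCompact_Icc.exists_bound_of_continuousOn hφc
  have hR1' : 0 ≤ R1 := (norm_nonneg _).trans (hR1 0 ⟨le_rfl, hL.le⟩)
  have hR2' : 0 ≤ R2 := (norm_nonneg _).trans (hR2 0 ⟨le_rfl, hL.le⟩)
  have hw := norm_nonneg w
  have hK0 : (0 : ℝ) ≤ K := K.2
  have hvm : AEStronglyMeasurable (deriv τ) volume :=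
    (stronglyMeasurable_deriv τ).aestronglyMeasurable
  have hφm : AEStronglyMeasurable φ (volume.restrict (uIoc 0 L)) :=
    (hφc.mono hsub).aestronglyMeasurable measurableSet_uIoc
  obtain ⟨hint, hder⟩ := dbr_var (dbr_H hg) (P := fun t => (τ t, deriv τ t))
    (Q := fun t => (φ t • w, ψ t • w)) (L := L) (R := R1 + K + R2 * ‖w‖ + S * ‖w‖)
    ((hτ.continuous.aestronglyMeasurable.prodMk hvm).restrict)
    ((hφm.smul_const w).prodMk (hψ.restrict.smul_const w))
    (fun t ht => by
      have h1 := hR1 t (hsub ht)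
      have h2 : ‖deriv τ t‖ ≤ K := norm_deriv_le_of_lipschitz hτ
      rw [Prod.norm_def]
      apply max_le <;> simp only <;> nlinarith [mul_nonneg hR2' hw, mul_nonneg hS hw])
    (fun t ht => by
      have h1 := mul_le_mul_of_nonneg_right (hR2 t (hsub ht)) hw
      have h2 := mul_le_mul_of_nonneg_right (hψb t (hsub ht)) hw
      rw [Prod.norm_def]
      apply max_le <;> simp only [norm_smul, Real.norm_eq_abs] at h1 ⊢ <;>
        nlinarith [mul_nonneg hR2' hw, mul_nonneg hS hw])
  simp only [dbr_DH hg] at hder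
  set G : ℝ → ℝ := fun e => ∫ t in (0 : ℝ)..L, g (τ t + (e * φ t) • w)
    (deriv τ t + (e * ψ t) • w) (deriv τ t + (e * ψ t) • w) with hG
  simp only [Prod.smul_mk, Prod.mk_add_mk, smul_smul] at hint hder
  have hG0 : G 0 = L := by
    have h1 : G 0 = ∫ t in (0 : ℝ)..L, (1 : ℝ) := by
      simp only [hG, zero_mul, zero_smul, add_zero]
      apply intervalIntegral.integral_congr_ae
      filter_upwards [hu] with t h1 ht
      exact h1 (hsub ht)
    rw [h1]
    simp
  have hGe : ∀ e : ℝ, |e| ≤ 1 → L ≤ G e := by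
    intro e he
    have hc : ∃ K', LipschitzOnWith K' (fun t => τ t + (e * φ t) • w) (Icc 0 L) := by
      have h2 : LipschitzWith (‖e‖₊ * ‖w‖₊) fun x : ℝ => (e * x) • w := by
        apply LipschitzWith.of_dist_le_mul
        intro x y
        rw [dist_eq_norm, ← sub_smul, ← mul_sub, norm_smul, norm_mul, Real.dist_eq]
        simp only [NNReal.coe_mul, coe_nnnorm, Real.norm_eq_abs]
        apply le_of_eq
        ring
      exact ⟨_, (hτ.lipschitzOnWith (s := Icc 0 L)).add (h2.comp_lipschitzOnWith hφL)⟩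
    obtain ⟨K', hK'⟩ := hc
    have h1 := hlen.1 _ 0 L K' hL.le hK'
    have h2 : φ 0 = 0 := by simp [hφ]
    have h3 : φ L = 0 := hψ0
    simp only [h2, h3, mul_zero, zero_smul, add_zero, hd] at h1
    have h4 : ∫ t in (0 : ℝ)..L, √(g (τ t + (e * φ t) • w)
        (deriv (fun t => τ t + (e * φ t) • w) t) (deriv (fun t => τ t + (e * φ t) • w) t)) =
        ∫ t in (0 : ℝ)..L, √(g (τ t + (e * φ t) • w)
          (deriv τ t + (e * ψ t) • w) (deriv τ t + (e * ψ t) • w)) := by
      apply intervalIntegral.integral_congr_ae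
      filter_upwards [hτ.ae_differentiableAt_real, hψI.ae_hasDerivAt_integral] with t h5 h6 ht
      have h7 : HasDerivAt φ (ψ t) t := h6 (uIoc_subset_uIcc ht) 0 left_mem_uIcc
      rw [(h5.hasDerivAt.fun_add ((h7.const_mul e).smul_const w)).deriv]
    rw [h4] at h1
    by_cases hI : IntervalIntegrable (fun t => √(g (τ t + (e * φ t) • w)
          (deriv τ t + (e * ψ t) • w) (deriv τ t + (e * ψ t) • w))) volume 0 L
    · have h5 := intervalIntegral.integral_mono_on hL.le hI
        (((intervalIntegrable_const (c := (1 : ℝ))).add (hint e he)).div_const 2) (fun t _ => by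
          set A := g (τ t + (e * φ t) • w)
            (deriv τ t + (e * ψ t) • w) (deriv τ t + (e * ψ t) • w) with hA
          have hA0 : 0 ≤ A := by
            by_cases h : deriv τ t + (e * ψ t) • w = 0
            · simp [hA, h]
            · exact (hg.pos _ _ h).le
          nlinarith [Real.sq_sqrt hA0, sq_nonneg (√A - 1)])
      rw [intervalIntegral.integral_div,
        intervalIntegral.integral_add intervalIntegrable_const (hint e he)] at h5
      simp only [intervalIntegral.integral_const, sub_zero, smul_eq_mul, mul_one] at h5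
      simp only [hG]
      linarith
    · rw [intervalIntegral.integral_undef hI] at h1
      linarith
  have hmin : IsLocalMin G 0 := by
    filter_upwards [Icc_mem_nhds (show (-1 : ℝ) < 0 by norm_num) (show (0 : ℝ) < 1 by norm_num)]
      with e he
    rw [hG0]
    exact hGe e (abs_le.2 he)
  have h8 := hmin.hasDerivAt_eq_zero hder
  have h9 : ∀ t, φ t * (fderiv ℝ g (τ t) w (deriv τ t) (deriv τ t) / 2) +
      ψ t * g (τ t) (deriv τ t) w = (fderiv ℝ g (τ t) (φ t • w) (deriv τ t) (deriv τ t) +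
        2 * g (τ t) (deriv τ t) (ψ t • w)) / 2 := by
    intro t
    simp only [map_smul, ContinuousLinearMap.smul_apply, smul_eq_mul]
    ring
  have h10 : ∫ t in (0 : ℝ)..L, (φ t * (fderiv ℝ g (τ t) w (deriv τ t) (deriv τ t) / 2) +
      ψ t * g (τ t) (deriv τ t) w) = 0 := by
    simp_rw [h9]
    rw [intervalIntegral.integral_div, h8, zero_div]
  exact h10

lemma dbr_inv {g : Met n} (hg : Riem g) (x : E n) : (g x).IsInvertible := by
  have hinj : Function.Injective (g x) := by
    rw [injective_iff_map_eq_zero]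
    intro v hv
    by_contra h
    have h1 := hg.pos x v h
    rw [hv] at h1
    simp at h1
  have hdim : Module.finrank ℝ (E n) = Module.finrank ℝ (E n →L[ℝ] ℝ) :=
    (InnerProductSpace.toDual ℝ (E n)).toLinearEquiv.finrank_eq
  have hsurj : Function.Surjective (g x) :=
    (LinearMap.injective_iff_surjective_of_finrank_eq_finrank hdim
      (f := ((g x : E n →L[ℝ] E n →L[ℝ] ℝ) : E n →ₗ[ℝ] E n →L[ℝ] ℝ))).1 hinj
  exact ⟨ContinuousLinearEquiv.ofBijective (g x) (LinearMap.ker_eq_bot.2 hinj)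
    (LinearMap.range_eq_top.2 hsurj), rfl⟩

lemma dbr_main {g : Met n} (hg : Riem g) (hlen : LenP g) {τ : ℝ → E n} {L : ℝ} {K : NNReal}
    (hL : 0 < L) (hτ : LipschitzWith K τ) (hd : dd g (τ 0) (τ L) = L)
    (hu : ∀ᵐ t, t ∈ Icc 0 L → g (τ t) (deriv τ t) (deriv τ t) = 1) :
    ∃ σ', GeoOn g τ σ' 0 L := by
  have huI : uIcc 0 L = Icc 0 L := uIcc_of_le hL.le
  have hτc := hτ.continuous
  have hgc : Continuous g := hg.smooth.continuous
  have hDc : ∀ w : E n, Continuous fun z : E n × E n => fderiv ℝ g z.1 w z.2 z.2 / 2 := by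
    intro w
    have h1 : Continuous fun z : E n × E n => fderiv ℝ g z.1 w :=
      (hg.smooth.continuous_fderiv_apply (by norm_num)).comp
        (continuous_fst.prodMk (continuous_const (y := w)))
    exact ((h1.clm_apply continuous_snd).clm_apply continuous_snd).div_const 2
  have hGc : ∀ w : E n, Continuous fun z : E n × E n => g z.1 z.2 w := fun w =>
    ((hgc.comp continuous_fst).clm_apply continuous_snd).clm_apply continuous_const
  have hvm : AEStronglyMeasurable (deriv τ) volume :=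
    (stronglyMeasurable_deriv τ).aestronglyMeasurable
  have hPm : AEStronglyMeasurable (fun t => (τ t, deriv τ t)) volume :=
    hτc.aestronglyMeasurable.prodMk hvm
  obtain ⟨R1, hR1⟩ := isCompact_Icc.exists_bound_of_continuousOn
    (hτc.continuousOn (s := Icc 0 L))
  have hPb : ∀ t ∈ Icc 0 L, (τ t, deriv τ t) ∈ Metric.closedBall (0 : E n × E n) (max R1 K) := by
    intro t ht
    rw [mem_closedBall_zero_iff, Prod.norm_def]
    exact max_le_max (hR1 t ht) (norm_deriv_le_of_lipschitz hτ)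
  have hbd : ∀ F : E n × E n → ℝ, Continuous F →
      AEStronglyMeasurable (fun t => F (τ t, deriv τ t)) volume ∧
        ∃ R, ∀ t ∈ Icc 0 L, |F (τ t, deriv τ t)| ≤ R := by
    intro F hF
    obtain ⟨R, hR⟩ := (isCompact_closedBall (0 : E n × E n) (max R1 K)).exists_bound_of_continuousOn
      hF.continuousOn
    exact ⟨hF.comp_aestronglyMeasurable hPm, R, fun t ht => hR _ (hPb t ht)⟩
  have hw : ∀ w : E n, IntervalIntegrable
      (fun s => fderiv ℝ g (τ s) w (deriv τ s) (deriv τ s) / 2) volume 0 L ∧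
      ∃ c : ℝ, ∀ᵐ t, t ∈ Icc 0 L → g (τ t) (deriv τ t) w =
      c + ∫ s in (0 : ℝ)..t, fderiv ℝ g (τ s) w (deriv τ s) (deriv τ s) / 2 := by
    intro w
    obtain ⟨h1, Ra, h2⟩ := hbd _ (hGc w)
    obtain ⟨h3, Rb, h4⟩ := hbd _ (hDc w)
    constructor
    · rw [intervalIntegrable_iff_integrableOn_Icc_of_le hL.le]
      refine Measure.integrableOn_of_bounded (M := Rb) (by simp) h3 ?_
      filter_upwards [ae_restrict_mem measurableSet_Icc] with t ht
      exact h4 t ht
    · exact dbr_lemma (R := max Ra Rb) hL h1 h3 (fun t ht => (h2 t ht).trans (le_max_left _ _))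
        (fun t ht => (h4 t ht).trans (le_max_right _ _))
        fun ψ S hψ hψb hψ0 => dbr_first hg hlen hL hτ hd hu w ψ S hψ hψb hψ0
  set b := EuclideanSpace.basisFun (Fin n) ℝ with hb
  choose c hc using fun i => (hw (b i)).2
  set p : Fin n → ℝ → ℝ := fun i t => c i + ∫ s in (0 : ℝ)..(max 0 (min t L)),
    fderiv ℝ g (τ s) (b i) (deriv τ s) (deriv τ s) / 2 with hp
  have hpe : ∀ i, ∀ t ∈ Icc 0 L, p i t = c i + ∫ s in (0 : ℝ)..t,
      fderiv ℝ g (τ s) (b i) (deriv τ s) (deriv τ s) / 2 := by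
    intro i t ht
    simp only [hp, min_eq_left ht.2, max_eq_right ht.1]
  have hpc : ∀ i, Continuous (p i) := by
    intro i
    have hp0 : ContinuousOn (fun t => ∫ s in (0 : ℝ)..t,
        fderiv ℝ g (τ s) (b i) (deriv τ s) (deriv τ s) / 2) (Icc 0 L) := by
      rw [← huI]
      exact intervalIntegral.continuousOn_primitive_interval' (hw (b i)).1 left_mem_uIcc
    refine continuous_const.add (hp0.comp_continuous (f := fun t : ℝ => max 0 (min t L))
      (by fun_prop) fun t => ?_)
    exact ⟨le_max_left _ _, max_le hL.le (min_le_right _ _)⟩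
  set l : ℝ → E n →L[ℝ] ℝ := fun t => ∑ i, p i t • innerSL ℝ (b i) with hl
  have hlc : Continuous l := continuous_finset_sum _ fun i _ => (hpc i).smul continuous_const
  have hlb : ∀ t i, l t (b i) = p i t := by
    intro t i
    simp only [hl, ContinuousLinearMap.sum_apply, ContinuousLinearMap.smul_apply, innerSL_apply_apply,
      b.inner_eq_ite, smul_eq_mul]
    simp
  set u : ℝ → E n := fun t => (g (τ t)).inverse (l t) with hudef
  have huc : Continuous u := by
    have h1 : Continuous fun t => (g (τ t)).inverse := by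
      rw [continuous_iff_continuousAt]
      intro t
      exact ContinuousAt.comp (f := fun t => g (τ t))
        ((dbr_inv hg (τ t)).contDiffAt_map_inverse (n := 0)).continuousAt
        (hgc.comp hτc).continuousAt
    exact h1.clm_apply hlc
  have hul : ∀ t, g (τ t) (u t) = l t := fun t => (dbr_inv hg (τ t)).self_apply_inverse _
  have hvu : ∀ᵐ t, t ∈ Icc 0 L → deriv τ t = u t := by
    filter_upwards [ae_all_iff.2 hc] with t h1 ht
    have h2 : g (τ t) (deriv τ t) = l t := by
      apply ContinuousLinearMap.coe_injective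
      apply b.toBasis.ext
      intro i
      simp only [OrthonormalBasis.coe_toBasis, ContinuousLinearMap.coe_coe]
      rw [hlb, hpe i t ht]
      exact h1 i ht
    simp only [hudef]
    rw [← h2, (dbr_inv hg (τ t)).inverse_apply_self]
  have hU : ∀ t, HasDerivAt (fun x => ∫ s in (0 : ℝ)..x, u s) (u t) t := fun t =>
    (huc.integral_hasStrictDerivAt 0 t).hasDerivAt
  have hUC : ContDiff ℝ 1 fun x => ∫ s in (0 : ℝ)..x, u s := by
    rw [contDiff_one_iff_deriv]
    refine ⟨fun t => (hU t).differentiableAt, ?_⟩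
    have : deriv (fun x => ∫ s in (0 : ℝ)..x, u s) = u := funext fun t => (hU t).deriv
    rwa [this]
  have hAC : AbsolutelyContinuousOnInterval (fun x => τ x - ∫ s in (0 : ℝ)..x, u s) 0 L :=
    (hτ.lipschitzOnWith.absolutelyContinuousOnInterval).sub
      hUC.contDiffOn.absolutelyContinuousOnInterval
  obtain ⟨C, hC⟩ := hAC.const_of_ae_hasDerivAt_zero (by
    filter_upwards [hτ.ae_differentiableAt_real, hvu] with t h1 h2 ht
    have h3 := h1.hasDerivAt.fun_sub (hU t)
    rwa [h2 (huI ▸ ht), sub_self] at h3)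
  have hτd : ∀ t ∈ Icc 0 L, HasDerivWithinAt τ (u t) (Icc 0 L) t := by
    intro t ht
    refine ((hU t).const_add C).hasDerivWithinAt.congr_of_mem (fun x hx => ?_) ht
    rw [← hC x (huI ▸ hx)]
    simp
  refine ⟨u, fun t ht => ⟨hτd t ht, fun w => ?_⟩⟩
  obtain ⟨cw, hcw⟩ := (hw w).2
  have hqc : Continuous fun s => fderiv ℝ g (τ s) w (u s) (u s) / 2 :=
    (hDc w).comp (hτc.prodMk huc)
  have hQ : ∀ t, HasDerivAt (fun x => cw + ∫ s in (0 : ℝ)..x, fderiv ℝ g (τ s) w (u s) (u s) / 2)
      (fderiv ℝ g (τ t) w (u t) (u t) / 2) t := fun t =>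
    (hqc.integral_hasStrictDerivAt 0 t).hasDerivAt.const_add cw
  refine (hQ t).hasDerivWithinAt.congr_of_mem ?_ ht
  have h1 : ContinuousOn (fun s => g (τ s) (u s) w) (Icc 0 L) :=
    ((hGc w).comp (hτc.prodMk huc)).continuousOn
  have h2 : ContinuousOn (fun x => cw + ∫ s in (0 : ℝ)..x, fderiv ℝ g (τ s) w (u s) (u s) / 2)
      (Icc 0 L) := fun x _ => (hQ x).continuousAt.continuousWithinAt
  refine Measure.eqOn_Icc_of_ae_eq volume hL.ne ?_ h1 h2
  refine (ae_restrict_iff' measurableSet_Icc).2 ?_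
  filter_upwards [hcw, hvu] with x h3 h4 hx
  rw [← h4 hx, h3 hx]
  congr 1
  apply intervalIntegral.integral_congr_ae
  filter_upwards [hvu] with s h5 hs
  rw [h5 (uIcc_subset_Icc ⟨le_rfl, hL.le⟩ hx (uIoc_subset_uIcc hs))]

theorem dbr : SDBR := by
  intro n g hg hdb hlow hlen σ L hL hσ
  obtain ⟨K, hK⟩ := dbr_lip hg hlow hσ
  have hm : ∀ t : ℝ, max 0 (min t L) ∈ Icc 0 L := fun t =>
    ⟨le_max_left _ _, max_le hL.le (min_le_right _ _)⟩
  have hπ : LipschitzWith 1 fun t : ℝ => max 0 (min t L) :=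
    (LipschitzWith.id.min_const L).const_max 0
  set τ : ℝ → E n := fun t => σ (max 0 (min t L)) with hτdef
  have hτ : LipschitzWith (K * 1) τ := by
    rw [← lipschitzOnWith_univ]
    exact hK.comp hπ.lipschitzOnWith fun t _ => hm t
  have he : ∀ t ∈ Icc 0 L, τ t = σ t := by
    intro t ht
    simp only [hτdef, min_eq_left ht.2, max_eq_right ht.1]
  have h0 : (0 : ℝ) ∈ Icc 0 L := ⟨le_rfl, hL.le⟩
  have hL' : L ∈ Icc 0 L := ⟨hL.le, le_rfl⟩
  obtain ⟨u, hu⟩ := dbr_main hg hlen hL hτ
    (by rw [he 0 h0, he L hL', hσ 0 h0 L hL', zero_sub, abs_neg, abs_of_pos hL]) (by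
      filter_upwards [hτ.ae_differentiableAt_real] with t h1 ht
      rw [he t ht]
      exact dbr_unit hg hdb hlow hL hσ ht
        (h1.hasDerivAt.hasDerivWithinAt.congr_of_mem (fun x hx => (he x hx).symm) ht))
  have hd : ∀ t ∈ Icc 0 L, HasDerivWithinAt σ (u t) (Icc 0 L) t := fun t ht =>
    (hu t ht).1.congr_of_mem (fun x hx => (he x hx).symm) ht
  refine ⟨u, fun t ht => ⟨hd t ht, fun w => ?_⟩, dbr_unit hg hdb hlow hL hσ h0 (hd 0 h0)⟩
  rw [← he t ht]
  exact ((hu t ht).2 w).congr_of_mem (fun x hx => by rw [he x hx]) ht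

end Pool.Agent.MP_3ee8cb_gt.CR
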