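import Pool.Agent.MP_3ee8cb_gt.CR.SpecB

/-! Determinants of the cone action and of its cotangent lift. -/

namespace Pool.Agent.MP_3ee8cb_gt.CR

open Module
open scoped RealInnerProductSpace

variable {n : ℕ}

theorem det_low (f : V n →ₗ[ℝ] V n) (c : ℝ) (N : E n) (M : E n →ₗ[ℝ] E n)
    (h : ∀ a, f a = (c * a.1, a.1 • N + M a.2)) : LinearMap.det f = c * LinearMap.det M := by
  classical
  let b := Module.finBasis ℝ (E n)
  let e := Basis.singleton Unit ℝ
  have he : LinearMap.toMatrix (e.prod b) (e.prod b) f =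
      Matrix.fromBlocks (Matrix.of fun _ _ => c) 0 (Matrix.of fun i _ => b.repr N i)
        (LinearMap.toMatrix b b M) := by
    ext i j
    rcases i with i | i <;> rcases j with j | j <;>
      simp [LinearMap.toMatrix_apply, h, e]
  rw [← LinearMap.det_toMatrix (e.prod b), he, Matrix.det_fromBlocks_zero₁₂,
    LinearMap.det_toMatrix]
  simp

theorem det_upp (f : V n →ₗ[ℝ] V n) (c : ℝ) (φ : E n → ℝ) (M : E n →ₗ[ℝ] E n)
    (h : ∀ a, f a = (c * a.1 + φ a.2, M a.2)) (h0 : φ 0 = 0) :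
    LinearMap.det f = c * LinearMap.det M := by
  classical
  let b := Module.finBasis ℝ (E n)
  let e := Basis.singleton Unit ℝ
  have he : LinearMap.toMatrix (e.prod b) (e.prod b) f =
      Matrix.fromBlocks (Matrix.of fun _ _ => c) (Matrix.of fun _ j => φ (b j)) 0
        (LinearMap.toMatrix b b M) := by
    ext i j
    rcases i with i | i <;> rcases j with j | j <;>
      simp [LinearMap.toMatrix_apply, h, e, h0]
  rw [← LinearMap.det_toMatrix (e.prod b), he, Matrix.det_fromBlocks_zero₂₁,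
    LinearMap.det_toMatrix]
  simp

/-- The first shear. -/
noncomputable def det_T (u : E n) : V n →ₗ[ℝ] V n where
  toFun a := (a.1 + ⟪u, a.2⟫, a.2)
  map_add' a b := by
    ext1
    · simp [inner_add_right]; ring
    · simp
  map_smul' c a := by
    ext1
    · simp [inner_smul_right]; ring
    · simp

/-- The second shear. -/
noncomputable def det_S (u : E n) : V n →ₗ[ℝ] V n where
  toFun a := (a.1, a.1 • u + a.2)
  map_add' a b := by
    ext1
    · simp
    · simp [add_smul]; abel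
  map_smul' c a := by
    ext1
    · simp
    · simp [mul_smul]

theorem det_T_det (u : E n) : LinearMap.det (det_T u) = 1 := by
  rw [det_upp (det_T u) 1 (fun x => ⟪u, x⟫) LinearMap.id (fun a => by simp [det_T]) (by simp)]
  simp

theorem det_S_det (u : E n) : LinearMap.det (det_S u) = 1 := by
  rw [det_low (det_S u) 1 u LinearMap.id (fun a => by simp [det_S])]
  simp

theorem det_adj (L D : E n →ₗ[ℝ] E n) (h : ∀ q x, ⟪L q, D x⟫ = ⟪q, x⟫) :
    LinearMap.det L * LinearMap.det D = 1 := by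
  classical
  have h1 : LinearMap.adjoint L ∘ₗ D = LinearMap.id := by
    apply LinearMap.ext
    intro x
    apply ext_inner_left ℝ
    intro q
    simp [LinearMap.adjoint_inner_right, h]
  have h2 : LinearMap.det (LinearMap.adjoint L) = LinearMap.det L := by
    let b := EuclideanSpace.basisFun (Fin n) ℝ
    rw [← LinearMap.det_toMatrix b.toBasis, LinearMap.toMatrix_adjoint, Matrix.det_conjTranspose,
      LinearMap.det_toMatrix]
    simp
  rw [← h2, ← LinearMap.det_comp, h1, LinearMap.det_id]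

theorem det_norm (k : E n) (hk : k ≠ 0) :
    HasFDerivAt (fun x : E n => ‖x‖) (innerSL ℝ (‖k‖⁻¹ • k)) k := by
  have h0 : ‖k‖ ≠ 0 := norm_ne_zero_iff.2 hk
  have h1 := (hasStrictFDerivAt_norm_sq k).hasFDerivAt.sqrt (pow_ne_zero 2 h0)
  have h2 : (fun x : E n => √(‖x‖ ^ 2)) = fun x => ‖x‖ := by
    funext x
    exact Real.sqrt_sq (norm_nonneg x)
  rw [h2, Real.sqrt_sq (norm_nonneg k)] at h1
  refine h1.congr_fderiv ?_
  apply ContinuousLinearMap.ext
  intro x
  simp only [innerSL_apply_apply, inner_smul_left, smul_apply, smul_eq_mul, nsmul_eq_mul,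
    conj_trivial]
  field_simp
  norm_num

theorem det (hb : SBLK) : SDET := by
  have _ := hb
  intro n P A k hA hk
  have hk' : ca A k ≠ 0 := P.ane A hA k hk
  have h0 : ‖k‖ ≠ 0 := norm_ne_zero_iff.2 hk
  have h0' : ‖ca A k‖ ≠ 0 := norm_ne_zero_iff.2 hk'
  have hc : A (cn k) = cn (ca A k) := P.acn A hA k
  set k' := ca A k with hk'e
  set u : E n := ‖k‖⁻¹ • k with hu
  set u' : E n := ‖k'‖⁻¹ • k' with hu'
  let D : E n →L[ℝ] E n := (ContinuousLinearMap.snd ℝ ℝ (E n)).comp
    (A.comp ((innerSL ℝ u).prod (ContinuousLinearMap.id ℝ (E n))))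
  have hD : ∀ x, D x = (A (⟪u, x⟫, x)).2 := fun x => rfl
  let L : E n →L[ℝ] E n := (qL k').comp (A.comp (-ContinuousLinearMap.inr ℝ ℝ (E n)))
  have hL : ∀ q, L q = qL k' (A (0, -q)) := fun q => by
    have : ((0 : ℝ), -q) = -((0 : ℝ), q) := by simp
    rw [this]
    rfl
  have hL' : ∀ q, L q = (A (0, q)).2 - (A (0, q)).1 • u' := fun q => by
    have : ((0 : ℝ), -q) = -((0 : ℝ), q) := by simp
    rw [hL, this, map_neg, qL_apply]
    simp only [Prod.fst_neg, Prod.snd_neg, neg_smul]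
    abel
  have key : ∀ z : V n, (A z).1 - ⟪u', (A z).2⟫ = ‖k‖ / ‖k'‖ * (z.1 - ⟪u, z.2⟫) := by
    intro z
    have h1 := hA.pres z (cn k)
    rw [hc] at h1
    simp only [B, cn] at h1
    rw [hu, hu', inner_smul_left, inner_smul_left, real_inner_comm, real_inner_comm z.2]
    simp only [conj_trivial]
    field_simp
    linarith
  have hAu : A (1, u) = (‖k'‖ / ‖k‖) • ((1 : ℝ), u') := by
    have h1 : ((1 : ℝ), u) = ‖k‖⁻¹ • cn k := by
      ext1
      · simp [cn, h0]
      · simp [cn, hu]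
    rw [h1, map_smul, hc]
    ext1
    · simp [cn]; field_simp
    · simp only [cn, hu', Prod.smul_snd, smul_smul]
      congr 1
      field_simp
  have e1 : LinearMap.det (A : V n →ₗ[ℝ] V n) = ‖k‖ / ‖k'‖ * D.det := by
    have h1 := det_low (det_T (-u') ∘ₗ (A : V n →ₗ[ℝ] V n) ∘ₗ det_T u) (‖k‖ / ‖k'‖)
      (A (1, 0)).2 (D : E n →ₗ[ℝ] E n) (fun a => by
        have h2 := key (a.1 + ⟪u, a.2⟫, a.2)
        have h3 : (a.1 + ⟪u, a.2⟫, a.2) = a.1 • ((1 : ℝ), (0 : E n)) + (⟪u, a.2⟫, a.2) := by simp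
        ext1
        · change (A (a.1 + ⟪u, a.2⟫, a.2)).1 + ⟪-u', (A (a.1 + ⟪u, a.2⟫, a.2)).2⟫ = _
          rw [inner_neg_left, ← sub_eq_add_neg, h2]
          simp
        · change (A (a.1 + ⟪u, a.2⟫, a.2)).2 = a.1 • (A (1, 0)).2 + D a.2
          rw [h3, map_add, map_smul, hD]
          rfl)
    rw [LinearMap.det_comp, LinearMap.det_comp, det_T_det, det_T_det, one_mul, mul_one] at h1
    exact h1
  have e2 : LinearMap.det (A : V n →ₗ[ℝ] V n) = ‖k'‖ / ‖k‖ * L.det := by
    have h1 := det_upp (det_S (-u') ∘ₗ (A : V n →ₗ[ℝ] V n) ∘ₗ det_S u) (‖k'‖ / ‖k‖)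
      (fun q => (A (0, q)).1) (L : E n →ₗ[ℝ] E n) (fun a => by
        have h3 : (a.1, a.1 • u + a.2) = a.1 • ((1 : ℝ), u) + (0, a.2) := by simp
        have h4 : A (a.1, a.1 • u + a.2) =
            (a.1 * (‖k'‖ / ‖k‖)) • ((1 : ℝ), u') + A (0, a.2) := by
          rw [h3, map_add, map_smul, hAu, smul_smul]
        ext1
        · change (A (a.1, a.1 • u + a.2)).1 = _
          rw [h4]
          simp [mul_comm]
        · change (A (a.1, a.1 • u + a.2)).1 • (-u') + (A (a.1, a.1 • u + a.2)).2 = L a.2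
          rw [h4, hL']
          simp only [Prod.fst_add, Prod.snd_add, Prod.smul_fst, Prod.smul_snd, smul_eq_mul, mul_one,
            add_smul, smul_neg]
          abel) (by
        have : ((0 : ℝ), (0 : E n)) = 0 := rfl
        simp [this])
    rw [LinearMap.det_comp, LinearMap.det_comp, det_S_det, det_S_det, one_mul, mul_one] at h1
    exact h1
  have e3 : L.det * D.det = 1 := by
    refine det_adj (L : E n →ₗ[ℝ] E n) (D : E n →ₗ[ℝ] E n) fun q x => ?_
    change ⟪L q, D x⟫ = _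
    have h1 := key (⟪u, x⟫, x)
    have h2 := hA.pres (0, q) (⟪u, x⟫, x)
    simp only [B, sub_self, mul_zero, zero_mul, sub_zero] at h1 h2
    rw [hL', hD, inner_sub_left, real_inner_smul_left u', ← h2, sub_eq_zero.1 h1]
  have e4 : |LinearMap.det (A : V n →ₗ[ℝ] V n)| = 1 := by
    have h1 : LinearMap.det (A : V n →ₗ[ℝ] V n) * LinearMap.det (A : V n →ₗ[ℝ] V n) = 1 := by
      nth_rewrite 1 [e2]
      rw [e1]
      field_simp
      linarith
    rcases mul_self_eq_one_iff.mp h1 with h | h <;> simp [h]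
  refine ⟨D, L, ?_, ?_, hL, ?_⟩
  · have h1 : HasFDerivAt (cn : E n → V n)
        ((innerSL ℝ u).prod (ContinuousLinearMap.id ℝ (E n))) k :=
      (det_norm k hk).prodMk (hasFDerivAt_id k)
    exact (ContinuousLinearMap.snd ℝ ℝ (E n)).hasFDerivAt.comp k (A.hasFDerivAt.comp k h1)
  · rw [e1, abs_mul, abs_of_nonneg (by positivity)] at e4
    field_simp at e4 ⊢
    linarith
  · rw [e2, abs_mul, abs_of_nonneg (by positivity)] at e4
    field_simp at e4 ⊢
    linarith

end Pool.Agent.MP_3ee8cb_gt.CR
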