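import Pool.Agent.MP_3ee8cb_gt.CR.SpecB

/-! A map that sends Busemann directions to Busemann directions is an injective isometry. -/

namespace Pool.Agent.MP_3ee8cb_gt.CR

open Set
open scoped RealInnerProductSpace

variable {n : ℕ}

theorem end_Z {F : E n → E n} {x : E n} (hF : DifferentiableAt ℝ F x) :
    HasFDerivAt (fun x => up (F x)) (Z F x) x ∧ ∀ u, Z F x u =
      (⟪F x, fderiv ℝ F x u⟫ / √(1 + ‖F x‖ ^ 2), fderiv ℝ F x u) := by
  have h0 : (1 + ‖F x‖ ^ 2) ≠ 0 := by positivity
  have h1 := ((hF.hasFDerivAt.norm_sq.const_add 1).sqrt h0).prodMk hF.hasFDerivAt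
  have h2 : Z F x = _ := h1.fderiv
  refine ⟨h2 ▸ h1, fun u => ?_⟩
  have h3 : √(1 + ‖F x‖ ^ 2) ≠ 0 := by positivity
  rw [h2]
  refine Prod.ext ?_ rfl
  simp only [ContinuousLinearMap.prod_apply, ContinuousLinearMap.smul_apply,
    ContinuousLinearMap.comp_apply, innerSL_apply_apply, smul_eq_mul, nsmul_eq_mul]
  field_simp
  norm_num

theorem end_B {h : Met n} (hh : IsHyp 1 h) {F : E n → E n} {x : E n}
    (hF : DifferentiableAt ℝ F x) (u w : E n) :
    h (F x) (fderiv ℝ F x u) (fderiv ℝ F x w) = B (Z F x u) (Z F x w) := by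
  have h0 : (0 : ℝ) ≤ 1 + ‖F x‖ ^ 2 := by positivity
  rw [hh, (end_Z hF).2, (end_Z hF).2, B, div_mul_div_comm, Real.mul_self_sqrt h0, one_mul]

theorem end_symm (z w : V n) : B z w = B w z := by
  rw [B, B, real_inner_comm, mul_comm]

theorem end_lin (c : ℝ) (z y w : V n) : B (c • z - y) w = c * B z w - B y w := by
  simp only [B, Prod.snd_sub, Prod.fst_sub, Prod.smul_snd, Prod.smul_fst, inner_sub_left,
    real_inner_smul_left, smul_eq_mul]
  ring

theorem end_der {z : ℝ → V n} {z' : V n} {t : ℝ} (h : HasDerivAt z z' t) (w : V n) :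
    HasDerivAt (fun t => -B (z t) w) (-B z' w) t := by
  let L : V n →L[ℝ] ℝ := w.1 • ContinuousLinearMap.fst ℝ ℝ (E n) -
    (innerSL ℝ w.2).comp (ContinuousLinearMap.snd ℝ ℝ (E n))
  have e : ∀ z, -B z w = L z := fun z => by
    simp only [L, B, ContinuousLinearMap.sub_apply, ContinuousLinearMap.smul_apply,
      ContinuousLinearMap.comp_apply, innerSL_apply_apply, ContinuousLinearMap.coe_fst',
      ContinuousLinearMap.coe_snd', smul_eq_mul, real_inner_comm w.2]
    ring
  simp only [e]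
  exact L.hasFDerivAt.comp_hasDerivAt t h

theorem en : SEND := by
  intro n g Γ _ _ A β v m X H h F hh hF hG
  have hd : ∀ x, DifferentiableAt ℝ F x := fun x => hF.differentiable one_ne_zero x
  have hk : ∀ k : E n, B (cn k) (cn k) = 0 := fun k => by
    rw [H.lor.cc, H.lor.bd.self, neg_zero]
  refine ⟨fun x x' e => by_contra fun hn => ?_, fun x => ?_⟩
  · obtain ⟨c, k, T, k0, T0, rfl, rfl, hc⟩ := H.bd.join x x' hn
    have h1 : ∀ t, HasDerivAt (fun t => -B (up (F (c t))) (cn k))
        (B (up (F (c t))) (cn k)) t := fun t => by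
      have h2 := end_der ((end_Z (hd (c t))).1.comp_hasDerivAt t (hc t)) (cn k)
      rw [hG _ k k0, end_lin, hk, mul_zero, zero_sub, neg_neg] at h2
      exact h2
    have h3 : StrictAnti fun t => -B (up (F (c t))) (cn k) :=
      strictAnti_of_hasDerivAt_neg h1 fun t => neg_pos.1 (H.lor.ell _ k k0)
    have h4 := h3 T0
    simp only [e, lt_self_iff_false] at h4
  · have h1 : ∀ u, g x u u = 1 → h (F x) (fderiv ℝ F x u) (fderiv ℝ F x u) = 1 := fun u hu => by
      obtain ⟨k, k0, rfl⟩ := H.bd.onto x u hu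
      have h2 := (H.lor.ell (F x) k k0).ne'
      rw [end_B hh (hd x), hG x k k0, end_lin, end_symm (cn k), end_symm (up (F x)) (_ - _),
        end_lin, end_lin, hk, H.lor.uu, end_symm (cn k)]
      have h3 : B (up (F x)) (cn k) ≠ 0 := neg_ne_zero.1 h2
      field_simp
      ring
    have h2 : ∀ u, h (F x) (fderiv ℝ F x u) (fderiv ℝ F x u) = g x u u := fun u => by
      by_cases hu : u = 0
      · simp [hu]
      have h3 := H.riem.pos x u hu
      have h4 : √(g x u u) ≠ 0 := by positivity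
      have h5 := Real.mul_self_sqrt h3.le
      have h6 := h1 ((√(g x u u))⁻¹ • u) (by
        simp only [map_smul, ContinuousLinearMap.smul_apply, smul_eq_mul]
        rw [← mul_assoc, ← mul_inv, h5, inv_mul_cancel₀ h3.ne'])
      simp only [map_smul, ContinuousLinearMap.smul_apply, smul_eq_mul] at h6
      rw [← mul_assoc, ← mul_inv, h5, inv_mul_eq_one₀ h3.ne'] at h6
      exact h6.symm
    intro u w
    have h3 := h2 (u + w)
    have h4 : h (F x) (fderiv ℝ F x w) (fderiv ℝ F x u) =
        h (F x) (fderiv ℝ F x u) (fderiv ℝ F x w) := by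
      rw [end_B hh (hd x), end_B hh (hd x), end_symm]
    simp only [map_add, ContinuousLinearMap.add_apply] at h3
    rw [h2, h2, h4, H.riem.symm x w u] at h3
    linarith

end Pool.Agent.MP_3ee8cb_gt.CR
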