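import Pool.Agent.MP_3ee8cb_gt.CR.SpecA

/-! Every boundary direction is reached from every point. -/

namespace Pool.Agent.MP_3ee8cb_gt.CR

open Set

variable {n : ℕ}

theorem ex_coer (B : E n →L[ℝ] E n →L[ℝ] ℝ) (hB : ∀ v, v ≠ 0 → 0 < B v v) (k : E n)
    (hk : k ≠ 0) : ∃ c : ℝ, 0 < c ∧ ∀ v, c * ‖v‖ ^ 2 ≤ B v v := by
  have hn : ∀ v : E n, v ≠ 0 → ‖v‖⁻¹ • v ∈ Metric.sphere (0 : E n) 1 := by
    intro v hv
    have h0 : ‖v‖ ≠ 0 := norm_ne_zero_iff.mpr hv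
    simp [norm_smul, h0]
  have hc : Continuous fun v : E n => B v v := by fun_prop
  obtain ⟨u, hu, hm⟩ := (isCompact_sphere (0 : E n) 1).exists_isMinOn ⟨_, hn k hk⟩
    hc.continuousOn
  have hu0 : u ≠ 0 := by
    rintro rfl
    simp at hu
  refine ⟨B u u, hB u hu0, fun v => ?_⟩
  by_cases hv : v = 0
  · simp [hv]
  · have h0 : 0 < ‖v‖ := norm_pos_iff.mpr hv
    have h1 : B u u ≤ B (‖v‖⁻¹ • v) (‖v‖⁻¹ • v) := hm (hn v hv)
    have h2 : B (‖v‖⁻¹ • v) (‖v‖⁻¹ • v) = ‖v‖⁻¹ * (‖v‖⁻¹ * B v v) := by simp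
    have h3 : ‖v‖⁻¹ * (‖v‖⁻¹ * B v v) * ‖v‖ ^ 2 = B v v := by field_simp
    rw [h2] at h1
    calc B u u * ‖v‖ ^ 2 ≤ ‖v‖⁻¹ * (‖v‖⁻¹ * B v v) * ‖v‖ ^ 2 :=
          mul_le_mul_of_nonneg_right h1 (by positivity)
      _ = B v v := h3

theorem ex_cpt (g : Met n) (hg : Riem g) (x k : E n) (hk : k ≠ 0) :
    IsCompact {p : UT g | p.1.1 = x} := by
  obtain ⟨c, hc, hb⟩ := ex_coer (g x) (hg.pos x) k hk
  have hS : IsCompact {u : E n | g x u u = 1} := by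
    apply Metric.isCompact_of_isClosed_isBounded
    · exact isClosed_eq (by fun_prop) continuous_const
    · refine (Metric.isBounded_closedBall (x := (0 : E n)) (r := 1 + c⁻¹)).subset fun u hu => ?_
      have h1 : c * ‖u‖ ^ 2 ≤ 1 := by
        have := hb u
        rwa [show g x u u = 1 from hu] at this
      have h2 : ‖u‖ ^ 2 ≤ c⁻¹ := by
        rw [← one_div, le_div_iff₀ hc]
        linarith
      rw [mem_closedBall_zero_iff]
      nlinarith [norm_nonneg u, sq_nonneg (‖u‖ - 1)]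
  rw [Subtype.isCompact_iff]
  have he : ((↑) : UT g → E n × E n) '' {p : UT g | p.1.1 = x} =
      ({x} : Set (E n)) ×ˢ {u : E n | g x u u = 1} := by
    ext ⟨y, u⟩
    constructor
    · rintro ⟨p, hp, hq⟩
      have h1 : p.1.1 = x := hp
      have h2 := p.2
      rw [hq] at h1 h2
      refine ⟨h1, ?_⟩
      have h3 : y = x := h1
      subst h3
      exact h2
    · rintro ⟨h1, h2⟩
      have h3 : y = x := h1
      subst h3
      exact ⟨⟨(y, u), h2⟩, rfl, rfl⟩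
  rw [he]
  exact isCompact_singleton.prod hS

theorem ex : SEX := by
  intro n g Γ _ _ Φ l a φ ψ R C U _ x k hk
  obtain ⟨D, hD⟩ := U.bdd
  have hk0 : 0 < ‖k‖ := norm_pos_iff.mpr hk
  have hw : l k ((‖k‖ ^ 2)⁻¹ • (-k)) = 2 := by
    rw [C.bd.symm, C.bd.hom _ _ _ (by positivity), C.bd.symm, C.bd.neg]
    field_simp
  have hφ : φ (ψ (k, (‖k‖ ^ 2)⁻¹ • (-k))) = (k, (‖k‖ ^ 2)⁻¹ • (-k)) := C.right _ hw
  generalize ψ (k, (‖k‖ ^ 2)⁻¹ • (-k)) = p₀ at hφ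
  have hs : ∀ t : ℝ, ∃ p : UT g, p.1.1 = x ∧ Real.exp t * l (φ p).1 k ≤ D := by
    intro t
    obtain ⟨p, hp, hq⟩ := R.hr x (Φ t p₀).1.1
    refine ⟨p, hp, ?_⟩
    have h1 := (hD _ _ hq).1
    rw [C.flow, C.flow, hφ] at h1
    dsimp only at h1
    rw [C.bd.hom _ _ _ (Real.exp_pos _).le, C.bd.symm, C.bd.hom _ _ _ (Real.exp_pos _).le,
      C.bd.symm] at h1
    have h2 : 1 ≤ Real.exp (dd g x (Φ t p₀).1.1) := Real.one_le_exp (R.db.nonneg _ _)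
    have h3 : 0 ≤ Real.exp t * l (φ p).1 k := mul_nonneg (Real.exp_pos _).le (C.bd.nonneg _ _)
    nlinarith
  have hc : Continuous fun p : UT g => l (φ p).1 k :=
    C.bd.cont.comp (f := fun p : UT g => ((φ p).1, k)) (C.cont.fst.prodMk continuous_const)
  obtain ⟨p₁, hp₁, -⟩ := hs 0
  obtain ⟨p, hp, hm⟩ := (ex_cpt g R.riem x k hk).exists_isMinOn ⟨p₁, hp₁⟩ hc.continuousOn
  have h0 : l (φ p).1 k = 0 := by
    refine le_antisymm (not_lt.mp fun h => ?_) (C.bd.nonneg _ _)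
    obtain ⟨q, hq, hl⟩ := hs (D / l (φ p).1 k)
    have h1 : l (φ p).1 k ≤ l (φ q).1 k := hm hq
    have h2 : D / l (φ p).1 k + 1 ≤ Real.exp (D / l (φ p).1 k) := Real.add_one_le_exp _
    have h3 : D / l (φ p).1 k * l (φ p).1 k = D := by field_simp
    have h4 := mul_le_mul_of_nonneg_left h1 (Real.exp_pos (D / l (φ p).1 k)).le
    have h5 := mul_le_mul_of_nonneg_right h2 h.le
    nlinarith
  have hne : (φ p).1 ≠ 0 := by
    intro h
    have h1 := C.mem p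
    have h2 := C.bd.hom 0 k (φ p).2 le_rfl
    rw [zero_smul, zero_mul] at h2
    rw [h, h2] at h1
    norm_num at h1
  obtain ⟨t, ht, he⟩ := C.bd.zero k (φ p).1 hk hne (by rw [C.bd.symm]; exact h0)
  exact ⟨p, t, hp, ht, he⟩

end Pool.Agent.MP_3ee8cb_gt.CR
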