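import Pool.Agent.MP_3ee8cb_gt.CR.SpecA

/-! Measurable bounded fundamental domains for a deck group. -/

namespace Pool.Agent.MP_3ee8cb_gt.CR

open Set

variable {n : ℕ} {g : Met n} {Γ : Type} [Group Γ] [MulAction Γ (E n)]

theorem fd_small (h : Deck g Γ) (x : E n) : ∃ U : Set (E n), IsOpen U ∧ x ∈ U ∧
    Bornology.IsBounded U ∧ ∀ (γ : Γ) (y : E n), y ∈ U → γ • y ∈ U → γ = 1 := by
  have := h.disc
  have : ContinuousConstSMul Γ (E n) := ⟨fun γ => (h.smooth γ).continuous⟩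
  obtain ⟨V, hV, hV'⟩ := ProperlyDiscontinuousSMul.exists_nhds_image_smul_eq_self Γ x
  refine ⟨interior V ∩ Metric.ball x 1, isOpen_interior.inter Metric.isOpen_ball,
    ⟨mem_interior_iff_mem_nhds.2 hV, Metric.mem_ball_self one_pos⟩,
    Metric.isBounded_ball.subset inter_subset_right, fun γ y hy hγ => ?_⟩
  exact h.free γ x (hV' γ ⟨γ • y, ⟨y, interior_subset hy.1, rfl⟩, interior_subset hγ.1⟩)

theorem fd_count (h : Deck g Γ) : Countable Γ := by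
  have := h.disc
  have h1 : ∀ N : ℕ, {γ : Γ | ((γ • ·) '' ({0} : Set (E n)) ∩
      Metric.closedBall (0 : E n) N).Nonempty}.Finite := fun N =>
    ProperlyDiscontinuousSMul.finite_disjoint_inter_image isCompact_singleton
      (isCompact_closedBall _ _)
  have h2 := countable_iUnion fun N => (h1 N).countable
  rw [← countable_univ_iff]
  refine h2.mono fun γ _ => ?_
  obtain ⟨N, hN⟩ := exists_nat_ge ‖γ • (0 : E n)‖
  exact mem_iUnion.2 ⟨N, γ • (0 : E n), ⟨0, rfl, rfl⟩, by simpa using hN⟩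

theorem fd_open (h : Deck g Γ) {U : Set (E n)} (hU : IsOpen U) :
    IsOpen {y : E n | ∃ γ : Γ, γ • y ∈ U} := by
  have : {y : E n | ∃ γ : Γ, γ • y ∈ U} = ⋃ γ : Γ, (fun y : E n => γ • y) ⁻¹' U := by
    ext y
    simp
  rw [this]
  exact isOpen_iUnion fun γ => hU.preimage (h.smooth γ).continuous

theorem fd_ind (h : Deck g Γ) (U : E n → Set (E n)) (ho : ∀ x, IsOpen (U x))
    (hb : ∀ x, Bornology.IsBounded (U x))
    (hi : ∀ x (γ : Γ) (y : E n), y ∈ U x → γ • y ∈ U x → γ = 1) (x₀ : E n) (s : Finset (E n)) :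
    ∃ D : Set (E n), MeasurableSet D ∧ Bornology.IsBounded D ∧ U x₀ ⊆ D ∧
      IsOpen {y : E n | ∃ γ : Γ, γ • y ∈ D} ∧ (∀ x ∈ s, ∀ y ∈ U x, ∃ γ : Γ, γ • y ∈ D) ∧
      ∀ (γ : Γ) (y : E n), y ∈ D → γ • y ∈ D → γ = 1 := by
  classical
  induction s using Finset.induction_on with
  | empty => exact ⟨U x₀, (ho x₀).measurableSet, hb x₀, subset_rfl, fd_open h (ho x₀),
      fun x hx => absurd hx (Finset.notMem_empty x), hi x₀⟩
  | insert a s _ ih =>
    obtain ⟨D, hm, hbd, h0, hop, hc, hinj⟩ := ih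
    have key : ∀ y : E n, (∃ γ : Γ, γ • y ∈ D ∪ (U a \ {y : E n | ∃ γ : Γ, γ • y ∈ D})) ↔
        (∃ γ : Γ, γ • y ∈ D) ∨ ∃ γ : Γ, γ • y ∈ U a := by
      intro y
      constructor
      · rintro ⟨γ, h1 | h1⟩
        · exact Or.inl ⟨γ, h1⟩
        · exact Or.inr ⟨γ, h1.1⟩
      · rintro (⟨γ, h1⟩ | ⟨γ, h1⟩)
        · exact ⟨γ, Or.inl h1⟩
        · by_cases h2 : ∃ δ : Γ, δ • γ • y ∈ D
          · obtain ⟨δ, h2⟩ := h2
            exact ⟨δ * γ, Or.inl (by rwa [mul_smul])⟩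
          · exact ⟨γ, Or.inr ⟨h1, h2⟩⟩
    refine ⟨D ∪ (U a \ {y : E n | ∃ γ : Γ, γ • y ∈ D}),
      hm.union ((ho a).measurableSet.diff hop.measurableSet),
      hbd.union ((hb a).subset sdiff_subset), h0.trans subset_union_left, ?_, ?_, ?_⟩
    · simp only [key]
      exact hop.union (fd_open h (ho a))
    · intro x hx y hy
      rw [key]
      rcases Finset.mem_insert.1 hx with rfl | hx
      · exact Or.inr ⟨1, by rwa [one_smul]⟩
      · exact Or.inl (hc x hx y hy)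
    · rintro γ y (h1 | h1) (h2 | h2)
      · exact hinj γ y h1 h2
      · exact absurd ⟨γ⁻¹, by rwa [inv_smul_smul]⟩ h2.2
      · exact absurd ⟨γ, h2⟩ h1.2
      · exact hi a γ y h1.1 h2.1

theorem fd : SFD := by
  intro n g Γ _ _ h
  refine ⟨fd_count h, fun x₀ => ?_⟩
  choose U ho hx hb hi using fd_small h
  obtain ⟨K, hK, hcov⟩ := h.cpt
  obtain ⟨s, hs⟩ := hK.elim_finite_subcover U ho fun x _ => mem_iUnion.2 ⟨x, hx x⟩
  obtain ⟨D, hm, hbd, h0, -, hc, hinj⟩ := fd_ind h U ho hb hi x₀ s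
  refine ⟨D, hm, hbd, Filter.mem_of_superset ((ho x₀).mem_nhds (hx x₀)) h0, fun x => ?_, hinj⟩
  obtain ⟨γ, hγ⟩ := hcov x
  obtain ⟨z, hz, hz'⟩ := mem_iUnion₂.1 (hs hγ)
  obtain ⟨δ, hδ⟩ := hc z hz _ hz'
  exact ⟨δ * γ, by rwa [mul_smul]⟩

end Pool.Agent.MP_3ee8cb_gt.CR
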