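import Pool.Agent.MP_3ee8cb_gt.CR.SpecB

/-! The normalised barycentre map: smoothness, equivariance and derivative. -/

namespace Pool.Agent.MP_3ee8cb_gt.CR

open Set MeasureTheory
open scoped RealInnerProductSpace

variable {n : ℕ}

theorem ff_smul (a b : ℝ) (z w : V n) : B (a • z) (b • w) = a * b * B z w := by
  simp only [B, Prod.smul_snd, Prod.smul_fst, real_inner_smul_left, real_inner_smul_right,
    smul_eq_mul]
  ring

theorem ff_smul_right (b : ℝ) (z w : V n) : B z (b • w) = b * B z w := by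
  have := ff_smul 1 b z w
  rwa [one_smul, one_mul] at this

theorem ff_lift (L : LorP n) (z : V n) (h : B z z < 0) (h1 : 0 < z.1) :
    up ((√(-B z z))⁻¹ • z).2 = (√(-B z z))⁻¹ • z := by
  have hN : 0 < √(-B z z) := Real.sqrt_pos.2 (by linarith)
  have hs : √(-B z z) * √(-B z z) = -B z z := Real.mul_self_sqrt (by linarith)
  refine L.hyp _ ?_ ?_
  · rw [ff_smul, ← mul_inv, hs]
    field_simp [h.ne]
  · exact mul_pos (inv_pos.2 hN) h1

theorem ff_cd {f : E n → V n} (hf : ContDiff ℝ 1 f) (h : ∀ x, B (f x) (f x) < 0) :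
    ContDiff ℝ 1 fun x => (√(-B (f x) (f x)))⁻¹ • f x := by
  have h1 : ContDiff ℝ 1 fun x => -B (f x) (f x) :=
    ((hf.snd.inner ℝ hf.snd).sub (hf.fst.mul hf.fst)).neg
  have h2 : ContDiff ℝ 1 fun x => √(-B (f x) (f x)) :=
    h1.sqrt fun x => (neg_pos.2 (h x)).ne'
  exact (h2.inv fun x => (Real.sqrt_pos.2 (neg_pos.2 (h x))).ne').smul hf

theorem ff_der {f : E n → V n} {D : E n →L[ℝ] V n} {x : E n} (hf : HasFDerivAt f D x)
    (h : B (f x) (f x) < 0) (u : E n) :
    fderiv ℝ (fun x => (√(-B (f x) (f x)))⁻¹ • f x) x u = (√(-B (f x) (f x)))⁻¹ •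
      (D u + B (D u) ((√(-B (f x) (f x)))⁻¹ • f x) • (√(-B (f x) (f x)))⁻¹ • f x) := by
  have hN : 0 < √(-B (f x) (f x)) := Real.sqrt_pos.2 (by linarith)
  obtain ⟨Q, hQ, hQu⟩ : ∃ Q : E n →L[ℝ] ℝ, HasFDerivAt (fun x => -B (f x) (f x)) Q x ∧
      Q u = -(2 * B (D u) (f x)) := by
    refine ⟨_, ((hf.snd.inner ℝ hf.snd).sub (hf.fst.mul hf.fst)).neg, ?_⟩
    simp only [B, neg_apply, sub_apply, add_apply, smul_apply, ContinuousLinearMap.comp_apply,
      ContinuousLinearMap.prod_apply, fderivInnerCLM_apply, ContinuousLinearMap.coe_snd',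
      ContinuousLinearMap.coe_fst', smul_eq_mul]
    rw [real_inner_comm (D u).2 (f x).2]
    ring
  have h2 := hQ.sqrt (neg_pos.2 h).ne'
  have h3 := ((hasDerivAt_inv hN.ne').comp_hasFDerivAt x h2).smul hf
  have h4 : fderiv ℝ (fun x => (√(-B (f x) (f x)))⁻¹ • f x) x = _ := h3.fderiv
  rw [h4, ff_smul_right]
  simp only [add_apply, smul_apply, ContinuousLinearMap.smulRight_apply, Function.comp_apply, hQu,
    smul_add, smul_smul, smul_eq_mul]
  congr 2
  field_simp

theorem ff : SFF := by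
  intro n g Γ _ _ A β v m X hd ht he hy
  have lift : ∀ x, up (Fm β x) = (√(-B (Y β x) (Y β x)))⁻¹ • Y β x :=
    fun x => ff_lift hd.lor _ (ht x).1 (ht x).2
  refine ⟨⟨(ff_cd hy.1 fun x => (ht x).1).snd, fun γ x => ?_⟩, lift, fun x u => ?_⟩
  · rw [lift, lift, he, (hd.rep.lor γ).pres, map_smul]
  · have e : (fun x => up (Fm β x)) = fun x => (√(-B (Y β x) (Y β x)))⁻¹ • Y β x := funext lift
    rw [Z, e, lift]
    exact ff_der ((hy.1.differentiable one_ne_zero x).hasFDerivAt) (ht x).1 u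

end Pool.Agent.MP_3ee8cb_gt.CR
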