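import Pool.Agent.MP_3ee8cb_gt.CR.SpecA

/-! The flip inequality: the pairing is bounded by the Busemann function. -/

namespace Pool.Agent.MP_3ee8cb_gt.CR

variable {n : ℕ}

theorem flip_hom2 {l : E n → E n → ℝ} (b : Bd l) (s t : ℝ) (hs : 0 ≤ s) (ht : 0 ≤ t)
    (x y : E n) : l (s • x) (t • y) = s * t * l x y := by
  rw [b.hom s _ _ hs, b.symm, b.hom t _ _ ht, b.symm y x, mul_assoc]

theorem flip_ne {l : E n → E n → ℝ} (b : Bd l) {x y : E n} (h : l x y = 2) : x ≠ 0 ∧ y ≠ 0 := by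
  constructor
  · rintro rfl
    have := b.hom 0 0 y le_rfl
    rw [zero_smul, zero_mul, h] at this
    norm_num at this
  · rintro rfl
    have := b.hom 0 0 x le_rfl
    rw [zero_smul, zero_mul, b.symm, h] at this
    norm_num at this

theorem flip_small (c δ : ℝ) (hc : 0 ≤ c) (hδ : 0 < δ) :
    ∃ t : ℝ, Real.exp t * Real.exp t * c ≤ δ := by
  refine ⟨Real.log (δ / (c + 1)) / 2, ?_⟩
  rw [← Real.exp_add, add_halves, Real.exp_log (by positivity), div_mul_eq_mul_div,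
    div_le_iff₀ (by positivity)]
  nlinarith

theorem flip_zero (c D : ℝ) (hc : 0 ≤ c) (h : ∀ t : ℝ, Real.exp t * Real.exp t * c ≤ D) :
    c = 0 := by
  by_contra h0
  have hp : 0 < c := lt_of_le_of_ne hc (Ne.symm h0)
  have h1 := h (Real.log ((|D| + 1) / c) / 2)
  rw [← Real.exp_add, add_halves, Real.exp_log (by positivity), div_mul_cancel₀ _ h0] at h1
  linarith [le_abs_self D]

section

variable {g : Met n} {Γ : Type} [Group Γ] [MulAction Γ (E n)] {Φ : ℝ → UT g → UT g}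
  {l : E n → E n → ℝ} {a : Γ → E n → E n} {φ : UT g → E n × E n} {ψ : E n × E n → UT g}

theorem flip_rev (fl : FlP g Φ) (c : Conj g Φ l a φ ψ) (t : ℝ) (p : UT g) :
    (φ (ng (Φ t p))).1 = Real.exp (-t) • (φ (ng p)).1 := by
  have h := fl.rev (-t) p
  rw [neg_neg] at h
  rw [← h, c.flow]

theorem flip_lam (fl : FlP g Φ) (c : Conj g Φ l a φ ψ) (u : UcP g l φ) (p : UT g) :
    ∃ t : ℝ, 0 < t ∧ (φ (ng p)).1 = t • (φ p).2 := by
  obtain ⟨D, hD⟩ := u.bdd
  refine c.bd.zero _ _ (flip_ne c.bd (c.mem p)).2 (flip_ne c.bd (c.mem (ng p))).1 ?_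
  rw [c.bd.symm]
  refine flip_zero _ D (c.bd.nonneg _ _) fun t => ?_
  have h := (hD (ng (Φ (-t) p)) (Φ (-t) p) rfl).2.1
  rw [flip_rev fl c, c.flow, neg_neg] at h
  rwa [flip_hom2 c.bd _ _ (Real.exp_pos _).le (Real.exp_pos _).le] at h

theorem flip_inv (fl : FlP g Φ) (c : Conj g Φ l a φ ψ) (t : ℝ) (p : UT g) :
    l (φ (ng (Φ t p))).1 (φ (Φ t p)).1 = l (φ (ng p)).1 (φ p).1 := by
  rw [flip_rev fl c, c.flow]
  rw [flip_hom2 c.bd _ _ (Real.exp_pos _).le (Real.exp_pos _).le, ← Real.exp_add, neg_add_cancel,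
    Real.exp_zero, one_mul]

theorem flip_same (fl : FlP g Φ) (c : Conj g Φ l a φ ψ) (u : UcP g l φ) (p q : UT g)
    (h : (φ p).2 = (φ q).2) : (φ (ng p)).1 = (φ (ng q)).1 := by
  have e : l (φ (ng p)).1 (φ p).1 = l (φ (ng q)).1 (φ q).1 := by
    refine eq_of_forall_dist_le fun ε hε => ?_
    obtain ⟨δ, hδ, hu⟩ := u.lam ε hε
    obtain ⟨t, ht⟩ := flip_small _ δ (c.bd.nonneg (φ p).1 (φ q).1) hδ
    have h1 := hu (Φ t p) (Φ t q) (by
      have m1 := c.mem p
      have m2 := c.mem q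
      have x : Real.exp t * Real.exp (-t) = 1 := by
        rw [← Real.exp_add, add_neg_cancel, Real.exp_zero]
      rw [h] at m1
      simp only [gap, c.flow, h]
      rw [c.bd.self, flip_hom2 c.bd _ _ (Real.exp_pos _).le (Real.exp_pos _).le,
        flip_hom2 c.bd _ _ (Real.exp_pos _).le (Real.exp_pos _).le,
        flip_hom2 c.bd _ _ (Real.exp_pos _).le (Real.exp_pos _).le, x, m1, m2]
      simpa using ht)
    rwa [flip_inv fl c, flip_inv fl c] at h1
  obtain ⟨s, hs, e1⟩ := flip_lam fl c u p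
  obtain ⟨t, ht, e2⟩ := flip_lam fl c u q
  rw [e1, e2, c.bd.hom _ _ _ hs.le, c.bd.hom _ _ _ ht.le, c.bd.symm (φ p).2, c.bd.symm (φ q).2,
    c.mem, c.mem] at e
  rw [e1, e2, h, show s = t by linarith]

end

theorem flip : SFLIP := by
  intro n g Γ _ _ Φ l a φ ψ r c u b p p'
  rcases (c.bd.nonneg (φ p').1 (φ p).2).eq_or_lt with h0 | hL
  · rw [← h0]; positivity
  set L := l (φ p').1 (φ p).2 with hLd
  have hw : l ((2 / L) • (φ p').1) (φ p).2 = 2 := by
    rw [c.bd.hom _ _ _ (by positivity), ← hLd, div_mul_cancel₀ _ hL.ne']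
  have hq := c.right ((2 / L) • (φ p').1, (φ p).2) hw
  set q := ψ ((2 / L) • (φ p').1, (φ p).2) with hqd
  have s1 := flip_same r.fl c u p q (by rw [hq])
  have s2 : bus g Φ (ng p) p.1.1 = 0 := by
    have := b.self (ng p) 0
    rw [r.flow.zero, neg_zero] at this
    exact this
  have s3 := b.opp q p.1.1
  rw [← b.asym _ _ s1, s2, add_zero] at s3
  have hx : Real.exp (Real.log (L / 2)) = L / 2 := Real.exp_log (by positivity)
  have s4 : (φ (Φ (Real.log (L / 2)) q)).1 = (φ p').1 := by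
    rw [c.flow, hq, hx]
    change (L / 2) • (2 / L) • (φ p').1 = _
    rw [smul_smul, show L / 2 * (2 / L) = 1 by field_simp, one_smul]
  have s5 := b.asym _ _ s4 p.1.1
  rw [b.shift] at s5
  have s6 : Real.exp (Real.log (L / 2)) ≤ Real.exp (bus g Φ p' p.1.1) :=
    Real.exp_le_exp.2 (by linarith)
  rw [hx] at s6
  linarith

end Pool.Agent.MP_3ee8cb_gt.CR
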