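import Pool.Agent.MP_3ee8cb_gt.CR.SpecB

namespace Pool.Agent.MP_3ee8cb_gt.CR

open Module
open scoped RealInnerProductSpace

theorem frame_basis {n : ℕ} (G : E n →L[ℝ] E n →L[ℝ] ℝ) (hs : ∀ u v, G u v = G v u)
    (hp : ∀ v, v ≠ 0 → 0 < G v v) :
    ∃ w : Basis (Fin n) ℝ (E n), ∀ i j, G (w i) (w j) = if i = j then 1 else 0 := by
  let B : LinearMap.BilinForm ℝ (E n) := LinearMap.mk₂ ℝ (fun u v => G u v)
    (fun a b c => by simp) (fun a b c => by simp) (fun a b c => by simp) (fun a b c => by simp)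
  have hB : LinearMap.IsSymm B := ⟨fun u v => by simpa [B] using hs u v⟩
  obtain ⟨v, hv⟩ := LinearMap.BilinForm.exists_orthogonal_basis (B := B) hB
  have hn : finrank ℝ (E n) = n := by simp
  have hpos : ∀ i, 0 < G (v i) (v i) := fun i => hp _ (v.ne_zero i)
  have hsq : ∀ i, (√(G (v i) (v i)))⁻¹ ≠ 0 := fun i =>
    inv_ne_zero (Real.sqrt_pos.2 (hpos i)).ne'
  refine ⟨(v.unitsSMul fun i => Units.mk0 _ (hsq i)).reindex (finCongr hn), fun i j => ?_⟩
  simp only [Basis.reindex_apply, Basis.unitsSMul_apply, Units.smul_def, Units.val_mk0,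
    map_smul, smul_apply, smul_eq_mul]
  split_ifs with h
  · subst h
    have h1 := hpos ((finCongr hn).symm i)
    have h2 := Real.mul_self_sqrt h1.le
    have h3 := (Real.sqrt_pos.2 h1).ne'
    field_simp
    rw [Real.sq_sqrt h1.le]
  · have hne : (finCongr hn).symm i ≠ (finCongr hn).symm j := fun e => h ((finCongr hn).symm.injective e)
    have : G (v ((finCongr hn).symm i)) (v ((finCongr hn).symm j)) = 0 := hv hne
    rw [this]; ring

theorem frame : SFRAME := by
  intro n g x hg
  obtain ⟨w, hw⟩ := frame_basis (g x) (hg.symm x) (hg.pos x)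
  let e := (EuclideanSpace.basisFun (Fin n) ℝ)
  let L : E n ≃ₗ[ℝ] E n := e.toBasis.equiv w (Equiv.refl _)
  have hL : ∀ i, L (e i) = w i := fun i => by
    have := e.toBasis.equiv_apply i w (Equiv.refl _)
    simpa [L] using this
  refine ⟨L.toContinuousLinearEquiv, fun a b => ?_⟩
  have h1 : L a = ∑ i, a i • w i := by
    conv_lhs => rw [← e.sum_repr a]
    simp only [map_sum, map_smul, hL]
    rfl
  have h2 : L b = ∑ i, b i • w i := by
    conv_lhs => rw [← e.sum_repr b]
    simp only [map_sum, map_smul, hL]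
    rfl
  simp only [LinearEquiv.coe_toContinuousLinearEquiv', h1, h2, map_sum, map_smul,
    sum_apply, smul_apply, smul_eq_mul, hw]
  simp [PiLp.inner_apply]

end Pool.Agent.MP_3ee8cb_gt.CR
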