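import Pool.Agent.MP_3ee8cb_gt.CR.SpecA

/-! Existence of minimizing geodesics for the distance `dd`. -/

namespace Pool.Agent.MP_3ee8cb_gt.CR

open Set

variable {n : ℕ} {g : Met n}

theorem geo_sep (hr : Riem g) (hl : LowP g) {x y : E n} (h : dd g x y ≤ 0) : y = x := by
  obtain ⟨r, hr0, H⟩ := hl x (1 / 2) (by norm_num)
  have h1 := H x y (by simp [hr0.le])
  by_contra hne
  have h2 : 0 < √(g x (y - x) (y - x)) := Real.sqrt_pos.2 (hr.pos x _ (sub_ne_zero.2 hne))
  have h3 := lt_min hr0 h2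
  linarith

theorem geo_cont (hd : DBP g) (x : E n) : Continuous fun w => dd g x w :=
  hd.cont.comp (continuous_const.prodMk continuous_id)

theorem geo_cpt (hd : DBP g) (hp : ProP g) (x : E n) (R : ℝ) : IsCompact {y | dd g x y ≤ R} :=
  Metric.isCompact_of_isClosed_isBounded (isClosed_le (geo_cont hd x) continuous_const) (hp x R)

theorem geo_mid (hd : DBP g) (hm : MidP g) (hp : ProP g) (x y : E n) (s : ℝ) (h0 : 0 ≤ s)
    (h1 : s ≤ dd g x y) : ∃ w, dd g x w = s ∧ dd g w y ≤ dd g x y - s := by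
  have hc : IsCompact {w | dd g x w = s} :=
    (geo_cpt hd hp x s).of_isClosed_subset (isClosed_eq (geo_cont hd x) continuous_const)
      fun w hw => le_of_eq hw
  obtain ⟨w0, hw0, -⟩ := hm x y s 1 h0 h1 one_pos
  obtain ⟨w, hw, hmin⟩ := hc.exists_isMinOn ⟨w0, hw0⟩ (geo_cont hd y).continuousOn
  refine ⟨w, hw, le_of_forall_pos_le_add fun ε hε => ?_⟩
  obtain ⟨w1, hw1, h2⟩ := hm x y s ε h0 h1 hε
  have h3 : dd g y w ≤ dd g y w1 := hmin hw1
  rw [hd.symm y w, hd.symm y w1] at h3
  linarith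

/-- Partial geodesics on a finite set of parameters. -/
def geo_C (g : Met n) (x y : E n) (T : Finset ℝ) : Set (ℝ → E n) :=
  {σ | (∀ t, dd g x (σ t) ≤ dd g x y) ∧
    (∀ s ∈ T, dd g x (σ s) ≤ s ∧ dd g (σ s) y ≤ dd g x y - s) ∧
    ∀ s ∈ T, ∀ t ∈ T, s ≤ t → dd g (σ s) (σ t) ≤ t - s}

theorem geo_ne (hd : DBP g) (hm : MidP g) (hp : ProP g) (x y : E n) (T : Finset ℝ)
    (hT : ∀ t ∈ T, t ∈ Icc 0 (dd g x y)) : (geo_C g x y T).Nonempty := by
  classical
  induction T using Finset.induction_on_max with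
  | empty => exact ⟨fun _ => x, fun _ => by rw [hd.refl]; exact hd.nonneg x y, by simp, by simp⟩
  | insert a T ha ih =>
    obtain ⟨σ, h1, h2, h3⟩ := ih fun t ht => hT t (Finset.mem_insert_of_mem ht)
    have hA := hT a (Finset.mem_insert_self a T)
    obtain ⟨b, z, hb, hx, hy, hs⟩ : ∃ b z, b ≤ a ∧ dd g x z ≤ b ∧ dd g z y ≤ dd g x y - b ∧
        ∀ s ∈ T, dd g (σ s) z ≤ b - s := by
      rcases T.eq_empty_or_nonempty with rfl | hne
      · exact ⟨0, x, hA.1, (hd.refl x).le, by simp, by simp⟩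
      · have hm := T.max'_mem hne
        exact ⟨T.max' hne, σ (T.max' hne), (ha _ hm).le, (h2 _ hm).1, (h2 _ hm).2,
          fun s hs => h3 s hs _ hm (T.le_max' s hs)⟩
    have hz := hd.tri x z y
    obtain ⟨w, hw1, hw2⟩ := geo_mid hd hm hp z y (a - b) (by linarith) (by linarith [hA.2])
    have hxw : dd g x w ≤ a := by linarith [hd.tri x z w]
    have hne : ∀ s ∈ T, Function.update σ a w s = σ s := fun s hs =>
      Function.update_of_ne (ha s hs).ne _ _
    refine ⟨Function.update σ a w, fun t => ?_, fun s hs' => ?_, fun s hs' t ht' hst => ?_⟩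
    · by_cases h : t = a
      · subst h; rw [Function.update_self]; linarith [hA.2]
      · rw [Function.update_of_ne h]; exact h1 t
    · rcases Finset.mem_insert.1 hs' with rfl | hs'
      · rw [Function.update_self]; exact ⟨hxw, by linarith⟩
      · rw [hne s hs']; exact h2 s hs'
    · rcases Finset.mem_insert.1 ht' with rfl | ht2
      · rcases Finset.mem_insert.1 hs' with rfl | hs2
        · rw [hd.refl]; linarith
        · rw [Function.update_self, hne s hs2]
          linarith [hd.tri (σ s) z w, hs s hs2]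
      · rcases Finset.mem_insert.1 hs' with rfl | hs2
        · exact absurd (ha t ht2) (not_lt.2 hst)
        · rw [hne s hs2, hne t ht2]; exact h3 s hs2 t ht2 hst

theorem geo_closed (hd : DBP g) (x y : E n) (T : Finset ℝ) : IsClosed (geo_C g x y T) := by
  have c1 : ∀ s, Continuous fun σ : ℝ → E n => dd g x (σ s) := fun s =>
    (geo_cont hd x).comp (continuous_apply s)
  have c2 : ∀ s, Continuous fun σ : ℝ → E n => dd g (σ s) y := fun s =>
    hd.cont.comp (f := fun σ : ℝ → E n => (σ s, y))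
      ((continuous_apply s).prodMk continuous_const)
  have c3 : ∀ s t, Continuous fun σ : ℝ → E n => dd g (σ s) (σ t) := fun s t =>
    hd.cont.comp (f := fun σ : ℝ → E n => (σ s, σ t))
      ((continuous_apply s).prodMk (continuous_apply t))
  simp only [geo_C, setOf_and, setOf_forall]
  refine (isClosed_iInter fun t => isClosed_le (c1 t) continuous_const).inter
    ((isClosed_iInter fun s => isClosed_iInter fun _ =>
      (isClosed_le (c1 s) continuous_const).inter (isClosed_le (c2 s) continuous_const)).inter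
    (isClosed_iInter fun s => isClosed_iInter fun _ => isClosed_iInter fun t =>
      isClosed_iInter fun _ => isClosed_iInter fun _ => isClosed_le (c3 s t) continuous_const))

/-- Any two points are joined by a minimizing geodesic. -/
theorem geo : SGEO := by
  classical
  intro n g hr hd hl hm hp x y
  have hK : IsCompact (Set.pi univ fun _ : ℝ => {z | dd g x z ≤ dd g x y}) :=
    isCompact_univ_pi fun _ => geo_cpt hd hp x _
  let I := {T : Finset ℝ // ∀ t ∈ T, t ∈ Icc 0 (dd g x y)}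
  haveI : Nonempty I := ⟨⟨∅, by simp⟩⟩
  have mono : ∀ T T' : Finset ℝ, T ⊆ T' → geo_C g x y T' ⊆ geo_C g x y T :=
    fun T T' h σ hσ => ⟨hσ.1, fun s hs => hσ.2.1 s (h hs),
      fun s hs t ht => hσ.2.2 s (h hs) t (h ht)⟩
  obtain ⟨σ, hσ⟩ := IsCompact.nonempty_iInter_of_directed_nonempty_isCompact_isClosed
    (fun T : I => geo_C g x y T.1)
    (fun T T' => ⟨⟨T.1 ∪ T'.1, fun t ht => (Finset.mem_union.1 ht).elim (T.2 t) (T'.2 t)⟩,
      mono _ _ Finset.subset_union_left, mono _ _ Finset.subset_union_right⟩)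
    (fun T => geo_ne hd hm hp x y T.1 T.2)
    (fun T => hK.of_isClosed_subset (geo_closed hd x y T.1) fun σ hσ t _ => hσ.1 t)
    (fun T => geo_closed hd x y T.1)
  have key : ∀ s ∈ Icc 0 (dd g x y), ∀ t ∈ Icc 0 (dd g x y), σ ∈ geo_C g x y {s, t} := by
    intro s hs t ht
    refine mem_iInter.1 hσ ⟨{s, t}, fun u hu => ?_⟩
    rcases Finset.mem_insert.1 hu with rfl | hu
    · exact hs
    · rw [Finset.mem_singleton.1 hu]; exact ht
  have h0 : (0 : ℝ) ∈ Icc 0 (dd g x y) := ⟨le_rfl, hd.nonneg x y⟩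
  have hL : dd g x y ∈ Icc 0 (dd g x y) := ⟨hd.nonneg x y, le_rfl⟩
  have half : ∀ s ∈ Icc 0 (dd g x y), ∀ t ∈ Icc 0 (dd g x y), s ≤ t →
      dd g (σ s) (σ t) = t - s := by
    intro s hs t ht hst
    obtain ⟨-, h2, h3⟩ := key s hs t ht
    have a1 := (h2 s (by simp)).1
    have a2 := (h2 t (by simp)).2
    have a3 := h3 s (by simp) t (by simp) hst
    linarith [hd.tri x (σ s) y, hd.tri (σ s) (σ t) y]
  refine ⟨σ, geo_sep hr hl ((key 0 h0 0 h0).2.1 0 (by simp)).1, ?_, fun s hs t ht => ?_⟩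
  · have := ((key _ hL _ hL).2.1 (dd g x y) (by simp)).2
    rw [sub_self, hd.symm] at this
    exact geo_sep hr hl this
  · rcases le_total s t with h | h
    · rw [half s hs t ht h, abs_sub_comm, abs_of_nonneg (sub_nonneg.2 h)]
    · rw [hd.symm, half t ht s hs h, abs_of_nonneg (sub_nonneg.2 h)]

end Pool.Agent.MP_3ee8cb_gt.CR
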