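import Pool.Agent.MP_3ee8cb_gt.CR.SpecB

namespace Pool.Agent.MP_3ee8cb_gt.CR

open Set MeasureTheory
open scoped RealInnerProductSpace

variable {n : ℕ}

theorem good_up : ContDiff ℝ 1 (up : E n → V n) := by
  unfold up
  refine ContDiff.prodMk ?_ contDiff_id
  refine ContDiff.sqrt (contDiff_const.add (contDiff_norm_sq ℝ)) fun y => ?_
  positivity

theorem good : SGOOD := by
  intro n g Γ _ _ A β v m X hd F D x hF hJ hD hx hW hfin hle
  have h1 : (I F) =ᵐ[volume.restrict D] W g := by
    refine ae_eq_of_ae_le_of_lintegral_le (Filter.Eventually.of_forall fun y => (hJ y).1) ?_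
      hW.aemeasurable hle
    exact ne_top_of_le_ne_top hfin (lintegral_mono fun y => (hJ y).1)
  have h2 : ∀ᵐ y ∂volume.restrict D, Good F v y := h1.mono fun y hy => (hJ y).2 hy.ge
  intro k hk
  have hc : ContDiff ℝ 1 fun y => up (F y) := good_up.comp hF
  have hZ : Continuous (Z F) := hc.continuous_fderiv one_ne_zero
  have hv : Continuous fun y => v y k := by
    have : Continuous fun y : E n => ((y, k) : E n × E n) := by fun_prop
    exact hd.bd.cv.comp_continuous this fun y => hk
  have hu : Continuous fun y => up (F y) := hc.continuous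
  have hB : Continuous fun y => -B (up (F y)) (cn k) := by
    unfold B
    fun_prop
  have hl : Continuous fun y => Z F y (v y k) := hZ.clm_apply hv
  have hr : Continuous fun y => (-B (up (F y)) (cn k))⁻¹ • cn k - up (F y) :=
    ((hB.inv₀ fun y => (hd.lor.ell _ k hk).ne').smul continuous_const).sub hu
  have h3 : (fun y => Z F y (v y k)) =ᵐ[volume.restrict (interior D)]
      fun y => (-B (up (F y)) (cn k))⁻¹ • cn k - up (F y) :=
    ae_restrict_of_ae_restrict_of_subset interior_subset (h2.mono fun y hy => hy k hk)
  exact Measure.eqOn_open_of_ae_eq h3 isOpen_interior hl.continuousOn hr.continuousOn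
    (mem_interior_iff_mem_nhds.2 hx)

end Pool.Agent.MP_3ee8cb_gt.CR
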