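import Pool.Agent.MP_3ee8cb_gt.CR.SpecB

namespace Pool.Agent.MP_3ee8cb_gt.CR

open Set
open scoped RealInnerProductSpace

variable {n : ℕ}

theorem hfl_diff {h : Met n} (hh : IsHyp 1 h) : Differentiable ℝ h := by
  have : ContDiff ℝ 1 h := by
    rw [contDiff_clm_apply_iff]
    intro u
    rw [contDiff_clm_apply_iff]
    intro v
    have e : (fun x => h x u v) =
        fun x : E n => 1 * (⟪u, v⟫ - ⟪x, u⟫ * ⟪x, v⟫ / (1 + ‖x‖ ^ 2)) := funext fun x => hh x u v
    rw [e]
    refine contDiff_const.mul (contDiff_const.sub (ContDiff.div ?_ ?_ ?_))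
    · exact (contDiff_id.inner ℝ contDiff_const).mul (contDiff_id.inner ℝ contDiff_const)
    · exact contDiff_const.add (contDiff_norm_sq ℝ)
    · intro x
      positivity
  exact this.differentiable one_ne_zero

theorem hfl_fd {h : Met n} (hh : IsHyp 1 h) (x w u : E n) : fderiv ℝ h x w u u =
    -(2 * ⟪x, u⟫ * ⟪w, u⟫ / (1 + ⟪x, x⟫)) + 2 * ⟪x, u⟫ ^ 2 * ⟪x, w⟫ / (1 + ⟪x, x⟫) ^ 2 := by
  have hl : HasDerivAt (fun t : ℝ => x + t • w) w 0 := by
    simpa using ((hasDerivAt_id (0 : ℝ)).smul_const w).const_add x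
  have h0 := ((hfl_diff hh x).hasFDerivAt.clm_apply (hasFDerivAt_const u x)).clm_apply
    (hasFDerivAt_const u x)
  have h2 : HasDerivAt (fun t : ℝ => h (x + t • w) u u) (fderiv ℝ h x w u u) 0 := by
    simpa [Function.comp_def] using h0.comp_hasDerivAt_of_eq 0 hl (by simp)
  have e : (fun t : ℝ => h (x + t • w) u u) = fun t : ℝ =>
      ⟪u, u⟫ - ⟪x + t • w, u⟫ * ⟪x + t • w, u⟫ / (1 + ⟪x + t • w, x + t • w⟫) := by
    funext t
    rw [hh, one_mul, real_inner_self_eq_norm_sq (x + t • w)]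
  have ha := hl.inner ℝ (hasDerivAt_const (0 : ℝ) u)
  have hN := (hl.inner ℝ hl).const_add 1
  have hp : (1 : ℝ) + ⟪x, x⟫ ≠ 0 := by
    have := real_inner_self_nonneg (x := x)
    positivity
  have h3 := ((ha.mul ha).div hN (by simpa using hp)).const_sub ⟪u, u⟫
  rw [e] at h2
  rw [h2.unique h3]
  simp only [zero_smul, add_zero, inner_zero_right, zero_add, Pi.mul_apply, real_inner_comm x w]
  field_simp
  ring

theorem hfl_geo {h : Met n} (hh : IsHyp 1 h) (y u : E n) (hu : h y u u = 1) (a b : ℝ) :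
    GeoOn h (fun t => Real.cosh t • y + Real.sinh t • u)
      (fun t => Real.sinh t • y + Real.cosh t • u) a b := by
  intro t _
  have hc : HasDerivAt (fun t => Real.cosh t • y + Real.sinh t • u)
      (Real.sinh t • y + Real.cosh t • u) t :=
    ((Real.hasDerivAt_cosh t).smul_const y).add ((Real.hasDerivAt_sinh t).smul_const u)
  have hc' : HasDerivAt (fun t => Real.sinh t • y + Real.cosh t • u)
      (Real.cosh t • y + Real.sinh t • u) t :=
    ((Real.hasDerivAt_sinh t).smul_const y).add ((Real.hasDerivAt_cosh t).smul_const u)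
  refine ⟨hc.hasDerivWithinAt, fun w => HasDerivAt.hasDerivWithinAt ?_⟩
  have hpos : ∀ x : E n, (1 : ℝ) + ⟪x, x⟫ ≠ 0 := fun x => by
    have := real_inner_self_nonneg (x := x)
    positivity
  have hcon : ⟪u, u⟫ * (1 + ⟪y, y⟫) - ⟪y, u⟫ ^ 2 = 1 + ⟪y, y⟫ := by
    rw [hh, one_mul, ← real_inner_self_eq_norm_sq y] at hu
    have := hpos y
    field_simp at hu
    linarith
  have hun : ⟪Real.sinh t • y + Real.cosh t • u, Real.sinh t • y + Real.cosh t • u⟫ *
      (1 + ⟪Real.cosh t • y + Real.sinh t • u, Real.cosh t • y + Real.sinh t • u⟫) -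
      ⟪Real.cosh t • y + Real.sinh t • u, Real.sinh t • y + Real.cosh t • u⟫ ^ 2 =
      1 + ⟪Real.cosh t • y + Real.sinh t • u, Real.cosh t • y + Real.sinh t • u⟫ := by
    have hK := Real.cosh_sq_sub_sinh_sq t
    simp only [inner_add_left, inner_add_right, real_inner_smul_left, real_inner_smul_right,
      real_inner_comm y u]
    linear_combination ((Real.cosh t ^ 2 - Real.sinh t ^ 2 + 1) *
      (⟪y, y⟫ * ⟪u, u⟫ - ⟪y, u⟫ ^ 2) + (⟪u, u⟫ - ⟪y, y⟫)) * hK + hcon
  have e : (fun s => h (Real.cosh s • y + Real.sinh s • u) (Real.sinh s • y + Real.cosh s • u) w) =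
      fun s => ⟪Real.sinh s • y + Real.cosh s • u, w⟫ -
        ⟪Real.cosh s • y + Real.sinh s • u, Real.sinh s • y + Real.cosh s • u⟫ *
          ⟪Real.cosh s • y + Real.sinh s • u, w⟫ /
          (1 + ⟪Real.cosh s • y + Real.sinh s • u, Real.cosh s • y + Real.sinh s • u⟫) := by
    funext s
    rw [hh, one_mul, real_inner_self_eq_norm_sq (Real.cosh s • y + Real.sinh s • u)]
  have h1 := hc'.inner ℝ (hasDerivAt_const t w)
  have h2 := hc.inner ℝ hc'
  have h3 := hc.inner ℝ (hasDerivAt_const t w)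
  have h4 := (hc.inner ℝ hc).const_add 1
  have h5 := h1.sub ((h2.mul h3).div h4 (hpos _))
  rw [e, hfl_fd hh]
  refine h5.congr_deriv ?_
  simp only [Pi.mul_apply]
  have hp := hpos (Real.cosh t • y + Real.sinh t • u)
  generalize Real.cosh t • y + Real.sinh t • u = c at hun hp ⊢
  generalize Real.sinh t • y + Real.cosh t • u = c' at hun hp ⊢
  simp only [inner_zero_right, zero_add, real_inner_comm c c', real_inner_comm c' w]
  field_simp
  linear_combination (-⟪c, w⟫) * hun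

theorem hfl_pos {h : Met n} {Ψ : ℝ → UT h → UT h} (hh : IsHyp 1 h) (hf : IsFlow h Ψ)
    (hu : UniP h) (t : ℝ) (ht : 0 ≤ t) (q : UT h) : (Ψ t q).1 =
    (Real.cosh t • q.1.1 + Real.sinh t • q.1.2, Real.sinh t • q.1.1 + Real.cosh t • q.1.2) := by
  have h1 : GeoOn h (fun s => (Ψ s q).1.1) (fun s => (Ψ s q).1.2) 0 t := fun s _ =>
    ⟨(hf.vel q s).hasDerivWithinAt, fun w => (hf.geo q s w).hasDerivWithinAt⟩
  have h2 := hu _ _ _ _ 0 t h1 (hfl_geo hh q.1.1 q.1.2 q.2 0 t) (by simp [hf.zero])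
    (by simp [hf.zero]) t ⟨ht, le_rfl⟩
  exact Prod.ext h2.1 h2.2

theorem hfl : SHFL := by
  intro n h Ψ hh hf hu hl t q
  rcases le_total 0 t with ht | ht
  · exact hfl_pos hh hf hu t ht q
  · have e : ng (ng q) = q := Subtype.ext (by simp [ng])
    have h1 := hl.rev t (ng q)
    have h2 := hfl_pos hh hf hu (-t) (by linarith) (ng q)
    rw [e] at h1
    rw [h1]
    change ((Ψ (-t) (ng q)).1.1, -(Ψ (-t) (ng q)).1.2) = _
    rw [h2]
    simp [ng, add_comm]

end Pool.Agent.MP_3ee8cb_gt.CR
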