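import Pool.Agent.MP_3ee8cb_gt.CR.SpecA

namespace Pool.Agent.MP_3ee8cb_gt.CR

open Set

variable {n : ℕ}

theorem hr_unit (hn : 0 < n) {g : Met n} (hg : Riem g) (x : E n) :
    ∃ v : E n, g x v v = 1 := by
  have hv : (EuclideanSpace.single (⟨0, hn⟩ : Fin n) (1 : ℝ) : E n) ≠ 0 := by
    intro h
    have := congrArg (fun w : E n => w ⟨0, hn⟩) h
    simp at this
  set v : E n := EuclideanSpace.single (⟨0, hn⟩ : Fin n) (1 : ℝ)
  have hp := hg.pos x v hv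
  refine ⟨(√(g x v v))⁻¹ • v, ?_⟩
  have hs : 0 < √(g x v v) := Real.sqrt_pos.2 hp
  have hq : √(g x v v) * √(g x v v) = g x v v := Real.mul_self_sqrt hp.le
  simp only [map_smul, smul_apply, smul_eq_mul]
  field_simp
  nlinarith [hq]

theorem hr : SHR := by
  intro n g Φ hn hg hΦ hgeo hdbr huni hdb x y
  obtain ⟨σ, h0, hL, hσ⟩ := hgeo x y
  rcases (hdb.nonneg x y).eq_or_lt with h | h
  · obtain ⟨v, hv⟩ := hr_unit hn hg x
    refine ⟨⟨(x, v), hv⟩, rfl, ?_⟩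
    rw [← h, hΦ.zero]
    rw [← h, h0] at hL
    exact hL
  · obtain ⟨σ', hG, hu⟩ := hdbr σ _ h hσ
    rw [h0] at hu
    let p : UT g := ⟨(x, σ' 0), hu⟩
    refine ⟨p, rfl, ?_⟩
    have hG' : GeoOn g (fun s => (Φ s p).1.1) (fun s => (Φ s p).1.2) 0 (dd g x y) :=
      fun t _ => ⟨(hΦ.vel p t).hasDerivWithinAt, fun w => (hΦ.geo p t w).hasDerivWithinAt⟩
    have := huni _ _ _ _ _ _ hG' hG (by simp only [hΦ.zero, h0, p]) (by simp only [hΦ.zero, p])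
      (dd g x y) ⟨h.le, le_rfl⟩
    rw [← hL]
    simpa [hL] using this.1

end Pool.Agent.MP_3ee8cb_gt.CR
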