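import Pool.Agent.MP_3ee8cb_gt.CR.SpecB

/-! The hyperbolic metric is a Riemannian metric. -/

namespace Pool.Agent.MP_3ee8cb_gt.CR

open scoped RealInnerProductSpace

theorem hri : SHRI := by
  intro n h hh
  refine ⟨?_, fun x u v => ?_, fun x v hv => ?_⟩
  · refine contDiff_clm_apply_iff.2 fun u => contDiff_clm_apply_iff.2 fun v => ?_
    have e : (fun x => h x u v) =
        fun x : E n => 1 * (⟪u, v⟫ - ⟪x, u⟫ * ⟪x, v⟫ / (1 + ‖x‖ ^ 2)) := funext fun x => hh x u v
    rw [e]
    refine contDiff_const.mul (contDiff_const.sub (ContDiff.div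
      ((contDiff_id.inner ℝ contDiff_const).mul (contDiff_id.inner ℝ contDiff_const))
      (contDiff_const.add (contDiff_norm_sq ℝ)) fun x => ?_))
    positivity
  · rw [hh, hh, real_inner_comm u v, mul_comm ⟪x, u⟫]
  · rw [hh, one_mul, sub_pos, div_lt_iff₀ (by positivity), real_inner_self_eq_norm_sq]
    have h1 := real_inner_mul_inner_self_le x v
    rw [real_inner_self_eq_norm_sq, real_inner_self_eq_norm_sq] at h1
    have h2 : 0 < ‖v‖ ^ 2 := pow_pos (norm_pos_iff.2 hv) 2
    nlinarith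

end Pool.Agent.MP_3ee8cb_gt.CR
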