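import Pool.Agent.MP_3ee8cb_gt.CR.SpecA

/-! The Riemannian distance is invariant under the deck group. -/

namespace Pool.Agent.MP_3ee8cb_gt.CR

open Set MeasureTheory

variable {n : ℕ}

theorem inv_seg {g : Met n} {Γ : Type} [Group Γ] [MulAction Γ (E n)] (hD : Deck g Γ)
    (hL : LenP g) (γ : Γ) (x y : E n) : dd g (γ • x) (γ • y) ≤ seg g x y := by
  have hs := hD.smooth γ
  have hdiff : Differentiable ℝ fun x : E n => γ • x := hs.differentiable (by norm_num)
  have hcf : Continuous (fderiv ℝ fun x : E n => γ • x) := hs.continuous_fderiv (by norm_num)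
  have hline : ∀ t : ℝ, HasDerivAt (fun t : ℝ => x + t • (y - x)) (y - x) t := by
    intro t
    simpa using ((hasDerivAt_id t).smul_const (y - x)).const_add x
  have h := hL.2 (fun t => γ • (x + t • (y - x)))
    (fun t => fderiv ℝ (fun x : E n => γ • x) (x + t • (y - x)) (y - x)) 0 1 zero_le_one
    (fun t _ => (hdiff (x + t • (y - x))).hasFDerivAt.comp_hasDerivAt t (hline t))
    (by
      apply Continuous.continuousOn
      exact (hcf.comp (by fun_prop)).clm_apply continuous_const)
  simp only [zero_smul, add_zero, one_smul, add_sub_cancel] at h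
  refine h.trans (le_of_eq ?_)
  unfold seg
  refine intervalIntegral.integral_congr fun t _ => ?_
  have := hD.iso γ (x + t • (y - x)) (y - x) (y - x)
  simp only [tm] at this
  simp only [this]

theorem inv_le {g : Met n} {Γ : Type} [Group Γ] [MulAction Γ (E n)] (hD : Deck g Γ)
    (hB : DBP g) (hL : LenP g) (γ : Γ) (x y : E n) : dd g (γ • x) (γ • y) ≤ dd g x y := by
  have h := hB.test (fun w => dd g (γ • x) (γ • w)) (fun a b => by
    have h1 := hB.tri (γ • x) (γ • a) (γ • b)
    have h2 := inv_seg hD hL γ a b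
    linarith) x y
  simpa [hB.refl] using h

theorem inv : SINV := by
  intro n g Γ _ _ _ hD hB hL γ x y
  refine le_antisymm (inv_le hD hB hL γ x y) ?_
  have h := inv_le hD hB hL γ⁻¹ (γ • x) (γ • y)
  simpa using h

end Pool.Agent.MP_3ee8cb_gt.CR
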