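import Pool.Agent.MP_3ee8cb_gt.CR.SpecB

/-! Isometries of hyperbolic space are induced by Lorentz maps. -/

namespace Pool.Agent.MP_3ee8cb_gt.CR

open Set
open scoped RealInnerProductSpace

variable {n : ℕ}

theorem iso_symm (z w : V n) : B z w = B w z := by
  simp only [B, real_inner_comm, mul_comm]

theorem iso_add (z z' w : V n) : B (z + z') w = B z w + B z' w := by
  simp only [B, Prod.fst_add, Prod.snd_add, inner_add_left]; ring

theorem iso_smul (c : ℝ) (z w : V n) : B (c • z) w = c * B z w := by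
  simp only [B, Prod.smul_fst, Prod.smul_snd, real_inner_smul_left, smul_eq_mul]; ring

theorem iso_sum {ι : Type} (s : Finset ι) (c : ι → ℝ) (z : ι → V n) (w : V n) :
    B (∑ j ∈ s, c j • z j) w = ∑ j ∈ s, c j * B (z j) w := by
  classical
  induction s using Finset.induction_on with
  | empty => simp [B]
  | insert a s ha ih => rw [Finset.sum_insert ha, Finset.sum_insert ha, iso_add, iso_smul, ih]

theorem iso_nd {w w' : V n} (h : ∀ z, B z w = B z w') : w = w' := by
  have h1 := h (1, 0)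
  simp only [B, inner_zero_left, zero_sub, one_mul, neg_inj] at h1
  refine Prod.ext h1 (ext_inner_left ℝ fun x => ?_)
  have h2 := h (0, x)
  simpa [B] using h2

/-- The Lorentz product of two points is determined by their distance. -/
theorem iso_cosh {h : Met n} {Ψ : ℝ → UT h → UT h} (L : LorP n) (hh : IsHyp 1 h)
    (hr : HrP h Ψ) (hf : HfP h Ψ) (y y' : E n) : B (up y') (up y) = -Real.cosh (dd h y y') := by
  obtain ⟨p, rfl, h2⟩ := hr y y'
  set d := dd h p.1.1 y'
  have hu := p.2
  rw [hh, one_mul] at hu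
  set y := p.1.1
  set u := p.1.2
  have hy' : y' = Real.cosh d • y + Real.sinh d • u := by rw [← h2, hf]
  have hq : 0 < 1 + ‖y‖ ^ 2 := by positivity
  set s := √(1 + ‖y‖ ^ 2) with hs
  have hs0 : 0 < s := Real.sqrt_pos.2 hq
  have hs2 : s * s = 1 + ‖y‖ ^ 2 := Real.mul_self_sqrt hq.le
  set a := ⟪y, u⟫ / s with ha
  have ha1 : ⟪y, u⟫ = s * a := by rw [ha]; field_simp
  have hU : B (a, u) (a, u) = 1 := by
    simp only [B]
    rw [← hu, ← hs2, ha1]; field_simp
  have hyU : B (a, u) (up y) = 0 := by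
    simp only [B, up]
    rw [real_inner_comm, ha1, ← hs]; ring
  have hlt : a ^ 2 < s ^ 2 := by
    have h1 := abs_real_inner_le_norm y u
    have h3 : ⟪y, u⟫ ^ 2 ≤ (‖y‖ * ‖u‖) ^ 2 := by
      rw [← sq_abs]; exact pow_le_pow_left₀ (abs_nonneg _) h1 2
    have h4 : ‖u‖ ^ 2 = 1 + a ^ 2 := by
      simp only [B, real_inner_self_eq_norm_sq] at hU
      linarith
    rw [mul_pow, h4, ha1] at h3
    have h5 : ‖y‖ ^ 2 = s * s - 1 := by linarith
    rw [h5] at h3
    nlinarith
  have habs : |a| < s := abs_lt_of_sq_lt_sq hlt hs0.le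
  set z : V n := Real.cosh d • up y + Real.sinh d • (a, u) with hz
  have hzy : B z (up y) = -Real.cosh d := by
    rw [hz, iso_add, iso_smul, iso_smul, L.uu, hyU]; ring
  have hzU : B z (a, u) = Real.sinh d := by
    rw [hz, iso_add, iso_smul, iso_smul, hU, iso_symm, hyU]; ring
  have hzz : B z z = -1 := by
    conv_lhs => rw [hz, iso_add, iso_smul, iso_smul, ← hz, iso_symm (up y), iso_symm (a, u),
      hzy, hzU]
    have := Real.cosh_sq d
    nlinarith
  have hz1 : 0 < z.1 := by
    have e : z.1 = Real.cosh d * s + Real.sinh d * a := rfl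
    have h1 := Real.cosh_pos d
    have h3 : |Real.sinh d| < Real.cosh d :=
      abs_lt_of_sq_lt_sq (by rw [Real.cosh_sq]; linarith) h1.le
    have h4 : |Real.sinh d * a| ≤ Real.cosh d * |a| := by
      rw [abs_mul]; exact mul_le_mul_of_nonneg_right h3.le (abs_nonneg a)
    have h5 := neg_abs_le (Real.sinh d * a)
    have h6 := mul_lt_mul_of_pos_left habs h1
    rw [e]; linarith
  have hz2 : z.2 = y' := hy'.symm
  rw [← hz2, L.hyp z hzz hz1, hzy]

/-- Points whose lifts form a basis. -/
noncomputable def iso_p (n : ℕ) : Option (Fin n) → E n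
  | none => 0
  | some i => EuclideanSpace.single i 1

/-- The coordinates in this basis. -/
noncomputable def iso_c (n : ℕ) : Option (Fin n) → V n →L[ℝ] ℝ
  | none => ContinuousLinearMap.fst ℝ ℝ (E n) -
      √2 • ∑ i, (EuclideanSpace.proj i).comp (ContinuousLinearMap.snd ℝ ℝ (E n))
  | some i => (EuclideanSpace.proj i).comp (ContinuousLinearMap.snd ℝ ℝ (E n))

theorem iso_dec (z : V n) : ∑ j, iso_c n j z • up (iso_p n j) = z := by
  have h2 : (1 : ℝ) + 1 = 2 := by norm_num
  refine Prod.ext ?_ ?_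
  · simp [Fintype.sum_option, iso_c, iso_p, up, Prod.fst_sum, h2, ← Finset.sum_mul, mul_comm √2]
  · ext k
    simp [Fintype.sum_option, iso_c, iso_p, up, Prod.snd_sum, Pi.single_apply]

theorem iso_ext {A A' : V n →L[ℝ] V n} (h : ∀ y, A (up y) = A' (up y)) (z : V n) :
    A z = A' z := by
  rw [← iso_dec z, map_sum, map_sum]
  exact Finset.sum_congr rfl fun j _ => by rw [map_smul, map_smul, h]

theorem iso_ex (L : LorP n) (G : E n → E n)
    (hG : ∀ y y', B (up (G y)) (up (G y')) = B (up y) (up y')) :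
    ∃ A : V n →L[ℝ] V n, Lor A ∧ ∀ y, A (up y) = up (G y) := by
  let A : V n →L[ℝ] V n := ∑ j, (iso_c n j).smulRight (up (G (iso_p n j)))
  have hA : ∀ z, A z = ∑ j, iso_c n j z • up (G (iso_p n j)) := fun z => by
    simp [A, ContinuousLinearMap.sum_apply]
  have h1 : ∀ z y, B (A z) (up (G y)) = B z (up y) := by
    intro z y
    conv_rhs => rw [← iso_dec z]
    rw [hA, iso_sum, iso_sum]
    exact Finset.sum_congr rfl fun j _ => by rw [hG]
  have h2 : ∀ z w, B (A z) (A w) = B z w := by
    intro z w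
    conv_rhs => rw [← iso_dec w]
    rw [iso_symm, iso_symm z, hA w, iso_sum, iso_sum]
    exact Finset.sum_congr rfl fun j _ => by rw [iso_symm, h1, iso_symm]
  have hL : Lor A := ⟨h2, by
    have : A (1, 0) = up (G 0) := by
      rw [hA]; simp [Fintype.sum_option, iso_c, iso_p]
    rw [this]
    exact Real.sqrt_pos.2 (by positivity)⟩
  obtain ⟨A', -, -, h3⟩ := L.inv A hL
  refine ⟨A, hL, fun y => iso_nd fun z => ?_⟩
  rw [← h3 z, h1, h2]

/-- The deck group acts by Lorentz maps. -/
theorem iso : SISO := by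
  intro n h Λ _ _ Ψ L hh R hf
  have key : ∀ γ : Λ, ∃ A : V n →L[ℝ] V n, Lor A ∧ ∀ y, A (up y) = up (γ • y) := fun γ =>
    iso_ex L (fun y => γ • y) fun y y' => by
      rw [iso_cosh L hh R.hr hf, iso_cosh L hh R.hr hf, R.inv]
  choose A h1 h2 using key
  refine ⟨A, ⟨h1, fun z => ?_, fun γ δ z => ?_⟩, h2⟩
  · exact iso_ext (A' := ContinuousLinearMap.id ℝ _) (fun y => by rw [h2, one_smul]; rfl) z
  · exact iso_ext (A' := (A γ).comp (A δ))
      (fun y => by rw [ContinuousLinearMap.comp_apply, h2, h2, h2, mul_smul]) z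

end Pool.Agent.MP_3ee8cb_gt.CR
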