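import Pool.Agent.MP_3ee8cb_gt.CR.SpecB

/-! The Jacobian bound for the barycentre map and its equality case. -/

namespace Pool.Agent.MP_3ee8cb_gt.CR

open Set MeasureTheory
open scoped RealInnerProductSpace

variable {n : ℕ}

/-- The Lorentz form as a continuous linear functional. -/
noncomputable def jb_L (y : V n) : V n →L[ℝ] ℝ :=
  (innerSL ℝ y.2).comp (ContinuousLinearMap.snd ℝ ℝ (E n)) -
    y.1 • ContinuousLinearMap.fst ℝ ℝ (E n)

theorem jb_L_apply (y w : V n) : jb_L y w = B y w := by simp [jb_L, B]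

theorem jb_comm (z w : V n) : B z w = B w z := by
  rw [B, B, real_inner_comm, mul_comm]

theorem jb_smul (y w : V n) (t : ℝ) : B y (t • w) = t * B y w := by
  rw [← jb_L_apply, map_smul, jb_L_apply, smul_eq_mul]

theorem jb_add (y w z : V n) : B y (w + z) = B y w + B y z := by
  rw [← jb_L_apply, map_add, jb_L_apply, jb_L_apply]

theorem jb_sub (y w z : V n) : B y (w - z) = B y w - B y z := by
  rw [← jb_L_apply, map_sub, jb_L_apply, jb_L_apply]

/-- A vector orthogonal to `A (1, 0)` is the image of a spatial vector. -/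
theorem jb_orth {A A' : V n →L[ℝ] V n} (hA : Lor A) (h : ∀ z, A (A' z) = z) {z : V n}
    (hz : B (A (1, 0)) z = 0) : z = A (0, (A' z).2) ∧ ‖(A' z).2‖ ^ 2 = B z z := by
  have e : (A' z).1 = 0 := by
    have := hA.pres (1, 0) (A' z)
    rw [h, hz] at this
    simpa [B] using this
  have e' : A' z = (0, (A' z).2) := Prod.ext e rfl
  refine ⟨by rw [← e', h], ?_⟩
  have := hA.pres (A' z) (A' z)
  rw [h] at this
  rw [this, B, e, real_inner_self_eq_norm_sq, mul_zero, sub_zero]

theorem jb_meas {G : Type} [TopologicalSpace G] [TopologicalSpace.PseudoMetrizableSpace G]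
    {μ : Measure (E n)} (h : ∀ᵐ k ∂μ, k ≠ 0) {a : E n → G} (ha : ContinuousOn a {k | k ≠ 0}) :
    AEStronglyMeasurable a μ := by
  have := ha.aestronglyMeasurable (μ := μ) isOpen_ne.measurableSet
  rwa [Measure.restrict_eq_self_of_ae_mem (s := {k | k ≠ 0}) h] at this

theorem jb_nuc (hn : SNUC) (hν : ∀ᵐ k ∂nu n, k ≠ 0) (ρ : E n → ℝ) (hi : Integrable ρ (nu n))
    (hp : ∀ k, k ≠ 0 → 0 < ρ k) (hm : ∫ k, ρ k ∂nu n ≤ n) (a b : E n → E n)
    (ha : ContinuousOn a {k | k ≠ 0}) (hb : ContinuousOn b {k | k ≠ 0})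
    (hu : ∀ k, k ≠ 0 → ‖a k‖ = 1 ∧ ‖b k‖ = 1) (J : E n →L[ℝ] E n)
    (hJ : ∀ u, J u = ∫ k, ρ k • ⟪b k, u⟫ • a k ∂nu n) :
    |J.det| ≤ 1 ∧ (1 ≤ |J.det| → ∀ k, k ≠ 0 → J (b k) = a k) := by
  have hρ : AEMeasurable (fun k => ENNReal.ofReal (ρ k)) (nu n) :=
    hi.1.aemeasurable.ennreal_ofReal
  have h0 : 0 ≤ᵐ[nu n] ρ := hν.mono fun k hk => (hp k hk).le
  have := isFiniteMeasure_withDensity_ofReal hi.2
  have hμ : ∀ᵐ k ∂(nu n).withDensity fun k => ENNReal.ofReal (ρ k), k ≠ 0 :=
    withDensity_absolutelyContinuous _ _ hν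
  obtain ⟨h1, h2⟩ := hn n (E n) ((nu n).withDensity fun k => ENNReal.ofReal (ρ k)) a b J
    (jb_meas hμ ha) (jb_meas hμ hb) (hμ.mono hu) (by
      rw [Measure.real, withDensity_apply _ MeasurableSet.univ, Measure.restrict_univ,
        ← ofReal_integral_eq_lintegral_ofReal hi h0,
        ENNReal.toReal_ofReal (integral_nonneg_of_ae h0)]
      exact hm) fun u => by
      rw [integral_withDensity_eq_integral_toReal_smul₀ hρ
        (.of_forall fun _ => ENNReal.ofReal_lt_top), hJ]
      exact integral_congr_ae (hν.mono fun k hk => by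
        simp only [ENNReal.toReal_ofReal (hp k hk).le])
  refine ⟨h1, fun h => ?_⟩
  have h3 : ∀ᵐ k ∂nu n, J (b k) = a k := by
    filter_upwards [(ae_withDensity_iff' hρ).1 (h2 h), hν] with k hk hk0
    exact hk (ENNReal.ofReal_pos.2 (hp k hk0)).ne'
  have h4 := (ae_withDensity_iff (by fun_prop)).1 h3
  refine Measure.eqOn_open_of_ae_eq (μ := volume) (f := fun k => J (b k)) (U := {k | k ≠ 0})
    ((ae_restrict_iff' isOpen_ne.measurableSet).2 (h4.mono fun k hk hk0 => hk ?_)) isOpen_ne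
    (J.continuous.comp_continuousOn hb) ha
  exact (ENNReal.ofReal_pos.2 (inv_pos.2 (norm_pos_iff.2 hk0))).ne'

theorem jb (hn : SNUC) (hf : SFRAME) : SJB := by
  intro n g Γ _ _ A₀ β v m X H ja ya yt yh yd ff x
  have L := H.lor
  obtain ⟨A, hA, hy⟩ := L.tra (Fm β x)
  obtain ⟨A', -, i1, i2⟩ := L.inv A hA
  obtain ⟨R, hR⟩ := hf n g x H.riem
  have yy := L.uu (Fm β x)
  have ell := L.ell (Fm β x)
  have lift := ff.lift x
  have der := ff.der x
  have hh := yh x (Fm β x)
  have N0 : 0 < √(-B (Y β x) (Y β x)) := Real.sqrt_pos.2 (neg_pos.2 (yt x).1)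
  generalize √(-B (Y β x) (Y β x)) = N at lift der N0
  let P : V n →L[ℝ] E n := (ContinuousLinearMap.snd ℝ ℝ (E n)).comp A'
  have hP : ∀ z, P z = (A' z).2 := fun _ => rfl
  have Py : P (up (Fm β x)) = 0 := by rw [hP, ← hy, i1]
  let J : E n →L[ℝ] E n := P.comp ((Z (Fm β) x).comp (R : E n →L[ℝ] E n))
  have zo : ∀ u, B (A (1, 0)) (Z (Fm β) x u) = 0 := fun u => by
    rw [hy, der, jb_smul, jb_add, jb_smul, yy, jb_comm]
    ring
  have hT : ∀ a, Z (Fm β) x (R a) = A (0, J a) := fun a => (jb_orth hA i2 (zo (R a))).1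
  let z : E n → V n := fun k => (-B (up (Fm β x)) (cn k))⁻¹ • cn k - up (Fm β x)
  have z1 : ∀ k, k ≠ 0 → B (up (Fm β x)) (z k) = 0 := fun k hk => by
    have := (neg_pos.1 (ell k hk)).ne
    rw [jb_sub, jb_smul, yy]
    field_simp
    ring
  have z2 : ∀ k, k ≠ 0 → B (z k) (z k) = 1 := fun k hk => by
    have := (neg_pos.1 (ell k hk)).ne
    rw [jb_sub, jb_smul, jb_comm (z k) (up _), z1 k hk, jb_comm (z k), jb_sub, jb_smul, L.cc,
      L.bd.self, jb_comm (cn k)]
    field_simp
    ring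
  have cc : Continuous (cn : E n → V n) := continuous_norm.prodMk continuous_id
  have cl : Continuous fun k => -B (up (Fm β x)) (cn k) := by
    simp only [← jb_L_apply]
    fun_prop
  have hb : ContinuousOn (fun k => R.symm (v x k)) {k | k ≠ 0} :=
    R.symm.continuous.comp_continuousOn (H.bd.cv.comp (f := fun k => (x, k)) (by fun_prop)
      fun _ hk => hk)
  have ub : ∀ k, k ≠ 0 → ‖R.symm (v x k)‖ = 1 := fun k hk => by
    have := hR (R.symm (v x k)) (R.symm (v x k))
    rw [R.apply_symm_apply, H.bd.unit x k hk, real_inner_self_eq_norm_sq] at this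
    exact (pow_eq_one_iff_of_nonneg (norm_nonneg _) two_ne_zero).1 this.symm
  have hN : ∫ k, Real.exp (-β x k) * -B (up (Fm β x)) (cn k) ∂nu n = N := by
    have e := (jb_L (up (Fm β x))).integral_comp_comm (ya.int x)
    have e2 : B (up (Fm β x)) (Y β x) = -N := by
      have := jb_smul (up (Fm β x)) (Y β x) N⁻¹
      rw [← lift, yy] at this
      field_simp at this
      linarith
    simp only [map_smul, jb_L_apply, smul_eq_mul] at e
    simp only [mul_neg, integral_neg, e]
    exact neg_eq_iff_eq_neg.2 e2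
  have hi : Integrable (fun k => β x k * Real.exp (-β x k) * -B (up (Fm β x)) (cn k)) (nu n) := by
    have := ((jb_L (up (Fm β x))).integrable_comp (ya.int' x)).neg
    refine this.congr (.of_forall fun k => ?_)
    simp [jb_L_apply]
  obtain ⟨h1, h2⟩ := jb_nuc hn ya.ne
    (fun k => N⁻¹ * (β x k * Real.exp (-β x k) * -B (up (Fm β x)) (cn k))) (hi.const_mul _)
    (fun k hk => mul_pos (inv_pos.2 N0)
      (mul_pos (mul_pos (H.bd.pos x k hk) (Real.exp_pos _)) (ell k hk)))
    (by rw [integral_const_mul, inv_mul_le_iff₀ N0, mul_comm, ← hN]; exact hh)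
    (fun k => P (z k)) (fun k => R.symm (v x k))
    (P.continuous.comp_continuousOn (((cl.continuousOn.inv₀ fun k hk => (ell k hk).ne').smul
      cc.continuousOn).sub continuousOn_const)) hb
    (fun k hk => ⟨(pow_eq_one_iff_of_nonneg (norm_nonneg _) two_ne_zero).1
      ((jb_orth hA i2 (hy ▸ z1 k hk)).2.trans (z2 k hk)), ub k hk⟩) J fun u => by
      have e : ∀ k, g x (v x k) (R u) = ⟪R.symm (v x k), u⟫ := fun k => by
        rw [← hR, R.apply_symm_apply]
      have it : Integrable (fun k => (β x k * Real.exp (-β x k) * g x (v x k) (R u)) • cn k)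
          (nu n) := by
        have := (ya.int' x).bdd_smul (φ := fun k => ⟪R.symm (v x k), u⟫) ‖u‖
          (jb_meas ya.ne (hb.inner continuousOn_const)) (ya.ne.mono fun k hk => by
            simpa [ub k hk] using norm_inner_le_norm (𝕜 := ℝ) (R.symm (v x k)) u)
        refine this.congr (.of_forall fun k => ?_)
        simp only [Pi.smul_apply', smul_smul, e, mul_comm]
      change P (Z (Fm β) x (R u)) = _
      rw [der, map_smul, map_add, map_smul, Py, smul_zero, add_zero, yd.2,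
        ← P.integral_comp_comm it, ← integral_smul]
      refine integral_congr_ae (ya.ne.mono fun k hk => ?_)
      have := (neg_pos.1 (ell k hk)).ne
      simp only [z, map_sub, map_smul, Py, sub_zero, smul_smul, e]
      congr 1
      field_simp
  obtain ⟨j1, j2, j3⟩ := ja g x (Fm β x) R A (Z (Fm β) x) J hR hA hy hT
  rw [I, j1]
  refine ⟨mul_le_of_le_one_left' (ENNReal.ofReal_le_one.2 h1), fun h k hk => ?_⟩
  have h3 : 1 ≤ ENNReal.ofReal |J.det| :=
    (ENNReal.mul_le_mul_iff_left j2 j3).1 (by rwa [one_mul])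
  have := hT (R.symm (v x k))
  rw [R.apply_symm_apply, h2 (ENNReal.one_le_ofReal.1 h3) k hk] at this
  exact this.trans (jb_orth hA i2 (hy ▸ z1 k hk)).1.symm

end Pool.Agent.MP_3ee8cb_gt.CR
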