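import Pool.Agent.MP_3ee8cb_gt.CR.SpecA

namespace Pool.Agent.MP_3ee8cb_gt.CR

open Set MeasureTheory
open scoped RealInnerProductSpace

lemma left_exp {t T : ℝ} (h : |t| ≤ T) : Real.exp t ≤ 1 + t + Real.exp T * t ^ 2 := by
  have hT : 0 ≤ T := (abs_nonneg t).trans h
  have h1 : 1 ≤ Real.exp T := Real.one_le_exp hT
  have hp := Real.exp_pos t
  have h2 : Real.exp t * (1 - t) ≤ 1 := by
    have h3 : 1 - t ≤ Real.exp (-t) := by linarith [Real.add_one_le_exp (-t)]
    calc Real.exp t * (1 - t) ≤ Real.exp t * Real.exp (-t) := mul_le_mul_of_nonneg_left h3 hp.le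
      _ = 1 := by rw [← Real.exp_add]; simp
  have h4 : t + 1 ≤ Real.exp t := Real.add_one_le_exp t
  have h5 : Real.exp t ≤ Real.exp T := Real.exp_le_exp.2 (le_abs_self t |>.trans h)
  rcases le_total 0 t with ht | ht
  · have h6 : t * (Real.exp t - 1) ≤ t * (t * Real.exp T) := by
      apply mul_le_mul_of_nonneg_left _ ht
      nlinarith
    nlinarith
  · have h6 : t * (Real.exp t - 1) ≤ t * t := mul_le_mul_of_nonpos_left (by linarith) ht
    have h7 : t * t ≤ Real.exp T * t ^ 2 := by nlinarith [mul_self_nonneg t]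
    nlinarith

/-- The vector dual to a covector. -/
noncomputable def left_G {n : ℕ} (f : E n →L[ℝ] ℝ) : E n :=
  (InnerProductSpace.toDual ℝ (E n)).symm f

lemma left_G_inner {n : ℕ} (f : E n →L[ℝ] ℝ) (w : E n) : ⟪left_G f, w⟫ = f w := by
  simp [left_G, InnerProductSpace.toDual_symm_apply]

lemma left_G_norm {n : ℕ} (f : E n →L[ℝ] ℝ) : ‖left_G f‖ = ‖f‖ := by
  simp [left_G]

lemma left_G_cont {n : ℕ} : Continuous (left_G (n := n)) :=
  (InnerProductSpace.toDual ℝ (E n)).symm.continuous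

theorem left (hsv : SSV) : SLEFT := by
  intro n g Γ _ _ l a β v m q X D hg hb hq hD hDb
  obtain ⟨R₀, hR₀⟩ := hDb.subset_closedBall (0 : E n)
  set R := max R₀ 0 with hRdef
  have hR0 : 0 ≤ R := le_max_right _ _
  have hR : ∀ x ∈ D, ‖x‖ ≤ R := fun x hx =>
    (mem_closedBall_zero_iff.1 (hR₀ hx)).trans (le_max_left _ _)
  set A : Set (E n × E n) := {a | a.1 ∈ D ∧ a.2 ≠ 0 ∧ β a.1 a.2 ≤ 1} with hA
  have hU : IsOpen {w : E n × E n | w.2 ≠ 0} := isOpen_ne.preimage continuous_snd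
  have hAU : A ⊆ {w : E n × E n | w.2 ≠ 0} := fun w hw => hw.2.1
  have hAm : MeasurableSet A := by
    have h1 : IsOpen ({w : E n × E n | w.2 ≠ 0} ∩ (fun w : E n × E n => β w.1 w.2) ⁻¹' Ioi 1) :=
      hb.cb.isOpen_inter_preimage hU isOpen_Ioi
    have h2 : A = (Prod.fst ⁻¹' D) ∩ ({w : E n × E n | w.2 ≠ 0} \
        ({w : E n × E n | w.2 ≠ 0} ∩ (fun w : E n × E n => β w.1 w.2) ⁻¹' Ioi 1)) := by
      ext w
      simp only [hA, mem_setOf_eq, mem_inter_iff, mem_preimage, mem_diff, mem_Ioi, not_and, not_lt]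
      tauto
    rw [h2]
    exact (measurable_fst hD).inter (hU.measurableSet.diff h1.measurableSet)
  -- compactness bounds
  have hK : IsCompact ((Metric.closedBall (0 : E n) R) ×ˢ (Metric.sphere (0 : E n) 1)) :=
    (isCompact_closedBall _ _).prod (isCompact_sphere _ _)
  have hKU : (Metric.closedBall (0 : E n) R) ×ˢ (Metric.sphere (0 : E n) 1) ⊆
      {w : E n × E n | w.2 ≠ 0} := by
    intro w hw h0
    have h1 := mem_sphere_zero_iff_norm.1 hw.2
    rw [h0] at h1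
    simp at h1
  obtain ⟨c, hc0, hc⟩ := hK.exists_forall_le' (hb.cb.mono hKU)
    (a := 0) (fun w hw => hb.pos w.1 w.2 (hKU hw))
  have hgv : ContinuousOn (fun w : E n × E n => g w.1 (v w.1 w.2)) {w : E n × E n | w.2 ≠ 0} :=
    ((hg.smooth.continuous.comp continuous_fst).continuousOn).clm_apply hb.cv
  obtain ⟨M₀, hM₀⟩ := hK.exists_bound_of_continuousOn (hgv.mono hKU)
  set M := max M₀ 0 with hMdef
  have hM0 : 0 ≤ M := le_max_right _ _
  have hunit : ∀ x k : E n, ‖x‖ ≤ R → k ≠ 0 → c * ‖k‖ ≤ β x k ∧ ‖g x (v x k)‖ ≤ M := by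
    intro x k hx hk
    have hn : 0 < ‖k‖ := norm_pos_iff.2 hk
    have hmem : (x, ‖k‖⁻¹ • k) ∈
        (Metric.closedBall (0 : E n) R) ×ˢ (Metric.sphere (0 : E n) 1) := by
      refine ⟨mem_closedBall_zero_iff.2 hx, mem_sphere_zero_iff_norm.2 ?_⟩
      rw [norm_smul, norm_inv, norm_norm, inv_mul_cancel₀ hn.ne']
    obtain ⟨h1, h2, -⟩ := hb.hom x k ‖k‖⁻¹ hk (inv_pos.2 hn)
    have h3 := hc _ hmem
    have h4 := hM₀ _ hmem
    simp only at h3 h4
    rw [h1] at h3
    rw [h2] at h4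
    refine ⟨?_, h4.trans (le_max_left _ _)⟩
    have h5 := mul_le_mul_of_nonneg_right h3 hn.le
    calc c * ‖k‖ ≤ ‖k‖⁻¹ * β x k * ‖k‖ := h5
      _ = β x k := by field_simp
  have hAb : Bornology.IsBounded A := by
    refine ((Metric.isBounded_closedBall (x := (0 : E n)) (r := R)).prod
      (Metric.isBounded_closedBall (x := (0 : E n)) (r := c⁻¹))).subset ?_
    intro w hw
    refine ⟨mem_closedBall_zero_iff.2 (hR _ hw.1), mem_closedBall_zero_iff.2 ?_⟩
    have h1 := (hunit w.1 w.2 (hR _ hw.1) hw.2.1).1.trans hw.2.2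
    rw [← one_div, le_div_iff₀ hc0]
    linarith
  set P : E n × E n → E n := fun w => (-β w.1 w.2) • left_G (g w.1 (v w.1 w.2)) with hP
  set Q : E n × E n → E n := fun w => q w.2 (m w.1 w.2) with hQ
  have hl : ∀ x k : E n, k ≠ 0 → 0 < l k (m x k) := by
    intro x k hk
    rw [hb.tou x k hk]
    linarith [hb.pos x k hk]
  have hPb : Bornology.IsBounded (P '' A) := by
    refine (Metric.isBounded_closedBall (x := (0 : E n)) (r := M)).subset ?_
    rintro _ ⟨w, hw, rfl⟩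
    rw [mem_closedBall_zero_iff]
    have h1 := (hunit w.1 w.2 (hR _ hw.1) hw.2.1).2
    have h2 := hb.pos w.1 w.2 hw.2.1
    have h3 := hw.2.2
    simp only [hP]
    rw [norm_smul, left_G_norm, Real.norm_eq_abs, abs_neg, abs_of_pos h2]
    nlinarith [norm_nonneg (g w.1 (v w.1 w.2))]
  have hPc : ContinuousOn P A :=
    ((hb.cb.neg).smul (left_G_cont.comp_continuousOn hgv)).mono hAU
  have hQc : ContinuousOn Q A := by
    have h1 : ContinuousOn (fun w : E n × E n => (w.2, m w.1 w.2)) A :=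
      continuous_snd.continuousOn.prodMk (hb.cm.mono hAU)
    exact hq.cont.comp h1 (fun w hw => ⟨hw.2.1, hl w.1 w.2 hw.2.1⟩)
  have hinj : InjOn (fun a : E n × E n => (a.2, Q a)) A := by
    rintro ⟨x, k⟩ hw ⟨x', k'⟩ hw' h
    simp only [hQ, Prod.mk.injEq] at h
    obtain ⟨rfl, h⟩ := h
    have hk : k ≠ 0 := hw.2.1
    have h1 := hq.inj k _ _ hk (hl x k hk) (hl x' k hk) h
    rw [hb.inj x x' k hk h1]
  obtain ⟨C₀, hC₀⟩ := hb.tay R
  set L := M + |C₀| * (2 * R) with hL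
  have hL0 : 0 ≤ L := by positivity
  have hx : ∀ a ∈ A, ∀ b ∈ A, β b.1 a.2 ≤ β a.1 a.2 + ⟪P a, b.1 - a.1⟫ +
      (|C₀| + Real.exp (L * (2 * R)) * L ^ 2) * ‖b.1 - a.1‖ ^ 2 := by
    rintro ⟨x, k⟩ hw ⟨x', k'⟩ hw'
    have hk : k ≠ 0 := hw.2.1
    have hβ1 : β x k ≤ 1 := hw.2.2
    have hxR := hR x hw.1
    have hxR' := hR x' hw'.1
    have hβ := hb.pos x k hk
    have hβ' := hb.pos x' k hk
    simp only [hP]
    rw [real_inner_smul_left, left_G_inner]
    set r := ‖x' - x‖ with hr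
    set s := g x (v x k) (x' - x) with hs
    have hr0 : 0 ≤ r := norm_nonneg _
    have hr2 : r ≤ 2 * R := (norm_sub_le x' x).trans (by linarith)
    have hsM : |s| ≤ M * r := by
      have h1 := (g x (v x k)).le_opNorm (x' - x)
      rw [Real.norm_eq_abs] at h1
      exact h1.trans (mul_le_mul_of_nonneg_right (hunit x k hxR hk).2 hr0)
    have h1 := (abs_le.1 (hC₀ x x' k hxR hxR' hk)).2
    rw [← hr, ← hs] at h1
    set t := -s + |C₀| * r ^ 2 with ht
    have h2 : Real.log (β x' k) ≤ Real.log (β x k) + t := by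
      have h3 : C₀ * r ^ 2 ≤ |C₀| * r ^ 2 :=
        mul_le_mul_of_nonneg_right (le_abs_self _) (sq_nonneg r)
      linarith
    have h3 : β x' k ≤ β x k * Real.exp t := by
      have h4 := Real.exp_le_exp.2 h2
      rwa [Real.exp_add, Real.exp_log hβ, Real.exp_log hβ'] at h4
    have hC : 0 ≤ |C₀| := abs_nonneg _
    have h4 : |t| ≤ L * r := by
      have h5 : |t| ≤ |s| + |C₀| * r ^ 2 := by
        have h6 := abs_add_le (-s) (|C₀| * r ^ 2)
        rwa [abs_neg, abs_of_nonneg (a := |C₀| * r ^ 2) (by positivity)] at h6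
      have h7 : |C₀| * r ^ 2 ≤ |C₀| * (2 * R) * r := by
        have h8 : r ^ 2 ≤ 2 * R * r := by nlinarith
        calc |C₀| * r ^ 2 ≤ |C₀| * (2 * R * r) := mul_le_mul_of_nonneg_left h8 hC
          _ = _ := by ring
      rw [hL]
      linarith
    have h5 : |t| ≤ L * (2 * R) := h4.trans (mul_le_mul_of_nonneg_left hr2 hL0)
    have h6 := left_exp h5
    have h7 : t ^ 2 ≤ L ^ 2 * r ^ 2 := by
      have h8 := pow_le_pow_left₀ (abs_nonneg t) h4 2
      rwa [sq_abs, mul_pow] at h8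
    set e := Real.exp (L * (2 * R)) with he
    have he0 : 0 < e := Real.exp_pos _
    have h8 : Real.exp t ≤ 1 - s + (|C₀| + e * L ^ 2) * r ^ 2 := by
      have h9 := mul_le_mul_of_nonneg_left h7 he0.le
      nlinarith
    have h9 : 0 ≤ (|C₀| + e * L ^ 2) * r ^ 2 := by positivity
    have h10 := mul_le_mul_of_nonneg_left h8 hβ.le
    have h11 := mul_le_mul_of_nonneg_right hβ1 h9
    nlinarith
  have hk : ∀ a ∈ A, ∀ b ∈ A, β a.1 a.2 + ⟪Q a, b.2 - a.2⟫ ≤ β a.1 b.2 := by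
    rintro ⟨x, k⟩ hw ⟨x', k'⟩ hw'
    have hk : k ≠ 0 := hw.2.1
    have hk' : k' ≠ 0 := hw'.2.1
    simp only [hQ]
    rw [inner_sub_right]
    have h1 := hq.sup k (m x k) k' hk (hl x k hk)
    have h2 := hq.tou k (m x k) hk (hl x k hk)
    have h3 := hb.sup x k k' hk hk'
    have h4 := hb.tou x k hk
    linarith
  have hmain := hsv n A β P Q _ hAm hAb hPb hPc hQc hx hk hinj
  refine ⟨hAm.image_of_continuousOn_injOn (continuous_snd.continuousOn.prodMk hQc) hinj,
    (measure_mono ?_).trans hmain⟩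
  rintro ⟨x, z⟩ ⟨hxD, u, hu0, hu1, hu⟩
  simp only at hxD hu1 hu
  have hgu := hg.pos x u hu0
  set s := √(g x u u) with hs
  have hs0 : 0 < s := Real.sqrt_pos.2 hgu
  have hss : s * s = g x u u := Real.mul_self_sqrt hgu.le
  have hs1 : s ≤ 1 := by nlinarith
  obtain ⟨k, hk0, hkv⟩ := hb.onto x ((-s⁻¹) • u) (by
    simp only [map_smul, ContinuousLinearMap.smul_apply, smul_eq_mul]
    rw [← hss]
    field_simp)
  have hβ := hb.pos x k hk0
  have ht : 0 < s / β x k := div_pos hs0 hβ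
  obtain ⟨h1, h2, -⟩ := hb.hom x k (s / β x k) hk0 ht
  have h3 : β x ((s / β x k) • k) = s := by rw [h1]; field_simp
  refine ⟨(x, (s / β x k) • k), ⟨hxD, smul_ne_zero ht.ne' hk0, h3.le.trans hs1⟩, ?_⟩
  simp only [hP, Prod.mk.injEq, true_and]
  rw [h3, h2, hkv]
  apply ext_inner_right ℝ
  intro w
  rw [real_inner_smul_left, left_G_inner, hu w]
  simp only [map_smul, ContinuousLinearMap.smul_apply, smul_eq_mul]
  field_simp

end Pool.Agent.MP_3ee8cb_gt.CR
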