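import Pool.Agent.MP_3ee8cb_gt.CR.SpecA

/-! The distance between the ends of a curve is at most its length. -/

namespace Pool.Agent.MP_3ee8cb_gt.CR

open Set MeasureTheory Filter Topology

variable {n : ℕ}

theorem len_sq (g : Met n) (x v : E n) (M : ℝ) (hM : ‖g x‖ ≤ M) :
    √(g x v v) ≤ √M * ‖v‖ := by
  have h0 : 0 ≤ M := (ContinuousLinearMap.opNorm_nonneg (g x)).trans hM
  have h1 : g x v v ≤ M * ‖v‖ ^ 2 := by
    calc g x v v ≤ ‖g x v v‖ := le_abs_self _
      _ ≤ ‖g x‖ * ‖v‖ * ‖v‖ := (g x).le_opNorm₂ v v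
      _ ≤ M * ‖v‖ * ‖v‖ := by gcongr
      _ = M * ‖v‖ ^ 2 := by ring
  calc √(g x v v) ≤ √(M * ‖v‖ ^ 2) := Real.sqrt_le_sqrt h1
    _ = √M * ‖v‖ := by rw [Real.sqrt_mul h0, Real.sqrt_sq (norm_nonneg _)]

theorem len_seg (g : Met n) (R M : ℝ) (hM : ∀ z : E n, ‖z‖ ≤ R → ‖g z‖ ≤ M) (x y : E n)
    (hx : ‖x‖ ≤ R) (hy : ‖y‖ ≤ R) : seg g x y ≤ √M * ‖y - x‖ := by
  have h := intervalIntegral.norm_integral_le_of_norm_le_const (a := (0 : ℝ)) (b := 1)
    (C := √M * ‖y - x‖) (f := fun t : ℝ => √(g (x + t • (y - x)) (y - x) (y - x))) (by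
      intro t ht
      rw [uIoc_of_le zero_le_one] at ht
      rw [Real.norm_of_nonneg (Real.sqrt_nonneg _)]
      refine len_sq g _ _ M (hM _ ?_)
      have e : x + t • (y - x) = (1 - t) • x + t • y := by
        rw [smul_sub, sub_smul, one_smul]; abel
      rw [e]
      calc ‖(1 - t) • x + t • y‖ ≤ ‖(1 - t) • x‖ + ‖t • y‖ := norm_add_le _ _
        _ = (1 - t) * ‖x‖ + t * ‖y‖ := by
          rw [norm_smul, norm_smul, Real.norm_of_nonneg (by linarith [ht.2]),
            Real.norm_of_nonneg ht.1.le]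
        _ ≤ (1 - t) * R + t * R := by
          have := ht.1.le
          have : 0 ≤ 1 - t := by linarith [ht.2]
          gcongr
        _ = R := by ring)
  simp only [sub_zero, abs_one, mul_one] at h
  exact (le_abs_self _).trans h

theorem len_der (g : Met n) (db : DBP g) (c : ℝ → E n) (x : E n) (t f' : ℝ) (c' : E n)
    (hc : HasDerivAt c c' t) (hf : HasDerivAt (fun s => dd g x (c s)) f' t) :
    f' ≤ √(g (c t) c' c') := by
  have key : ∀ ε : ℝ, 0 < ε → f' ≤ (1 + ε) * √(g (c t) c' c') := by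
    intro ε hε
    obtain ⟨r, hr, hu⟩ := db.upp (c t) ε hε
    have hle : 𝓝[>] t ≤ 𝓝[≠] t := nhdsGT_le_nhdsNE t
    have h1 := (hasDerivAt_iff_tendsto_slope.1 hf).mono_left hle
    have h2 := (hasDerivAt_iff_tendsto_slope.1 hc).mono_left hle
    have hq : Continuous fun v : E n => (1 + ε) * √(g (c t) v v) := by fun_prop
    have h3 := (hq.tendsto c').comp h2
    refine le_of_tendsto_of_tendsto h1 h3 ?_
    have h4 : ∀ᶠ s in 𝓝[>] t, ‖c s - c t‖ ≤ r := by
      have := hc.continuousAt.tendsto.eventually (Metric.closedBall_mem_nhds (c t) hr)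
      filter_upwards [this.filter_mono nhdsWithin_le_nhds] with s hs
      rwa [dist_eq_norm] at hs
    filter_upwards [h4, self_mem_nhdsWithin] with s hs hst
    have hp : 0 < s - t := sub_pos.2 hst
    have h5 := hu (c t) (c s) (by simpa using hr.le) hs
    have h6 := db.tri x (c t) (c s)
    have h7 := db.le_seg (c t) (c s)
    have e : g (c t) (slope c t s) (slope c t s) =
        (s - t)⁻¹ ^ 2 * g (c t) (c s - c t) (c s - c t) := by
      simp only [slope, vsub_eq_sub, map_smul, smul_apply, smul_eq_mul]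
      ring
    change slope (fun s => dd g x (c s)) t s ≤ (1 + ε) * √(g (c t) (slope c t s) (slope c t s))
    rw [e, Real.sqrt_mul (sq_nonneg _), Real.sqrt_sq (inv_nonneg.2 hp.le)]
    simp only [slope, vsub_eq_sub, smul_eq_mul]
    have h8 : dd g x (c s) - dd g x (c t) ≤ (1 + ε) * √(g (c t) (c s - c t) (c s - c t)) := by
      linarith
    calc (s - t)⁻¹ * (dd g x (c s) - dd g x (c t))
        ≤ (s - t)⁻¹ * ((1 + ε) * √(g (c t) (c s - c t) (c s - c t))) :=
          mul_le_mul_of_nonneg_left h8 (inv_nonneg.2 hp.le)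
      _ = _ := by ring
  have hq : Continuous fun ε : ℝ => (1 + ε) * √(g (c t) c' c') := by fun_prop
  have h1 : Tendsto (fun ε : ℝ => (1 + ε) * √(g (c t) c' c')) (𝓝[>] 0)
      (𝓝 ((1 + 0) * √(g (c t) c' c'))) := (hq.tendsto 0).mono_left nhdsWithin_le_nhds
  rw [add_zero, one_mul] at h1
  exact ge_of_tendsto h1 (by filter_upwards [self_mem_nhdsWithin] with ε hε using key ε hε)

theorem len_lip (g : Met n) (hg : Riem g) (db : DBP g) (c : ℝ → E n) (a b : ℝ) (K : NNReal)
    (hab : a ≤ b) (hc : LipschitzOnWith K c (Icc a b)) :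
    dd g (c a) (c b) ≤ ∫ t in a..b, √(g (c t) (deriv c t) (deriv c t)) := by
  obtain ⟨R, hR⟩ := isCompact_Icc.exists_bound_of_continuousOn hc.continuousOn
  obtain ⟨M, hM⟩ := (isCompact_closedBall (0 : E n) R).exists_bound_of_continuousOn
    (E := E n →L[ℝ] E n →L[ℝ] ℝ) (f := g) hg.smooth.continuous.continuousOn
  have hM' : ∀ z : E n, ‖z‖ ≤ R → ‖g z‖ ≤ M := fun z hz => hM z (by simpa using hz)
  have hf : LipschitzOnWith (NNReal.mk (√M * K) (by positivity)) (fun s => dd g (c a) (c s))
      (uIcc a b) := by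
    rw [uIcc_of_le hab]
    refine LipschitzOnWith.of_le_add_mul _ fun s hs t ht => ?_
    have h1 := db.tri (c a) (c t) (c s)
    have h2 := db.le_seg (c t) (c s)
    have h3 := len_seg g R M hM' (c t) (c s) (hR t ht) (hR s hs)
    have h4 := hc.dist_le_mul s hs t ht
    rw [dist_eq_norm] at h4
    have h5 := mul_le_mul_of_nonneg_left h4 (Real.sqrt_nonneg M)
    change dd g (c a) (c s) ≤ dd g (c a) (c t) + √M * K * dist s t
    linarith
  have hac := hf.absolutelyContinuousOnInterval
  have hftc := hac.integral_deriv_eq_sub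
  rw [db.refl, sub_zero] at hftc
  rw [← hftc]
  have hcu : LipschitzOnWith K c (uIcc a b) := by rwa [uIcc_of_le hab]
  have hcd := hcu.absolutelyContinuousOnInterval.boundedVariationOn.ae_differentiableAt_of_mem_uIcc
  have hint : IntervalIntegrable (fun t => √(g (c t) (deriv c t) (deriv c t))) volume a b := by
    rw [intervalIntegrable_iff_integrableOn_Ioo_of_le hab]
    have m1 : AEStronglyMeasurable c (volume.restrict (Ioo a b)) :=
      (hc.continuousOn.mono Ioo_subset_Icc_self).aestronglyMeasurable measurableSet_Ioo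
    have m2 : AEStronglyMeasurable (deriv c) (volume.restrict (Ioo a b)) :=
      aestronglyMeasurable_deriv c _
    have hq : Continuous fun z : E n × E n => √(g z.1 z.2 z.2) := by
      exact (((hg.smooth.continuous.comp continuous_fst).clm_apply continuous_snd).clm_apply
        continuous_snd).sqrt
    refine IntegrableOn.of_bound (by simp) (hq.comp_aestronglyMeasurable (m1.prodMk m2))
      (√M * K) ?_
    filter_upwards [ae_restrict_mem measurableSet_Ioo] with t ht
    rw [Real.norm_of_nonneg (Real.sqrt_nonneg _)]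
    refine (len_sq g _ _ M (hM' _ (hR t (Ioo_subset_Icc_self ht)))).trans ?_
    exact mul_le_mul_of_nonneg_left (norm_deriv_le_of_lipschitzOn (Icc_mem_nhds ht.1 ht.2) hc)
      (Real.sqrt_nonneg M)
  refine intervalIntegral.integral_mono_ae_restrict hab hac.intervalIntegrable_deriv hint ?_
  rw [EventuallyLE, ae_restrict_iff' measurableSet_Icc]
  filter_upwards [hcd, hac.ae_differentiableAt] with t h1 h2 ht
  rw [uIcc_of_le hab] at h1 h2
  exact len_der g db c (c a) t _ _ (h1 ht).hasDerivAt (h2 ht).hasDerivAt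

theorem len : SLEN := by
  intro n g hg db
  refine ⟨fun c a b K hab hc => len_lip g hg db c a b K hab hc, fun c c' a b hab hd hc => ?_⟩
  obtain ⟨C, hC⟩ := isCompact_Icc.exists_bound_of_continuousOn hc
  have hl : LipschitzOnWith C.toNNReal c (Icc a b) :=
    (convex_Icc a b).lipschitzOnWith_of_nnnorm_hasDerivWithin_le
      (fun t ht => (hd t ht).hasDerivWithinAt) fun t ht => by
        rw [← NNReal.coe_le_coe, coe_nnnorm]
        exact (hC t ht).trans (Real.le_coe_toNNReal C)
  refine (len_lip g hg db c a b _ hab hl).trans (le_of_eq ?_)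
  refine intervalIntegral.integral_congr fun t ht => ?_
  rw [uIcc_of_le hab] at ht
  simp only [(hd t ht).deriv]

end Pool.Agent.MP_3ee8cb_gt.CR
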