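import Pool.Agent.MP_3ee8cb_gt.CR.SpecA
import Pool.Agent.MP_3ee8cb_gt.G76.Lift

/-! Row LIFT: the conjugacy lifts to the unit tangent bundles of the universal covers. -/

namespace Pool.Agent.MP_3ee8cb_gt.CR

open Topology

variable {n : ℕ}

theorem lift_tm_one {Γ : Type} [Group Γ] [MulAction Γ (E n)] (p : E n × E n) :
    tm (1 : Γ) p = p := by
  have h : (fun y : E n => (1 : Γ) • y) = id := funext fun y => one_smul Γ y
  unfold tm
  rw [h, fderiv_id, one_smul]
  rfl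

theorem lift_tm_mul {g : Met n} {Γ : Type} [Group Γ] [MulAction Γ (E n)] (d : Deck g Γ)
    (γ δ : Γ) (p : E n × E n) : tm (γ * δ) p = tm γ (tm δ p) := by
  have h : (fun y : E n => (γ * δ) • y) = (fun y : E n => γ • y) ∘ fun y : E n => δ • y :=
    funext fun y => mul_smul γ δ y
  unfold tm
  rw [h, fderiv_comp _ ((d.smooth γ).differentiable one_ne_zero _)
    ((d.smooth δ).differentiable one_ne_zero _), mul_smul]
  rfl

theorem lift_tm_cont {g : Met n} {Γ : Type} [Group Γ] [MulAction Γ (E n)] (d : Deck g Γ)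
    (γ : Γ) : Continuous fun p : E n × E n => tm γ p :=
  ((d.smooth γ).continuous.comp continuous_fst).prodMk
    ((((d.smooth γ).continuous_fderiv one_ne_zero).comp continuous_fst).clm_apply continuous_snd)

/-- The action on unit tangent vectors. -/
@[reducible] noncomputable def lift_act {g : Met n} {Γ : Type} [Group Γ] [MulAction Γ (E n)]
    (d : Deck g Γ) : MulAction Γ (UT g) where
  smul γ p := ⟨tm γ p.1, (d.iso γ p.1.1 p.1.2 p.1.2).trans p.2⟩
  one_smul p := Subtype.ext (lift_tm_one p.1)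
  mul_smul γ δ p := Subtype.ext (lift_tm_mul d γ δ p.1)

theorem lift_cov {g : Met n} {Γ : Type} [Group Γ] [MulAction Γ (E n)] (d : Deck g Γ) :
    letI := lift_act d
    IsQuotientCoveringMap (Quot.mk _ : UT g → UM g Γ) Γ := by
  letI := lift_act d
  have := d.disc
  have : ContinuousConstSMul Γ (E n) := ⟨fun γ => (d.smooth γ).continuous⟩
  have heq : Equivalence fun p q : UT g => ∃ γ : Γ, q.1 = tm γ p.1 :=
    ⟨fun p => ⟨1, (lift_tm_one p.1).symm⟩,
      fun ⟨γ, h⟩ => ⟨γ⁻¹, by rw [h, ← lift_tm_mul d, inv_mul_cancel, lift_tm_one]⟩,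
      fun ⟨γ, h⟩ ⟨δ, k⟩ => ⟨δ * γ, by rw [k, h, lift_tm_mul d]⟩⟩
  refine
    { toIsQuotientMap := isQuotientMap_quot_mk
      continuous_const_smul := fun γ => Continuous.subtype_mk
        ((lift_tm_cont d γ).comp continuous_subtype_val) _
      apply_eq_iff_mem_orbit := ?_
      disjoint := fun c => ?_ }
  · intro c c'
    rw [eq_comm, Quot.eq, heq.eqvGen_iff]
    constructor
    · rintro ⟨γ, hγ⟩
      exact ⟨γ, Subtype.ext hγ.symm⟩
    · rintro ⟨γ, rfl⟩
      exact ⟨γ, rfl⟩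
  · obtain ⟨U, hU, h⟩ := ProperlyDiscontinuousSMul.exists_nhds_image_smul_eq_self Γ c.1.1
    refine ⟨(fun e : UT g => e.1.1) ⁻¹' U,
      (continuous_fst.comp continuous_subtype_val).continuousAt hU, ?_⟩
    rintro γ ⟨_, ⟨e, he, rfl⟩, he'⟩
    exact d.free γ _ (h γ ⟨γ • e.1.1, ⟨e.1.1, he, rfl⟩, he'⟩)

theorem lift_unit {g : Met n} (H : Riem g) (x : E n × E n) (hx : x.2 ≠ 0) :
    g x.1 ((√(g x.1 x.2 x.2))⁻¹ • x.2) ((√(g x.1 x.2 x.2))⁻¹ • x.2) = 1 := by
  have h := H.pos x.1 x.2 hx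
  have h1 : √(g x.1 x.2 x.2) ≠ 0 := (Real.sqrt_pos.2 h).ne'
  have h2 := Real.mul_self_sqrt h.le
  rw [map_smul, map_smul, smul_apply, smul_eq_mul, smul_eq_mul]
  generalize √(g x.1 x.2 x.2) = s at h1 h2
  rw [← h2]
  field_simp

theorem lift_ut (hn : 3 ≤ n) {g : Met n} (H : Riem g) : Nonempty (UT g) ∧
    PreconnectedSpace (UT g) ∧
    ∀ (L B : Type) [TopologicalSpace L] [TopologicalSpace B] (p : L → B), IsCoveringMap p →
      Function.Surjective p → ∀ f : UT g → B, Continuous f →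
      ∃ F : UT g → L, Continuous F ∧ ∀ c, p (F c) = f c := by
  classical
  obtain ⟨hD, hL⟩ := G76.lift_D hn
  obtain ⟨N, hN⟩ : ∃ N : E n, N ≠ 0 :=
    ⟨EuclideanSpace.single ⟨0, by omega⟩ 1, norm_pos_iff.1 (by simp)⟩
  let p₀ : UT g := ⟨(0, (√(g 0 N N))⁻¹ • N), lift_unit H (0, N) hN⟩
  let R : E n × E n → UT g := fun x =>
    if hx : x.2 ≠ 0 then ⟨(x.1, (√(g x.1 x.2 x.2))⁻¹ • x.2), lift_unit H x hx⟩ else p₀
  have hR : ∀ x : E n × E n, x.2 ≠ 0 → (R x).1 = (x.1, (√(g x.1 x.2 x.2))⁻¹ • x.2) :=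
    fun x hx => congrArg Subtype.val (dif_pos hx)
  have hne : ∀ c : UT g, c.1.2 ≠ 0 := by
    intro c h
    have h1 := c.2
    rw [h, map_zero] at h1
    exact zero_ne_one h1
  have hRc : ∀ c : UT g, R c.1 = c := by
    intro c
    refine Subtype.ext ?_
    rw [hR _ (hne c), c.2, Real.sqrt_one, inv_one, one_smul]
  have hc : ContinuousOn R {x | x.2 ≠ 0} := by
    rw [IsInducing.subtypeVal.continuousOn_iff]
    refine ContinuousOn.congr ?_ fun x hx => hR x hx
    have h1 : Continuous fun x : E n × E n => √(g x.1 x.2 x.2) :=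
      (((H.smooth.continuous.comp continuous_fst).clm_apply continuous_snd).clm_apply
        continuous_snd).sqrt
    exact continuousOn_fst.prodMk ((h1.continuousOn.inv₀ fun x hx =>
      (Real.sqrt_pos.2 (H.pos x.1 x.2 hx)).ne').smul continuousOn_snd)
  refine ⟨⟨p₀⟩, ⟨?_⟩, fun L B _ _ p cov hp f hf => ?_⟩
  · have h1 := hD.image _ hc
    rwa [Set.eq_univ_of_forall (s := _ '' _) fun c => ⟨c.1, hne c, hRc c⟩] at h1
  · obtain ⟨G, hG, hl⟩ := hL L B p cov hp _ (hf.comp_continuousOn hc)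
    refine ⟨fun c => G c.1, hG.comp_continuous continuous_subtype_val hne, fun c => ?_⟩
    rw [hl _ (hne c)]
    exact congrArg f (hRc c)

theorem lift : SLIFT := by
  intro n g h Γ Λ _ _ _ _ Φ Ψ f hn A B hf
  letI := lift_act A.deck
  letI := lift_act B.deck
  have hp := lift_cov A.deck
  have hq := lift_cov B.deck
  obtain ⟨⟨c₀⟩, cX, lX⟩ := lift_ut hn A.riem
  obtain ⟨-, cY, lY⟩ := lift_ut hn B.riem
  obtain ⟨F, hF, hFl⟩ := lX _ _ _ hq.isCoveringMap hq.surjective (fun c => f (Quot.mk _ c))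
    (f.continuous.comp hp.isCoveringMap.continuous)
  obtain ⟨G, hG, hGl⟩ := lY _ _ _ hp.isCoveringMap hp.surjective
    (fun c => f.symm (Quot.mk _ c)) (f.symm.continuous.comp hq.isCoveringMap.continuous)
  obtain ⟨hs, ρ, hρ⟩ := G76.lift_abs hp hq f c₀ hF hFl hG hGl
  have h1 : ∀ a, (Quot.mk _ (G (F a)) : UM g Γ) = Quot.mk _ a := fun a => by
    rw [hGl, hFl, f.symm_apply_apply]
  obtain ⟨γ, hγ⟩ := hp.apply_eq_iff_mem_orbit.1 (h1 c₀)
  have h2 : G ∘ F = fun a => γ • a :=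
    hp.isCoveringMap.eq_of_comp_eq (hG.comp hF) (hp.continuous_const_smul γ)
      (funext fun a => (h1 a).trans (hp.map_smul γ).symm) c₀ hγ.symm
  have h3 : ∀ a, γ⁻¹ • G (F a) = a := fun a => by
    rw [show G (F a) = γ • a from congrFun h2 a, inv_smul_smul]
  refine ⟨ρ,
    { toFun := F
      invFun := fun b => γ⁻¹ • G b
      left_inv := h3
      right_inv := fun b => ?_
      continuous_toFun := hF
      continuous_invFun := (hp.continuous_const_smul γ⁻¹).comp hG }, fun t c => ?_, ?_⟩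
  · obtain ⟨a, rfl⟩ := hs b
    exact congrArg F (h3 a)
  · have h4 : (fun t : ℝ => F (Φ t c)) = fun t : ℝ => Ψ t (F c) :=
      hq.isCoveringMap.eq_of_comp_eq (hF.comp (A.fl.cont c)) (B.fl.cont (F c))
        (funext fun t => (hFl _).trans (hf t c (F c) (hFl c).symm)) 0
        (by rw [A.flow.zero, B.flow.zero])
    exact congrFun h4 t
  · intro δ p q hpq
    have h5 : q = δ • p := Subtype.ext hpq
    exact congrArg Subtype.val ((congrArg F h5).trans (hρ δ p))

end Pool.Agent.MP_3ee8cb_gt.CR
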