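import Pool.Agent.MP_3ee8cb_gt.CR.SpecB

namespace Pool.Agent.MP_3ee8cb_gt.CR

open Set
open scoped RealInnerProductSpace

variable {n : ℕ}

theorem lor_bd : Bd (lp : E n → E n → ℝ) where
  cont := by unfold lp; fun_prop
  symm a b := by unfold lp; rw [mul_comm, real_inner_comm]
  nonneg a b := by unfold lp; linarith [real_inner_le_norm a b]
  hom t a b ht := by
    unfold lp
    rw [norm_smul, real_inner_smul_left, Real.norm_of_nonneg ht]; ring
  self a := by unfold lp; rw [real_inner_self_eq_norm_mul_norm]; ring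
  zero a b ha hb h := by
    have h1 : ⟪a, b⟫ = ‖a‖ * ‖b‖ := by unfold lp at h; linarith
    rw [inner_eq_norm_mul_iff_real] at h1
    have ha' : 0 < ‖a‖ := norm_pos_iff.mpr ha
    have hb' : 0 < ‖b‖ := norm_pos_iff.mpr hb
    refine ⟨‖a‖⁻¹ * ‖b‖, by positivity, ?_⟩
    rw [mul_smul, h1, smul_smul, inv_mul_cancel₀ ha'.ne', one_smul]
  neg a := by
    unfold lp
    rw [norm_neg, inner_neg_right, real_inner_self_eq_norm_mul_norm]; ring

theorem lor_qi (k k' : E n) (z : V n) :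
    ⟪qL k z, k'⟫ = z.1 * (‖k‖⁻¹ * ⟪k, k'⟫) - ⟪z.2, k'⟫ := by
  rw [qL_apply, inner_sub_left, real_inner_smul_left, real_inner_smul_left]

theorem lor_qq (k m : E n) : qq k m = (1 / 2 : ℝ) • (‖m‖ • (‖k‖⁻¹ • k) - m) := rfl

theorem lor_qqi (k m k' : E n) :
    2 * ⟪qq k m, k'⟫ = ‖m‖ * (‖k‖⁻¹ * ⟪k, k'⟫) - ⟪m, k'⟫ := by
  unfold qq
  rw [real_inner_smul_left, lor_qi]
  simp only [cn]
  ring

theorem lor_unit {k : E n} (hk : k ≠ 0) : ‖(‖k‖⁻¹ • k)‖ = 1 := by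
  rw [norm_smul, norm_inv, norm_norm, inv_mul_cancel₀ (norm_ne_zero_iff.mpr hk)]

theorem lor_qd : Qd (lp : E n → E n → ℝ) qq where
  cont := by
    simp only [lor_qq]
    have h1 : ContinuousOn (fun w : E n × E n => ‖w.1‖⁻¹) {w | w.1 ≠ 0 ∧ 0 < lp w.1 w.2} :=
      ContinuousOn.inv₀ (by fun_prop) fun w hw => norm_ne_zero_iff.mpr hw.1
    exact (((continuous_snd.norm.continuousOn).smul (h1.smul continuous_fst.continuousOn)).sub
      continuous_snd.continuousOn).const_smul (1 / 2 : ℝ)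
  sup k m k' hk _ := by
    rw [lor_qqi]
    unfold lp
    have hk' : 0 < ‖k‖ := norm_pos_iff.mpr hk
    have h1 : ‖k‖⁻¹ * ⟪k, k'⟫ ≤ ‖k'‖ := by
      rw [inv_mul_le_iff₀ hk']; exact real_inner_le_norm k k'
    have h2 := mul_le_mul_of_nonneg_left h1 (norm_nonneg m)
    rw [real_inner_comm m k']
    linarith
  tou k m hk _ := by
    rw [lor_qqi]
    unfold lp
    have hk' : ‖k‖ ≠ 0 := norm_ne_zero_iff.mpr hk
    rw [real_inner_self_eq_norm_mul_norm, real_inner_comm m k]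
    field_simp
  inj k m m' hk _ h2 h := by
    rw [lor_qq, lor_qq] at h
    have h3 := smul_right_injective (E n) (by norm_num : (1 / 2 : ℝ) ≠ 0) h
    set u : E n := ‖k‖⁻¹ • k with hu
    have hu1 : ‖u‖ = 1 := lor_unit hk
    obtain ⟨s, hs⟩ : ∃ s : ℝ, s = ‖m‖ - ‖m'‖ := ⟨_, rfl⟩
    have h4 : m = m' + s • u := by
      rw [hs, sub_smul]
      have h3' : ‖m‖ • u - m = ‖m'‖ • u - m' := h3
      calc m = ‖m‖ • u - (‖m‖ • u - m) := by abel
        _ = ‖m‖ • u - (‖m'‖ • u - m') := by rw [h3']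
        _ = _ := by abel
    have h5 : ‖m‖ ^ 2 = ‖m'‖ ^ 2 + 2 * (s * ⟪m', u⟫) + s ^ 2 := by
      conv_lhs => rw [h4]
      rw [norm_add_sq_real, real_inner_smul_right, norm_smul, hu1, mul_one, Real.norm_eq_abs,
        sq_abs]
    have hk' : 0 < ‖k‖ := norm_pos_iff.mpr hk
    have h6 : lp k m' = ‖k‖ * (‖m'‖ - ⟪m', u⟫) := by
      unfold lp
      rw [hu, real_inner_smul_right, real_inner_comm k m']
      field_simp
    have h7 : 0 < ‖m'‖ - ⟪m', u⟫ := by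
      rw [h6] at h2
      exact (mul_pos_iff_of_pos_left hk').mp h2
    have h8 : s * (‖m'‖ - ⟪m', u⟫) = 0 := by
      have : ‖m‖ = ‖m'‖ + s := by linarith
      rw [this] at h5
      linarith
    have h9 : s = 0 := (mul_eq_zero.mp h8).resolve_right h7.ne'
    rw [h4, h9, zero_smul, add_zero]

theorem lor_cc (a b : E n) : B (cn a) (cn b) = -lp a b := by
  simp only [B, cn, lp]; ring

theorem lor_self (z : V n) : B z z = ‖z.2‖ ^ 2 - z.1 ^ 2 := by
  unfold B; rw [real_inner_self_eq_norm_sq]; ring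

theorem lor_sq (y : E n) : √(1 + ‖y‖ ^ 2) ^ 2 = 1 + ‖y‖ ^ 2 := Real.sq_sqrt (by positivity)

theorem lor_uu (y : E n) : B (up y) (up y) = -1 := by
  rw [lor_self]
  simp only [up]
  rw [lor_sq]; ring

theorem lor_lt (y : E n) : ‖y‖ < √(1 + ‖y‖ ^ 2) :=
  Real.lt_sqrt_of_sq_lt (by linarith)

theorem lor_ell (y k : E n) (hk : k ≠ 0) : 0 < -B (up y) (cn k) := by
  simp only [B, cn, up]
  have h1 := mul_lt_mul_of_pos_right (lor_lt y) (norm_pos_iff.mpr hk)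
  linarith [real_inner_le_norm y k]

theorem lor_cone (z : V n) (h : B z z = 0) (h0 : 0 ≤ z.1) : cn z.2 = z := by
  rw [lor_self] at h
  refine Prod.ext ?_ rfl
  exact (pow_left_inj₀ (norm_nonneg _) h0 two_ne_zero).mp (by linarith)

theorem lor_hyp (z : V n) (h : B z z = -1) (h0 : 0 < z.1) : up z.2 = z := by
  rw [lor_self] at h
  refine Prod.ext ?_ rfl
  show √(1 + ‖z.2‖ ^ 2) = z.1
  rw [show 1 + ‖z.2‖ ^ 2 = z.1 ^ 2 by linarith, Real.sqrt_sq h0.le]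

theorem lor_e0 (z : V n) : B z (1, 0) = -z.1 := by
  simp [B]

theorem lor_symm (z w : V n) : B z w = B w z := by
  unfold B; rw [real_inner_comm, mul_comm]

theorem lor_fut (A : V n →L[ℝ] V n) (hA : Lor A) (z : V n) (h : B z z ≤ 0) (h0 : 0 < z.1) :
    0 < (A z).1 := by
  by_contra hc
  have hc' : (A z).1 ≤ 0 := not_lt.mp hc
  have h1 := hA.pres z z
  have h2 := hA.pres (1, 0) (1, 0)
  have h3 := hA.pres z (1, 0)
  have h4 := hA.pos
  rw [lor_e0] at h2 h3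
  rw [lor_self] at h1 h2
  set w := A z
  set e := A (1, 0)
  have h5 : ‖w.2‖ ≤ -w.1 := by
    apply abs_le_of_sq_le_sq' _ (by linarith) |>.2
    nlinarith
  have h6 : ‖e.2‖ ≤ e.1 := by
    apply abs_le_of_sq_le_sq' _ h4.le |>.2
    simp only at h2
    nlinarith
  have h7 : -(‖w.2‖ * ‖e.2‖) ≤ ⟪w.2, e.2⟫ := (abs_le.mp (abs_real_inner_le_norm w.2 e.2)).1
  have h8 : ‖w.2‖ * ‖e.2‖ ≤ -w.1 * e.1 :=
    mul_le_mul h5 h6 (norm_nonneg _) (by linarith)
  unfold B at h3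
  linarith

theorem lor_cpos (A : V n →L[ℝ] V n) (hA : Lor A) (k : E n) (hk : k ≠ 0) :
    0 < (A (cn k)).1 := by
  refine lor_fut A hA _ ?_ (norm_pos_iff.mpr hk)
  rw [lor_cc, lor_bd.self, neg_zero]

theorem lor_acn (A : V n →L[ℝ] V n) (hA : Lor A) (k : E n) : A (cn k) = cn (ca A k) := by
  refine (lor_cone _ ?_ ?_).symm
  · rw [hA.pres, lor_cc, lor_bd.self, neg_zero]
  · by_cases hk : k = 0
    · have : cn k = 0 := by simp [cn, hk]
      simp [this]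
    · exact (lor_cpos A hA k hk).le

theorem lor_ane (A : V n →L[ℝ] V n) (hA : Lor A) (k : E n) (hk : k ≠ 0) : ca A k ≠ 0 := by
  have h := lor_cpos A hA k hk
  rw [lor_acn A hA] at h
  exact norm_pos_iff.mp h

theorem lor_inv (A : V n →L[ℝ] V n) (hA : Lor A) :
    ∃ A', Lor A' ∧ (∀ z, A' (A z) = z) ∧ ∀ z, A (A' z) = z := by
  have hinj : Function.Injective (A : V n →ₗ[ℝ] V n) := by
    rw [injective_iff_map_eq_zero]
    intro z hz
    have hz' : A z = 0 := hz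
    have h1 := hA.pres z (-z.1, z.2)
    rw [hz'] at h1
    simp only [B, Prod.snd_zero, Prod.fst_zero, inner_zero_left, zero_mul, sub_zero,
      real_inner_self_eq_norm_sq] at h1
    have h2 : z.1 = 0 := by nlinarith [sq_nonneg ‖z.2‖, sq_nonneg z.1]
    have h3 : ‖z.2‖ = 0 := by nlinarith [sq_nonneg ‖z.2‖, sq_nonneg z.1]
    exact Prod.ext h2 (norm_eq_zero.mp h3)
  let e := (LinearEquiv.ofInjectiveEndo (A : V n →ₗ[ℝ] V n) hinj).toContinuousLinearEquiv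
  have he : ∀ z, e z = A z := fun z => rfl
  have h1 : ∀ z, (e.symm : V n →L[ℝ] V n) (A z) = z := fun z => by
    rw [← he]; exact e.symm_apply_apply z
  have h2 : ∀ z, A ((e.symm : V n →L[ℝ] V n) z) = z := fun z => by
    rw [← he]; exact e.apply_symm_apply z
  refine ⟨(e.symm : V n →L[ℝ] V n), ⟨fun z w => ?_, ?_⟩, h1, h2⟩
  · rw [← hA.pres, h2, h2]
  · have h3 := hA.pres ((e.symm : V n →L[ℝ] V n) (1, 0)) (1, 0)
    rw [h2, lor_e0, lor_symm, lor_e0] at h3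
    linarith [hA.pos]

/-- The boost. -/
noncomputable def lor_boost (y0 : ℝ) (y : E n) : V n →L[ℝ] V n :=
  (y0 • ContinuousLinearMap.fst ℝ ℝ (E n) +
      (innerSL ℝ y).comp (ContinuousLinearMap.snd ℝ ℝ (E n))).prod
    ((ContinuousLinearMap.fst ℝ ℝ (E n) +
      (1 + y0)⁻¹ • (innerSL ℝ y).comp (ContinuousLinearMap.snd ℝ ℝ (E n))).smulRight y +
      ContinuousLinearMap.snd ℝ ℝ (E n))

theorem lor_boost_apply (y0 : ℝ) (y : E n) (z : V n) : lor_boost y0 y z =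
    (y0 * z.1 + ⟪y, z.2⟫, (z.1 + (1 + y0)⁻¹ * ⟪y, z.2⟫) • y + z.2) := rfl

theorem lor_tra (y : E n) : ∃ A, Lor A ∧ A (1, 0) = up y := by
  obtain ⟨y0, hy0⟩ : ∃ y0 : ℝ, y0 = √(1 + ‖y‖ ^ 2) := ⟨_, rfl⟩
  have hp : 0 < y0 := by rw [hy0]; positivity
  have hs : ⟪y, y⟫ = y0 ^ 2 - 1 := by
    rw [hy0, lor_sq, real_inner_self_eq_norm_sq]; ring
  have he : lor_boost y0 y (1, 0) = up y := by
    rw [lor_boost_apply]
    simp [up, hy0]
  refine ⟨lor_boost y0 y, ⟨fun z w => ?_, ?_⟩, he⟩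
  · rw [lor_boost_apply, lor_boost_apply]
    simp only [B, inner_add_left, inner_add_right, real_inner_smul_left, real_inner_smul_right, hs]
    rw [real_inner_comm y z.2]
    field_simp
    ring
  · rw [he]
    show 0 < √(1 + ‖y‖ ^ 2)
    positivity

theorem lor_qin (k : E n) (z : V n) (hk : k ≠ 0) : ⟪qL k z, k⟫ = -B z (cn k) := by
  have hk' : ‖k‖ ≠ 0 := norm_ne_zero_iff.mpr hk
  rw [lor_qi, real_inner_self_eq_norm_mul_norm]
  simp only [B, cn]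
  field_simp
  ring

theorem lor_qcn (k : E n) (hk : k ≠ 0) : qL k (cn k) = 0 := by
  have hk' : ‖k‖ ≠ 0 := norm_ne_zero_iff.mpr hk
  rw [qL_apply]
  simp only [cn]
  rw [smul_smul, mul_inv_cancel₀ hk', one_smul, sub_self]

theorem lor_ta (A : V n →L[ℝ] V n) (hA : Lor A) (k : E n) (z : V n) (hk : k ≠ 0) :
    TA A (k, qL k z) = (ca A k, qL (ca A k) (A z)) := by
  have hk' : ‖k‖ ≠ 0 := norm_ne_zero_iff.mpr hk
  have h1 : ((0, -qL k z) : V n) = z - (z.1 * ‖k‖⁻¹) • cn k := by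
    refine Prod.ext ?_ ?_
    · simp only [cn, Prod.fst_sub, Prod.smul_fst, smul_eq_mul]
      field_simp
      ring
    · simp only [cn, Prod.snd_sub, Prod.smul_snd, qL_apply, smul_smul, neg_sub]
  refine Prod.ext rfl ?_
  show qL (ca A k) (A (0, -qL k z)) = qL (ca A k) (A z)
  rw [h1, map_sub, map_smul, map_sub, map_smul, lor_acn A hA, lor_qcn _ (lor_ane A hA k hk),
    smul_zero, sub_zero]

theorem lor_qon (k q : E n) (hk : k ≠ 0) (h : 0 < ⟪q, k⟫) : ∃ y, qL k (up y) = q := by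
  have hk' : 0 < ‖k‖ := norm_pos_iff.mpr hk
  obtain ⟨u, hu⟩ : ∃ u : E n, u = ‖k‖⁻¹ • k := ⟨_, rfl⟩
  have hu1 : ‖u‖ = 1 := hu ▸ lor_unit hk
  have ha : 0 < ⟪u, q⟫ := by
    rw [hu, real_inner_smul_left, real_inner_comm]; positivity
  obtain ⟨y0, hy0⟩ : ∃ y0 : ℝ, y0 = (1 + ‖q‖ ^ 2) / (2 * ⟪u, q⟫) := ⟨_, rfl⟩
  have hp : 0 < y0 := by rw [hy0]; positivity
  have h1 : 2 * (y0 * ⟪u, q⟫) = 1 + ‖q‖ ^ 2 := by
    rw [hy0]; field_simp
  have h2 : 1 + ‖y0 • u - q‖ ^ 2 = y0 ^ 2 := by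
    rw [norm_sub_sq_real, real_inner_smul_left, norm_smul, hu1, mul_one, Real.norm_eq_abs, sq_abs]
    linarith
  refine ⟨y0 • u - q, ?_⟩
  rw [qL_apply]
  simp only [up]
  rw [h2, Real.sqrt_sq hp.le, ← hu]
  abel

theorem lor : SLOR := fun _ =>
  ⟨lor_bd, lor_qd, lor_cc, lor_uu, lor_ell, lor_cone, lor_hyp, lor_fut, lor_acn, lor_ane,
    lor_inv, lor_tra, lor_qin, lor_ta, lor_qon⟩

end Pool.Agent.MP_3ee8cb_gt.CR
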