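import Pool.Agent.MP_3ee8cb_gt.CR.SpecA

/-! The local lower bound for the Riemannian distance. -/

namespace Pool.Agent.MP_3ee8cb_gt.CR

open Set MeasureTheory

variable {n : ℕ}

theorem low_cs (B : E n →L[ℝ] E n →L[ℝ] ℝ) (hs : ∀ u v, B u v = B v u) (hp : ∀ v, 0 ≤ B v v)
    (u v : E n) : B u v ≤ √(B u u) * √(B v v) := by
  have h : discrim (B v v) (2 * B u v) (B u u) ≤ 0 := by
    refine discrim_le_zero fun t => ?_
    have h1 := hp (u + t • v)
    simp only [map_add, map_smul, add_apply, smul_apply,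
      smul_eq_mul] at h1
    rw [hs v u] at h1
    nlinarith
  rw [discrim] at h
  rw [← Real.sqrt_mul (hp u)]
  exact Real.le_sqrt_of_sq_le (by nlinarith)

theorem low_tri (B : E n →L[ℝ] E n →L[ℝ] ℝ) (hs : ∀ u v, B u v = B v u) (hp : ∀ v, 0 ≤ B v v)
    (u v : E n) : √(B (u + v) (u + v)) ≤ √(B u u) + √(B v v) := by
  have h := low_cs B hs hp u v
  have h1 := Real.sq_sqrt (hp u)
  have h2 := Real.sq_sqrt (hp v)
  refine Real.sqrt_le_iff.2 ⟨by positivity, ?_⟩
  simp only [map_add, add_apply]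
  rw [hs v u]
  nlinarith

theorem low_hom (B : E n →L[ℝ] E n →L[ℝ] ℝ) (t : ℝ) (ht : 0 ≤ t) (v : E n) :
    √(B (t • v) (t • v)) = t * √(B v v) := by
  have h : B (t • v) (t • v) = t ^ 2 * B v v := by
    simp only [map_smul, smul_apply, smul_eq_mul]; ring
  rw [h, Real.sqrt_mul (sq_nonneg t), Real.sqrt_sq ht]

theorem low_coer (B : E n →L[ℝ] E n →L[ℝ] ℝ) (hp : ∀ v, v ≠ 0 → 0 < B v v) :
    ∃ c : ℝ, 0 < c ∧ ∀ v, c * ‖v‖ ^ 2 ≤ B v v := by
  have hc : Continuous fun v : E n => B v v := by fun_prop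
  obtain ⟨c, hc0, hc1⟩ := (isCompact_sphere (0 : E n) 1).exists_forall_le' hc.continuousOn
    (a := 0) fun v hv => hp v (by
      rintro rfl
      simp at hv)
  refine ⟨c, hc0, fun v => ?_⟩
  by_cases hv : v = 0
  · simp [hv]
  have hn : 0 < ‖v‖ := norm_pos_iff.2 hv
  have h1 := hc1 (‖v‖⁻¹ • v) (by
    rw [mem_sphere_zero_iff_norm, norm_smul, norm_inv, norm_norm, inv_mul_cancel₀ hn.ne'])
  simp only [map_smul, smul_apply, smul_eq_mul] at h1
  have h2 : ‖v‖⁻¹ * (‖v‖⁻¹ * B v v) * ‖v‖ ^ 2 = B v v := by field_simp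
  calc c * ‖v‖ ^ 2 ≤ ‖v‖⁻¹ * (‖v‖⁻¹ * B v v) * ‖v‖ ^ 2 := by gcongr
    _ = B v v := h2

theorem low_near {g : Met n} (hg : Riem g) (x : E n) {c ε : ℝ} (hc : 0 < c)
    (hc1 : ∀ v, c * ‖v‖ ^ 2 ≤ g x v v) (h0 : 0 < ε) (h1 : ε < 1) :
    ∃ δ : ℝ, 0 < δ ∧ ∀ w v, ‖w - x‖ < δ → (1 - ε) * √(g x v v) ≤ √(g w v v) := by
  have hη : 0 < (1 - (1 - ε) ^ 2) * c := mul_pos (by nlinarith) hc
  obtain ⟨δ, hδ, h⟩ := Metric.continuousAt_iff.1 (hg.smooth.continuous.continuousAt (x := x)) _ hη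
  refine ⟨δ, hδ, fun w v hw => ?_⟩
  have h2 := h (x := w) (by rwa [dist_eq_norm])
  rw [dist_eq_norm] at h2
  have h3 : |(g w - g x) v v| ≤ ‖g w - g x‖ * ‖v‖ * ‖v‖ := (g w - g x).le_opNorm₂ v v
  simp only [sub_apply] at h3
  have h4 := (abs_le.1 h3).1
  have h5 : ‖g w - g x‖ * ‖v‖ * ‖v‖ ≤ (1 - (1 - ε) ^ 2) * (c * ‖v‖ ^ 2) := by
    have := mul_le_mul_of_nonneg_right h2.le (sq_nonneg ‖v‖)
    nlinarith
  have h6 : (1 - (1 - ε) ^ 2) * (c * ‖v‖ ^ 2) ≤ (1 - (1 - ε) ^ 2) * g x v v :=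
    mul_le_mul_of_nonneg_left (hc1 v) (by nlinarith)
  have h7 : 0 ≤ g x v v := le_trans (by positivity) (hc1 v)
  refine Real.le_sqrt_of_sq_le ?_
  rw [mul_pow, Real.sq_sqrt h7]
  nlinarith

theorem low_seg_nonneg (g : Met n) (a b : E n) : 0 ≤ seg g a b :=
  intervalIntegral.integral_nonneg zero_le_one fun _ _ => Real.sqrt_nonneg _

theorem low_seg {g : Met n} (hg : Riem g) (a b : E n) (C : ℝ)
    (h : ∀ t ∈ Icc (0 : ℝ) 1, C ≤ √(g (a + t • (b - a)) (b - a) (b - a))) : C ≤ seg g a b := by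
  have hc := hg.smooth.continuous
  have hi : IntervalIntegrable (fun t : ℝ => √(g (a + t • (b - a)) (b - a) (b - a))) volume 0 1 :=
    Continuous.intervalIntegrable (Continuous.sqrt (((hc.comp
      (continuous_const.add (continuous_id.smul continuous_const))).clm_apply
        continuous_const).clm_apply continuous_const)) _ _
  have := intervalIntegral.integral_mono_on zero_le_one
    (intervalIntegrable_const (c := C) (μ := volume)) hi h
  simpa [seg] using this

theorem low : SLOW := by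
  intro n g hg hdb x ε hε
  by_cases h1 : 1 ≤ ε
  · refine ⟨1, one_pos, fun y z _ => le_trans ?_ (hdb.nonneg y z)⟩
    exact mul_nonpos_of_nonpos_of_nonneg (by linarith) (le_min zero_le_one (Real.sqrt_nonneg _))
  have h1 : ε < 1 := not_le.1 h1
  have hp : ∀ v, 0 ≤ g x v v := fun v => by
    by_cases hv : v = 0
    · simp [hv]
    · exact (hg.pos x v hv).le
  obtain ⟨c, hc, hc1⟩ := low_coer (g x) (hg.pos x)
  obtain ⟨δ, hδ, hnear⟩ := low_near hg x hc hc1 hε h1
  have hsc : 0 < √c := Real.sqrt_pos.2 hc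
  have hN : ∀ v : E n, √c * ‖v‖ ≤ √(g x v v) := fun v => by
    refine Real.le_sqrt_of_sq_le ?_
    rw [mul_pow, Real.sq_sqrt hc.le]
    exact hc1 v
  obtain ⟨r, hr, hr1, hr2⟩ : ∃ r : ℝ, 0 < r ∧ r ≤ δ / 4 ∧ r ≤ √c * (δ / 4) :=
    ⟨min (δ / 4) (√c * (δ / 4)), lt_min (by positivity) (by positivity), min_le_left _ _,
      min_le_right _ _⟩
  refine ⟨r, hr, fun y z hy => ?_⟩
  have key : ∀ a b : E n, √(g x (a - y) (a - y)) ≤ r → √(g x (b - y) (b - y)) ≤ r →
      (1 - ε) * (√(g x (b - y) (b - y)) - √(g x (a - y) (a - y))) ≤ seg g a b := by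
    intro a b ha hb
    refine low_seg hg a b _ fun t ht => ?_
    have e1 : a + t • (b - a) - y = (1 - t) • (a - y) + t • (b - y) := by module
    have h2 := low_tri (g x) (hg.symm x) hp ((1 - t) • (a - y)) (t • (b - y))
    rw [low_hom _ _ (sub_nonneg.2 ht.2), low_hom _ _ ht.1, ← e1] at h2
    have h3 : √(g x (a + t • (b - a) - y) (a + t • (b - a) - y)) ≤ r := by
      have h4 := mul_le_mul_of_nonneg_left ha (sub_nonneg.2 ht.2)
      have h5 := mul_le_mul_of_nonneg_left hb ht.1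
      linarith
    have h4 : ‖a + t • (b - a) - y‖ ≤ δ / 4 :=
      le_of_mul_le_mul_left (le_trans (hN _) (le_trans h3 hr2)) hsc
    have h5 : ‖a + t • (b - a) - x‖ < δ := by
      have e2 : a + t • (b - a) - x = (a + t • (b - a) - y) + (y - x) := by abel
      have := norm_add_le (a + t • (b - a) - y) (y - x)
      rw [e2]
      linarith
    refine le_trans ?_ (hnear _ _ h5)
    have h6 := low_tri (g x) (hg.symm x) hp (a - y) (b - a)
    have e3 : a - y + (b - a) = b - y := by abel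
    rw [e3] at h6
    exact mul_le_mul_of_nonneg_left (by linarith) (by linarith)
  have htest := hdb.test (fun w => (1 - ε) * min r √(g x (w - y) (w - y))) (fun a b => by
    have h0 := low_seg_nonneg g a b
    rw [← mul_sub]
    rcases le_or_gt r √(g x (a - y) (a - y)) with ha | ha
    · rw [min_eq_left ha]
      refine le_trans (mul_nonpos_of_nonneg_of_nonpos (by linarith) ?_) h0
      exact sub_nonpos.2 (min_le_left _ _)
    rw [min_eq_right ha.le]
    rcases le_or_gt √(g x (b - y) (b - y)) r with hb | hb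
    · rw [min_eq_right hb]
      exact key a b ha.le hb
    rw [min_eq_left hb.le]
    have hcont : Continuous fun t : ℝ =>
        √(g x (a + t • (b - a) - y) (a + t • (b - a) - y)) := by fun_prop
    obtain ⟨s, hs, hs1⟩ := intermediate_value_Icc zero_le_one hcont.continuousOn
      (show r ∈ Icc _ _ from ⟨by simpa using ha.le, by simpa using hb.le⟩)
    have h2 := key a (a + s • (b - a)) ha.le hs1.le
    have h3 := hdb.add a b s hs.1 hs.2
    have h4 := low_seg_nonneg g (a + s • (b - a)) b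
    simp only at hs1
    rw [hs1] at h2
    linarith) y z
  simp only [sub_self, map_zero, Real.sqrt_zero, min_eq_right hr.le, mul_zero, sub_zero] at htest
  exact htest

end Pool.Agent.MP_3ee8cb_gt.CR
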