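import Pool.Agent.MP_3ee8cb_gt.CR.SpecA

namespace Pool.Agent.MP_3ee8cb_gt.CR

open Set

theorem mid_ivt {n : ℕ} {g : Met n} (h : DBP g) (x a b : E n) (s : ℝ) (ha : dd g x a ≤ s)
    (hb : s ≤ dd g x b) : ∃ t : ℝ, 0 ≤ t ∧ t ≤ 1 ∧ dd g x (a + t • (b - a)) = s := by
  have hc : Continuous fun t : ℝ => dd g x (a + t • (b - a)) :=
    h.cont.comp (f := fun t : ℝ => (x, a + t • (b - a))) (by fun_prop)
  have h1 := intermediate_value_Icc (zero_le_one (α := ℝ)) hc.continuousOn
  have h2 : s ∈ Icc (dd g x (a + (0 : ℝ) • (b - a))) (dd g x (a + (1 : ℝ) • (b - a))) := by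
    simpa using ⟨ha, hb⟩
  obtain ⟨t, ht, hs⟩ := h1 h2
  exact ⟨t, ht.1, ht.2, hs⟩

theorem mid : SMID := by
  intro n g _ h x y s ε hs0 hs hε
  by_contra hcon
  push Not at hcon
  set c := dd g x y - s + ε with hc
  classical
  have key := h.test (fun z => if dd g x z ≤ s then dd g x z else s + max 0 (c - dd g z y))
    (by
      intro a b
      have h1 := h.le_seg a b
      have h2 := h.nonneg a b
      by_cases ha : dd g x a ≤ s <;> by_cases hb : dd g x b ≤ s <;> simp only [ha, hb, if_true,
        if_false]
      · have := h.tri x a b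
        linarith
      · obtain ⟨t, ht0, ht1, hw⟩ := mid_ivt h x a b s ha (le_of_lt (not_le.1 hb))
        have h3 := h.add a b t ht0 ht1
        have h4 := hcon _ hw
        generalize a + t • (b - a) = w at hw h3 h4
        have h5 := h.tri x a w
        have h6 := h.le_seg a w
        have h7 := h.le_seg w b
        have h8 := h.tri w b y
        have h9 := h.nonneg w b
        have h10 : max 0 (c - dd g b y) ≤ dd g w b := max_le h9 (by linarith)
        linarith
      · have := le_max_left 0 (c - dd g a y)
        linarith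
      · have h3 := h.tri a b y
        have h4 := le_max_left 0 (c - dd g a y)
        have h5 := le_max_right 0 (c - dd g a y)
        have h6 : max 0 (c - dd g b y) ≤ max 0 (c - dd g a y) + dd g a b :=
          max_le (by linarith) (by linarith)
        linarith) x y
  have hx : dd g x x ≤ s := by rw [h.refl]; exact hs0
  by_cases hy : dd g x y ≤ s
  · have h1 := hcon y (le_antisymm hy hs)
    rw [h.refl] at h1
    linarith
  · simp only [hx, hy, if_true, if_false, h.refl] at key
    have := le_max_right 0 (c - 0)
    simp only [hs0, if_true] at key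
    linarith

end Pool.Agent.MP_3ee8cb_gt.CR
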