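import Pool.Agent.MP_3ee8cb_gt.CR.SpecA

/-! Every geodesic of a flow conjugate to the flow on boundary pairs realises the distance. -/

namespace Pool.Agent.MP_3ee8cb_gt.CR

open Set Filter Topology Metric

variable {n : ℕ}

lemma min_homr {l : E n → E n → ℝ} (h : Bd l) (t : ℝ) (a b : E n) :
    l a (Real.exp t • b) = Real.exp t * l a b := by
  rw [h.symm, h.hom _ _ _ (Real.exp_pos t).le, h.symm b a]

lemma min_hom2 {l : E n → E n → ℝ} (h : Bd l) (s t : ℝ) (a b : E n) :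
    l (Real.exp s • a) (Real.exp t • b) = Real.exp (s + t) * l a b := by
  rw [h.hom _ _ _ (Real.exp_pos s).le, min_homr h, Real.exp_add]; ring

lemma min_zero {l : E n → E n → ℝ} (h : Bd l) (b : E n) : l 0 b = 0 := by
  have := h.hom 0 0 b le_rfl
  simpa using this

lemma min_ne {l : E n → E n → ℝ} (h : Bd l) {k m : E n} (hkm : l k m = 2) : k ≠ 0 ∧ m ≠ 0 := by
  constructor
  · rintro rfl
    rw [min_zero h] at hkm; norm_num at hkm
  · rintro rfl
    rw [h.symm, min_zero h] at hkm; norm_num at hkm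

lemma min_bdd {l : E n → E n → ℝ} (h : Bd l) {k m : E n} (hkm : l k m = 2) (D : ℝ) :
    ∃ R : ℝ, ∀ v, l k v ≤ D → l m v ≤ D → ‖v‖ ≤ R := by
  obtain ⟨hk, hm⟩ := min_ne h hkm
  have hc : Continuous fun v : E n => l k v + l m v :=
    (h.cont.comp (continuous_const.prodMk continuous_id)).add
      (h.cont.comp (continuous_const.prodMk continuous_id))
  have hunit : ∀ v : E n, v ≠ 0 → ‖v‖⁻¹ • v ∈ sphere (0 : E n) 1 := by
    intro v hv
    have : ‖v‖ ≠ 0 := norm_ne_zero_iff.mpr hv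
    simp [norm_smul, this]
  obtain ⟨u, hu, hmin⟩ := (isCompact_sphere (0 : E n) 1).exists_isMinOn ⟨_, hunit k hk⟩
    hc.continuousOn
  have hu0 : u ≠ 0 := by
    rintro rfl
    simp at hu
  have hpos : 0 < l k u + l m u := by
    have h1 := h.nonneg k u
    have h2 := h.nonneg m u
    by_contra hn
    have h3 : l k u = 0 := by linarith
    have h4 : l m u = 0 := by linarith
    obtain ⟨t, ht, e1⟩ := h.zero k u hk hu0 h3
    have h5 : l u m = t * l k m := by rw [e1, h.hom _ _ _ ht.le]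
    rw [h.symm, h4, hkm] at h5
    linarith
  refine ⟨|2 * D / (l k u + l m u)|, fun v h1 h2 => ?_⟩
  by_cases hv : v = 0
  · rw [hv, norm_zero]; exact abs_nonneg _
  have hn : 0 < ‖v‖ := norm_pos_iff.mpr hv
  have hw : l k u + l m u ≤ l k (‖v‖⁻¹ • v) + l m (‖v‖⁻¹ • v) := hmin (hunit v hv)
  have hs : ∀ a : E n, l a (‖v‖⁻¹ • v) = ‖v‖⁻¹ * l a v := by
    intro a
    rw [h.symm, h.hom _ _ _ (inv_nonneg.mpr hn.le), h.symm v a]
  rw [hs, hs, ← mul_add, ← div_eq_inv_mul, le_div_iff₀ hn] at hw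
  refine le_trans ?_ (le_abs_self _)
  rw [le_div_iff₀ hpos]
  linarith

lemma min_sup {l : E n → E n → ℝ} (h : Bd l) (R : ℝ) :
    ∃ M : ℝ, ∀ a b : E n, ‖a‖ ≤ R → ‖b‖ ≤ R → l a b ≤ M := by
  obtain ⟨M, hM⟩ := ((isCompact_closedBall (0 : E n) R).prod
    (isCompact_closedBall (0 : E n) R)).bddAbove_image h.cont.continuousOn
  refine ⟨M, fun a b ha hb => hM ⟨(a, b), ⟨?_, ?_⟩, rfl⟩⟩
  · simpa using ha
  · simpa using hb

/-- A flow line whose ends are at distance equal to the time realises the distance. -/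
lemma min_seg {g : Met n} {Φ : ℝ → UT g → UT g} (db : DBP g) (fl : FlP g Φ) (q : UT g) (L : ℝ)
    (hL : dd g (Φ 0 q).1.1 (Φ L q).1.1 = L) (s t : ℝ) (hs : s ∈ Icc 0 L) (ht : t ∈ Icc 0 L) :
    dd g (Φ s q).1.1 (Φ t q).1.1 = |s - t| := by
  have key : ∀ s t : ℝ, s ∈ Icc 0 L → t ∈ Icc 0 L → s ≤ t →
      t - s ≤ dd g (Φ s q).1.1 (Φ t q).1.1 := by
    intro s t hs ht _
    have h1 := db.tri (Φ 0 q).1.1 (Φ s q).1.1 (Φ L q).1.1
    have h2 := db.tri (Φ s q).1.1 (Φ t q).1.1 (Φ L q).1.1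
    have h3 := fl.lip q 0 s
    have h4 := fl.lip q t L
    rw [zero_sub, abs_neg, abs_of_nonneg hs.1] at h3
    rw [abs_sub_comm, abs_of_nonneg (sub_nonneg.mpr ht.2)] at h4
    linarith
  refine le_antisymm (fl.lip q s t) ?_
  rcases le_total s t with hst | hst
  · rw [abs_sub_comm, abs_of_nonneg (sub_nonneg.mpr hst)]
    exact key s t hs ht hst
  · rw [abs_of_nonneg (sub_nonneg.mpr hst), db.symm]
    exact key t s ht hs hst

theorem min : SMIN := by
  intro n g Γ _ _ Φ l a φ ψ rp cj uc p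
  have bd := cj.bd
  obtain ⟨D, hD⟩ := uc.bdd
  have hkm : l (φ p).1 (φ p).2 = 2 := cj.mem p
  obtain ⟨hk, hm⟩ := min_ne bd hkm
  obtain ⟨R, hR⟩ := min_bdd bd hkm D
  obtain ⟨M, hM⟩ := min_sup bd R
  have hD0 : 0 ≤ D := le_trans (bd.nonneg _ _) (hD p p rfl).1
  choose P hP1 hP2 using fun j : ℕ => rp.hr (Φ (-(j : ℝ)) p).1.1 (Φ (j : ℝ) p).1.1
  set L : ℕ → ℝ := fun j => dd g (Φ (-(j : ℝ)) p).1.1 (Φ (j : ℝ) p).1.1 with hLdef
  have hL0 : ∀ j, 0 ≤ L j := fun j => rp.db.nonneg _ _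
  have hL2 : ∀ j : ℕ, L j ≤ 2 * j := by
    intro j
    have h1 := rp.fl.lip p (-(j : ℝ)) j
    have h2 : (0 : ℝ) ≤ j := Nat.cast_nonneg j
    rw [abs_sub_comm, abs_of_nonneg (by linarith)] at h1
    have h3 : L j = dd g (Φ (-(j : ℝ)) p).1.1 (Φ (j : ℝ) p).1.1 := rfl
    linarith
  -- the four basic bounds
  have hx : ∀ j : ℕ, Real.exp (j + L j) * l (φ p).1 (φ (P j)).1 ≤ D ∧
      Real.exp (j - L j) * l (φ p).1 (φ (P j)).2 ≤ D ∧
      Real.exp j * l (φ p).2 (φ (P j)).1 ≤ D ∧ Real.exp j * l (φ p).2 (φ (P j)).2 ≤ D := by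
    intro j
    obtain ⟨-, -, h3, h4⟩ := hD (Φ (-(j : ℝ)) p) (P j) (hP1 j).symm
    obtain ⟨h1, h2, -, -⟩ := hD (Φ (j : ℝ) p) (Φ (L j) (P j)) (hP2 j).symm
    rw [cj.flow] at h3 h4
    rw [cj.flow, cj.flow] at h1 h2
    simp only [neg_neg] at h1 h2 h3 h4
    rw [min_hom2 bd] at h1 h2
    rw [bd.hom _ _ _ (Real.exp_pos _).le] at h3 h4
    exact ⟨h1, by rw [sub_eq_add_neg]; exact h2, h3, h4⟩
  have mono : ∀ (s t x : ℝ), 0 ≤ x → Real.exp t * x ≤ D → Real.exp s * x ≤ D * Real.exp (s - t) := by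
    intro s t x _ h
    have e : Real.exp s = Real.exp t * Real.exp (s - t) := by rw [← Real.exp_add]; congr 1; ring
    rw [e]
    have := mul_le_mul_of_nonneg_right h (Real.exp_pos (s - t)).le
    linarith
  have mono' : ∀ (s t x : ℝ), 0 ≤ x → Real.exp t * x ≤ D → s ≤ t → Real.exp s * x ≤ D :=
    fun s t x hx0 h hst =>
      le_trans (mul_le_mul_of_nonneg_right (Real.exp_le_exp.mpr hst) hx0) h
  have hA : ∀ j : ℕ, ‖Real.exp j • (φ (P j)).1‖ ≤ R := by
    intro j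
    obtain ⟨h1, -, h3, -⟩ := hx j
    refine hR _ ?_ ?_
    · rw [min_homr bd]
      exact mono' _ _ _ (bd.nonneg _ _) h1 (by linarith [hL0 j])
    · rw [min_homr bd]; exact h3
  have hB : ∀ j : ℕ, ‖Real.exp (-(j : ℝ)) • (φ (P j)).2‖ ≤ R := by
    intro j
    obtain ⟨-, h2, -, h4⟩ := hx j
    have h0 : (0 : ℝ) ≤ j := Nat.cast_nonneg j
    refine hR _ ?_ ?_
    · rw [min_homr bd]
      exact mono' _ _ _ (bd.nonneg _ _) h2 (by linarith [hL2 j])
    · rw [min_homr bd]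
      exact mono' _ _ _ (bd.nonneg _ _) h4 (by linarith)
  have hLM : ∀ j : ℕ, 2 * j - L j ≤ M ∧ 0 ≤ M := by
    intro j
    obtain ⟨-, h2, -, h4⟩ := hx j
    have hB' : ‖Real.exp (j - L j) • (φ (P j)).2‖ ≤ R := by
      refine hR _ ?_ ?_
      · rw [min_homr bd]; exact h2
      · rw [min_homr bd]
        exact mono' _ _ _ (bd.nonneg _ _) h4 (by linarith [hL0 j])
    have h5 := hM _ _ (hA j) hB'
    rw [min_hom2 bd, cj.mem] at h5
    have h6 := Real.add_one_le_exp ((j : ℝ) + (j - L j))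
    have h7 := Real.exp_pos ((j : ℝ) + (j - L j))
    constructor <;> linarith
  -- a convergent subsequence
  have hw : ∀ j : ℕ, (Real.exp j • (φ (P j)).1, Real.exp (-(j : ℝ)) • (φ (P j)).2) ∈
      closedBall (0 : E n) R ×ˢ closedBall (0 : E n) R := by
    intro j
    exact ⟨by simpa using hA j, by simpa using hB j⟩
  obtain ⟨w, -, σ, hσ, hlim⟩ := ((isCompact_closedBall (0 : E n) R).prod
    (isCompact_closedBall (0 : E n) R)).tendsto_subseq hw
  have hσ' : Tendsto (fun i => ((σ i : ℕ) : ℝ)) atTop atTop :=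
    tendsto_natCast_atTop_atTop.comp hσ.tendsto_atTop
  have hsmall : Tendsto (fun i => D * Real.exp (M - 2 * ((σ i : ℕ) : ℝ))) atTop (𝓝 0) := by
    have h1 : Tendsto (fun i => M - 2 * ((σ i : ℕ) : ℝ)) atTop atBot := by
      simp only [sub_eq_add_neg]
      exact tendsto_atBot_add_const_left _ _
        (tendsto_neg_atTop_atBot.comp (hσ'.const_mul_atTop two_pos))
    have h2 := (Real.tendsto_exp_atBot.comp h1).const_mul D
    simpa using h2
  have hw1 := (continuous_fst.tendsto w).comp hlim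
  have hw2 := (continuous_snd.tendsto w).comp hlim
  have hww : l w.1 w.2 = 2 := by
    have h1 := (bd.cont.tendsto w).comp hlim
    refine tendsto_nhds_unique h1 (tendsto_const_nhds.congr fun i => ?_)
    simp only [Function.comp]
    rw [min_hom2 bd, cj.mem]; simp
  obtain ⟨hw10, hw20⟩ := min_ne bd hww
  have hz1 : l (φ p).1 w.1 = 0 := by
    have h1 := (bd.cont.tendsto ((φ p).1, w.1)).comp (tendsto_const_nhds.prodMk_nhds hw1)
    refine le_antisymm (le_of_tendsto_of_tendsto' h1 hsmall fun i => ?_) (bd.nonneg _ _)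
    simp only [Function.comp]
    rw [min_homr bd]
    refine le_trans (mono _ _ _ (bd.nonneg _ _) (hx (σ i)).1) ?_
    exact mul_le_mul_of_nonneg_left (Real.exp_le_exp.mpr (by linarith [(hLM (σ i)).1])) hD0
  have hz2 : l (φ p).2 w.2 = 0 := by
    have h1 := (bd.cont.tendsto ((φ p).2, w.2)).comp (tendsto_const_nhds.prodMk_nhds hw2)
    refine le_antisymm (le_of_tendsto_of_tendsto' h1 hsmall fun i => ?_) (bd.nonneg _ _)
    simp only [Function.comp]
    rw [min_homr bd]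
    refine le_trans (mono _ _ _ (bd.nonneg _ _) (hx (σ i)).2.2.2) ?_
    exact mul_le_mul_of_nonneg_left (Real.exp_le_exp.mpr (by linarith [(hLM (σ i)).2])) hD0
  obtain ⟨t₁, ht₁, e₁⟩ := bd.zero _ _ hk hw10 hz1
  obtain ⟨t₂, ht₂, e₂⟩ := bd.zero _ _ hm hw20 hz2
  have ht12 : t₂ = t₁⁻¹ := by
    have h1 := hww
    rw [e₁, e₂, bd.hom _ _ _ ht₁.le, bd.symm, bd.hom _ _ _ ht₂.le, bd.symm, hkm] at h1
    have h2 : t₁ * t₂ = 1 := by linarith
    exact eq_inv_of_mul_eq_one_right h2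
  have e₁' : w.1 = Real.exp (Real.log t₁) • (φ p).1 := by rw [Real.exp_log ht₁, e₁]
  have e₂' : w.2 = Real.exp (-Real.log t₁) • (φ p).2 := by
    rw [Real.exp_neg, Real.exp_log ht₁, ← ht12, e₂]
  -- convergence of the feet
  have hfoot : ∀ t : ℝ, Tendsto (fun i => (Φ (t + (σ i : ℕ)) (P (σ i))).1.1) atTop
      (𝓝 (Φ (t + Real.log t₁) p).1.1) := by
    intro t
    have h1 : Tendsto (fun i => φ (Φ (t + (σ i : ℕ)) (P (σ i)))) atTop
        (𝓝 (φ (Φ (t + Real.log t₁) p))) := by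
      have h2 := (hw1.const_smul (Real.exp t)).prodMk_nhds (hw2.const_smul (Real.exp (-t)))
      rw [e₁', e₂', smul_smul, smul_smul, ← Real.exp_add, ← Real.exp_add, ← neg_add,
        ← cj.flow] at h2
      refine h2.congr fun i => ?_
      simp only [Function.comp]
      rw [cj.flow, smul_smul, smul_smul, ← Real.exp_add, ← Real.exp_add, ← neg_add]
    have h3 : Tendsto (fun i => φ (Φ (t + (σ i : ℕ)) (P (σ i)))) atTop
        (𝓝[{w | l w.1 w.2 = 2}] (φ (Φ (t + Real.log t₁) p))) :=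
      tendsto_nhdsWithin_iff.mpr ⟨h1, Eventually.of_forall fun i => cj.mem _⟩
    have h4 := (cj.icont _ (cj.mem (Φ (t + Real.log t₁) p))).tendsto.comp h3
    rw [cj.left] at h4
    have h5 : Tendsto (fun i => Φ (t + (σ i : ℕ)) (P (σ i))) atTop
        (𝓝 (Φ (t + Real.log t₁) p)) := h4.congr fun i => cj.left _
    exact ((continuous_fst.comp continuous_subtype_val).tendsto _).comp h5
  have hin : ∀ t : ℝ, ∀ᶠ i in atTop, t + ((σ i : ℕ) : ℝ) ∈ Icc 0 (L (σ i)) := by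
    intro t
    filter_upwards [hσ'.eventually_ge_atTop (-t), hσ'.eventually_ge_atTop (t + M)] with i h1 h2
    exact ⟨by linarith, by linarith [(hLM (σ i)).1]⟩
  have main : ∀ s t : ℝ, dd g (Φ (s + Real.log t₁) p).1.1 (Φ (t + Real.log t₁) p).1.1 =
      |s - t| := by
    intro s t
    have h1 := (rp.db.cont.tendsto _).comp ((hfoot s).prodMk_nhds (hfoot t))
    refine tendsto_nhds_unique h1 (tendsto_const_nhds.congr' ?_)
    filter_upwards [hin s, hin t] with i h2 h3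
    have h4 : dd g (Φ 0 (P (σ i))).1.1 (Φ (L (σ i)) (P (σ i))).1.1 = L (σ i) := by
      rw [rp.flow.zero, hP1, hP2]
    have h5 := min_seg rp.db rp.fl (P (σ i)) (L (σ i)) h4 _ _ h2 h3
    simp only [Function.comp]
    rw [h5]
    congr 1
    ring
  intro s t
  have h1 := main (s - Real.log t₁) (t - Real.log t₁)
  rw [sub_add_cancel, sub_add_cancel] at h1
  rw [h1]
  congr 1
  ring

end Pool.Agent.MP_3ee8cb_gt.CR
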