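import Pool.Agent.MP_3ee8cb_gt.CR.SpecA

/-! The determinant of an operator of nuclear norm at most the dimension. -/

namespace Pool.Agent.MP_3ee8cb_gt.CR

open Set MeasureTheory
open scoped RealInnerProductSpace

/-- Singular value decomposition of an invertible operator. -/
theorem nuc_svd {n : ℕ} (J : E n →L[ℝ] E n) (h : J.det ≠ 0) :
    ∃ (e f : OrthonormalBasis (Fin n) ℝ (E n)) (s : Fin n → ℝ), (∀ i, 0 < s i) ∧
      (∀ i, J (e i) = s i • f i) ∧ |J.det| = ∏ i, s i := by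
  let L : E n →ₗ[ℝ] E n := J
  have hs : (L.adjoint * L).IsSymmetric := LinearMap.isSymmetric_adjoint_mul_self L
  have hn : Module.finrank ℝ (E n) = n := by simp
  let e := hs.eigenvectorBasis hn
  have hinj : Function.Injective L := by
    have hu : IsUnit L := (LinearMap.isUnit_iff_isUnit_det L).2 (isUnit_iff_ne_zero.2 h)
    exact ((Module.End.isUnit_iff L).1 hu).1
  have hpos : ∀ i, 0 < ‖L (e i)‖ := fun i => norm_pos_iff.2 fun h0 =>
    e.orthonormal.ne_zero i (hinj (h0.trans (map_zero L).symm))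
  have ho : Orthonormal ℝ fun i => ‖L (e i)‖⁻¹ • L (e i) := by
    refine ⟨fun i => ?_, fun i j hij => ?_⟩
    · rw [norm_smul, norm_inv, norm_norm, inv_mul_cancel₀ (hpos i).ne']
    · have h1 : ⟪L (e i), L (e j)⟫ = 0 := by
        rw [← LinearMap.adjoint_inner_right]
        have h2 : L.adjoint (L (e j)) = (hs.eigenvalues hn j : ℝ) • e j :=
          hs.apply_eigenvectorBasis hn j
        rw [h2, real_inner_smul_right, e.orthonormal.2 hij, mul_zero]
      beta_reduce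
      rw [real_inner_smul_left, real_inner_smul_right, h1, mul_zero, mul_zero]
  let f : OrthonormalBasis (Fin n) ℝ (E n) := OrthonormalBasis.mk ho
    (ho.linearIndependent.span_eq_top_of_card_eq_finrank' (by simp)).ge
  have hf : ∀ i, L (e i) = ‖L (e i)‖ • f i := fun i => by
    simp only [f, OrthonormalBasis.coe_mk]
    rw [smul_smul, mul_inv_cancel₀ (hpos i).ne', one_smul]
  refine ⟨e, f, fun i => ‖L (e i)‖, hpos, hf, ?_⟩
  have h1 : e.toBasis.det (L ∘ e.toBasis) = J.det := by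
    rw [Module.Basis.det_comp, Module.Basis.det_self, mul_one]
  have h2 : (L ∘ e.toBasis) = fun i => ‖L (e i)‖ • f i := funext hf
  rw [← h1, h2, AlternatingMap.map_smul_univ, smul_eq_mul, abs_mul,
    abs_of_nonneg (Finset.prod_nonneg fun i _ => (hpos i).le)]
  rcases e.det_to_matrix_orthonormalBasis_real f with h3 | h3
  · rw [show e.toBasis.det (fun i => f i) = 1 from h3, abs_one, mul_one]
  · rw [show e.toBasis.det (fun i => f i) = -1 from h3, abs_neg, abs_one, mul_one]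

theorem nuc_pt {n : ℕ} (e f : OrthonormalBasis (Fin n) ℝ (E n)) {a b : E n} (ha : ‖a‖ = 1)
    (hb : ‖b‖ = 1) : 2 * (1 - ∑ i, ⟪f i, ⟪b, e i⟫ • a⟫) = ∑ i, (⟪e i, b⟫ - ⟪f i, a⟫) ^ 2 := by
  have h1 := e.sum_sq_inner_right b
  have h2 := f.sum_sq_inner_right a
  rw [hb] at h1
  rw [ha] at h2
  have h3 : ∑ i, (⟪e i, b⟫ - ⟪f i, a⟫) ^ 2 =
      ∑ i, ⟪e i, b⟫ ^ 2 + ∑ i, ⟪f i, a⟫ ^ 2 - 2 * ∑ i, ⟪f i, ⟪b, e i⟫ • a⟫ := by
    rw [Finset.mul_sum, ← Finset.sum_add_distrib, ← Finset.sum_sub_distrib]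
    refine Finset.sum_congr rfl fun i _ => ?_
    rw [real_inner_smul_right, real_inner_comm (e i) b]
    ring
  rw [h3, h1, h2]
  ring

theorem nuc : SNUC := by
  intro n X _ μ _ a b J ha hb hab hμ hJ
  by_cases h0 : J.det = 0
  · rw [h0, abs_zero]
    exact ⟨zero_le_one, fun h => absurd h (by norm_num)⟩
  obtain ⟨e, f, s, hs, hef, hdet⟩ := nuc_svd J h0
  have hint : ∀ u : E n, Integrable (fun x => ⟪b x, u⟫ • a x) μ := fun u => by
    have hm : AEStronglyMeasurable (fun x => ⟪b x, u⟫) μ := hb.inner aestronglyMeasurable_const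
    refine Integrable.of_bound (hm.smul ha) ‖u‖ ?_
    filter_upwards [hab] with x hx
    rw [norm_smul, hx.1, mul_one]
    exact (norm_inner_le_norm _ _).trans (by rw [hx.2, one_mul])
  have hint2 : ∀ i, Integrable (fun x => ⟪f i, ⟪b x, e i⟫ • a x⟫) μ := fun i =>
    (hint (e i)).const_inner (f i)
  have hsum : ∑ i, s i = ∫ x, ∑ i, ⟪f i, ⟪b x, e i⟫ • a x⟫ ∂μ := by
    rw [integral_finsetSum _ fun i _ => hint2 i]
    refine Finset.sum_congr rfl fun i _ => ?_
    rw [integral_inner (hint _), ← hJ, hef, real_inner_smul_right, real_inner_self_eq_norm_sq,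
      f.orthonormal.1 i]
    ring
  have hI : Integrable (fun x => 1 - ∑ i, ⟪f i, ⟪b x, e i⟫ • a x⟫) μ :=
    (integrable_const 1).sub (integrable_finsetSum _ fun i _ => hint2 i)
  have hval : ∫ x, (1 - ∑ i, ⟪f i, ⟪b x, e i⟫ • a x⟫) ∂μ = μ.real univ - ∑ i, s i := by
    rw [integral_sub (integrable_const 1) (integrable_finsetSum _ fun i _ => hint2 i), ← hsum]
    simp
  have hnn : 0 ≤ᵐ[μ] fun x => 1 - ∑ i, ⟪f i, ⟪b x, e i⟫ • a x⟫ := by
    filter_upwards [hab] with x hx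
    have h1 := nuc_pt e f hx.1 hx.2
    have h2 : 0 ≤ ∑ i, (⟪e i, b x⟫ - ⟪f i, a x⟫) ^ 2 := Finset.sum_nonneg fun i _ => sq_nonneg _
    simp only [Pi.zero_apply]
    linarith
  have hle : ∑ i, s i ≤ n := by
    have := integral_nonneg_of_ae hnn
    linarith
  have hlog : Real.log (∏ i, s i) = ∑ i, Real.log (s i) := Real.log_prod fun i _ => (hs i).ne'
  have hP : 0 < ∏ i, s i := Finset.prod_pos fun i _ => hs i
  have hd : ∑ i, (s i - 1 - Real.log (s i)) = ∑ i, s i - n - ∑ i, Real.log (s i) := by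
    simp [Finset.sum_sub_distrib]
  have hd0 : ∀ i ∈ (Finset.univ : Finset (Fin n)), 0 ≤ s i - 1 - Real.log (s i) := fun i _ =>
    sub_nonneg.2 (Real.log_le_sub_one_of_pos (hs i))
  have hd1 := Finset.sum_nonneg hd0
  rw [hdet]
  refine ⟨(Real.log_nonpos_iff hP.le).1 (by linarith), fun h1 => ?_⟩
  have h2 := Real.log_nonneg h1
  have h3 : ∀ i, s i = 1 := fun i => by
    by_contra hne
    have h4 := (Finset.sum_eq_zero_iff_of_nonneg hd0).1 (by linarith) i (Finset.mem_univ i)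
    have h5 := Real.log_lt_sub_one_of_pos (hs i) hne
    linarith
  have h4 : ∫ x, (1 - ∑ i, ⟪f i, ⟪b x, e i⟫ • a x⟫) ∂μ = 0 := by
    refine le_antisymm ?_ (integral_nonneg_of_ae hnn)
    rw [hval]
    simpa [h3] using hμ
  filter_upwards [(integral_eq_zero_iff_of_nonneg_ae hnn hI).1 h4, hab] with x hx hx'
  have h5 := nuc_pt e f hx'.1 hx'.2
  rw [show (1 - ∑ i, ⟪f i, ⟪b x, e i⟫ • a x⟫) = 0 from hx, mul_zero] at h5
  have h6 := (Finset.sum_eq_zero_iff_of_nonneg fun i _ => sq_nonneg _).1 h5.symm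
  rw [← e.sum_repr' (b x), ← f.sum_repr' (a x), map_sum]
  refine Finset.sum_congr rfl fun i hi => ?_
  rw [map_smul, hef, h3, one_smul, sub_eq_zero.1 (pow_eq_zero_iff two_ne_zero |>.1 (h6 i hi))]

end Pool.Agent.MP_3ee8cb_gt.CR
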