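import Pool.Agent.MP_3ee8cb_gt.CR.SpecA

/-! Packing against covering for a countable group of measure preserving maps. -/

namespace Pool.Agent.MP_3ee8cb_gt.CR

open Set MeasureTheory

theorem pack : SPACK := by
  intro X Γ _ _ _ μ T Ω E₁ E₂ hT hΩ mΩ mE _ h2 hd hc
  set M : Set X := toMeasurable μ E₂ ∩ Ω with hM
  have mM : MeasurableSet M := (measurableSet_toMeasurable μ E₂).inter mΩ
  set B : Γ → Set X := fun γ => T γ ⁻¹' E₁ ∩ M with hB
  have mB : ∀ γ, MeasurableSet (B γ) := fun γ => ((hT γ).measurable mE).inter mM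
  have dB : Pairwise (Function.onFun Disjoint B) := by
    intro γ δ hne
    refine Set.disjoint_left.2 fun z hz hz' => hne ?_
    exact hd γ δ z hz.2.2 hz.1 hz'.1
  have cov : E₁ ⊆ ⋃ γ, T γ⁻¹ ⁻¹' B γ := by
    intro z hz
    obtain ⟨γ, z', hz', rfl⟩ := hc z hz
    refine mem_iUnion.2 ⟨γ, ?_⟩
    show T γ⁻¹ (T γ z') ∈ B γ
    rw [(hΩ γ z' (h2 hz')).2]
    exact ⟨hz, subset_toMeasurable μ E₂ hz', h2 hz'⟩
  calc μ E₁ ≤ μ (⋃ γ, T γ⁻¹ ⁻¹' B γ) := measure_mono cov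
    _ ≤ ∑' γ, μ (T γ⁻¹ ⁻¹' B γ) := measure_iUnion_le _
    _ = ∑' γ, μ (B γ) := tsum_congr fun γ =>
        (hT γ⁻¹).measure_preimage (mB γ).nullMeasurableSet
    _ = μ (⋃ γ, B γ) := (measure_iUnion dB mB).symm
    _ ≤ μ (toMeasurable μ E₂) := measure_mono (iUnion_subset fun γ z hz => hz.2.1)
    _ = μ E₂ := measure_toMeasurable E₂

end Pool.Agent.MP_3ee8cb_gt.CR
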