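import Pool.Agent.MP_3ee8cb_gt.CR.SpecA

/-! Properness of the Riemannian distance on a cocompact cover. -/

namespace Pool.Agent.MP_3ee8cb_gt.CR

open Set Bornology Topology

variable {n : ℕ}

theorem pro_coer {g : Met n} (hg : Riem g) (x : E n) :
    ∃ c : ℝ, 0 < c ∧ ∀ v : E n, c * ‖v‖ ^ 2 ≤ g x v v := by
  have hc : Continuous fun v : E n => g x v v := by fun_prop
  obtain ⟨c, hc0, hc⟩ := (isCompact_sphere (0 : E n) 1).exists_forall_le' (a := 0)
    hc.continuousOn (fun v hv => hg.pos x v (by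
      rintro rfl
      simp at hv))
  refine ⟨c, hc0, fun v => ?_⟩
  by_cases hv : v = 0
  · subst hv; simp
  · have hn : 0 < ‖v‖ := norm_pos_iff.2 hv
    have h1 := hc (‖v‖⁻¹ • v) (by
      simp [norm_smul, hn.ne'])
    simp only [map_smul, smul_apply, smul_eq_mul] at h1
    have h2 := mul_le_mul_of_nonneg_right h1 (sq_nonneg ‖v‖)
    have h3 : ‖v‖⁻¹ * (‖v‖⁻¹ * g x v v) * ‖v‖ ^ 2 = g x v v := by
      field_simp
    rwa [h3] at h2

theorem pro_loc {g : Met n} (hg : Riem g) (hl : LowP g) (x : E n) :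
    ∃ r : ℝ, 0 < r ∧ IsBounded {z | ∃ y ∈ Metric.closedBall x r, dd g y z ≤ r / 4} := by
  obtain ⟨r, hr, h⟩ := hl x (1 / 2) (by norm_num)
  obtain ⟨c, hc, hc'⟩ := pro_coer hg x
  refine ⟨r, hr, ?_⟩
  refine (Metric.isBounded_closedBall (x := x) (r := r + (1 + r ^ 2 / c))).subset ?_
  rintro z ⟨y, hy, hz⟩
  rw [Metric.mem_closedBall, dist_eq_norm] at hy ⊢
  have h1 := h y z hy
  have h2 : √(g x (z - y) (z - y)) ≤ r := by
    rcases le_total r (√(g x (z - y) (z - y))) with h3 | h3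
    · rw [min_eq_left h3] at h1
      linarith
    · exact h3
  have h3 : g x (z - y) (z - y) ≤ r ^ 2 := by
    exact (Real.sqrt_le_left hr.le).1 h2
  have h4 : ‖z - y‖ ^ 2 ≤ r ^ 2 / c := by
    rw [le_div_iff₀ hc]
    have := hc' (z - y)
    linarith
  have h5 : ‖z - y‖ ≤ 1 + r ^ 2 / c := by
    nlinarith [norm_nonneg (z - y), sq_nonneg (‖z - y‖ - 1)]
  calc ‖z - x‖ = ‖(z - y) + (y - x)‖ := by congr 1; abel
    _ ≤ ‖z - y‖ + ‖y - x‖ := norm_add_le _ _
    _ ≤ _ := by linarith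

theorem pro_cpt {g : Met n} (hg : Riem g) (hl : LowP g) {K : Set (E n)} (hK : IsCompact K) :
    ∃ r : ℝ, 0 < r ∧ IsBounded {z | ∃ y ∈ K, dd g y z ≤ r} := by
  refine hK.induction_on (p := fun S => ∃ r : ℝ, 0 < r ∧ IsBounded {z | ∃ y ∈ S, dd g y z ≤ r})
    ⟨1, one_pos, by simp⟩ ?_ ?_ ?_
  · rintro s t hst ⟨r, hr, h⟩
    exact ⟨r, hr, h.subset fun z ⟨y, hy, hz⟩ => ⟨y, hst hy, hz⟩⟩
  · rintro s t ⟨r, hr, h⟩ ⟨r', hr', h'⟩
    refine ⟨min r r', lt_min hr hr', (h.union h').subset ?_⟩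
    rintro z ⟨y, hy | hy, hz⟩
    · exact Or.inl ⟨y, hy, hz.trans (min_le_left _ _)⟩
    · exact Or.inr ⟨y, hy, hz.trans (min_le_right _ _)⟩
  · intro x _
    obtain ⟨r, hr, h⟩ := pro_loc hg hl x
    exact ⟨Metric.closedBall x r, mem_nhdsWithin_of_mem_nhds (Metric.closedBall_mem_nhds x hr),
      r / 4, by positivity, h⟩

theorem pro_step {g : Met n} {Γ : Type} [Group Γ] [MulAction Γ (E n)] (hg : Riem g)
    (hd : Deck g Γ) (hl : LowP g) (hi : InvP g Γ) :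
    ∃ r : ℝ, 0 < r ∧ ∀ B : Set (E n), IsBounded B → IsBounded {z | ∃ y ∈ B, dd g y z ≤ r} := by
  obtain ⟨K, hK, hK'⟩ := hd.cpt
  obtain ⟨r, hr, h⟩ := pro_cpt hg hl hK
  refine ⟨r, hr, fun B hB => ?_⟩
  have hF := hd.disc.finite_disjoint_inter_image hB.isCompact_closure hK
  have hN := h.isCompact_closure
  have hU : IsCompact (⋃ γ ∈ {γ : Γ | ((γ • ·) '' closure B ∩ K).Nonempty},
      (fun x : E n => γ⁻¹ • x) '' closure {z | ∃ y ∈ K, dd g y z ≤ r}) :=
    hF.isCompact_biUnion fun γ _ => hN.image (hd.smooth γ⁻¹).continuous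
  refine hU.isBounded.subset ?_
  rintro z ⟨y, hy, hz⟩
  obtain ⟨γ, hγ⟩ := hK' y
  refine mem_biUnion (x := γ) ⟨γ • y, ⟨y, subset_closure hy, rfl⟩, hγ⟩
    ⟨γ • z, subset_closure ⟨γ • y, hγ, ?_⟩, by simp⟩
  rwa [hi γ y z]

theorem pro : SPRO := by
  intro n g Γ _ _ hg hd hb hl hm hi x R
  obtain ⟨r, hr, h⟩ := pro_step hg hd hl hi
  have key : ∀ m : ℕ, IsBounded {y | dd g x y ≤ m * (r / 2)} := by
    intro m
    induction m with
    | zero =>
      refine (h {x} isBounded_singleton).subset fun y hy => ⟨x, rfl, ?_⟩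
      simp only [mem_ofPred_eq, Nat.cast_zero, zero_mul] at hy
      exact hy.trans hr.le
    | succ m ih =>
      refine (h _ ih).subset fun y hy => ?_
      simp only [mem_ofPred_eq, Nat.cast_add, Nat.cast_one] at hy
      rcases le_total (dd g x y) (m * (r / 2)) with h1 | h1
      · exact ⟨y, h1, by rw [hb.refl]; exact hr.le⟩
      · obtain ⟨w, hw, hw'⟩ := hm x y (m * (r / 2)) (r / 2) (by positivity) h1 (by positivity)
        exact ⟨w, hw.le, by linarith⟩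
  obtain ⟨m, hm'⟩ := exists_nat_ge (R / (r / 2))
  refine (key m).subset fun y hy => ?_
  rw [div_le_iff₀ (by positivity)] at hm'
  exact le_trans hy hm'

end Pool.Agent.MP_3ee8cb_gt.CR
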