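import Pool.Agent.MP_3ee8cb_gt.CR.SpecB

/-! The volume of the image of the ball bundle is at most the integral of the Jacobian. -/

namespace Pool.Agent.MP_3ee8cb_gt.CR

open Set MeasureTheory
open scoped RealInnerProductSpace

variable {n : ℕ}

theorem right_up : ContDiff ℝ 1 (up : E n → V n) := by
  refine ContDiff.prodMk ?_ contDiff_id
  refine ContDiff.sqrt (contDiff_const.add (contDiff_norm_sq ℝ)) fun y => ?_
  positivity

theorem right_der (F : E n → E n) (hF : ContDiff ℝ 1 F) (x k : E n) (hk : k ≠ 0) :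
    ∃ (f : E n × E n →L[ℝ] E n × E n) (N : E n →L[ℝ] E n),
      HasFDerivAt (fun a : E n × E n => (a.2, qL a.2 (up (F a.1)))) f (x, k) ∧
      ∀ a, f a = (ContinuousLinearMap.id ℝ (E n) a.2, N a.2 + ((qL k).comp (Z F x)) a.1) := by
  have hU : HasFDerivAt (fun x => up (F x)) (Z F x) x :=
    (((right_up.comp hF).differentiable one_ne_zero) x).hasFDerivAt
  have hr : DifferentiableAt ℝ (fun k : E n => ‖k‖⁻¹ • k) k :=
    ((differentiableAt_id.norm ℝ hk).inv (norm_ne_zero_iff.2 hk)).smul differentiableAt_id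
  have h1 : HasFDerivAt (fun a : E n × E n => up (F a.1))
      ((Z F x).comp (ContinuousLinearMap.fst ℝ (E n) (E n))) (x, k) :=
    HasFDerivAt.comp (x, k) (f := Prod.fst) (g := fun x => up (F x)) hU hasFDerivAt_fst
  have h2 : HasFDerivAt (fun a : E n × E n => ‖a.2‖⁻¹ • a.2)
      ((fderiv ℝ (fun k : E n => ‖k‖⁻¹ • k) k).comp (ContinuousLinearMap.snd ℝ (E n) (E n)))
      (x, k) :=
    HasFDerivAt.comp (x, k) (f := Prod.snd) (g := fun k : E n => ‖k‖⁻¹ • k) hr.hasFDerivAt
      hasFDerivAt_snd
  have h3 := (h1.fst.smul h2).sub h1.snd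
  refine ⟨_, (up (F x)).1 • fderiv ℝ (fun k : E n => ‖k‖⁻¹ • k) k,
    (hasFDerivAt_snd (p := (x, k))).prodMk h3, fun a => ?_⟩
  simp [qL_apply, add_sub_assoc]

theorem right_meas (F : E n → E n) (hF : Continuous F) (D : Set (E n)) (hD : MeasurableSet D) :
    MeasurableSet {a : E n × E n | a.1 ∈ D ∧ a.2 ≠ 0 ∧ -B (up (F a.1)) (cn a.2) ≤ 1} := by
  refine (measurable_fst hD).inter (MeasurableSet.inter ?_ ?_)
  · exact measurable_snd (measurableSet_singleton (0 : E n)).compl
  · have hc : Continuous fun a : E n × E n => -B (up (F a.1)) (cn a.2) := by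
      unfold B up cn
      fun_prop
    exact (isClosed_le hc continuous_const).measurableSet

theorem right_fib (y : E n) : MeasurableSet {k : E n | k ≠ 0 ∧ -B (up y) (cn k) ≤ 1} := by
  refine MeasurableSet.inter (measurableSet_singleton (0 : E n)).compl ?_
  have hc : Continuous fun k : E n => -B (up y) (cn k) := by
    unfold B up cn
    fun_prop
  exact (isClosed_le hc continuous_const).measurableSet

theorem right (hb : SBLK) : SRIGHT := by
  intro n F D hF hD
  have hS := right_meas F hF.continuous D hD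
  set S := {a : E n × E n | a.1 ∈ D ∧ a.2 ≠ 0 ∧ -B (up (F a.1)) (cn a.2) ≤ 1} with hSd
  set Ψ := fun a : E n × E n => (a.2, qL a.2 (up (F a.1))) with hΨ
  have key : ∀ a ∈ S, HasFDerivAt Ψ (fderiv ℝ Ψ a) a ∧
      |(fderiv ℝ Ψ a).det| = |((qL a.2).comp (Z F a.1)).det| := by
    intro a ha
    obtain ⟨f, N, hf, hN⟩ := right_der F hF a.1 a.2 ha.2.1
    have hf' : HasFDerivAt Ψ f a := hf
    rw [hf'.fderiv]
    refine ⟨hf', ?_⟩
    rw [(hb n f _ _ N).2 hN]
    have : (ContinuousLinearMap.id ℝ (E n)).det = 1 := LinearMap.det_id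
    rw [this, abs_one, one_mul]
  have hH : Measure.IsAddHaarMeasure (volume : Measure (E n × E n)) := by
    rw [Measure.volume_eq_prod]
    infer_instance
  calc volume (E2 F D) ≤ ∫⁻ a in S, ENNReal.ofReal |(fderiv ℝ Ψ a).det| :=
        addHaar_image_le_lintegral_abs_det_fderiv volume hS
          fun a ha => (key a ha).1.hasFDerivWithinAt
    _ = ∫⁻ a in S, ENNReal.ofReal |((qL a.2).comp (Z F a.1)).det| :=
        setLIntegral_congr_fun hS fun a ha => by rw [(key a ha).2]
    _ = ∫⁻ a, S.indicator (fun a => ENNReal.ofReal |((qL a.2).comp (Z F a.1)).det|) a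
          ∂(volume.prod volume) := by rw [lintegral_indicator hS, Measure.volume_eq_prod]
    _ ≤ ∫⁻ x, ∫⁻ k, S.indicator
          (fun a => ENNReal.ofReal |((qL a.2).comp (Z F a.1)).det|) (x, k) := lintegral_prod_le _
    _ = ∫⁻ x, D.indicator (I F) x := by
        refine lintegral_congr fun x => ?_
        by_cases hx : x ∈ D
        · rw [indicator_of_mem hx, I, ← lintegral_indicator (right_fib (F x))]
          refine lintegral_congr fun k => ?_
          by_cases hk : k ∈ {k : E n | k ≠ 0 ∧ -B (up (F x)) (cn k) ≤ 1}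
          · rw [indicator_of_mem hk, indicator_of_mem (show (x, k) ∈ S from ⟨hx, hk⟩)]
          · rw [indicator_of_notMem hk,
              indicator_of_notMem (show (x, k) ∉ S from fun h => hk h.2)]
        · rw [indicator_of_notMem hx]
          refine (lintegral_congr fun k => ?_).trans lintegral_zero
          exact indicator_of_notMem (show (x, k) ∉ S from fun h => hx h.1) _
    _ = ∫⁻ x in D, I F x := lintegral_indicator hD _

end Pool.Agent.MP_3ee8cb_gt.CR
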