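import Pool.Agent.MP_3ee8cb_gt.CR.SpecA

namespace Pool.Agent.MP_3ee8cb_gt.CR

open Set MeasureTheory Metric

variable {n : ℕ}

theorem sc_bnd {F : Type} [NormedAddCommGroup F] [NormedSpace ℝ F] (f : E n → F)
    (hf : ContDiff ℝ 1 f) (ρ : ℝ) : ∃ K : ℝ, 0 ≤ K ∧ (∀ y ∈ closedBall (0 : E n) ρ, ‖f y‖ ≤ K) ∧
      ∀ y ∈ closedBall (0 : E n) ρ, ∀ z ∈ closedBall (0 : E n) ρ, ‖f z - f y‖ ≤ K * ‖z - y‖ := by
  obtain ⟨A, hA⟩ := (isCompact_closedBall (0 : E n) ρ).exists_bound_of_continuousOn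
    hf.continuous.continuousOn
  obtain ⟨B, hB⟩ := (isCompact_closedBall (0 : E n) ρ).exists_bound_of_continuousOn
    (hf.continuous_fderiv one_ne_zero).continuousOn
  refine ⟨|A| + |B|, by positivity, fun y hy => ?_, fun y hy z hz => ?_⟩
  · have := hA y hy
    have := le_abs_self A
    have := abs_nonneg B
    linarith
  · refine (convex_closedBall (0 : E n) ρ).norm_image_sub_le_of_norm_fderiv_le (𝕜 := ℝ)
      (fun x _ => hf.differentiable one_ne_zero x) (fun x hx => ?_) hy hz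
    have := hB x hx
    have := le_abs_self B
    have := abs_nonneg A
    linarith

theorem sc_tay {F : Type} [NormedAddCommGroup F] [NormedSpace ℝ F] (f : E n → F)
    (hf : ContDiff ℝ 2 f) (ρ : ℝ) : ∃ K : ℝ, 0 ≤ K ∧
      ∀ y ∈ closedBall (0 : E n) ρ, ∀ z ∈ closedBall (0 : E n) ρ, ‖f z‖ ≤ K ∧
        ‖f z - f y‖ ≤ K * ‖z - y‖ ∧ ‖f z - f y - fderiv ℝ f y (z - y)‖ ≤ K * ‖z - y‖ ^ 2 := by
  have h1 : ContDiff ℝ 1 f := hf.of_le (by norm_num)
  have h2 : ContDiff ℝ 1 (fderiv ℝ f) := hf.fderiv_right (by norm_num)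
  obtain ⟨A, hA0, hA, hA'⟩ := sc_bnd f h1 ρ
  obtain ⟨B, hB0, -, hB'⟩ := sc_bnd (fderiv ℝ f) h2 ρ
  refine ⟨A + B, by positivity, fun y hy z hz => ⟨by linarith [hA z hz], ?_, ?_⟩⟩
  · have := hA' y hy z hz
    have := mul_nonneg hB0 (norm_nonneg (z - y))
    linarith
  · have hc : Convex ℝ (closedBall (0 : E n) ρ ∩ closedBall y ‖z - y‖) :=
      (convex_closedBall _ _).inter (convex_closedBall _ _)
    have := hc.norm_image_sub_le_of_norm_fderiv_le' (𝕜 := ℝ) (f := f) (φ := fderiv ℝ f y)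
      (C := B * ‖z - y‖) (x := y) (y := z) (fun x _ => h1.differentiable one_ne_zero x)
      (fun x hx => (hB' y hy x hx.1).trans (mul_le_mul_of_nonneg_left
        (by simpa [dist_eq_norm] using hx.2) hB0))
      ⟨hy, mem_closedBall_self (norm_nonneg _)⟩ ⟨hz, by simp [dist_eq_norm]⟩
    have h3 := mul_nonneg hA0 (sq_nonneg ‖z - y‖)
    nlinarith

theorem sc_vel {g : Met n} (hg : Riem g) (ρ : ℝ) : ∃ V : ℝ, 0 ≤ V ∧
    ∀ y ∈ closedBall (0 : E n) ρ, ∀ u, g y u u = 1 → ‖u‖ ≤ V := by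
  have hc : Continuous fun a : E n × E n => g a.1 a.2 a.2 :=
    ((hg.smooth.continuous.comp continuous_fst).clm_apply continuous_snd).clm_apply continuous_snd
  obtain ⟨c, hc0, hc1⟩ := ((isCompact_closedBall (0 : E n) ρ).prod
    (isCompact_sphere (0 : E n) 1)).exists_forall_le' hc.continuousOn (a := 0) (fun b hb =>
      hg.pos _ _ (by
        rintro h
        have := hb.2
        rw [h] at this
        simp at this))
  refine ⟨1 + 1 / c, by positivity, fun y hy u hu => ?_⟩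
  have hu0 : u ≠ 0 := by
    rintro rfl
    simp at hu
  have hn : 0 < ‖u‖ := norm_pos_iff.2 hu0
  have h := hc1 (y, ‖u‖⁻¹ • u) ⟨hy, by simp [norm_smul, hn.ne']⟩
  simp only [map_smul, smul_apply, smul_eq_mul, hu, mul_one] at h
  have h2 : c * ‖u‖ ^ 2 ≤ 1 := by
    have := mul_le_mul_of_nonneg_right h (sq_nonneg ‖u‖)
    rwa [show ‖u‖⁻¹ * ‖u‖⁻¹ * ‖u‖ ^ 2 = 1 by field_simp] at this
  have h3 : ‖u‖ ^ 2 ≤ 1 / c := by
    rw [le_div_iff₀ hc0]
    linarith
  nlinarith [sq_nonneg (‖u‖ - 1), one_div_pos.2 hc0]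

theorem sc_pt (A B D : E n →L[ℝ] E n →L[ℝ] ℝ) (v h : E n) (K V : ℝ) (hK : 0 ≤ K)
    (hs : A h v = A v h) (h0 : ‖A‖ ≤ K) (h1 : ‖A - B‖ ≤ K * ‖h‖)
    (h2 : ‖A - B - D‖ ≤ K * ‖h‖ ^ 2) (hv : B v v = 1) (hV : ‖v‖ ≤ V)
    (hp : 0 ≤ A (v - h) (v - h)) :
    √(A (v - h) (v - h)) ≤ 1 + (K * V ^ 2 + K * V + K) * ‖h‖ ^ 2 + (-B v h + D v v / 2) := by
  have hv0 := norm_nonneg v
  have hh0 := norm_nonneg h
  have a0 : A h h ≤ K * ‖h‖ ^ 2 := by
    have := (le_abs_self _).trans (A.le_opNorm₂ h h)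
    nlinarith [mul_le_mul_of_nonneg_right h0 (mul_nonneg hh0 hh0)]
  have a1 : -(A v h - B v h) ≤ K * V * ‖h‖ ^ 2 := by
    have := (neg_le_abs _).trans ((A - B).le_opNorm₂ v h)
    simp only [sub_apply] at this
    have b := mul_le_mul h1 hV hv0 (mul_nonneg hK hh0)
    nlinarith [mul_le_mul_of_nonneg_right b hh0]
  have a2 : A v v - B v v - D v v ≤ K * V ^ 2 * ‖h‖ ^ 2 := by
    have := (le_abs_self _).trans ((A - B - D).le_opNorm₂ v v)
    simp only [sub_apply] at this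
    have b := mul_le_mul h2 (mul_le_mul hV hV hv0 (hv0.trans hV)) (mul_nonneg hv0 hv0)
      (mul_nonneg hK (sq_nonneg _))
    nlinarith
  have e : A (v - h) (v - h) = A v v - 2 * A v h + A h h := by
    simp only [map_sub, sub_apply, hs]
    ring
  have s : ∀ x : ℝ, 0 ≤ x → √x ≤ (1 + x) / 2 := fun x hx => by
    nlinarith [Real.sq_sqrt hx, sq_nonneg (√x - 1)]
  have p1 := mul_nonneg (mul_nonneg hK (sq_nonneg V)) (sq_nonneg ‖h‖)
  have p2 := mul_nonneg hK (sq_nonneg ‖h‖)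
  have := s _ hp
  nlinarith

theorem sc : SSC := by
  intro n g Φ hg hΦ hdb hlen hpro hfl R
  obtain ⟨M, hM⟩ := (isCompact_closedBall (0 : E n) R).exists_bound_of_continuousOn
    (f := fun y => dd g 0 y) (hdb.cont.comp (Continuous.prodMk_right (0 : E n))).continuousOn
  obtain ⟨ρ, hρ⟩ := (hpro 0 (M + 1)).subset_closedBall 0
  obtain ⟨K, hK, hT⟩ := sc_tay g hg.smooth (|ρ| + |R|)
  obtain ⟨V, -, hV⟩ := sc_vel hg ρ
  refine ⟨K * V ^ 2 + K * V + K, fun p h hp hh => ?_⟩
  set C := (K * V ^ 2 + K * V + K) * ‖h‖ ^ 2 with hC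
  let c : ℝ → E n := fun t => (Φ t p).1.1
  let v : ℝ → E n := fun t => (Φ t p).1.2
  have hc : Continuous c := continuous_fst.comp (continuous_subtype_val.comp (hfl.cont p))
  have hv : Continuous v := continuous_snd.comp (continuous_subtype_val.comp (hfl.cont p))
  have c0 : c 0 = p.1.1 := by simp only [c, hΦ.zero]
  have v0 : v 0 = p.1.2 := by simp only [v, hΦ.zero]
  have hb : ∀ t ∈ Icc (0 : ℝ) 1, c t ∈ closedBall (0 : E n) ρ := fun t ht => hρ (by
    have h1 := (le_abs_self _).trans (hM p.1.1 (by simpa using hp))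
    have h2 := hfl.lip p 0 t
    rw [hΦ.zero, zero_sub, abs_neg, abs_of_nonneg ht.1] at h2
    have h3 := hdb.tri 0 p.1.1 (c t)
    have h4 := ht.2
    show dd g 0 (c t) ≤ M + 1
    linarith)
  let e : ℝ → E n := fun t => c t + (1 - t) • h
  have he : Continuous e := hc.add ((continuous_const.sub continuous_id).smul continuous_const)
  have he' : ∀ t, HasDerivAt e (v t - h) t := fun t => by
    have := (hΦ.vel p t).add (((hasDerivAt_id t).const_sub 1).smul_const h)
    rw [neg_one_smul, ← sub_eq_add_neg] at this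
    exact this
  have hgc := hg.smooth.continuous
  have hDc := hg.smooth.continuous_fderiv (by norm_num)
  let G' : ℝ → ℝ := fun t =>
    1 + C + (-g (c t) (v t) h + (1 - t) * (fderiv ℝ g (c t) h (v t) (v t) / 2))
  have hG : ∀ t, HasDerivAt (fun s => s * (1 + C) + (1 - s) * g (c s) (v s) h) (G' t) t :=
    fun t => by
      have := ((hasDerivAt_id t).mul_const (1 + C)).add
        (((hasDerivAt_id t).const_sub 1).mul (hΦ.geo p t h))
      refine HasDerivAt.congr_deriv this ?_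
      simp only [G', id, c, v]
      ring
  have hG' : Continuous G' := continuous_const.add
    ((((hgc.comp hc).clm_apply hv).clm_apply continuous_const).neg.add
      ((continuous_const.sub continuous_id).mul
        (((((hDc.comp hc).clm_apply continuous_const).clm_apply hv).clm_apply hv).div_const 2)))
  have hw : Continuous fun t => v t - h := hv.sub continuous_const
  have hl := hlen.2 e (fun t => v t - h) 0 1 zero_le_one (fun t _ => he' t) hw.continuousOn
  have hi := intervalIntegral.integral_eq_sub_of_hasDerivAt (a := 0) (b := 1) (fun t _ => hG t)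
    (hG'.intervalIntegrable 0 1)
  have hm : ∫ t in (0 : ℝ)..1, √(g (e t) (v t - h) (v t - h)) ≤ ∫ t in (0 : ℝ)..1, G' t := by
    refine intervalIntegral.integral_mono_on zero_le_one
      ((((hgc.comp he).clm_apply hw).clm_apply hw).sqrt.intervalIntegrable 0 1)
      (hG'.intervalIntegrable 0 1) fun t ht => ?_
    have n1 : ‖(1 - t) • h‖ ≤ ‖h‖ := by
      rw [norm_smul, Real.norm_of_nonneg (sub_nonneg.2 ht.2)]
      nlinarith [norm_nonneg h, ht.1]
    have n2 : ‖c t‖ ≤ ρ := by simpa using hb t ht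
    have m1 : c t ∈ closedBall (0 : E n) (|ρ| + |R|) := by
      rw [mem_closedBall_zero_iff]
      linarith [le_abs_self ρ, abs_nonneg R]
    have m2 : e t ∈ closedBall (0 : E n) (|ρ| + |R|) := by
      rw [mem_closedBall_zero_iff]
      linarith [le_abs_self ρ, le_abs_self R, norm_add_le (c t) ((1 - t) • h)]
    obtain ⟨t0, t1, t2⟩ := hT _ m1 _ m2
    have ed : e t - c t = (1 - t) • h := by simp only [e, add_sub_cancel_left]
    rw [ed] at t1 t2
    have hpos : 0 ≤ g (e t) (v t - h) (v t - h) := by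
      rcases eq_or_ne (v t - h) 0 with h0 | h0
      · simp [h0]
      · exact (hg.pos _ _ h0).le
    have := sc_pt (g (e t)) (g (c t)) (fderiv ℝ g (c t) ((1 - t) • h)) (v t) h K V hK
      (hg.symm _ _ _) t0 (t1.trans (mul_le_mul_of_nonneg_left n1 hK))
      (t2.trans (mul_le_mul_of_nonneg_left (pow_le_pow_left₀ (norm_nonneg _) n1 2) hK))
      (Φ t p).2 (hV _ (hb t ht) _ (Φ t p).2) hpos
    refine this.trans (le_of_eq ?_)
    simp only [G', map_smul, smul_apply, smul_eq_mul, ← hC]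
    ring
  have e0 : e 0 = p.1.1 + h := by simp [e, c0]
  have e1 : e 1 = (Φ 1 p).1.1 := by simp [e, c]
  rw [e0, e1] at hl
  rw [hi, c0, v0] at hm
  linarith

end Pool.Agent.MP_3ee8cb_gt.CR
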