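import Pool.Agent.MP_3ee8cb_gt.CR.SpecB

/-! Reduction to curvature minus one by scaling both metrics. -/

namespace Pool.Agent.MP_3ee8cb_gt.CR

open Set
open scoped RealInnerProductSpace

variable {n : ℕ}

/-- The scaled metric. -/
noncomputable def scale_m (a : ℝ) (g : Met n) : Met n := (a * a)⁻¹ • g

theorem scale_app (a : ℝ) (g : Met n) (x u v : E n) :
    scale_m a g x u v = (a * a)⁻¹ * g x u v := by
  simp [scale_m]

theorem scale_one {a : ℝ} {g : Met n} {x v : E n} (h : scale_m a g x v v = 1) :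
    g x (a⁻¹ • v) (a⁻¹ • v) = 1 := by
  rw [scale_app, mul_inv, mul_assoc] at h
  simpa only [map_smul, smul_apply, smul_eq_mul] using h

theorem scale_two {a : ℝ} (ha : a ≠ 0) {g : Met n} {x v : E n} (h : g x v v = 1) :
    scale_m a g x (a • v) (a • v) = 1 := by
  rw [scale_app]
  simp only [map_smul, smul_apply, smul_eq_mul]
  rw [h, mul_one, inv_mul_cancel₀ (mul_ne_zero ha ha)]

theorem scale_c1 (a : ℝ) (g : Met n) : Continuous fun p : UT (scale_m a g) =>
    (⟨(p.1.1, a⁻¹ • p.1.2), scale_one p.2⟩ : UT g) :=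
  Continuous.subtype_mk (by fun_prop) _

theorem scale_c2 {a : ℝ} (ha : a ≠ 0) (g : Met n) : Continuous fun p : UT g =>
    (⟨(p.1.1, a • p.1.2), scale_two ha p.2⟩ : UT (scale_m a g)) :=
  Continuous.subtype_mk (by fun_prop) _

/-- Scaling of unit vectors. -/
noncomputable def scale_s {a : ℝ} (ha : a ≠ 0) (g : Met n) : UT (scale_m a g) ≃ₜ UT g where
  toFun p := ⟨(p.1.1, a⁻¹ • p.1.2), scale_one p.2⟩
  invFun p := ⟨(p.1.1, a • p.1.2), scale_two ha p.2⟩
  left_inv p := Subtype.ext (Prod.ext rfl (smul_inv_smul₀ ha p.1.2))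
  right_inv p := Subtype.ext (Prod.ext rfl (inv_smul_smul₀ ha p.1.2))
  continuous_toFun := scale_c1 a g
  continuous_invFun := scale_c2 ha g

theorem scale_rel {a : ℝ} (ha : a ≠ 0) (g : Met n) {Γ : Type} [Group Γ] [MulAction Γ (E n)]
    (p q : UT (scale_m a g)) : (∃ γ : Γ, q.1 = tm γ p.1) ↔
      ∃ γ : Γ, (scale_s ha g q).1 = tm γ (scale_s ha g p).1 := by
  refine exists_congr fun γ => ?_
  show q.1 = tm γ p.1 ↔ (q.1.1, a⁻¹ • q.1.2) = tm γ (p.1.1, a⁻¹ • p.1.2)
  simp only [tm, Prod.ext_iff, map_smul]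
  exact and_congr_right fun _ => (smul_right_inj (inv_ne_zero ha)).symm

/-- Scaling on the quotient. -/
noncomputable def scale_q {a : ℝ} (ha : a ≠ 0) (g : Met n) (Γ : Type) [Group Γ]
    [MulAction Γ (E n)] : UM (scale_m a g) Γ ≃ₜ UM g Γ :=
  Homeomorph.Quot.congr (scale_s ha g) (scale_rel ha g)

theorem scale_q_mk {a : ℝ} (ha : a ≠ 0) (g : Met n) (Γ : Type) [Group Γ] [MulAction Γ (E n)]
    (p : UT (scale_m a g)) :
    scale_q ha g Γ (Quot.mk _ p) = Quot.mk _ (scale_s ha g p) := rfl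

theorem scale_riem {a : ℝ} (ha : a ≠ 0) {g : Met n} (hg : Riem g) : Riem (scale_m a g) where
  smooth := hg.smooth.const_smul (a * a)⁻¹
  symm x u v := by rw [scale_app, scale_app, hg.symm]
  pos x v hv := by
    rw [scale_app]
    exact mul_pos (inv_pos.2 (mul_self_pos.2 ha)) (hg.pos x v hv)

theorem scale_deck (a : ℝ) {g : Met n} {Γ : Type} [Group Γ] [MulAction Γ (E n)]
    (hd : Deck g Γ) : Deck (scale_m a g) Γ where
  smooth := hd.smooth
  iso γ x u v := by rw [scale_app, scale_app, hd.iso]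
  free := hd.free
  disc := hd.disc
  cpt := hd.cpt

/-- The scaled flow. -/
noncomputable def scale_f {a : ℝ} (ha : a ≠ 0) {g : Met n} (Φ : ℝ → UT g → UT g) (t : ℝ)
    (p : UT (scale_m a g)) : UT (scale_m a g) :=
  (scale_s ha g).symm (Φ (a * t) (scale_s ha g p))

theorem scale_flow {a : ℝ} (ha : a ≠ 0) {g : Met n} {Φ : ℝ → UT g → UT g} (hΦ : IsFlow g Φ) :
    IsFlow (scale_m a g) (scale_f ha Φ) where
  zero p := by rw [scale_f, mul_zero, hΦ.zero, Homeomorph.symm_apply_apply]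
  vel p t := by
    have h1 : HasDerivAt (fun s : ℝ => a * s) a t := by
      simpa using (hasDerivAt_id t).const_mul a
    exact (hΦ.vel (scale_s ha g p) (a * t)).scomp t h1
  geo p t w := by
    have h1 : HasDerivAt (fun s : ℝ => a * s) a t := by
      simpa using (hasDerivAt_id t).const_mul a
    have h2 := ((hΦ.geo (scale_s ha g p) (a * t) w).scomp t h1).const_mul ((a * a)⁻¹ * a)
    have h3 : fderiv ℝ (scale_m a g) = (a * a)⁻¹ • fderiv ℝ g :=
      fderiv_const_smul_field (𝕜 := ℝ) (f := g) (a * a)⁻¹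
    show HasDerivAt (fun s => scale_m a g (Φ (a * s) (scale_s ha g p)).1.1
      (a • (Φ (a * s) (scale_s ha g p)).1.2) w)
      (fderiv ℝ (scale_m a g) (Φ (a * t) (scale_s ha g p)).1.1 w
        (a • (Φ (a * t) (scale_s ha g p)).1.2) (a • (Φ (a * t) (scale_s ha g p)).1.2) / 2) t
    refine (h2.congr_of_eventuallyEq (Filter.Eventually.of_forall fun s => ?_)).congr_deriv ?_
    · simp only [scale_app, map_smul, smul_apply, smul_eq_mul, Function.comp_apply]
      ring
    · rw [h3]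
      simp only [Pi.smul_apply, map_smul, smul_apply, smul_eq_mul]
      ring

theorem scale : SSCALE := by
  intro H c hc n g h Γ Λ _ _ _ _ Φ Ψ f hn hg hh hΓ hΛ hΦ hΨ hf
  have ha : √c ≠ 0 := (Real.sqrt_pos.2 hc).ne'
  have hcc : √c * √c = c := Real.mul_self_sqrt hc.le
  obtain ⟨F, ρ, h1, h2, h3, h4⟩ := H n (scale_m √c g) (scale_m √c h) Γ Λ (scale_f ha Φ)
    (scale_f ha Ψ) ((scale_q ha g Γ).trans (f.trans (scale_q ha h Λ).symm)) hn
    (scale_riem ha hg) (fun x u v => by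
      rw [scale_app, hh, hcc, ← mul_assoc, inv_mul_cancel₀ hc.ne']) (scale_deck _ hΓ)
    (scale_deck _ hΛ) (scale_flow ha hΦ) (scale_flow ha hΨ) (fun t p q e => by
      simp only [Homeomorph.trans_apply, Homeomorph.symm_apply_eq, scale_q_mk] at e ⊢
      simp only [scale_f, Homeomorph.apply_symm_apply]
      exact hf _ _ _ e)
  refine ⟨F, ρ, h1, h2, fun x u v => ?_, h4⟩
  have h5 := h3 x u v
  rw [scale_app, scale_app] at h5
  exact mul_left_cancel₀ (inv_ne_zero (mul_ne_zero ha ha)) h5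

end Pool.Agent.MP_3ee8cb_gt.CR
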