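import Pool.Agent.MP_3ee8cb_gt.CR.SpecB

/-! An equivariant map to hyperbolic space is onto. -/

namespace Pool.Agent.MP_3ee8cb_gt.CR

open Set
open scoped RealInnerProductSpace

variable {n : ℕ}

theorem surj_symm (z w : V n) : B z w = B w z := by
  simp only [B, real_inner_comm, mul_comm]

theorem surj_add (z w u : V n) : B z (w + u) = B z w + B z u := by
  simp only [B, Prod.fst_add, Prod.snd_add, inner_add_right]
  ring

theorem surj_smul (c : ℝ) (z w : V n) : B z (c • w) = c * B z w := by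
  simp only [B, Prod.smul_fst, Prod.smul_snd, real_inner_smul_right, smul_eq_mul]
  ring

theorem surj_cB : Continuous fun a : V n × V n => B a.1 a.2 := by
  unfold B
  fun_prop

theorem surj_cup : Continuous (up : E n → V n) := by
  unfold up
  fun_prop

theorem surj_ccn : Continuous (cn : E n → V n) := by
  unfold cn
  fun_prop

/-- A continuous choice of two light vectors with midpoint `up y`. -/
theorem surj_pair (hn : 0 < n) (hL : LorP n) : ∃ w : E n → E n × E n, Continuous w ∧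
    ∀ y, lp (w y).1 (w y).2 = 2 ∧ cn (w y).1 + cn (w y).2 = (2 : ℝ) • up y := by
  let e : E n := EuclideanSpace.single ⟨0, hn⟩ 1
  have he : e ≠ 0 := by
    intro h
    have := congrArg (fun z : E n => z ⟨0, hn⟩) h
    simp [e] at this
  let l : E n → ℝ := fun y => -B (up y) (cn e)
  have lp0 : ∀ y, 0 < l y := fun y => hL.ell y e he
  have lc : Continuous l := (surj_cB.comp (surj_cup.prodMk continuous_const)).neg
  have li : Continuous fun y => (l y)⁻¹ := lc.inv₀ fun y => (lp0 y).ne'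
  refine ⟨fun y => ((l y)⁻¹ • e, (2 : ℝ) • y - (l y)⁻¹ • e), by fun_prop, fun y => ?_⟩
  have h1 : cn ((l y)⁻¹ • e) = (l y)⁻¹ • cn e := by
    simp only [cn, norm_smul, Prod.smul_mk, smul_eq_mul, Real.norm_eq_abs,
      abs_of_pos (inv_pos.2 (lp0 y))]
  have hee : B (cn e) (cn e) = 0 := by rw [hL.cc, hL.bd.self, neg_zero]
  set ξ : V n := (l y)⁻¹ • cn e with hξ
  have h2 : B (up y) ξ = -1 := by
    rw [hξ, surj_smul]
    have : B (up y) (cn e) = -l y := by simp [l]
    rw [this, mul_neg, inv_mul_cancel₀ (lp0 y).ne']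
  have h3 : B ξ ξ = 0 := by
    rw [hξ, surj_smul, surj_symm, surj_smul, hee]
    simp
  set η : V n := (2 : ℝ) • up y + (-1 : ℝ) • ξ with hη
  have h4 : B (up y) η = -1 := by
    rw [hη, surj_add, surj_smul, surj_smul, hL.uu, h2]
    norm_num
  have h5 : B ξ η = -2 := by
    rw [hη, surj_add, surj_smul, surj_smul, surj_symm ξ (up y), h2, h3]
    norm_num
  have h6 : B η η = 0 := by
    have : B η η = B η ((2 : ℝ) • up y + (-1 : ℝ) • ξ) := rfl
    rw [this, surj_add, surj_smul, surj_smul, surj_symm η (up y), surj_symm η ξ, h4, h5]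
    norm_num
  have h7 : 0 ≤ η.1 := by
    by_contra hneg
    push Not at hneg
    have a1 : B ((-1 : ℝ) • η) ((-1 : ℝ) • η) = 0 := by
      rw [surj_smul, surj_symm, surj_smul, h6]
      simp
    have a2 := hL.cone _ a1 (by simp only [Prod.smul_fst, smul_eq_mul]; linarith)
    have a3 : ((-1 : ℝ) • η).2 ≠ 0 := by
      intro h
      have := congrArg Prod.fst a2
      rw [h] at this
      simp only [cn, norm_zero, Prod.smul_fst, smul_eq_mul] at this
      linarith
    have a4 := hL.ell y _ a3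
    rw [a2, surj_smul, h4] at a4
    norm_num at a4
  have h8 : cn ((2 : ℝ) • y - (l y)⁻¹ • e) = η := by
    rw [← hL.cone η h6 h7]
    congr 1
    simp [hη, hξ, up, cn, sub_eq_add_neg]
  refine ⟨?_, ?_⟩
  · have := hL.cc ((l y)⁻¹ • e) ((2 : ℝ) • y - (l y)⁻¹ • e)
    rw [h1, h8, h5] at this
    show lp ((l y)⁻¹ • e) ((2 : ℝ) • y - (l y)⁻¹ • e) = 2
    linarith
  · show cn ((l y)⁻¹ • e) + cn ((2 : ℝ) • y - (l y)⁻¹ • e) = _
    rw [h1, h8, hη]
    module

theorem surj_bound {g : Met n} {Γ : Type} [Group Γ] [MulAction Γ (E n)]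
    {A : Γ → V n →L[ℝ] V n} {β : E n → E n → ℝ} {v m : E n → E n → E n} {X : E n × E n → E n}
    (H : HD g A β v m X) (hY : YaP β) {F : E n → E n} (hF : EqF A F) : ∃ C : ℝ,
    ∀ x k, k ≠ 0 → β x k = 1 → -B (up (F x)) (cn k + cn (m x k)) ≤ C := by
  obtain ⟨K, hK, hcov⟩ := H.deck.cpt
  obtain ⟨R, hR⟩ := hK.isBounded.exists_norm_le
  obtain ⟨c, hc, hlow⟩ := hY.low R
  have hS : IsCompact (Metric.closedBall (0 : E n) c⁻¹ \ Metric.ball 0 c) :=
    (isCompact_closedBall _ _).diff Metric.isOpen_ball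
  have hm : ContinuousOn (fun w : E n × E n => m w.1 w.2)
      (K ×ˢ (Metric.closedBall (0 : E n) c⁻¹ \ Metric.ball 0 c)) :=
    H.bd.cm.mono fun w hw h0 => hw.2.2 (by rw [h0]; exact Metric.mem_ball_self hc)
  have hcont : ContinuousOn (fun w : E n × E n => -B (up (F w.1)) (cn w.2 + cn (m w.1 w.2)))
      (K ×ˢ (Metric.closedBall (0 : E n) c⁻¹ \ Metric.ball 0 c)) :=
    (surj_cB.comp_continuousOn
      ((surj_cup.comp (hF.smooth.continuous.comp continuous_fst)).continuousOn.prodMk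
        ((surj_ccn.comp continuous_snd).continuousOn.add (surj_ccn.comp_continuousOn hm)))).neg
  obtain ⟨C, hC⟩ := (hK.prod hS).bddAbove_image hcont
  refine ⟨C, fun x k hk hβ => ?_⟩
  obtain ⟨γ, hγ⟩ := hcov x
  have hA := H.rep.lor γ
  obtain ⟨e1, e2⟩ := H.bd.equi γ x k hk
  obtain ⟨l1, l2⟩ := hlow (γ • x) (ca (A γ) k) (hR _ hγ) (H.lor.ane _ hA k hk)
  rw [e1, hβ] at l1 l2
  have hmem : (γ • x, ca (A γ) k) ∈ K ×ˢ (Metric.closedBall (0 : E n) c⁻¹ \ Metric.ball 0 c) := by
    refine ⟨hγ, ?_, ?_⟩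
    · rw [mem_closedBall_zero_iff, ← one_div, le_div_iff₀ hc]
      linarith
    · rw [mem_ball_zero_iff, not_lt]
      rwa [inv_mul_eq_div, le_div_iff₀ hc, one_mul] at l2
  have := hC (mem_image_of_mem _ hmem)
  simp only at this
  rwa [e2, hF.equi, ← H.lor.acn _ hA, ← H.lor.acn _ hA, ← map_add, hA.pres] at this

theorem surj (hb : SBRW) : SSURJ := by
  intro n g Γ _ _ A β v m X H hY F hF
  obtain ⟨w, wc, hw⟩ := surj_pair H.pos H.lor
  obtain ⟨C, hC⟩ := surj_bound H hY hF
  have hX : Continuous fun y => X (w y) := H.bd.cX.comp_continuous wc fun y => (hw y).1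
  refine Function.Surjective.of_comp (g := fun y => X (w y))
    (hb n (fun y => F (X (w y))) (C / 2) (hF.smooth.continuous.comp hX) fun y => ?_)
  obtain ⟨h1, h2⟩ := hw y
  have h3 : (w y).1 ≠ 0 := by
    intro h
    rw [h] at h1
    simp [lp] at h1
  have h4 := H.bd.mX _ h1
  have h5 := H.bd.tou (X (w y)) _ h3
  rw [h4, h1] at h5
  have h6 := hC (X (w y)) _ h3 (by linarith)
  rw [h4, h2, surj_smul] at h6
  linarith

end Pool.Agent.MP_3ee8cb_gt.CR
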