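import Pool.Agent.MP_3ee8cb_gt.CR.SpecA
import Pool.Agent.MP_3ee8cb_gt.H27.SV

namespace Pool.Agent.MP_3ee8cb_gt.CR

open MeasureTheory

theorem sv : SSV := by
  intro n A S P Q C hA _ _ hP hQ hx hk hi
  have : Measure.IsAddHaarMeasure (volume : Measure (E n × E n)) :=
    Measure.prod.instIsAddHaarMeasure _ _
  exact H27.sv volume A hA P Q hP hQ (fun a => S a.1 a.2) C hx hk hi

theorem smor : SMOR := by
  intro H ι _ _ _ A c s w R hR hc
  obtain ⟨N, h1, h2, h3⟩ := H27.sv_minty A w s (fun i => c i + inner ℝ (s i) (w i)) R hR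
    (fun a ha b hb => by
      have := hc a ha b hb
      rw [inner_sub_right]; linarith)
  exact ⟨N, h1, h2, fun z hz u u' => by
    rw [h3 z _ hz.hasFDerivAt u u', real_inner_comm]⟩

theorem sarea : SAREA := by
  intro n f K s hf hs
  have : Measure.IsAddHaarMeasure (volume : Measure (E n × E n)) :=
    Measure.prod.instIsAddHaarMeasure _ _
  have hD := measurableSet_of_differentiableAt ℝ f
  have hD0 : volume {z | DifferentiableAt ℝ f z}ᶜ = 0 := hf.ae_differentiableAt (μ := volume)
  have hd : ∀ z ∈ s ∩ {z | DifferentiableAt ℝ f z},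
      HasFDerivWithinAt f (fderiv ℝ f z) (s ∩ {z | DifferentiableAt ℝ f z}) z :=
    fun z hz => hz.2.hasFDerivAt.hasFDerivWithinAt
  have he : (s ∩ {z | DifferentiableAt ℝ f z} : Set (E n × E n)) =ᵐ[volume] s :=
    inter_ae_eq_left_of_ae_eq_univ (ae_eq_univ.2 hD0)
  refine ⟨?_, fun hi => ?_⟩
  · calc volume (f '' s) ≤ volume (f '' (s ∩ {z | DifferentiableAt ℝ f z}) ∪
          f '' {z | DifferentiableAt ℝ f z}ᶜ) := by
          refine measure_mono ?_
          rintro _ ⟨a, ha, rfl⟩
          by_cases h : DifferentiableAt ℝ f a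
          · exact Or.inl ⟨a, ⟨ha, h⟩, rfl⟩
          · exact Or.inr ⟨a, h, rfl⟩
      _ ≤ _ := measure_union_le _ _
      _ = volume (f '' (s ∩ {z | DifferentiableAt ℝ f z})) := by
          rw [H27.sv_null volume hf hD0, add_zero]
      _ ≤ _ := addHaar_image_le_lintegral_abs_det_fderiv volume (hs.inter hD) hd
      _ = _ := setLIntegral_congr he
  · rw [← setLIntegral_congr he]
    exact (lintegral_abs_det_fderiv_le_addHaar_image volume (hs.inter hD) hd
      (hi.mono Set.inter_subset_left)).trans (measure_mono (Set.image_mono Set.inter_subset_left))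

end Pool.Agent.MP_3ee8cb_gt.CR
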