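import Pool.Agent.MP_3ee8cb_gt.CR.SpecA

namespace Pool.Agent.MP_3ee8cb_gt.CR

theorem tay : STAY := by
  intro n g Γ _ _ Φ l a φ ψ hR _ hB R
  obtain ⟨C, hC⟩ := hR.sc (2 * R)
  have up : ∀ (p : UT g) (x : E n), ‖p.1.1‖ ≤ R → ‖x‖ ≤ R →
      bus g Φ p x + g p.1.1 p.1.2 (x - p.1.1) ≤ C * ‖x - p.1.1‖ ^ 2 := by
    intro p x hp hx
    have h0 : 0 ≤ R := (norm_nonneg _).trans hx
    have h1 := hC p (x - p.1.1) (by linarith) ((norm_sub_le _ _).trans (by linarith))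
    have h2 := hB.lip p x (Φ 1 p).1.1
    have h3 := hB.self p 1
    have e : p.1.1 + (x - p.1.1) = x := by abel
    rw [e] at h1
    linarith
  refine ⟨C, fun p x hp hx => abs_le.2 ⟨?_, up p x hp hx⟩⟩
  have h1 := up (ng p) x hp hx
  have h2 := hB.opp p x
  have e : g (ng p).1.1 (ng p).1.2 (x - (ng p).1.1) = - g p.1.1 p.1.2 (x - p.1.1) := by
    simp [ng]
  have e2 : (ng p).1.1 = p.1.1 := rfl
  rw [e, e2] at h1
  linarith

end Pool.Agent.MP_3ee8cb_gt.CR
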