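import Pool.Agent.MP_3ee8cb_gt.CR.SpecA

/-! Uniform continuity of the inverse of the conjugacy, from cocompactness. -/

namespace Pool.Agent.MP_3ee8cb_gt.CR

open Set Filter Topology

variable {n : ℕ}

theorem uc_zero {l : E n → E n → ℝ} (h : Bd l) (b : E n) : l 0 b = 0 := by
  have := h.hom 0 0 b le_rfl
  rwa [zero_smul, zero_mul] at this

theorem uc_ne {l : E n → E n → ℝ} (h : Bd l) {a b : E n} (hab : l a b = 2) : a ≠ 0 ∧ b ≠ 0 := by
  constructor
  · rintro rfl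
    rw [uc_zero h] at hab
    norm_num at hab
  · rintro rfl
    rw [h.symm, uc_zero h] at hab
    norm_num at hab

theorem uc_lim {l : E n → E n → ℝ} (h : Bd l) {ι : Type} (F : Ultrafilter ι) {x y u : ι → E n}
    {a b : E n} (hab : l a b = 2) (hx : Tendsto x F (𝓝 a)) (hy : Tendsto y F (𝓝 b))
    (h1 : Tendsto (fun j => l (x j) (u j)) F (𝓝 0))
    (h2 : Tendsto (fun j => l (u j) (y j)) F (𝓝 2)) : Tendsto u F (𝓝 a) := by
  have hp : ∀ j, 0 < 1 + ‖u j‖ := fun j => by positivity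
  let s : ι → ℝ := fun j => (1 + ‖u j‖)⁻¹
  have hs : ∀ j, 0 < s j := fun j => inv_pos.2 (hp j)
  let k : ι → E n := fun j => s j • u j
  have hk : ∀ j, ‖k j‖ + s j = 1 := fun j => by
    simp only [k, s, norm_smul, Real.norm_eq_abs, abs_of_pos (inv_pos.2 (hp j))]
    field_simp
    ring
  have hc : IsCompact (Metric.closedBall (0 : E n) 1 ×ˢ Icc (0 : ℝ) 1) :=
    (isCompact_closedBall _ _).prod isCompact_Icc
  obtain ⟨⟨κ, σ⟩, -, hz⟩ := hc.ultrafilter_le_nhds' (F.map fun j => (k j, s j)) (by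
    rw [Ultrafilter.mem_map]
    refine univ_mem' fun j => ⟨?_, (hs j).le, ?_⟩
    · have := hk j
      have := hs j
      simp only [mem_closedBall_zero_iff]
      linarith
    · have := hk j
      have := norm_nonneg (k j)
      simp only
      linarith)
  have hz' : Tendsto (fun j => (k j, s j)) F (𝓝 (κ, σ)) := hz
  have tk : Tendsto k F (𝓝 κ) := (continuous_fst.tendsto _).comp hz'
  have ts : Tendsto s F (𝓝 σ) := (continuous_snd.tendsto _).comp hz'
  have e0 : ‖κ‖ + σ = 1 :=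
    tendsto_nhds_unique (tk.norm.add ts) (by simpa only [hk] using tendsto_const_nhds)
  have e1 : l a κ = 0 := by
    have t1 : Tendsto (fun j => l (x j) (k j)) F (𝓝 (l a κ)) :=
      (h.cont.tendsto (a, κ)).comp (hx.prodMk_nhds tk)
    have t2 := ts.mul h1
    rw [mul_zero] at t2
    refine tendsto_nhds_unique t1 (t2.congr fun j => ?_)
    rw [h.symm (x j) (k j), h.hom _ _ _ (hs j).le, h.symm]
  have e2 : l κ b = σ * 2 := by
    have t1 : Tendsto (fun j => l (k j) (y j)) F (𝓝 (l κ b)) :=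
      (h.cont.tendsto (κ, b)).comp (tk.prodMk_nhds hy)
    refine tendsto_nhds_unique t1 ((ts.mul h2).congr fun j => ?_)
    rw [h.hom _ _ _ (hs j).le]
  have hκ : κ ≠ 0 := by
    rintro rfl
    rw [uc_zero h] at e2
    rw [norm_zero] at e0
    linarith
  obtain ⟨t, ht, rfl⟩ := h.zero a κ (uc_ne h hab).1 hκ e1
  rw [h.hom _ _ _ ht.le, hab] at e2
  have e3 : t = σ := by linarith
  subst e3
  have := (ts.inv₀ ht.ne').smul tk
  rw [smul_smul, inv_mul_cancel₀ ht.ne', one_smul] at this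
  refine this.congr fun j => ?_
  simp only [k]
  rw [smul_smul, inv_mul_cancel₀ (hs j).ne', one_smul]

theorem uc_cpt {g : Met n} (hg : Riem g) {K : Set (E n)} (hK : IsCompact K) :
    IsCompact {p : UT g | p.1.1 ∈ K} := by
  have hc : Continuous fun z : E n × E n => g z.1 z.2 z.2 :=
    ((hg.smooth.continuous.comp continuous_fst).clm_apply continuous_snd).clm_apply continuous_snd
  obtain ⟨c, hc0, hc1⟩ := (hK.prod (isCompact_sphere (0 : E n) 1)).exists_forall_le'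
    hc.continuousOn (a := 0) fun z hz => hg.pos _ _ fun e => by
      have := hz.2
      rw [e] at this
      simp at this
  rw [Subtype.isCompact_iff]
  refine (hK.prod (isCompact_closedBall (0 : E n) (1 + c⁻¹))).of_isClosed_subset ?_ ?_
  · have : Subtype.val '' {p : UT g | p.1.1 ∈ K} =
        Prod.fst ⁻¹' K ∩ {z : E n × E n | g z.1 z.2 z.2 = 1} := by
      ext z
      constructor
      · rintro ⟨p, hp, rfl⟩
        exact ⟨hp, p.2⟩
      · rintro ⟨h1, h2⟩
        exact ⟨⟨z, h2⟩, h1, rfl⟩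
    rw [this]
    exact (hK.isClosed.preimage continuous_fst).inter (isClosed_eq hc continuous_const)
  · rintro _ ⟨⟨⟨x, v⟩, hp⟩, hx, rfl⟩
    refine ⟨hx, ?_⟩
    simp only at hp
    have hv : v ≠ 0 := by
      rintro rfl
      simp at hp
    have hn : 0 < ‖v‖ := norm_pos_iff.2 hv
    have h1 := hc1 (x, ‖v‖⁻¹ • v) ⟨hx, by simp [norm_smul, hn.ne']⟩
    simp only [map_smul, smul_apply, smul_eq_mul, hp, mul_one] at h1
    have h2 : c * (‖v‖ * ‖v‖) ≤ 1 := by
      have := mul_le_mul_of_nonneg_right h1 (mul_pos hn hn).le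
      refine this.trans (le_of_eq ?_)
      field_simp
    have h3 : ‖v‖ * ‖v‖ ≤ c⁻¹ := by
      rw [← one_div, le_div_iff₀ hc0]
      linarith
    simp only [mem_closedBall_zero_iff]
    nlinarith [sq_nonneg (‖v‖ - 1)]

/-- The action on unit vectors. -/
noncomputable def uc_mv {g : Met n} {Γ : Type} [Group Γ] [MulAction Γ (E n)] (hd : Deck g Γ)
    (γ : Γ) (p : UT g) : UT g := ⟨tm γ p.1, (hd.iso γ p.1.1 p.1.2 p.1.2).trans p.2⟩

theorem uc_ng {g : Met n} {Γ : Type} [Group Γ] [MulAction Γ (E n)] (hd : Deck g Γ) (γ : Γ)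
    (p : UT g) : ng (uc_mv hd γ p) = uc_mv hd γ (ng p) :=
  Subtype.ext (Prod.ext rfl (map_neg (fderiv ℝ (fun y : E n => γ • y) p.1.1) p.1.2).symm)

theorem uc_cng {g : Met n} : Continuous (ng : UT g → UT g) :=
  ((continuous_fst.comp continuous_subtype_val).prodMk
    (continuous_snd.comp continuous_subtype_val).neg).subtype_mk _

section Main

variable {g : Met n} {Γ : Type} [Group Γ] [MulAction Γ (E n)] {Φ : ℝ → UT g → UT g}
  {l : E n → E n → ℝ} {a : Γ → E n → E n} {φ : UT g → E n × E n} {ψ : E n × E n → UT g}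

theorem uc_inv (hd : Deck g Γ) (hc : Conj g Φ l a φ ψ) (γ : Γ) (p q : UT g) :
    l (φ (uc_mv hd γ p)).1 (φ (uc_mv hd γ q)).1 = l (φ p).1 (φ q).1 ∧
    l (φ (uc_mv hd γ p)).1 (φ (uc_mv hd γ q)).2 = l (φ p).1 (φ q).2 ∧
    l (φ (uc_mv hd γ p)).2 (φ (uc_mv hd γ q)).1 = l (φ p).2 (φ q).1 ∧
    l (φ (uc_mv hd γ p)).2 (φ (uc_mv hd γ q)).2 = l (φ p).2 (φ q).2 := by
  obtain ⟨p1, p2⟩ := uc_ne hc.bd (hc.mem p)
  obtain ⟨q1, q2⟩ := uc_ne hc.bd (hc.mem q)
  rw [hc.equi γ p (uc_mv hd γ p) rfl, hc.equi γ q (uc_mv hd γ q) rfl]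
  exact ⟨hc.act.inv _ _ _ p1 q1, hc.act.inv _ _ _ p1 q2, hc.act.inv _ _ _ p2 q1,
    hc.act.inv _ _ _ p2 q2⟩

theorem uc_key (hg : Riem g) (hd : Deck g Γ) (hc : Conj g Φ l a φ ψ) (G : UT g × UT g → ℝ)
    (Gc : Continuous G) (G0 : ∀ p, G (p, p) = 0)
    (Gi : ∀ γ p q, G (uc_mv hd γ p, uc_mv hd γ q) = G (p, q)) (ε : ℝ) (hε : 0 < ε) :
    ∃ δ, 0 < δ ∧ ∀ p q, gap l (φ p) (φ q) ≤ δ → G (p, q) ≤ ε := by
  obtain ⟨K, hK, hΓ⟩ := hd.cpt
  by_contra hne
  have h1 : ∀ j : ℕ, ∃ p q : UT g, p.1.1 ∈ K ∧ gap l (φ p) (φ q) ≤ 1 / ((j : ℝ) + 1) ∧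
      ε < G (p, q) := fun j => by
    by_contra h
    refine hne ⟨1 / ((j : ℝ) + 1), by positivity, fun p q hpq => ?_⟩
    by_contra h'
    obtain ⟨γ, hγ⟩ := hΓ p.1.1
    refine h ⟨uc_mv hd γ p, uc_mv hd γ q, hγ, ?_, by rw [Gi]; exact not_le.1 h'⟩
    obtain ⟨i1, i2, -, i4⟩ := uc_inv hd hc γ p q
    unfold gap at hpq ⊢
    rwa [i1, i2, i4, (uc_inv hd hc γ q p).2.1]
  choose p q hp hgap hG using h1
  let F : Ultrafilter ℕ := Ultrafilter.of atTop
  have hF : (F : Filter ℕ) ≤ atTop := Ultrafilter.of_le _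
  obtain ⟨r, -, hr⟩ := (uc_cpt hg hK).ultrafilter_le_nhds' (F.map p) (by
    rw [Ultrafilter.mem_map]
    exact univ_mem' hp)
  have tp : Tendsto p F (𝓝 r) := hr
  have tw : Tendsto (fun j => φ (p j)) F (𝓝 (φ r)) := (hc.cont.tendsto r).comp tp
  have t1 : Tendsto (fun j => (φ (p j)).1) F (𝓝 (φ r).1) := (continuous_fst.tendsto _).comp tw
  have t2 : Tendsto (fun j => (φ (p j)).2) F (𝓝 (φ r).2) := (continuous_snd.tendsto _).comp tw
  have t0 : Tendsto (fun j : ℕ => 1 / ((j : ℝ) + 1)) F (𝓝 0) :=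
    tendsto_one_div_add_atTop_nhds_zero_nat.mono_left hF
  have sq : ∀ (f : ℕ → ℝ) (c : ℝ), (∀ j, |f j - c| ≤ gap l (φ (p j)) (φ (q j))) →
      Tendsto f F (𝓝 c) := fun f c h =>
    tendsto_iff_dist_tendsto_zero.2
      (squeeze_zero (fun _ => dist_nonneg) (fun j => (h j).trans (hgap j)) t0)
  have nn := hc.bd.nonneg
  have u1 : Tendsto (fun j => (φ (q j)).1) F (𝓝 (φ r).1) := by
    refine uc_lim hc.bd F (hc.mem r) t1 t2 (sq _ _ fun j => ?_) (sq _ _ fun j => ?_)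
    · rw [sub_zero, abs_of_nonneg (nn _ _), gap]
      linarith [nn (φ (p j)).2 (φ (q j)).2, abs_nonneg (l (φ (p j)).1 (φ (q j)).2 - 2),
        abs_nonneg (l (φ (q j)).1 (φ (p j)).2 - 2)]
    · rw [gap]
      linarith [nn (φ (p j)).2 (φ (q j)).2, abs_nonneg (l (φ (p j)).1 (φ (q j)).2 - 2),
        nn (φ (p j)).1 (φ (q j)).1]
  have u2 : Tendsto (fun j => (φ (q j)).2) F (𝓝 (φ r).2) := by
    refine uc_lim hc.bd F ((hc.bd.symm _ _).trans (hc.mem r)) t2 t1 (sq _ _ fun j => ?_)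
      (sq _ _ fun j => ?_)
    · rw [sub_zero, abs_of_nonneg (nn _ _), gap]
      linarith [nn (φ (p j)).1 (φ (q j)).1, abs_nonneg (l (φ (p j)).1 (φ (q j)).2 - 2),
        abs_nonneg (l (φ (q j)).1 (φ (p j)).2 - 2)]
    · rw [gap, hc.bd.symm (φ (q j)).2]
      linarith [nn (φ (p j)).2 (φ (q j)).2, abs_nonneg (l (φ (q j)).1 (φ (p j)).2 - 2),
        nn (φ (p j)).1 (φ (q j)).1]
  have u : Tendsto (fun j => φ (q j)) F (𝓝[{w | l w.1 w.2 = 2}] (φ r)) :=
    tendsto_nhdsWithin_iff.2 ⟨u1.prodMk_nhds u2, Eventually.of_forall fun j => hc.mem _⟩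
  have tq : Tendsto q F (𝓝 r) := by
    have := (hc.icont (φ r) (hc.mem r)).tendsto.comp u
    rw [hc.left] at this
    exact this.congr fun j => hc.left _
  have tG := (Gc.tendsto (r, r)).comp (tp.prodMk_nhds tq)
  rw [G0] at tG
  exact absurd (ge_of_tendsto' tG fun j => (hG j).le) (not_le.2 hε)

end Main

theorem uc : SUC := by
  intro n g Γ _ _ Φ l a φ ψ hR hc
  have hd := hR.deck
  have ft : Continuous fun p : UT g => p.1.1 := continuous_fst.comp continuous_subtype_val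
  have c1 : Continuous fun p => (φ p).1 := hc.cont.fst
  have c2 : Continuous fun p => (φ p).2 := hc.cont.snd
  have cl : ∀ {X : Type} [TopologicalSpace X] {u v : X → E n}, Continuous u → Continuous v →
      Continuous fun x => l (u x) (v x) := fun hu hv => hc.bd.cont.comp (hu.prodMk hv)
  refine ⟨fun ε hε => ?_, fun ε hε => ?_, ?_⟩
  · exact uc_key hR.riem hd hc (fun z => dd g z.1.1.1 z.2.1.1)
      (hR.db.cont.comp ((ft.comp continuous_fst).prodMk (ft.comp continuous_snd)))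
      (fun p => hR.db.refl _) (fun γ p q => hR.inv γ _ _) ε hε
  · have c3 : Continuous fun p => l (φ (ng p)).1 (φ p).1 := cl (c1.comp uc_cng) c1
    refine uc_key hR.riem hd hc
      (fun z => |l (φ (ng z.1)).1 (φ z.1).1 - l (φ (ng z.2)).1 (φ z.2).1|)
      ((c3.comp continuous_fst).sub (c3.comp continuous_snd)).abs
      (fun p => by simp) (fun γ p q => ?_) ε hε
    simp only [uc_ng]
    rw [(uc_inv hd hc γ _ _).1, (uc_inv hd hc γ _ _).1]
  · obtain ⟨K, hK, hΓ⟩ := hd.cpt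
    have hC := uc_cpt hR.riem hK
    have cG : Continuous fun z : UT g × UT g => l (φ z.1).1 (φ z.2).1 + l (φ z.1).1 (φ z.2).2 +
        l (φ z.1).2 (φ z.2).1 + l (φ z.1).2 (φ z.2).2 :=
      (((cl (c1.comp continuous_fst) (c1.comp continuous_snd)).add
        (cl (c1.comp continuous_fst) (c2.comp continuous_snd))).add
        (cl (c2.comp continuous_fst) (c1.comp continuous_snd))).add
        (cl (c2.comp continuous_fst) (c2.comp continuous_snd))
    obtain ⟨D, hD⟩ := (hC.prod hC).bddAbove_image cG.continuousOn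
    refine ⟨D, fun p q hpq => ?_⟩
    obtain ⟨γ, hγ⟩ := hΓ p.1.1
    have h1 := hD ⟨(uc_mv hd γ p, uc_mv hd γ q), ⟨hγ, show γ • q.1.1 ∈ K from hpq ▸ hγ⟩, rfl⟩
    obtain ⟨i1, i2, i3, i4⟩ := uc_inv hd hc γ p q
    simp only [i1, i2, i3, i4] at h1
    have n1 := hc.bd.nonneg (φ p).1 (φ q).1
    have n2 := hc.bd.nonneg (φ p).1 (φ q).2
    have n3 := hc.bd.nonneg (φ p).2 (φ q).1
    have n4 := hc.bd.nonneg (φ p).2 (φ q).2
    exact ⟨by linarith, by linarith, by linarith, by linarith⟩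

end Pool.Agent.MP_3ee8cb_gt.CR
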