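import Pool.Agent.MP_3ee8cb_gt.CR.SpecA

/-! Uniqueness of geodesics with given initial data. -/

namespace Pool.Agent.MP_3ee8cb_gt.CR

open Set

variable {n : ℕ}

theorem uni_inv {g : Met n} (hg : Riem g) (x : E n) :
    ∃ e : E n ≃L[ℝ] (E n →L[ℝ] ℝ), (e : E n →L[ℝ] E n →L[ℝ] ℝ) = g x := by
  have hinj : Function.Injective (g x : E n →ₗ[ℝ] E n →L[ℝ] ℝ) := by
    rw [injective_iff_map_eq_zero]
    intro v hv
    by_contra h
    have h1 := hg.pos x v h
    have h2 : g x v = 0 := hv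
    rw [h2] at h1
    simp at h1
  have hdim : Module.finrank ℝ (E n) = Module.finrank ℝ (E n →L[ℝ] ℝ) := by
    rw [← (LinearMap.toContinuousLinearMap (𝕜 := ℝ) (E := E n) (F' := ℝ)).finrank_eq]
    exact (Subspace.dual_finrank_eq (K := ℝ) (V := E n)).symm
  refine ⟨(LinearMap.linearEquivOfInjective _ hinj hdim).toContinuousLinearEquiv, ?_⟩
  ext1 v
  rfl

/-- The covector `w ↦ D w u u / 2`. -/
noncomputable def uni_q (D : E n →L[ℝ] E n →L[ℝ] E n →L[ℝ] ℝ) (u : E n) : E n →L[ℝ] ℝ :=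
  (1 / 2 : ℝ) • (ContinuousLinearMap.apply ℝ ℝ u).comp
    ((ContinuousLinearMap.apply ℝ (E n →L[ℝ] ℝ) u).comp D)

theorem uni_q_apply (D : E n →L[ℝ] E n →L[ℝ] E n →L[ℝ] ℝ) (u w : E n) :
    uni_q D u w = D w u u / 2 := by
  simp [uni_q]
  ring

/-- The Hamiltonian vector field. -/
noncomputable def uni_F (g : Met n) (z : E n × (E n →L[ℝ] ℝ)) : E n × (E n →L[ℝ] ℝ) :=
  ((g z.1).inverse z.2, uni_q (fderiv ℝ g z.1) ((g z.1).inverse z.2))

theorem uni_fd {A B : Type} [NormedAddCommGroup A] [NormedSpace ℝ A] [NormedAddCommGroup B]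
    [NormedSpace ℝ B] {f : A → B} (hf : ContDiff ℝ 2 f) (w : A) :
    ContDiff ℝ 1 fun x => fderiv ℝ f x w :=
  (hf.fderiv_right (m := 1) (by norm_num)).clm_apply contDiff_const

theorem uni_smooth {g : Met n} (hg : Riem g) : ContDiff ℝ 1 (uni_F g) := by
  have h1 : ContDiff ℝ 1 g := hg.smooth.of_le (by norm_num)
  have h2 : ContDiff ℝ 1 fun x => (g x).inverse := by
    rw [contDiff_iff_contDiffAt]
    intro x
    obtain ⟨e, he⟩ := uni_inv hg x
    have h3 : ContDiffAt ℝ 1 ContinuousLinearMap.inverse (g x) := he ▸ contDiffAt_map_inverse e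
    exact h3.comp x h1.contDiffAt
  have h3 : ContDiff ℝ 1 fun z : E n × (E n →L[ℝ] ℝ) => (g z.1).inverse z.2 :=
    (h2.comp contDiff_fst).clm_apply contDiff_snd
  refine h3.prodMk ?_
  rw [contDiff_clm_apply_iff]
  intro w
  simp only [uni_q_apply]
  have h4 : ContDiff ℝ 1 fun z : E n × (E n →L[ℝ] ℝ) => fderiv ℝ g z.1 w :=
    (uni_fd hg.smooth w).comp contDiff_fst
  exact ((h4.clm_apply h3).clm_apply h3).div_const 2

theorem uni_sum (φ : E n →L[ℝ] ℝ) :
    φ = ∑ i, φ (EuclideanSpace.single i 1) • (EuclideanSpace.proj i : E n →L[ℝ] ℝ) := by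
  ext v
  have h : v = ∑ i, v i • EuclideanSpace.single i (1 : ℝ) := by
    ext j
    simp [Pi.single_apply]
  conv_lhs => rw [h]
  simp [mul_comm]

theorem uni_weak {p : ℝ → E n →L[ℝ] ℝ} {q : E n →L[ℝ] ℝ} {s : Set ℝ} {t : ℝ}
    (h : ∀ w, HasDerivWithinAt (fun r => p r w) (q w) s t) : HasDerivWithinAt p q s t := by
  have h1 : p = fun r => ∑ i, p r (EuclideanSpace.single i 1) •
      (EuclideanSpace.proj i : E n →L[ℝ] ℝ) := funext fun r => uni_sum (p r)
  rw [h1, uni_sum q]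
  exact HasDerivWithinAt.fun_sum fun i _ =>
    (h (EuclideanSpace.single i 1)).smul_const (EuclideanSpace.proj i : E n →L[ℝ] ℝ)

theorem uni_cancel {g : Met n} (hg : Riem g) (x u : E n) : (g x).inverse (g x u) = u := by
  obtain ⟨e, he⟩ := uni_inv hg x
  rw [← he]
  simp

theorem uni_ode {g : Met n} (hg : Riem g) {c c' : ℝ → E n} {a b : ℝ} (h : GeoOn g c c' a b)
    {t : ℝ} (ht : t ∈ Icc a b) :
    HasDerivWithinAt (fun s => (c s, g (c s) (c' s))) (uni_F g (c t, g (c t) (c' t)))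
      (Icc a b) t := by
  obtain ⟨h1, h2⟩ := h t ht
  simp only [uni_F, uni_cancel hg]
  refine h1.prodMk (uni_weak fun w => ?_)
  rw [uni_q_apply]
  exact h2 w

theorem uni : SUNI := by
  intro n g hg c c' e e' a b hc he h0 h1 t ht
  have cc : ContinuousOn (fun s => (c s, g (c s) (c' s))) (Icc a b) :=
    fun s hs => (uni_ode hg hc hs).continuousWithinAt
  have ce : ContinuousOn (fun s => (e s, g (e s) (e' s))) (Icc a b) :=
    fun s hs => (uni_ode hg he hs).continuousWithinAt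
  have hK := (isCompact_Icc.image_of_continuousOn cc).union (isCompact_Icc.image_of_continuousOn ce)
  obtain ⟨K, hL⟩ := LocallyLipschitzOn.exists_lipschitzOnWith_of_compact hK
    (uni_smooth hg).locallyLipschitz.locallyLipschitzOn
  have key := ODE_solution_unique_of_mem_Icc_right (v := fun _ => uni_F g) (K := K)
    (s := fun _ => _) (fun _ _ => hL) cc
    (fun s hs => (uni_ode hg hc (Ico_subset_Icc_self hs)).mono_of_mem_nhdsWithin
      (Icc_mem_nhdsGE_of_mem hs))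
    (fun s hs => Or.inl (mem_image_of_mem _ (Ico_subset_Icc_self hs))) ce
    (fun s hs => (uni_ode hg he (Ico_subset_Icc_self hs)).mono_of_mem_nhdsWithin
      (Icc_mem_nhdsGE_of_mem hs))
    (fun s hs => Or.inr (mem_image_of_mem _ (Ico_subset_Icc_self hs))) (by simp [h0, h1]) ht
  simp only [Prod.mk.injEq] at key
  obtain ⟨k1, k2⟩ := key
  refine ⟨k1, ?_⟩
  rw [← uni_cancel hg (c t) (c' t), k2, k1, uni_cancel hg]

end Pool.Agent.MP_3ee8cb_gt.CR
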