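import Pool.Agent.MP_3ee8cb_gt.CR.SpecA

/-! The volume of the dual unit ball: measurability, local integrability, Fubini. -/

namespace Pool.Agent.MP_3ee8cb_gt.CR

open Set MeasureTheory
open scoped RealInnerProductSpace

variable {n : ℕ}

theorem w_nonneg {g : Met n} (hg : Riem g) (x v : E n) : 0 ≤ g x v v := by
  by_cases h : v = 0
  · simp [h]
  · exact (hg.pos x v h).le

/-- Every covector is represented by a vector. -/
theorem w_rep {g : Met n} (hg : Riem g) (x P : E n) : ∃ u, ∀ w, ⟪P, w⟫ = g x u w := by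
  let T : E n →ₗ[ℝ] E n :=
    (InnerProductSpace.toDual ℝ (E n)).symm.toLinearEquiv.toLinearMap ∘ₗ (g x).toLinearMap
  have hT : ∀ u w, ⟪T u, w⟫ = g x u w := fun u w => by
    simp [T, InnerProductSpace.toDual_symm_apply]
  have hi : Function.Injective T := by
    rw [← LinearMap.ker_eq_bot, LinearMap.ker_eq_bot']
    intro u hu
    by_contra h
    have h1 := hg.pos x u h
    rw [← hT, hu, inner_zero_left] at h1
    exact lt_irrefl _ h1
  obtain ⟨u, hu⟩ := (LinearMap.injective_iff_surjective.1 hi) P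
  exact ⟨u, fun w => by rw [← hu, hT]⟩

theorem w_iff {g : Met n} (hg : Riem g) (x P : E n) :
    (∃ u, g x u u ≤ 1 ∧ ∀ w, ⟪P, w⟫ = g x u w) ↔ ∀ w, 2 * ⟪P, w⟫ ≤ 1 + g x w w := by
  constructor
  · rintro ⟨u, hu, h⟩ w
    have h0 := w_nonneg hg x (u - w)
    have hs := hg.symm x w u
    simp only [map_sub, sub_apply] at h0
    rw [h w]
    linarith
  · intro h
    obtain ⟨u, hu⟩ := w_rep hg x P
    refine ⟨u, ?_, hu⟩
    have := h u
    rw [hu u] at this
    linarith

/-- The joint set. -/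
def w_S (g : Met n) : Set (E n × E n) := {z | ∀ w, 2 * ⟪z.2, w⟫ ≤ 1 + g z.1 w w}

theorem w_closed {g : Met n} (hg : Riem g) : IsClosed (w_S g) := by
  have hc : Continuous g := hg.smooth.continuous
  have : w_S g = ⋂ w : E n, {z : E n × E n | 2 * ⟪z.2, w⟫ ≤ 1 + g z.1 w w} := by
    ext z; simp [w_S]
  rw [this]
  refine isClosed_iInter fun w => isClosed_le ?_ ?_
  · exact continuous_const.mul (continuous_snd.inner continuous_const)
  · exact continuous_const.add
      (((hc.comp continuous_fst).clm_apply continuous_const).clm_apply continuous_const)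

theorem w_eq {g : Met n} (hg : Riem g) (x : E n) : W g x = volume (Prod.mk x ⁻¹' w_S g) := by
  unfold W
  congr 1
  ext P
  exact w_iff hg x P

theorem w_meas {g : Met n} (hg : Riem g) : Measurable (W g) := by
  have : W g = fun x => volume (Prod.mk x ⁻¹' w_S g) := funext (w_eq hg)
  rw [this]
  exact measurable_measure_prodMk_left (w_closed hg).measurableSet

theorem w_ball {g : Met n} {x : E n} {C : ℝ} (hC : 0 < C) (h : ‖g x‖ ≤ C) :
    Prod.mk x ⁻¹' w_S g ⊆ Metric.closedBall 0 (C + 1) := by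
  intro P hP
  have h1 := hP (C⁻¹ • P)
  have h2 : g x P P ≤ C * ‖P‖ ^ 2 := by
    have := (g x).le_opNorm₂ P P
    have h3 : g x P P ≤ ‖g x‖ * ‖P‖ * ‖P‖ := (le_abs_self _).trans this
    have h4 : ‖g x‖ * (‖P‖ * ‖P‖) ≤ C * (‖P‖ * ‖P‖) :=
      mul_le_mul_of_nonneg_right h (by positivity)
    nlinarith
  simp only [map_smul, smul_apply, smul_eq_mul, inner_smul_right,
    real_inner_self_eq_norm_sq] at h1
  have h5 : C⁻¹ * (C⁻¹ * g x P P) ≤ C⁻¹ * ‖P‖ ^ 2 := by
    refine mul_le_mul_of_nonneg_left ?_ (by positivity)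
    rw [inv_mul_le_iff₀ hC]
    exact h2
  have h6 : C⁻¹ * ‖P‖ ^ 2 ≤ 1 := by linarith
  rw [inv_mul_le_iff₀ hC] at h6
  rw [mem_closedBall_zero_iff]
  nlinarith [norm_nonneg P]

theorem w_fin {g : Met n} (hg : Riem g) (D : Set (E n)) (hD : Bornology.IsBounded D) :
    ∫⁻ x in D, W g x ≠ ⊤ := by
  obtain ⟨R, hR⟩ := hD.subset_closedBall 0
  have hc : Continuous g := hg.smooth.continuous
  obtain ⟨C, hC⟩ := (isCompact_closedBall (0 : E n) R).exists_bound_of_continuousOn (f := g)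
    hc.continuousOn
  have h1 : ∫⁻ x in D, W g x ≤ ∫⁻ x in Metric.closedBall (0 : E n) R, W g x :=
    lintegral_mono_set hR
  have h2 : ∫⁻ x in Metric.closedBall (0 : E n) R, W g x ≤
      ∫⁻ _ in Metric.closedBall (0 : E n) R, volume (Metric.closedBall (0 : E n) (|C| + 1 + 1)) := by
    refine setLIntegral_mono' measurableSet_closedBall fun x hx => ?_
    rw [w_eq hg]
    refine measure_mono (w_ball (by positivity) ?_)
    have := hC x hx
    have := le_abs_self C
    linarith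
  rw [setLIntegral_const] at h2
  exact ne_top_of_le_ne_top
    (ENNReal.mul_ne_top measure_closedBall_lt_top.ne measure_closedBall_lt_top.ne) (h1.trans h2)

theorem w_fub {g : Met n} (hg : Riem g) (D : Set (E n)) (hD : MeasurableSet D) (hn : 0 < n) :
    ∫⁻ x in D, W g x ≤
    volume {z : E n × E n | z.1 ∈ D ∧ ∃ u, u ≠ 0 ∧ g z.1 u u ≤ 1 ∧ ∀ w, ⟪z.2, w⟫ = g z.1 u w} := by
  have : Nonempty (Fin n) := ⟨⟨0, hn⟩⟩
  have hm : MeasurableSet (D ×ˢ ({0}ᶜ : Set (E n)) ∩ w_S g) :=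
    (hD.prod (measurableSet_singleton 0).compl).inter (w_closed hg).measurableSet
  have hsub : D ×ˢ ({0}ᶜ : Set (E n)) ∩ w_S g ⊆
      {z : E n × E n | z.1 ∈ D ∧ ∃ u, u ≠ 0 ∧ g z.1 u u ≤ 1 ∧ ∀ w, ⟪z.2, w⟫ = g z.1 u w} := by
    rintro z ⟨⟨h1, h2⟩, h3⟩
    obtain ⟨u, hu, h⟩ := (w_iff hg z.1 z.2).2 h3
    refine ⟨h1, u, ?_, hu, h⟩
    rintro rfl
    apply h2
    have := h z.2
    simpa using this
  refine le_trans ?_ (measure_mono hsub)
  rw [Measure.volume_eq_prod, Measure.prod_apply hm, ← lintegral_indicator hD]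
  refine lintegral_mono fun x => ?_
  by_cases hx : x ∈ D
  · rw [indicator_of_mem hx, w_eq hg]
    have : Prod.mk x ⁻¹' (D ×ˢ ({0}ᶜ : Set (E n)) ∩ w_S g) = (Prod.mk x ⁻¹' w_S g) \ {0} := by
      ext P
      simp [hx, and_comm]
    show _ ≤ volume (Prod.mk x ⁻¹' (D ×ˢ ({0}ᶜ : Set (E n)) ∩ w_S g))
    rw [this, measure_sdiff_null (measure_singleton 0)]
  · rw [indicator_of_notMem hx]
    exact zero_le

theorem w : SW := fun _ _ hg => ⟨w_meas hg, w_fin hg, w_fub hg⟩

end Pool.Agent.MP_3ee8cb_gt.CR
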