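import Pool.Agent.MP_3ee8cb_gt.CR.SpecB

/-! Bounds and integrability for the barycentre integrals. -/

namespace Pool.Agent.MP_3ee8cb_gt.CR

open Set MeasureTheory

variable {n : ℕ}

theorem ya_low {β : E n → E n → ℝ} (pos : ∀ x k, k ≠ 0 → 0 < β x k)
    (hom : ∀ x k (t : ℝ), k ≠ 0 → 0 < t → β x (t • k) = t * β x k)
    (cb : ContinuousOn (fun w : E n × E n => β w.1 w.2) {w | w.2 ≠ 0}) (R : ℝ) :
    ∃ c : ℝ, 0 < c ∧ ∀ x k, ‖x‖ ≤ R → k ≠ 0 → c * ‖k‖ ≤ β x k ∧ β x k ≤ c⁻¹ * ‖k‖ := by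
  have hK : IsCompact (Metric.closedBall (0 : E n) R ×ˢ Metric.sphere (0 : E n) 1) :=
    (isCompact_closedBall _ _).prod (isCompact_sphere _ _)
  have hs : Metric.closedBall (0 : E n) R ×ˢ Metric.sphere (0 : E n) 1 ⊆ {w | w.2 ≠ 0} := by
    intro w hw h0
    have h1 : ‖w.2‖ = 1 := by simpa using hw.2
    rw [h0, norm_zero] at h1
    exact zero_ne_one h1
  obtain ⟨C, hC⟩ := hK.exists_bound_of_continuousOn (cb.mono hs)
  obtain ⟨C', hC'⟩ := hK.exists_bound_of_continuousOn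
    ((cb.mono hs).inv₀ fun w hw => (pos _ _ (hs hw)).ne')
  have hM : 0 < max 1 (max C C') := lt_of_lt_of_le one_pos (le_max_left _ _)
  refine ⟨(max 1 (max C C'))⁻¹, inv_pos.2 hM, fun x k hx hk => ?_⟩
  have hn : 0 < ‖k‖ := norm_pos_iff.2 hk
  have hu : ‖‖k‖⁻¹ • k‖ = 1 := by rw [norm_smul, norm_inv, norm_norm, inv_mul_cancel₀ hn.ne']
  have hm : (x, ‖k‖⁻¹ • k) ∈ Metric.closedBall (0 : E n) R ×ˢ Metric.sphere (0 : E n) 1 :=
    ⟨by simpa using hx, by simpa using hu⟩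
  have h0 : ‖k‖⁻¹ • k ≠ 0 := hs hm
  have e : β x k = ‖k‖ * β x (‖k‖⁻¹ • k) := by
    rw [← hom x _ _ h0 hn, smul_smul, mul_inv_cancel₀ hn.ne', one_smul]
  have hp := pos x _ h0
  have h1 : β x (‖k‖⁻¹ • k) ≤ max 1 (max C C') :=
    ((le_abs_self _).trans (hC _ hm)).trans ((le_max_left _ _).trans (le_max_right _ _))
  have h2 : (β x (‖k‖⁻¹ • k))⁻¹ ≤ max 1 (max C C') :=
    ((le_abs_self _).trans (hC' _ hm)).trans ((le_max_right _ _).trans (le_max_right _ _))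
  have h3 : (max 1 (max C C'))⁻¹ ≤ β x (‖k‖⁻¹ • k) := inv_le_of_inv_le₀ hp h2
  rw [inv_inv, e, mul_comm _ ‖k‖, mul_comm _ ‖k‖]
  exact ⟨mul_le_mul_of_nonneg_left h3 hn.le, mul_le_mul_of_nonneg_left h1 hn.le⟩

theorem ya_ne (hn : 0 < n) : ∀ᵐ k ∂nu n, k ≠ 0 := by
  have : Nonempty (Fin n) := ⟨⟨0, hn⟩⟩
  refine (withDensity_absolutelyContinuous _ _).ae_le ?_
  exact compl_mem_ae_iff.2 (measure_singleton (0 : E n))

theorem ya_poly (c : ℝ) (j : ℕ) (hc : 0 < c) :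
    Integrable (fun k : E n => ‖k‖ ^ j * Real.exp (-(c * ‖k‖))) := by
  have h1 : Integrable (fun k : E n => (1 + ‖k‖) ^ (-((n + 1 : ℕ) : ℝ))) volume :=
    integrable_one_add_norm (by simp)
  refine (h1.const_mul (((j + (n + 1)).factorial : ℝ) * Real.exp c / c ^ (j + (n + 1)))).mono'
    (by fun_prop : Continuous fun k : E n =>
      ‖k‖ ^ j * Real.exp (-(c * ‖k‖))).aestronglyMeasurable (ae_of_all _ fun k => ?_)
  have ht : 0 ≤ ‖k‖ := norm_nonneg k
  generalize ‖k‖ = t at ht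
  have h2 := Real.pow_div_factorial_le_exp (c * (1 + t)) (by positivity) (j + (n + 1))
  have hf : (0 : ℝ) < (j + (n + 1)).factorial := by positivity
  rw [div_le_iff₀ hf, mul_pow, mul_add, mul_one, Real.exp_add] at h2
  have h3 : t ^ j ≤ (1 + t) ^ j := pow_le_pow_left₀ ht (by linarith) j
  have h4 : (0 : ℝ) < (1 + t) ^ (n + 1) := by positivity
  rw [Real.norm_of_nonneg (by positivity), Real.rpow_neg (by positivity), Real.rpow_natCast,
    Real.exp_neg, ← div_eq_mul_inv, ← div_eq_mul_inv, div_div,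
    div_le_div_iff₀ (Real.exp_pos _) (by positivity)]
  calc t ^ j * (c ^ (j + (n + 1)) * (1 + t) ^ (n + 1))
      ≤ (1 + t) ^ j * (c ^ (j + (n + 1)) * (1 + t) ^ (n + 1)) :=
        mul_le_mul_of_nonneg_right h3 (by positivity)
    _ = c ^ (j + (n + 1)) * (1 + t) ^ (j + (n + 1)) := by ring
    _ ≤ _ := h2.trans (le_of_eq (by ring))

theorem ya_dom (c : ℝ) (j : ℕ) (hc : 0 < c) :
    Integrable (fun k : E n => ‖k‖ ^ (j + 1) * Real.exp (-(c * ‖k‖))) (nu n) := by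
  unfold nu
  rw [integrable_withDensity_iff (by fun_prop) (ae_of_all _ fun _ => ENNReal.ofReal_lt_top)]
  refine (ya_poly c j hc).mono' (Measurable.aestronglyMeasurable (by fun_prop))
    (ae_of_all _ fun k => ?_)
  have ht : 0 ≤ ‖k‖ := norm_nonneg k
  generalize ‖k‖ = t at ht
  rw [ENNReal.toReal_ofReal (by positivity), Real.norm_of_nonneg (by positivity)]
  rcases ht.eq_or_lt with rfl | h
  · simp only [inv_zero, mul_zero]
    positivity
  · exact le_of_eq (by field_simp; ring)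

theorem ya_cn (k : E n) : ‖cn k‖ = ‖k‖ := by
  simp [cn]

theorem ya_meas (hn : 0 < n) {f : E n → ℝ} (hf : ContinuousOn f {k | k ≠ 0}) :
    AEStronglyMeasurable (fun k => f k • cn k) (nu n) := by
  have hc : Continuous (cn : E n → V n) := by unfold cn; fun_prop
  have h := (hf.smul hc.continuousOn).aestronglyMeasurable (μ := nu n)
    (isOpen_ne (x := (0 : E n))).measurableSet
  have e : (nu n).restrict {k | k ≠ 0} = nu n := Measure.restrict_eq_self_of_ae_mem (ya_ne hn)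
  rwa [e] at h

theorem ya : SYA := by
  intro n g Γ _ _ A β v m X H
  have low := ya_low H.bd.pos (fun x k t hk ht => (H.bd.hom x k t hk ht).1) H.bd.cb
  have cx : ∀ x, ContinuousOn (β x) {k | k ≠ 0} := fun x =>
    H.bd.cb.comp (f := fun k : E n => (x, k)) (by fun_prop) fun _ hk => hk
  refine ⟨low, ya_ne H.pos, ya_dom, fun x => ?_, fun x => ?_⟩
  · obtain ⟨c, hc, h⟩ := low ‖x‖
    refine (ya_dom c 0 hc).mono' (ya_meas H.pos (cx x).neg.rexp) ?_
    filter_upwards [ya_ne H.pos] with k hk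
    rw [norm_smul, ya_cn, Real.norm_of_nonneg (Real.exp_pos _).le, zero_add, pow_one, mul_comm]
    exact mul_le_mul_of_nonneg_left (Real.exp_le_exp.2 (neg_le_neg (h x k le_rfl hk).1))
      (norm_nonneg k)
  · obtain ⟨c, hc, h⟩ := low ‖x‖
    refine ((ya_dom c 1 hc).const_mul c⁻¹).mono'
      (ya_meas H.pos ((cx x).mul (cx x).neg.rexp)) ?_
    filter_upwards [ya_ne H.pos] with k hk
    have hp := H.bd.pos x k hk
    rw [norm_smul, ya_cn, Real.norm_of_nonneg (by positivity)]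
    calc β x k * Real.exp (-β x k) * ‖k‖
        ≤ c⁻¹ * ‖k‖ * Real.exp (-(c * ‖k‖)) * ‖k‖ := by
          refine mul_le_mul_of_nonneg_right ?_ (norm_nonneg k)
          exact mul_le_mul (h x k le_rfl hk).2 (Real.exp_le_exp.2 (neg_le_neg (h x k le_rfl hk).1))
            (Real.exp_pos _).le (by positivity)
      _ = c⁻¹ * (‖k‖ ^ (1 + 1) * Real.exp (-(c * ‖k‖))) := by ring

end Pool.Agent.MP_3ee8cb_gt.CR
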