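import Pool.Agent.MP_3ee8cb_gt.CR.SpecB

namespace Pool.Agent.MP_3ee8cb_gt.CR

open Set MeasureTheory

variable {n : ℕ}

theorem yd_quad {f : E n → ℝ} {L : E n →L[ℝ] ℝ} {x : E n} {C : ℝ}
    (h : ∀ᶠ x' in nhds x, |f x' - f x - L (x' - x)| ≤ C * ‖x' - x‖ ^ 2) : HasFDerivAt f L x := by
  rw [hasFDerivAt_iff_isLittleO]
  have h1 : (fun x' => f x' - f x - L (x' - x)) =O[nhds x] fun x' => ‖x' - x‖ ^ 2 := by
    refine Asymptotics.IsBigO.of_bound C ?_
    filter_upwards [h] with x' hx'
    rw [Real.norm_eq_abs, Real.norm_eq_abs, abs_of_nonneg (sq_nonneg ‖x' - x‖)]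
    exact hx'
  exact h1.trans_isLittleO (Asymptotics.isLittleO_pow_sub_sub x one_lt_two)

theorem yd_ball (x : E n) : ∀ᶠ x' in nhds x, ‖x'‖ ≤ ‖x‖ + 1 := by
  filter_upwards [Metric.closedBall_mem_nhds x one_pos] with x' hx'
  rw [mem_closedBall_iff_norm] at hx'
  have := norm_sub_norm_le x' x
  linarith

theorem yd_norm {g : Met n} (hg : Riem g) (x w : E n) (hw : g x w w = 1) {M : ℝ}
    (hM : ‖g x‖ ≤ M) : ‖g x w‖ ≤ M + 1 := by
  have hM0 : 0 ≤ M := ((g x).opNorm_nonneg).trans hM
  refine ContinuousLinearMap.opNorm_le_bound _ (by linarith) fun u => ?_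
  have h0 : ∀ z, 0 ≤ g x z z := fun z => by
    by_cases hz : z = 0
    · simp [hz]
    · exact (hg.pos x z hz).le
  have h1 := h0 (u - (g x w u) • w)
  have e : g x (u - (g x w u) • w) (u - (g x w u) • w) = g x u u - (g x w u) ^ 2 := by
    simp only [map_sub, map_smul, sub_apply, smul_apply,
      smul_eq_mul, hw, hg.symm x u w]
    ring
  rw [e] at h1
  have h2 : g x u u ≤ M * ‖u‖ ^ 2 := by
    have a1 : g x u u ≤ ‖g x u u‖ := le_abs_self _
    have a2 := (g x).le_opNorm₂ u u
    have a3 : ‖g x‖ * ‖u‖ * ‖u‖ ≤ M * ‖u‖ ^ 2 := by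
      rw [mul_assoc, ← sq]
      exact mul_le_mul_of_nonneg_right hM (sq_nonneg _)
    linarith
  rw [Real.norm_eq_abs]
  refine abs_le_of_sq_le_sq' ?_ (by positivity) |> abs_le.2
  have : M * ‖u‖ ^ 2 ≤ ((M + 1) * ‖u‖) ^ 2 := by
    rw [mul_pow]
    exact mul_le_mul_of_nonneg_right (by nlinarith) (sq_nonneg _)
  linarith

theorem yd_cn (k : E n) : ‖cn k‖ = ‖k‖ := by simp [cn, Prod.norm_def]

theorem yd_cnc : Continuous (cn : E n → V n) := continuous_norm.prodMk continuous_id

/-- The derivative of the integrand. -/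
noncomputable def ydD (g : Met n) (β : E n → E n → ℝ) (v : E n → E n → E n) (x k : E n) :
    E n →L[ℝ] V n :=
  (β x k * Real.exp (-β x k)) • ContinuousLinearMap.smulRightL ℝ (E n) (V n) (g x (v x k)) (cn k)

theorem yd_app (g : Met n) (β : E n → E n → ℝ) (v : E n → E n → E n) (x k u : E n) :
    ydD g β v x k u = (β x k * Real.exp (-β x k) * g x (v x k) u) • cn k := by
  simp [ydD, smul_smul]

theorem yd : SYD := by
  intro n g Γ _ _ A β v m X H Ya
  have hb := H.bd
  have hg := H.riem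
  have der : ∀ x k, k ≠ 0 →
      HasFDerivAt (fun x => Real.exp (-β x k) • cn k) (ydD g β v x k) x := by
    intro x k hk
    obtain ⟨C, hC⟩ := hb.tay (‖x‖ + 1)
    have h1 : HasFDerivAt (fun x => Real.log (β x k)) (-(g x (v x k))) x := by
      refine yd_quad (C := C) ?_
      filter_upwards [yd_ball x] with x' hx'
      have := hC x x' k (by linarith) hx' hk
      rw [neg_apply, sub_neg_eq_add]
      exact this
    have h2 : HasFDerivAt (fun x => β x k) (β x k • -(g x (v x k))) x := by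
      have h3 := h1.exp
      have e : (fun x => Real.exp (Real.log (β x k))) = fun x => β x k :=
        funext fun x => Real.exp_log (hb.pos x k hk)
      rw [e, Real.exp_log (hb.pos x k hk)] at h3
      exact h3
    have h4 := (h2.neg.exp).smul_const (cn k)
    refine h4.congr_fderiv ?_
    refine ContinuousLinearMap.ext fun u => ?_
    rw [yd_app]
    simp only [ContinuousLinearMap.smulRight_apply, smul_apply,
      neg_apply, smul_eq_mul, Pi.neg_apply]
    congr 1
    ring
  have jc : ContinuousOn (fun w : E n × E n => ydD g β v w.1 w.2) {w | w.2 ≠ 0} := by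
    have g1 : ContinuousOn (fun w : E n × E n => g w.1 (v w.1 w.2)) {w | w.2 ≠ 0} :=
      ((hg.smooth.continuous.comp continuous_fst).continuousOn).clm_apply hb.cv
    have g2 : ContinuousOn (fun w : E n × E n =>
        ContinuousLinearMap.smulRightL ℝ (E n) (V n) (g w.1 (v w.1 w.2)) (cn w.2))
        {w | w.2 ≠ 0} :=
      ((ContinuousLinearMap.smulRightL ℝ (E n) (V n)).continuous.comp_continuousOn g1).clm_apply
        (yd_cnc.comp continuous_snd).continuousOn
    exact (hb.cb.mul (Real.continuous_exp.comp_continuousOn hb.cb.neg)).smul g2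
  have me : ∀ x, AEStronglyMeasurable (ydD g β v x) (nu n) := by
    intro x
    have h1 : ContinuousOn (ydD g β v x) {k | k ≠ 0} :=
      jc.comp (f := fun k => (x, k)) (continuous_const.prodMk continuous_id).continuousOn
        fun k hk => hk
    have h2 := h1.aestronglyMeasurable (μ := nu n) isOpen_ne.measurableSet
    rwa [Measure.restrict_eq_self_of_ae_mem (s := {k : E n | k ≠ 0}) Ya.ne] at h2
  have bd : ∀ R : ℝ, ∃ b : E n → ℝ, Integrable b (nu n) ∧
      ∀ k, k ≠ 0 → ∀ x, ‖x‖ ≤ R → ‖ydD g β v x k‖ ≤ b k := by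
    intro R
    obtain ⟨c, hc, hl⟩ := Ya.low R
    obtain ⟨M, hM⟩ := (isCompact_closedBall (0 : E n) R).exists_bound_of_continuousOn
      (E := E n →L[ℝ] E n →L[ℝ] ℝ) (f := g) hg.smooth.continuous.continuousOn
    refine ⟨fun k => (c⁻¹ * (M + 1)) * (‖k‖ ^ (1 + 1) * Real.exp (-(c * ‖k‖))),
      (Ya.dom c 1 hc).const_mul _, fun k hk x hx => ?_⟩
    have hMx : ‖g x‖ ≤ M := hM x (by simpa using hx)
    have hM0 : 0 ≤ M := ((g x).opNorm_nonneg).trans hMx
    have h1 := yd_norm hg x (v x k) (hb.unit x k hk) hMx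
    obtain ⟨h2, h3⟩ := hl x k hx hk
    have hp := hb.pos x k hk
    have h4 : Real.exp (-β x k) ≤ Real.exp (-(c * ‖k‖)) := Real.exp_le_exp.2 (by linarith)
    refine ContinuousLinearMap.opNorm_le_bound _ (by positivity) fun u => ?_
    rw [yd_app, norm_smul, yd_cn, norm_mul, Real.norm_of_nonneg (by positivity)]
    have h5 : ‖g x (v x k) u‖ ≤ (M + 1) * ‖u‖ :=
      ((g x (v x k)).le_opNorm u).trans (mul_le_mul_of_nonneg_right h1 (norm_nonneg _))
    calc β x k * Real.exp (-β x k) * ‖g x (v x k) u‖ * ‖k‖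
        ≤ (c⁻¹ * ‖k‖) * Real.exp (-(c * ‖k‖)) * ((M + 1) * ‖u‖) * ‖k‖ := by gcongr
      _ = _ := by ring
  have hD : ∀ x, HasFDerivAt (Y β) (∫ k, ydD g β v x k ∂nu n) x := by
    intro x
    obtain ⟨b, hbi, hbb⟩ := bd (‖x‖ + 1)
    exact hasFDerivAt_integral_of_dominated_of_fderiv_le
      (F := fun x k => Real.exp (-β x k) • cn k) (F' := ydD g β v) (bound := b) (yd_ball x)
      (Filter.Eventually.of_forall fun y => (Ya.int y).aestronglyMeasurable) (Ya.int x) (me x)
      (Ya.ne.mono fun k hk y hy => hbb k hk y hy) hbi (Ya.ne.mono fun k hk y _ => der y k hk)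
  have hC : Continuous fun x => ∫ k, ydD g β v x k ∂nu n := by
    refine continuous_iff_continuousAt.2 fun x => ?_
    obtain ⟨b, hbi, hbb⟩ := bd (‖x‖ + 1)
    refine continuousAt_of_dominated (bound := b) (Filter.Eventually.of_forall me)
      ((yd_ball x).mono fun y hy => Ya.ne.mono fun k hk => hbb k hk y hy) hbi
      (Ya.ne.mono fun k hk => ?_)
    have h1 : Continuous fun y => ydD g β v y k :=
      jc.comp_continuous (f := fun y => (y, k)) (continuous_id.prodMk continuous_const)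
        fun _ => hk
    exact h1.continuousAt
  refine ⟨contDiff_one_iff_hasFDerivAt.2 ⟨_, hC, hD⟩, fun x u => ?_⟩
  obtain ⟨b, hbi, hbb⟩ := bd ‖x‖
  have hi : Integrable (ydD g β v x) (nu n) :=
    hbi.mono' (me x) (Ya.ne.mono fun k hk => hbb k hk x le_rfl)
  rw [(hD x).fderiv, ContinuousLinearMap.integral_apply hi]
  simp only [yd_app]

end Pool.Agent.MP_3ee8cb_gt.CR
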