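import Pool.Agent.MP_3ee8cb_gt.CR.SpecB

namespace Pool.Agent.MP_3ee8cb_gt.CR

open Set MeasureTheory

theorem ye : SYE := by
  intro n g Γ _ _ A β v m X hd hc ha γ x
  have hm := hc (A γ) (hd.rep.lor γ)
  have h1 := integral_map (μ := nu n) (φ := ca (A γ)) hm.measurable.aemeasurable
    (f := fun k => Real.exp (-β (γ • x) k) • cn k)
    (by rw [hm.map_eq]; exact (ha.int _).aestronglyMeasurable)
  rw [hm.map_eq] at h1
  unfold Y
  rw [h1, ← (A γ).integral_comp_comm (ha.int x)]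
  refine integral_congr_ae (ha.ne.mono fun k hk => ?_)
  have h2 := (hd.bd.equi γ x k hk).1
  simp only [map_smul, hd.lor.acn _ (hd.rep.lor γ) k] at h2 ⊢
  rw [h2]

end Pool.Agent.MP_3ee8cb_gt.CR
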