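import Pool.Agent.MP_3ee8cb_gt.CR.SpecB

namespace Pool.Agent.MP_3ee8cb_gt.CR

open Set MeasureTheory
open scoped RealInnerProductSpace

variable {n : ℕ}

theorem yh_meas : Measurable fun k : E n => Real.toNNReal ‖k‖⁻¹ :=
  measurable_real_toNNReal.comp measurable_norm.inv

theorem yh_int (f : E n → ℝ) : ∫ k, f k ∂nu n = ∫ k, ‖k‖⁻¹ * f k := by
  have h : nu n = volume.withDensity fun k : E n => ((Real.toNNReal ‖k‖⁻¹ : NNReal) : ENNReal) :=
    rfl
  rw [h, integral_withDensity_eq_integral_smul yh_meas]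
  refine integral_congr_ae (Filter.Eventually.of_forall fun k => ?_)
  simp only [NNReal.smul_def, smul_eq_mul]
  rw [Real.coe_toNNReal _ (inv_nonneg.2 (norm_nonneg k))]

theorem yh_intg (f : E n → ℝ) (hf : Integrable f (nu n)) :
    Integrable fun k : E n => ‖k‖⁻¹ * f k := by
  have h : nu n = volume.withDensity fun k : E n => ((Real.toNNReal ‖k‖⁻¹ : NNReal) : ENNReal) :=
    rfl
  rw [h, integrable_withDensity_iff_integrable_smul yh_meas] at hf
  refine hf.congr (Filter.Eventually.of_forall fun k => ?_)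
  simp only [NNReal.smul_def, smul_eq_mul]
  rw [Real.coe_toNNReal _ (inv_nonneg.2 (norm_nonneg k))]

/-- The linear form `-B (up y)`. -/
noncomputable def yh_L (y : E n) : V n →L[ℝ] ℝ :=
  (up y).1 • ContinuousLinearMap.fst ℝ ℝ (E n) -
    (innerSL ℝ y).comp (ContinuousLinearMap.snd ℝ ℝ (E n))

theorem yh_L_apply (y : E n) (z : V n) : yh_L y z = -B (up y) z := by
  simp [yh_L, B, up]

theorem yh_cn_smul (s : ℝ) (hs : 0 < s) (k : E n) : cn (s • k) = s • cn k := by
  simp [cn, norm_smul, abs_of_pos hs]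

theorem yh_lim (I0 I1 : ℝ) (n : ℕ)
    (h : ∀ t : ℝ, 1 < t → I0 + (1 - t⁻¹) * I1 ≤ t ^ n * I0) : I1 ≤ n * I0 := by
  have hc : Continuous fun t : ℝ => t * (∑ i ∈ Finset.range n, t ^ i) * I0 := by fun_prop
  have ht : Filter.Tendsto (fun t : ℝ => t * (∑ i ∈ Finset.range n, t ^ i) * I0)
      (nhdsWithin 1 (Ioi 1)) (nhds (n * I0)) := by
    have := (hc.tendsto 1).mono_left (nhdsWithin_le_nhds (s := Ioi (1 : ℝ)))
    simpa using this
  refine ge_of_tendsto ht ?_
  filter_upwards [self_mem_nhdsWithin] with t ht1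
  have ht1 : 1 < t := ht1
  have h1 := h t ht1
  have hg := geom_sum_mul t n
  have ht0 : 0 < t := by linarith
  have hpos : 0 < t - 1 := by linarith
  have h2 : (t - 1) * I1 ≤ (t - 1) * (t * (∑ i ∈ Finset.range n, t ^ i) * I0) := by
    have e1 : (t - 1) * (t * (∑ i ∈ Finset.range n, t ^ i) * I0) = t * (t ^ n * I0 - I0) := by
      linear_combination t * I0 * hg
    have e2 : (t - 1) * I1 = t * ((1 - t⁻¹) * I1) := by
      field_simp
    rw [e1, e2]
    exact mul_le_mul_of_nonneg_left (by linarith) ht0.le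
  exact le_of_mul_le_mul_left h2 hpos

theorem yh : SYH := by
  intro n g Γ _ _ A β v m X H ha x y
  have h0 : Integrable (fun k => Real.exp (-β x k) * -B (up y) (cn k)) (nu n) := by
    refine ((yh_L y).integrable_comp (ha.int x)).congr (Filter.Eventually.of_forall fun k => ?_)
    simp only [map_smul, yh_L_apply, smul_eq_mul]
  have h1 : Integrable (fun k => β x k * Real.exp (-β x k) * -B (up y) (cn k)) (nu n) := by
    refine ((yh_L y).integrable_comp (ha.int' x)).congr (Filter.Eventually.of_forall fun k => ?_)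
    simp only [map_smul, yh_L_apply, smul_eq_mul]
  have g0 := yh_intg _ h0
  have g1 := yh_intg _ h1
  rw [yh_int, yh_int]
  refine yh_lim _ _ n fun t ht => ?_
  have ht0 : 0 < t := by linarith
  have hs : 0 < t⁻¹ := inv_pos.2 ht0
  set G : E n → ℝ := fun k => ‖k‖⁻¹ * (Real.exp (-β x k) * -B (up y) (cn k)) with hG
  have hsc : ∫ k, G (t⁻¹ • k) = t ^ n * ∫ k, G k := by
    rw [Measure.integral_comp_smul]
    simp [abs_of_pos (pow_pos ht0 n)]
  have hi : Integrable fun k => G (t⁻¹ • k) := g0.comp_smul hs.ne'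
  rw [← hsc, ← integral_const_mul, ← integral_add g0 (g1.const_mul _)]
  refine integral_mono (g0.add (g1.const_mul _)) hi fun k => ?_
  by_cases hk : k = 0
  · simp [hG, hk]
  have hl := H.lor.ell y k hk
  have hb := (H.bd.hom x k t⁻¹ hk hs).1
  have hn : 0 < ‖k‖⁻¹ := inv_pos.2 (norm_pos_iff.2 hk)
  have e1 : -B (up y) (cn (t⁻¹ • k)) = t⁻¹ * -B (up y) (cn k) := by
    rw [← yh_L_apply, ← yh_L_apply, yh_cn_smul _ hs, map_smul, smul_eq_mul]
  have e2 : ‖t⁻¹ • k‖⁻¹ = t * ‖k‖⁻¹ := by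
    rw [norm_smul, Real.norm_eq_abs, abs_of_pos hs, mul_inv, inv_inv]
  have e3 : Real.exp (-(t⁻¹ * β x k)) = Real.exp (-β x k) * Real.exp ((1 - t⁻¹) * β x k) := by
    rw [← Real.exp_add]; congr 1; ring
  have e4 := Real.add_one_le_exp ((1 - t⁻¹) * β x k)
  have e5 : G (t⁻¹ • k) = (‖k‖⁻¹ * (Real.exp (-β x k) * -B (up y) (cn k))) *
      Real.exp ((1 - t⁻¹) * β x k) := by
    simp only [hG]
    rw [e1, e2, hb, e3]
    field_simp
  have e6 : 0 ≤ ‖k‖⁻¹ * (Real.exp (-β x k) * -B (up y) (cn k)) :=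
    mul_nonneg hn.le (mul_nonneg (Real.exp_pos _).le hl.le)
  have e7 := mul_le_mul_of_nonneg_left e4 e6
  show G k + (1 - t⁻¹) * (‖k‖⁻¹ * (β x k * Real.exp (-β x k) * -B (up y) (cn k))) ≤ G (t⁻¹ • k)
  rw [e5]
  refine le_trans (le_of_eq ?_) e7
  simp only [hG]
  ring

end Pool.Agent.MP_3ee8cb_gt.CR
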