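import Pool.Agent.MP_3ee8cb_gt.CR.SpecB

/-! The barycentre vector is timelike and future directed. -/

namespace Pool.Agent.MP_3ee8cb_gt.CR

open Set MeasureTheory
open scoped RealInnerProductSpace

variable {n : ℕ}

theorem yt_ac (hn : 0 < n) : (volume : Measure (E n)) ≪ nu n := by
  haveI : Nonempty (Fin n) := ⟨⟨0, hn⟩⟩
  refine withDensity_absolutelyContinuous' (by fun_prop) ?_
  have : ∀ᵐ k ∂(volume : Measure (E n)), k ≠ 0 := by
    simp [ae_iff]
  filter_upwards [this] with k hk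
  simpa using hk

theorem yt_pos (hn : 0 < n) {β : E n → E n → ℝ} (h : YaP β) (x e : E n) (he : ‖e‖ ≤ 1) :
    ⟪e, (Y β x).2⟫ < (Y β x).1 := by
  haveI : Nonempty (Fin n) := ⟨⟨0, hn⟩⟩
  let L : V n →L[ℝ] ℝ :=
    ContinuousLinearMap.fst ℝ ℝ (E n) - (innerSL ℝ e).comp (ContinuousLinearMap.snd ℝ ℝ (E n))
  have hL : ∀ z : V n, L z = z.1 - ⟪e, z.2⟫ := fun z => rfl
  have hle : ∀ k : E n, ⟪e, k⟫ ≤ ‖k‖ := fun k =>
    (real_inner_le_norm e k).trans (by nlinarith [norm_nonneg k])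
  have hf : ∀ k, L (Real.exp (-β x k) • cn k) = Real.exp (-β x k) * (‖k‖ - ⟪e, k⟫) := by
    intro k; rw [map_smul, hL]; rfl
  have h1 : 0 < ∫ k, L (Real.exp (-β x k) • cn k) ∂nu n := by
    rw [integral_pos_iff_support_of_nonneg_ae _ (L.integrable_comp (h.int x))]
    · have hU : IsOpen {k : E n | ⟪e, k⟫ < ‖k‖} := isOpen_lt (by fun_prop) (by fun_prop)
      have hne : {k : E n | ⟪e, k⟫ < ‖k‖}.Nonempty := by
        obtain ⟨k, hk⟩ := exists_ne (0 : E n)
        have hk' := norm_pos_iff.2 hk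
        by_cases h0 : ⟪e, k⟫ < ‖k‖
        · exact ⟨k, h0⟩
        · refine ⟨-k, ?_⟩
          show ⟪e, -k⟫ < ‖-k‖
          rw [inner_neg_right, norm_neg]
          linarith [not_lt.1 h0]
      refine lt_of_lt_of_le (pos_iff_ne_zero.2 fun h0 => (hU.measure_pos volume hne).ne'
        (yt_ac hn h0)) (measure_mono fun k hk => ?_)
      rw [Function.mem_support, hf]
      exact (mul_pos (Real.exp_pos _) (sub_pos.2 hk)).ne'
    · refine Filter.Eventually.of_forall fun k => ?_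
      show 0 ≤ L _
      rw [hf]
      exact mul_nonneg (Real.exp_pos _).le (sub_nonneg.2 (hle k))
  rw [L.integral_comp_comm (h.int x), hL] at h1
  exact sub_pos.1 h1

theorem yt : SYT := by
  intro n g Γ _ _ A β v m X hd h x
  have h0 := yt_pos hd.pos h x 0 (by simp)
  rw [inner_zero_left] at h0
  refine ⟨?_, h0⟩
  have h1 := yt_pos hd.pos h x (‖(Y β x).2‖⁻¹ • (Y β x).2) (by
    rw [norm_smul, norm_inv, norm_norm]; exact inv_mul_le_one_of_le₀ le_rfl (norm_nonneg _))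
  rw [real_inner_smul_left, real_inner_self_eq_norm_sq] at h1
  have h2 : ‖(Y β x).2‖ < (Y β x).1 := by
    by_cases hz : ‖(Y β x).2‖ = 0
    · rw [hz]; exact h0
    · have : ‖(Y β x).2‖⁻¹ * ‖(Y β x).2‖ ^ 2 = ‖(Y β x).2‖ := by field_simp
      rwa [this] at h1
  rw [B, real_inner_self_eq_norm_sq]
  nlinarith [norm_nonneg (Y β x).2]

end Pool.Agent.MP_3ee8cb_gt.CR
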