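import Pool.Agent.MP_3ee8cb_gt.CR.Fin
import Pool.Agent.MP_3ee8cb_gt.CR.RDB
import Pool.Agent.MP_3ee8cb_gt.CR.RLOW
import Pool.Agent.MP_3ee8cb_gt.CR.RMID
import Pool.Agent.MP_3ee8cb_gt.CR.RLEN
import Pool.Agent.MP_3ee8cb_gt.CR.RINV
import Pool.Agent.MP_3ee8cb_gt.CR.RPRO
import Pool.Agent.MP_3ee8cb_gt.CR.RGEO
import Pool.Agent.MP_3ee8cb_gt.CR.RDBR
import Pool.Agent.MP_3ee8cb_gt.CR.RUNI
import Pool.Agent.MP_3ee8cb_gt.CR.RFL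
import Pool.Agent.MP_3ee8cb_gt.CR.RHR
import Pool.Agent.MP_3ee8cb_gt.CR.RSC
import Pool.Agent.MP_3ee8cb_gt.CR.RLIFT
import Pool.Agent.MP_3ee8cb_gt.CR.RFD
import Pool.Agent.MP_3ee8cb_gt.CR.RUC
import Pool.Agent.MP_3ee8cb_gt.CR.RMIN
import Pool.Agent.MP_3ee8cb_gt.CR.RBU
import Pool.Agent.MP_3ee8cb_gt.CR.REX
import Pool.Agent.MP_3ee8cb_gt.CR.RTAY
import Pool.Agent.MP_3ee8cb_gt.CR.RFLIP
import Pool.Agent.MP_3ee8cb_gt.CR.RBD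
import Pool.Agent.MP_3ee8cb_gt.CR.RBLK
import Pool.Agent.MP_3ee8cb_gt.CR.RPACK
import Pool.Agent.MP_3ee8cb_gt.CR.RW
import Pool.Agent.MP_3ee8cb_gt.CR.RLEFT
import Pool.Agent.MP_3ee8cb_gt.CR.RNUC
import Pool.Agent.MP_3ee8cb_gt.CR.RSV
import Pool.Agent.MP_3ee8cb_gt.CR.RLOR
import Pool.Agent.MP_3ee8cb_gt.CR.RHRI
import Pool.Agent.MP_3ee8cb_gt.CR.RHFL
import Pool.Agent.MP_3ee8cb_gt.CR.RISO
import Pool.Agent.MP_3ee8cb_gt.CR.RCONJ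
import Pool.Agent.MP_3ee8cb_gt.CR.RDET
import Pool.Agent.MP_3ee8cb_gt.CR.RCONE
import Pool.Agent.MP_3ee8cb_gt.CR.RCOT
import Pool.Agent.MP_3ee8cb_gt.CR.RYA
import Pool.Agent.MP_3ee8cb_gt.CR.RYT
import Pool.Agent.MP_3ee8cb_gt.CR.RYE
import Pool.Agent.MP_3ee8cb_gt.CR.RYH
import Pool.Agent.MP_3ee8cb_gt.CR.RYD
import Pool.Agent.MP_3ee8cb_gt.CR.RFF
import Pool.Agent.MP_3ee8cb_gt.CR.RFRAME
import Pool.Agent.MP_3ee8cb_gt.CR.RJA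
import Pool.Agent.MP_3ee8cb_gt.CR.RJB
import Pool.Agent.MP_3ee8cb_gt.CR.RRIGHT
import Pool.Agent.MP_3ee8cb_gt.CR.RBRW
import Pool.Agent.MP_3ee8cb_gt.CR.RSURJ
import Pool.Agent.MP_3ee8cb_gt.CR.RCOV
import Pool.Agent.MP_3ee8cb_gt.CR.RGOOD
import Pool.Agent.MP_3ee8cb_gt.CR.REND
import Pool.Agent.MP_3ee8cb_gt.CR.RSCALE

/-! The theorem for real hyperbolic targets. -/

namespace Pool.Agent.MP_3ee8cb_gt.CR

theorem all_rp {n : ℕ} (hn : 0 < n) {g : Met n} {Γ : Type} [Group Γ] [MulAction Γ (E n)]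
    {Φ : ℝ → UT g → UT g} (hg : Riem g) (hd : Deck g Γ) (hf : IsFlow g Φ) : RP g Γ Φ :=
  fin_rp db low mid len inv pro geo dbr uni fl hr sc hn hg hd hf

theorem all_bd : OnConj fun _ g _ _ _ _ l a _ => ∃ β v m X, BD g l a β v m X :=
  fin_bd uc CR.min bu ex tay flip bd

theorem all_main (c : ℝ) (hc : 0 < c) : Main c :=
  scale (fin_main all_rp all_bd
    (fin_hd fd w (left sv) (det blk) cone (cot blk) ya yt ye yh yd ff ja (jb nuc frame)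
      (right blk) (surj brw) (cov pack) good en) lift lor hri hfl iso conj) c hc

end Pool.Agent.MP_3ee8cb_gt.CR
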