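import Mathlib

namespace Pool.Agent.MP_3ee8cb_gt.CR

/-- Euclidean `n`-space. -/
abbrev E (n : ℕ) := EuclideanSpace ℝ (Fin n)

/-- Fields of bilinear forms. -/
abbrev Met (n : ℕ) := E n → E n →L[ℝ] E n →L[ℝ] ℝ

variable {n : ℕ}

/-- A Riemannian metric of class `C²`. -/
structure Riem (g : Met n) : Prop where
  smooth : ContDiff ℝ 2 g
  symm : ∀ x u v, g x u v = g x v u
  pos : ∀ x v, v ≠ 0 → 0 < g x v v

/-- Unit tangent vectors. -/
abbrev UT (g : Met n) := {p : E n × E n // g p.1 p.2 p.2 = 1}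

/-- `Φ` is the geodesic flow: the orbit of `p` starts at `p` and is the velocity lift of a
solution of the geodesic equation `d/dt g(c)(c', w) = (1/2) (D_w g)(c)(c', c')`. -/
structure IsFlow (g : Met n) (Φ : ℝ → UT g → UT g) : Prop where
  zero : ∀ p, Φ 0 p = p
  vel : ∀ p t, HasDerivAt (fun s => (Φ s p).1.1) (Φ t p).1.2 t
  geo : ∀ p t w, HasDerivAt (fun s => g (Φ s p).1.1 (Φ s p).1.2 w)
    (fderiv ℝ g (Φ t p).1.1 w (Φ t p).1.2 (Φ t p).1.2 / 2) t

/-- The action on tangent vectors. -/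
noncomputable def tm {Γ : Type} [Group Γ] [MulAction Γ (E n)] (γ : Γ) (p : E n × E n) :
    E n × E n := (γ • p.1, fderiv ℝ (fun y : E n => γ • y) p.1 p.2)

/-- A free, properly discontinuous, cocompact action by isometries of `g`. -/
structure Deck (g : Met n) (Γ : Type) [Group Γ] [MulAction Γ (E n)] : Prop where
  smooth : ∀ γ : Γ, ContDiff ℝ 1 fun x : E n => γ • x
  iso : ∀ (γ : Γ) x u v, g (γ • x) (tm γ (x, u)).2 (tm γ (x, v)).2 = g x u v
  free : ∀ (γ : Γ) (x : E n), γ • x = x → γ = 1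
  disc : ProperlyDiscontinuousSMul Γ (E n)
  cpt : ∃ K : Set (E n), IsCompact K ∧ ∀ x : E n, ∃ γ : Γ, γ • x ∈ K

/-- The unit tangent bundle of the quotient manifold. -/
abbrev UM (g : Met n) (Γ : Type) [Group Γ] [MulAction Γ (E n)] :=
  Quot fun p q : UT g => ∃ γ : Γ, q.1 = tm γ p.1

end Pool.Agent.MP_3ee8cb_gt.CR
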