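import Pool.Agent.MP_3ee8cb_gt.CR.SpecB

/-! Assembly of the rows. -/

namespace Pool.Agent.MP_3ee8cb_gt.CR

open Set MeasureTheory

theorem fin_rp (db : SDB) (low : SLOW) (mid : SMID) (len : SLEN) (inv : SINV) (pro : SPRO)
    (geo : SGEO) (dbr : SDBR) (uni : SUNI) (fl : SFL) (hr : SHR) (sc : SSC) {n : ℕ} (hn : 0 < n)
    {g : Met n} {Γ : Type} [Group Γ] [MulAction Γ (E n)] {Φ : ℝ → UT g → UT g} (hg : Riem g)
    (hd : Deck g Γ) (hf : IsFlow g Φ) : RP g Γ Φ := by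
  have h1 := db n g hg
  have h2 := low n g hg h1
  have h3 := mid n g hg h1
  have h4 := len n g hg h1
  have h5 := inv n g Γ hg hd h1 h4
  have h6 := pro n g Γ hg hd h1 h2 h3 h5
  have h7 := geo n g hg h1 h2 h3 h6
  have h8 := dbr n g hg h1 h2 h4
  have h9 := uni n g hg
  have h10 := fl n g Φ hg hf h1 h4 h9
  exact ⟨hg, hd, hf, h1, h2, h5, h6, h9, h10, hr n g Φ hn hg hf h7 h8 h9 h1,
    sc n g Φ hg hf h1 h4 h6 h10⟩

theorem fin_bd (uc : SUC) (min : SMIN) (bu : SBU) (ex : SEX) (tay : STAY) (flip : SFLIP)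
    (bd : SBD) : OnConj fun _ g _ _ _ _ l a _ => ∃ β v m X, BD g l a β v m X := by
  intro n g Γ _ _ Φ l a φ ψ hr hc
  have h1 := uc n g Γ Φ l a φ ψ hr hc
  have h2 := min n g Γ Φ l a φ ψ hr hc h1
  have h3 := bu n g Γ Φ l a φ ψ hr hc h1 h2
  exact bd n g Γ Φ l a φ ψ hr hc h3 (ex n g Γ Φ l a φ ψ hr hc h1 h2)
    (tay n g Γ Φ l a φ ψ hr hc h3) (flip n g Γ Φ l a φ ψ hr hc h1 h3)

theorem fin_hd (fd : SFD) (w : SW) (left : SLEFT) (det : SDET) (cone : SCONE) (cot : SCOT)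
    (ya : SYA) (yt : SYT) (ye : SYE) (yh : SYH) (yd : SYD) (ff : SFF) (ja : SJA) (jb : SJB)
    (right : SRIGHT) (surj : SSURJ) (cov : SCOV) (good : SGOOD) (en : SEND) :
    OnHD fun n g _ _ _ A _ _ _ => ∀ h : Met n, IsHyp 1 h → ∃ F, EqF A F ∧ Function.Bijective F ∧
      ∀ x u w, h (F x) (fderiv ℝ F x u) (fderiv ℝ F x w) = g x u w := by
  intro n g Γ _ _ A β v m X H h hh
  have d := det n H.lor
  have c1 := cone n H.pos H.lor d
  have c2 := cot n H.pos H.lor d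
  have a := ya n g Γ A β v m X H
  have t := yt n g Γ A β v m X H a
  have e := ye n g Γ A β v m X H c1 a
  have o := yh n g Γ A β v m X H a
  have r := yd n g Γ A β v m X H a
  obtain ⟨f1, f2⟩ := ff n g Γ A β v m X H t e r
  have j := jb n g Γ A β v m X H (ja n H.pos H.lor d c1) a t o r f2
  have s := surj n g Γ A β v m X H a _ f1
  obtain ⟨hc, hD⟩ := fd n g Γ H.deck
  obtain ⟨w1, w2, w3⟩ := w n g H.riem
  have G : ∀ x, Good (Fm β) v x := by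
    intro x
    obtain ⟨D, m1, m2, m3, m4, m5⟩ := hD x
    obtain ⟨l1, l2⟩ := left n g Γ lp _ β v m qq X D H.riem H.bd H.lor.qd m1 m2
    refine good n g Γ A β v m X H _ D x f1.smooth j m1 m3 w1 (w2 D m2) ?_
    exact (w3 D m1 H.pos).trans (l2.trans ((cov n g Γ A β v m X H c2 hc _ D f1 s m4 m5 l1).trans
      (right n _ D f1.smooth m1)))
  obtain ⟨i1, i2⟩ := en n g Γ A β v m X H h _ hh f1.smooth G
  exact ⟨_, f1, ⟨i1, s⟩, i2⟩

theorem fin_main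
    (rp : ∀ {n : ℕ}, 0 < n → ∀ {g : Met n} {Γ : Type} [Group Γ] [MulAction Γ (E n)]
      {Φ : ℝ → UT g → UT g}, Riem g → Deck g Γ → IsFlow g Φ → RP g Γ Φ)
    (bd : OnConj fun _ g _ _ _ _ l a _ => ∃ β v m X, BD g l a β v m X)
    (hd : OnHD fun n g _ _ _ A _ _ _ => ∀ h : Met n, IsHyp 1 h → ∃ F, EqF A F ∧
      Function.Bijective F ∧ ∀ x u w, h (F x) (fderiv ℝ F x u) (fderiv ℝ F x w) = g x u w)
    (lift : SLIFT) (lor : SLOR) (hri : SHRI) (hfl : SHFL) (iso : SISO) (conj : SCONJ) :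
    Main 1 := by
  intro n g h Γ Λ _ _ _ _ Φ Ψ f hn hg hh dg dh fg fh hf
  have h0 : 0 < n := by omega
  have rg := rp h0 hg dg fg
  have rh := rp h0 (hri n h hh) dh fh
  obtain ⟨ρ, F, F1, F2⟩ := lift n g h Γ Λ Φ Ψ f hn rg rh hf
  have hp := hfl n h Ψ hh fh rh.uni rh.fl
  obtain ⟨A, A1, A2⟩ := iso n h Λ Ψ (lor n) hh rh hp
  obtain ⟨φ, ψ, hc⟩ := conj n g h Γ Λ Φ Ψ A ρ F h0 (lor n) hh dh hp A1 A2 F1 F2
  obtain ⟨β, v, m, X, hb⟩ := bd n g Γ Φ lp _ φ ψ rg hc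
  have R : Rep fun γ => A (ρ γ) :=
    ⟨fun γ => A1.lor _, fun z => by rw [map_one, A1.one], fun γ δ z => by rw [map_mul, A1.mul]⟩
  obtain ⟨G, G1, G2, G3⟩ := hd n g Γ _ β v m X ⟨h0, hg, dg, lor n, R, hb⟩ h hh
  refine ⟨G, ρ, G2, G1.smooth, G3, fun γ x => ?_⟩
  have := G1.equi γ x
  rw [A2] at this
  exact congrArg Prod.snd this

end Pool.Agent.MP_3ee8cb_gt.CR
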