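import Pool.Agent.MP_3ee8cb_gt.CR.SpecA

/-! Construction of the Busemann data. -/

namespace Pool.Agent.MP_3ee8cb_gt.CR

open Set Filter Topology

variable {n : ℕ} {g : Met n} {Γ : Type} [Group Γ] [MulAction Γ (E n)] {Φ : ℝ → UT g → UT g}
  {l : E n → E n → ℝ} {a : Γ → E n → E n} {φ : UT g → E n × E n} {ψ : E n × E n → UT g}

theorem bd_ne {l : E n → E n → ℝ} (h : Bd l) {k m : E n} (hk : l k m = 2) : k ≠ 0 := by
  rintro rfl
  have := h.hom 0 0 m le_rfl
  rw [zero_smul, zero_mul, hk] at this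
  norm_num at this

theorem bd_scale (C : Conj g Φ l a φ ψ) (B : BuP g Γ Φ φ) {p p' : UT g} {s : ℝ} (hs : 0 < s)
    (h : (φ p').1 = s • (φ p).1) (x : E n) : bus g Φ p' x = bus g Φ p x + Real.log s := by
  rw [← B.shift]
  refine B.asym _ _ ?_ x
  rw [C.flow, Real.exp_log hs, h]

theorem bd_zero (R : RP g Γ Φ) (B : BuP g Γ Φ φ) (p : UT g) : bus g Φ p p.1.1 = 0 := by
  have := B.self p 0
  rwa [R.flow.zero, neg_zero] at this

theorem bd_uniq (R : RP g Γ Φ) (C : Conj g Φ l a φ ψ) (B : BuP g Γ Φ φ) (T : TayP g Φ)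
    {p p' : UT g} {s : ℝ} (hs : 0 < s) (hx : p'.1.1 = p.1.1) (h : (φ p').1 = s • (φ p).1) :
    p' = p := by
  have h0 : Real.log s = 0 := by
    have := bd_scale C B hs h p.1.1
    rw [bd_zero R B p, ← hx, bd_zero R B p'] at this
    linarith
  have hb : ∀ y, bus g Φ p' y = bus g Φ p y := fun y => by
    rw [bd_scale C B hs h y, h0, add_zero]
  obtain ⟨K, hK⟩ := T (‖p.1.1‖ + 1)
  set u := p'.1.2 - p.1.2 with hu
  have hu0 : u = 0 := by
    by_contra hne
    have hpos := R.riem.pos p.1.1 u hne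
    have hun : 0 < ‖u‖ := norm_pos_iff.2 hne
    have key : ∀ ε : ℝ, 0 < ε → ε * ‖u‖ ≤ 1 → g p.1.1 u u ≤ 2 * K * ‖u‖ ^ 2 * ε := by
      intro ε hε hε1
      have hy : ‖p.1.1 + ε • u‖ ≤ ‖p.1.1‖ + 1 := by
        refine (norm_add_le _ _).trans ?_
        rw [norm_smul, Real.norm_eq_abs, abs_of_pos hε]
        linarith
      have h1 := hK p (p.1.1 + ε • u) (by linarith) hy
      have h2 := hK p' (p.1.1 + ε • u) (by rw [hx]; linarith) hy
      rw [hb, hx] at h2
      rw [add_sub_cancel_left, map_smul, norm_smul, Real.norm_eq_abs, abs_of_pos hε,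
        smul_eq_mul] at h1 h2
      have h3 : g p.1.1 u u = g p.1.1 p'.1.2 u - g p.1.1 p.1.2 u := by
        rw [R.riem.symm _ p'.1.2 u, R.riem.symm _ p.1.2 u, ← map_sub]
      have h4 := (abs_le.1 h1).1
      have h5 := (abs_le.1 h2).2
      have h6 : ε * g p.1.1 u u ≤ ε * (2 * K * ‖u‖ ^ 2 * ε) := by
        rw [h3]
        nlinarith
      exact le_of_mul_le_mul_left h6 hε
    have hlim : Tendsto (fun ε : ℝ => 2 * K * ‖u‖ ^ 2 * ε) (𝓝[>] 0) (𝓝 (2 * K * ‖u‖ ^ 2 * 0)) :=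
      ((continuous_const.mul continuous_id).tendsto 0).mono_left nhdsWithin_le_nhds
    rw [mul_zero] at hlim
    have hev : ∀ᶠ ε : ℝ in 𝓝[>] 0, g p.1.1 u u ≤ 2 * K * ‖u‖ ^ 2 * ε := by
      filter_upwards [Ioo_mem_nhdsGT (inv_pos.2 hun)] with ε hε
      refine key ε hε.1 ?_
      have := mul_le_mul_of_nonneg_right hε.2.le hun.le
      rwa [inv_mul_cancel₀ hun.ne'] at this
    exact absurd (ge_of_tendsto hlim hev) (not_le.2 hpos)
  exact Subtype.ext (Prod.ext hx (sub_eq_zero.1 hu0))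

theorem bd_bound (hg : Riem g) (x : E n) :
    ∃ r : ℝ, ∀ y ∈ Metric.closedBall x 1, ∀ u, g y u u = 1 → ‖u‖ ≤ r := by
  have hc : Continuous fun w : E n × E n => g w.1 w.2 w.2 :=
    ((hg.smooth.continuous.comp continuous_fst).clm_apply continuous_snd).clm_apply continuous_snd
  have hK : IsCompact (Metric.closedBall x 1 ×ˢ Metric.sphere (0 : E n) 1) :=
    (isCompact_closedBall x 1).prod (isCompact_sphere 0 1)
  obtain ⟨c, hc0, hc1⟩ := hK.exists_forall_le' hc.continuousOn (a := 0) (by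
    rintro ⟨y, e⟩ ⟨-, he⟩
    refine hg.pos y e ?_
    rintro rfl
    simp at he)
  refine ⟨1 + c⁻¹, fun y hy u hu => ?_⟩
  have hci : 0 < c⁻¹ := inv_pos.2 hc0
  by_cases h1 : ‖u‖ ≤ 1
  · linarith
  rw [not_le] at h1
  have hun : 0 < ‖u‖ := by linarith
  have h2 := hc1 (y, ‖u‖⁻¹ • u) ⟨hy, by
    rw [mem_sphere_zero_iff_norm, norm_smul, norm_inv, norm_norm, inv_mul_cancel₀ hun.ne']⟩
  simp only [map_smul, smul_apply, smul_eq_mul, hu, mul_one] at h2
  have h3 : ‖u‖⁻¹ ≤ 1 := inv_le_one_of_one_le₀ h1.le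
  have h4 : c ≤ ‖u‖⁻¹ := h2.trans (by nlinarith [inv_pos.2 hun])
  have h5 : ‖u‖ ≤ c⁻¹ := (le_inv_comm₀ hc0 hun).1 h4
  linarith

theorem bd_cont (hg : Riem g) (hφ : Continuous φ) (hne : ∀ p, (φ p).1 ≠ 0)
    (P : E n → E n → UT g)
    (h1 : ∀ x k, k ≠ 0 → (P x k).1.1 = x ∧ ∃ t : ℝ, 0 < t ∧ (φ (P x k)).1 = t • k)
    (h2 : ∀ x k (p : UT g) (t : ℝ), k ≠ 0 → 0 < t → p.1.1 = x → (φ p).1 = t • k → P x k = p) :
    ContinuousOn (fun w : E n × E n => P w.1 w.2) {w | w.2 ≠ 0} := by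
  intro w hw
  obtain ⟨r, hr⟩ := bd_bound hg w.1
  have hc : Continuous fun w : E n × E n => g w.1 w.2 w.2 :=
    ((hg.smooth.continuous.comp continuous_fst).clm_apply continuous_snd).clm_apply continuous_snd
  have hcl : IsClosed {p : E n × E n | g p.1 p.2 p.2 = 1} := isClosed_eq hc continuous_const
  have hK : IsCompact ((Subtype.val : UT g → E n × E n) ⁻¹'
      (Metric.closedBall w.1 1 ×ˢ Metric.closedBall (0 : E n) r)) :=
    hcl.isClosedEmbedding_subtypeVal.isCompact_preimage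
      ((isCompact_closedBall _ _).prod (isCompact_closedBall _ _))
  refine hK.tendsto_nhds_of_unique_mapClusterPt ?_ ?_
  · have hb : ∀ᶠ z : E n × E n in 𝓝 w, z.1 ∈ Metric.closedBall w.1 1 :=
      continuous_fst.continuousAt.eventually (Metric.closedBall_mem_nhds w.1 one_pos)
    filter_upwards [hb.filter_mono nhdsWithin_le_nhds, self_mem_nhdsWithin] with z hz hz2
    have e := (h1 z.1 z.2 hz2).1
    refine ⟨by rw [e]; exact hz, ?_⟩
    rw [mem_closedBall_zero_iff]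
    refine hr z.1 hz _ ?_
    have := (P z.1 z.2).2
    rwa [e] at this
  · intro p _ hp
    obtain ⟨U, hU, hUp⟩ := mapClusterPt_iff_ultrafilter.1 hp
    have hid : Tendsto (fun z : E n × E n => z) U (𝓝 w) := hU.trans nhdsWithin_le_nhds
    have hS : ∀ᶠ z : E n × E n in U, z.2 ≠ 0 := hU self_mem_nhdsWithin
    have e1 : p.1.1 = w.1 := by
      refine tendsto_nhds_unique_of_eventuallyEq
        (((continuous_fst.comp continuous_subtype_val).tendsto p).comp hUp)
        ((continuous_fst.tendsto w).comp hid) ?_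
      filter_upwards [hS] with z hz
      exact (h1 z.1 z.2 hz).1
    have t1 : Tendsto (fun z : E n × E n => (φ (P z.1 z.2)).1) U (𝓝 (φ p).1) :=
      ((continuous_fst.comp hφ).tendsto p).comp hUp
    have t2 : Tendsto (fun z : E n × E n => z.2) U (𝓝 w.2) := (continuous_snd.tendsto w).comp hid
    have e2 : ‖w.2‖ • (φ p).1 = ‖(φ p).1‖ • w.2 := by
      refine tendsto_nhds_unique_of_eventuallyEq (t2.norm.smul t1) (t1.norm.smul t2) ?_
      filter_upwards [hS] with z hz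
      obtain ⟨t, ht, e⟩ := (h1 z.1 z.2 hz).2
      rw [e, norm_smul, Real.norm_eq_abs, abs_of_pos ht, smul_smul, mul_comm]
    have hw0 : 0 < ‖w.2‖ := norm_pos_iff.2 hw
    refine (h2 w.1 w.2 p (‖w.2‖⁻¹ * ‖(φ p).1‖) hw
      (mul_pos (inv_pos.2 hw0) (norm_pos_iff.2 (hne p))) e1 ?_).symm
    rw [mul_smul, ← e2, smul_smul, inv_mul_cancel₀ hw0.ne', one_smul]

theorem bd : SBD := by
  intro n g Γ _ _ Φ l a φ ψ R C B hE T F
  have hne : ∀ p, (φ p).1 ≠ 0 := fun p => bd_ne C.bd (C.mem p)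
  have hex : ∀ x k : E n, ∃ p : UT g, k ≠ 0 →
      p.1.1 = x ∧ ∃ t : ℝ, 0 < t ∧ (φ p).1 = t • k := by
    intro x k
    by_cases hk : k = 0
    · exact ⟨ψ 0, fun h => absurd hk h⟩
    · obtain ⟨p, t, h1, h2, h3⟩ := hE x k hk
      exact ⟨p, fun _ => ⟨h1, t, h2, h3⟩⟩
  choose P h1 using hex
  have h2 : ∀ x k (p : UT g) (t : ℝ), k ≠ 0 → 0 < t → p.1.1 = x → (φ p).1 = t • k →
      P x k = p := by
    intro x k p t hk ht hx hp
    obtain ⟨e, s, hs, hP⟩ := h1 x k hk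
    refine bd_uniq R C B T (div_pos hs ht) (e.trans hx.symm) ?_
    rw [hP, hp, smul_smul, div_mul_cancel₀ _ ht.ne']
  have h3 : ∀ (p : UT g) (k : E n) (t : ℝ), 0 < t → (φ p).1 = t • k →
      l k (φ p).2 / 2 = t⁻¹ := by
    intro p k t ht hp
    have := C.mem p
    rw [hp, C.bd.hom t k _ ht.le] at this
    field_simp
    linarith
  have hc := bd_cont R.riem C.cont hne P h1 h2
  have hcm : ContinuousOn (fun w : E n × E n => (φ (P w.1 w.2)).2) {w | w.2 ≠ 0} :=
    (continuous_snd.comp C.cont).comp_continuousOn hc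
  refine ⟨fun x k => l k (φ (P x k)).2 / 2, fun x k => (P x k).1.2, fun x k => (φ (P x k)).2,
    fun w => (ψ w).1.1, ?_, ?_, ?_, ?_, hcm, ?_, ?_, ?_, ?_, ?_, ?_, ?_, ?_, ?_, ?_⟩
  · intro x k hk
    obtain ⟨-, t, ht, hP⟩ := h1 x k hk
    rw [h3 _ k t ht hP]
    exact inv_pos.2 ht
  · intro x k t hk ht
    obtain ⟨e, s, hs, hP⟩ := h1 x k hk
    have : P x (t • k) = P x k := h2 x (t • k) _ (s / t) (smul_ne_zero ht.ne' hk)
      (div_pos hs ht) e (by rw [hP, smul_smul, div_mul_cancel₀ _ ht.ne'])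
    refine ⟨?_, by simp only [this], by simp only [this]⟩
    simp only [this]
    rw [C.bd.hom t k _ ht.le]
    ring
  · exact (C.bd.cont.comp_continuousOn (continuous_snd.continuousOn.prodMk hcm)).div_const 2
  · exact (continuous_snd.comp continuous_subtype_val).comp_continuousOn hc
  · intro x k hk
    have := (P x k).2
    rwa [(h1 x k hk).1] at this
  · intro x u hu
    refine ⟨(φ ⟨(x, u), hu⟩).1, hne _, ?_⟩
    simp only [h2 x _ ⟨(x, u), hu⟩ 1 (hne _) one_pos rfl (one_smul _ _).symm]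
  · intro r
    obtain ⟨K, hK⟩ := T r
    refine ⟨K, fun x x' k hx hx' hk => ?_⟩
    obtain ⟨e, t, ht, hP⟩ := h1 x k hk
    obtain ⟨e', t', ht', hP'⟩ := h1 x' k hk
    have h4 := bd_scale C B (p := P x k) (p' := P x' k) (div_pos ht' ht)
      (by rw [hP, hP', smul_smul, div_mul_cancel₀ _ ht.ne']) x'
    have h5 := bd_zero R B (P x' k)
    rw [e'] at h5
    rw [h5, Real.log_div ht'.ne' ht.ne'] at h4
    have h6 := hK (P x k) x' (by rw [e]; exact hx) hx'
    rw [e] at h6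
    simp only [h3 _ k t ht hP, h3 _ k t' ht' hP', Real.log_inv]
    have h7 : -Real.log t' - -Real.log t = bus g Φ (P x k) x' := by linarith
    rw [h7]
    exact h6
  · intro x k k' hk hk'
    obtain ⟨e, -⟩ := h1 x k hk
    obtain ⟨e', t', ht', hP'⟩ := h1 x k' hk'
    have h4 := F (P x k) (P x k')
    have h5 := bd_zero R B (P x k')
    rw [e'] at h5
    rw [e, h5, Real.exp_zero, hP', C.bd.hom t' k' _ ht'.le] at h4
    simp only [h3 _ k' t' ht' hP']
    rw [← div_eq_mul_inv, le_div_iff₀ ht']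
    linarith
  · intro x k _
    ring
  · intro x x' k hk hm
    obtain ⟨e, t, ht, hP⟩ := h1 x k hk
    obtain ⟨e', t', ht', hP'⟩ := h1 x' k hk
    have hm' : (φ (P x k)).2 = (φ (P x' k)).2 := hm
    have h4 : t = t' := by
      have a1 := h3 _ k t ht hP
      rw [hm', h3 _ k t' ht' hP'] at a1
      exact (inv_inj.1 a1).symm
    have h5 : φ (P x k) = φ (P x' k) := Prod.ext (by rw [hP, hP', h4]) hm'
    rw [← e, ← e', ← C.left (P x k), h5, C.left]
  · exact (continuous_fst.comp continuous_subtype_val).comp_continuousOn C.icont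
  · intro w hw
    have e := C.right w hw
    simp only [h2 (ψ w).1.1 w.1 (ψ w) 1 (bd_ne C.bd hw) one_pos rfl (by rw [e, one_smul]), e]
  · intro γ x k hk
    obtain ⟨e, t, ht, hP⟩ := h1 x k hk
    have hq : g (tm γ (P x k).1).1 (tm γ (P x k).1).2 (tm γ (P x k).1).2 = 1 :=
      (R.deck.iso γ (P x k).1.1 (P x k).1.2 (P x k).1.2).trans (P x k).2
    have h4 := C.equi γ (P x k) ⟨tm γ (P x k).1, hq⟩ rfl
    have h5 : (φ ⟨tm γ (P x k).1, hq⟩).1 = t • a γ k := by
      rw [h4, hP, C.act.hom γ t k ht hk]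
    have h6 : P (γ • x) (a γ k) = ⟨tm γ (P x k).1, hq⟩ :=
      h2 _ _ _ t (C.act.ne γ k hk) ht (congrArg (fun y => γ • y) e) h5
    refine ⟨?_, ?_⟩
    · simp only [h6]
      rw [h3 _ _ t ht h5, h3 _ k t ht hP]
    · simp only [h6, h4]
  · intro x x' hxx
    obtain ⟨p, e, e'⟩ := R.hr x x'
    refine ⟨fun t => (Φ t p).1.1, (φ p).1, dd g x x', hne p, ?_, ?_, e', fun t => ?_⟩
    · refine lt_of_le_of_ne (R.db.nonneg x x') fun h => hxx ?_
      rw [← h, R.flow.zero] at e'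
      exact e.symm.trans e'
    · simp only [R.flow.zero, e]
    · simp only [h2 (Φ t p).1.1 (φ p).1 (Φ t p) (Real.exp t) (hne p) (Real.exp_pos t) rfl
        (by rw [C.flow])]
      exact R.flow.vel p t

end Pool.Agent.MP_3ee8cb_gt.CR
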