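import Pool.Agent.MP_3ee8cb_gt.CR.SpecB

/-! The conjugacy with the flow on pairs of light vectors. -/

namespace Pool.Agent.MP_3ee8cb_gt.CR

open Set MeasureTheory
open scoped RealInnerProductSpace

variable {n : ℕ}

/-- The tangent vector of the hyperboloid. -/
noncomputable def conj_tg (y u : E n) : V n := (⟪y, u⟫ / √(1 + ‖y‖ ^ 2), u)

theorem conj_cn {h : Met n} (hL : LorP n) (hh : IsHyp 1 h) {y u : E n} (hu : h y u u = 1) :
    cn (y + u) = up y + conj_tg y u ∧ cn (y - u) = up y - conj_tg y u := by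
  rw [hh, one_mul, real_inner_self_eq_norm_sq] at hu
  have h1 : 0 < 1 + ‖y‖ ^ 2 := by positivity
  obtain ⟨s, hs⟩ : ∃ s, s = √(1 + ‖y‖ ^ 2) := ⟨_, rfl⟩
  have s0 : 0 < s := hs ▸ Real.sqrt_pos.2 h1
  have s2 : s ^ 2 = 1 + ‖y‖ ^ 2 := hs ▸ Real.sq_sqrt h1.le
  obtain ⟨a, ha⟩ : ∃ a, a = ⟪y, u⟫ / s := ⟨_, rfl⟩
  have a1 : ⟪y, u⟫ = a * s := by rw [ha]; field_simp
  have a2 : ‖u‖ ^ 2 = 1 + a ^ 2 := by
    rw [a1, ← s2] at hu
    have : a * s * (a * s) / s ^ 2 = a ^ 2 := by field_simp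
    linarith
  have a3 : ⟪y, u⟫ ^ 2 ≤ ‖y‖ ^ 2 * ‖u‖ ^ 2 := by
    rw [← mul_pow]
    exact sq_le_sq' (abs_le.1 (abs_real_inner_le_norm y u)).1
      (abs_le.1 (abs_real_inner_le_norm y u)).2
  have a4 : a ^ 2 ≤ s ^ 2 := by
    rw [a1, a2, mul_pow, s2] at a3
    nlinarith
  have a5 := abs_le.1 (abs_le_of_sq_le_sq' a4 s0.le |> fun h => abs_le.2 h)
  have e1 : up y + conj_tg y u = (s + a, y + u) := by rw [ha, hs]; rfl
  have e2 : up y - conj_tg y u = (s - a, y - u) := by rw [ha, hs]; rfl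
  rw [e1, e2]
  refine ⟨hL.cone (s + a, y + u) ?_ (by linarith [a5.1]),
    hL.cone (s - a, y - u) ?_ (by linarith [a5.2])⟩
  · simp only [B, real_inner_self_eq_norm_sq, norm_add_sq_real]
    nlinarith
  · simp only [B, real_inner_self_eq_norm_sq, norm_sub_sq_real]
    nlinarith

theorem conj_mem {h : Met n} (hL : LorP n) (hh : IsHyp 1 h) {y u : E n} (hu : h y u u = 1) :
    lp (y + u) (y - u) = 2 := by
  obtain ⟨c1, c2⟩ := conj_cn hL hh hu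
  have n1 : ‖y + u‖ = √(1 + ‖y‖ ^ 2) + ⟪y, u⟫ / √(1 + ‖y‖ ^ 2) := congrArg Prod.fst c1
  have n2 : ‖y - u‖ = √(1 + ‖y‖ ^ 2) - ⟪y, u⟫ / √(1 + ‖y‖ ^ 2) := congrArg Prod.fst c2
  rw [hh, one_mul, real_inner_self_eq_norm_sq] at hu
  have h1 : 0 < 1 + ‖y‖ ^ 2 := by positivity
  have s2 : √(1 + ‖y‖ ^ 2) ^ 2 = 1 + ‖y‖ ^ 2 := Real.sq_sqrt h1.le
  have h2 : ⟪y + u, y - u⟫ = ‖y‖ ^ 2 - ‖u‖ ^ 2 := by
    rw [inner_add_left, inner_sub_right, inner_sub_right, real_inner_self_eq_norm_sq,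
      real_inner_self_eq_norm_sq, real_inner_comm]
    ring
  have h3 : (⟪y, u⟫ / √(1 + ‖y‖ ^ 2)) ^ 2 = ⟪y, u⟫ * ⟪y, u⟫ / (1 + ‖y‖ ^ 2) := by
    rw [div_pow, s2, sq]
  rw [lp, n1, n2, h2]
  nlinarith

theorem conj_unit {h : Met n} (hh : IsHyp 1 h) {k m : E n} (hw : lp k m = 2) :
    h ((1 / 2 : ℝ) • (k + m)) ((1 / 2 : ℝ) • (k - m)) ((1 / 2 : ℝ) • (k - m)) = 1 := by
  rw [lp] at hw
  have h1 : 1 + ‖(1 / 2 : ℝ) • (k + m)‖ ^ 2 = ((‖k‖ + ‖m‖) / 2) ^ 2 := by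
    rw [norm_smul, mul_pow, norm_add_sq_real, Real.norm_eq_abs, sq_abs]
    nlinarith
  have h2 : ⟪(1 / 2 : ℝ) • (k + m), (1 / 2 : ℝ) • (k - m)⟫ =
      ((‖k‖ + ‖m‖) / 2) * ((‖k‖ - ‖m‖) / 2) := by
    rw [real_inner_smul_left, real_inner_smul_right, inner_add_left, inner_sub_right,
      inner_sub_right, real_inner_self_eq_norm_sq, real_inner_self_eq_norm_sq,
      real_inner_comm k m]
    ring
  have h3 : ‖(1 / 2 : ℝ) • (k - m)‖ ^ 2 = 1 + ((‖k‖ - ‖m‖) / 2) ^ 2 := by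
    rw [norm_smul, mul_pow, norm_sub_sq_real, Real.norm_eq_abs, sq_abs]
    nlinarith
  have h4 : (‖k‖ + ‖m‖) / 2 ≠ 0 := by
    intro h0
    rw [h0] at h1
    nlinarith [sq_nonneg ‖(1 / 2 : ℝ) • (k + m)‖]
  rw [hh, one_mul, real_inner_self_eq_norm_sq, h1, h2, h3]
  generalize (‖k‖ + ‖m‖) / 2 = a at h4
  generalize (‖k‖ - ‖m‖) / 2 = b
  field_simp
  ring

theorem conj_up (y : E n) : ∃ D : E n →L[ℝ] V n, HasFDerivAt up D y ∧
    ∀ u, D u = conj_tg y u := by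
  have h1 : 0 < 1 + ‖y‖ ^ 2 := by positivity
  have h2 := ((hasStrictFDerivAt_norm_sq y).hasFDerivAt.const_add 1).sqrt h1.ne'
  refine ⟨_, h2.prodMk (hasFDerivAt_id y), fun u => Prod.ext ?_ rfl⟩
  have s0 : 0 < √(1 + ‖y‖ ^ 2) := Real.sqrt_pos.2 h1
  simp only [conj_tg, ContinuousLinearMap.prod_apply, smul_apply,
    innerSL_apply_apply, smul_eq_mul, nsmul_eq_mul]
  field_simp
  norm_num

theorem conj_tm {Λ : Type} [Group Λ] [MulAction Λ (E n)] {A : Λ → V n →L[ℝ] V n}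
    (hA : ∀ (γ : Λ) (y : E n), A γ (up y) = up (γ • y)) (γ : Λ) (y u : E n) :
    tm γ (y, u) = ((A γ (up y)).2, (A γ (conj_tg y u)).2) := by
  have h1 : (fun y : E n => γ • y) = fun y => (A γ (up y)).2 := funext fun y => by
    rw [hA]; rfl
  obtain ⟨D, hD, hD'⟩ := conj_up y
  have h2 : HasFDerivAt (fun y => (A γ (up y)).2)
      ((ContinuousLinearMap.snd ℝ ℝ (E n)).comp ((A γ).comp D)) y :=
    ((A γ).hasFDerivAt.comp y hD).snd
  refine Prod.ext (congrFun h1 y) ?_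
  show fderiv ℝ (fun y : E n => γ • y) y u = _
  rw [h1, h2.fderiv, ← hD']
  rfl

theorem conj_act {Γ Λ : Type} [Group Γ] [Group Λ] {A : Λ → V n →L[ℝ] V n} (ρ : Γ ≃* Λ)
    (hL : LorP n) (hA : Rep A) : Act lp fun γ => ca (A (ρ γ)) where
  ne γ k hk := hL.ane _ (hA.lor _) k hk
  hom γ t k ht _ := by
    have : cn (t • k) = t • cn k := by
      refine Prod.ext ?_ rfl
      show ‖t • k‖ = t * ‖k‖
      rw [norm_smul, Real.norm_of_nonneg ht.le]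
    simp only [ca, this, map_smul, Prod.smul_snd]
  inv γ k k' _ _ := by
    have h1 := hL.cc (ca (A (ρ γ)) k) (ca (A (ρ γ)) k')
    rw [← hL.acn _ (hA.lor _), ← hL.acn _ (hA.lor _), (hA.lor _).pres, hL.cc] at h1
    exact (neg_injective h1).symm
  one k _ := by
    simp only [ca, map_one, hA.one]
    rfl
  mul γ δ k _ := by
    show (A (ρ (γ * δ)) (cn k)).2 = (A (ρ γ) (cn (ca (A (ρ δ)) k))).2
    rw [map_mul, hA.mul, hL.acn (A (ρ δ)) (hA.lor _)]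

theorem conj : SCONJ := by
  classical
  intro n g h Γ Λ _ _ _ _ Φ Ψ A ρ F hn hL hh _ hΨ hA hup hfl heq
  have he : h 0 (EuclideanSpace.single ⟨0, hn⟩ 1) (EuclideanSpace.single ⟨0, hn⟩ 1) = 1 := by
    rw [hh]
    simp
  obtain ⟨ψ₀, hψ⟩ : ∃ ψ₀ : E n × E n → UT h, ∀ w : E n × E n, lp w.1 w.2 = 2 →
      (ψ₀ w).1 = ((1 / 2 : ℝ) • (w.1 + w.2), (1 / 2 : ℝ) • (w.1 - w.2)) :=
    ⟨fun w => if hw : lp w.1 w.2 = 2 then
      ⟨((1 / 2 : ℝ) • (w.1 + w.2), (1 / 2 : ℝ) • (w.1 - w.2)), conj_unit hh hw⟩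
      else ⟨(0, EuclideanSpace.single ⟨0, hn⟩ 1), he⟩, fun w hw => by simp only [dif_pos hw]⟩
  have hF : Continuous fun p => (F p).1 := continuous_subtype_val.comp F.continuous
  refine ⟨fun p => ((F p).1.1 + (F p).1.2, (F p).1.1 - (F p).1.2), fun w => F.symm (ψ₀ w),
    hL.bd, conj_act ρ hL hA, (hF.fst.add hF.snd).prodMk (hF.fst.sub hF.snd),
    fun p => conj_mem hL hh (F p).2, ?_, fun p => ?_, fun w hw => ?_, fun t p => ?_,
    fun γ p q hq => ?_⟩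
  · refine F.symm.continuous.comp_continuousOn ?_
    rw [continuousOn_iff_continuous_domRestrict]
    refine continuous_induced_rng.2 ?_
    have h1 : Continuous fun w : {w : E n × E n | lp w.1 w.2 = 2} =>
        ((1 / 2 : ℝ) • (w.1.1 + w.1.2), (1 / 2 : ℝ) • (w.1.1 - w.1.2)) := by fun_prop
    exact h1.congr fun w => (hψ w.1 w.2).symm
  · rw [Homeomorph.symm_apply_eq]
    apply Subtype.ext
    rw [hψ ((F p).1.1 + (F p).1.2, (F p).1.1 - (F p).1.2) (conj_mem hL hh (F p).2)]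
    refine Prod.ext ?_ ?_
    · show (1 / 2 : ℝ) • (((F p).1.1 + (F p).1.2) + ((F p).1.1 - (F p).1.2)) = (F p).1.1
      module
    · show (1 / 2 : ℝ) • (((F p).1.1 + (F p).1.2) - ((F p).1.1 - (F p).1.2)) = (F p).1.2
      module
  · simp only [Homeomorph.apply_symm_apply, hψ w hw]
    refine Prod.ext ?_ ?_
    · show (1 / 2 : ℝ) • (w.1 + w.2) + (1 / 2 : ℝ) • (w.1 - w.2) = w.1
      module
    · show (1 / 2 : ℝ) • (w.1 + w.2) - (1 / 2 : ℝ) • (w.1 - w.2) = w.2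
      module
  · simp only [hfl, hΨ t (F p)]
    rw [← Real.cosh_add_sinh, ← Real.cosh_sub_sinh]
    refine Prod.ext ?_ ?_
    · show _ = (Real.cosh t + Real.sinh t) • ((F p).1.1 + (F p).1.2)
      module
    · show _ = (Real.cosh t - Real.sinh t) • ((F p).1.1 - (F p).1.2)
      module
  · obtain ⟨c1, c2⟩ := conj_cn hL hh (F p).2
    have h1 := (heq γ p q hq).trans (conj_tm hup (ρ γ) (F p).1.1 (F p).1.2)
    simp only [h1, ca, c1, c2, map_add, map_sub, Prod.snd_add, Prod.snd_sub]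

end Pool.Agent.MP_3ee8cb_gt.CR
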