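import Pool.Agent.MP_3ee8cb_gt.CR.SpecA

/-! du Bois-Reymond, part a: Lipschitz bound, unit speed, general calculus lemmas. -/

namespace Pool.Agent.MP_3ee8cb_gt.CR

open Set MeasureTheory Filter Topology

variable {n : ℕ}

lemma dbr_coer {g : Met n} (hg : Riem g) (x : E n) :
    ∃ c : ℝ, 0 < c ∧ ∀ v, c * ‖v‖ ≤ √(g x v v) := by
  by_cases hS : (Metric.sphere (0 : E n) 1).Nonempty
  · have hc : Continuous fun v : E n => g x v v := by fun_prop
    obtain ⟨u, hu, hmin⟩ := (isCompact_sphere (0 : E n) 1).exists_isMinOn hS hc.continuousOn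
    have hu0 : u ≠ 0 := by
      rintro rfl
      simp at hu
    have hm := hg.pos x u hu0
    refine ⟨√(g x u u), Real.sqrt_pos.2 hm, fun v => ?_⟩
    by_cases hv : v = 0
    · subst hv
      simp
    have hv' : 0 < ‖v‖ := norm_pos_iff.2 hv
    have h1 : (‖v‖⁻¹ • v) ∈ Metric.sphere (0 : E n) 1 := by
      simp [norm_smul, hv'.ne']
    have h2 : g x u u ≤ g x (‖v‖⁻¹ • v) (‖v‖⁻¹ • v) := hmin h1
    have h3 : g x (‖v‖⁻¹ • v) (‖v‖⁻¹ • v) = ‖v‖⁻¹ * (‖v‖⁻¹ * g x v v) := by
      simp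
    apply Real.le_sqrt_of_sq_le
    rw [mul_pow, Real.sq_sqrt hm.le]
    rw [h3] at h2
    have h4 : g x u u * ‖v‖ ^ 2 ≤ ‖v‖⁻¹ * (‖v‖⁻¹ * g x v v) * ‖v‖ ^ 2 :=
      mul_le_mul_of_nonneg_right h2 (by positivity)
    refine h4.trans (le_of_eq ?_)
    field_simp
  · refine ⟨1, one_pos, fun v => ?_⟩
    by_cases hv : v = 0
    · subst hv
      simp
    exfalso
    have hv' : 0 < ‖v‖ := norm_pos_iff.2 hv
    exact hS ⟨‖v‖⁻¹ • v, by simp [norm_smul, hv'.ne']⟩

lemma dbr_lip {g : Met n} (hg : Riem g) (hlow : LowP g) {σ : ℝ → E n} {L : ℝ}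
    (hσ : ∀ s ∈ Icc 0 L, ∀ t ∈ Icc 0 L, dd g (σ s) (σ t) = |s - t|) :
    ∃ K, LipschitzOnWith K σ (Icc 0 L) := by
  apply LocallyLipschitzOn.exists_lipschitzOnWith_of_compact isCompact_Icc
  intro t0 ht0
  obtain ⟨c, hc, hcv⟩ := dbr_coer hg (σ t0)
  obtain ⟨r, hr, hrl⟩ := hlow (σ t0) (1 / 2) (by norm_num)
  have key : ∀ s ∈ Icc 0 L, ∀ t ∈ Icc 0 L, ‖σ s - σ t0‖ ≤ r → |s - t| < r / 2 →
      c * ‖σ t - σ s‖ ≤ 2 * |s - t| := by
    intro s hs t ht h1 h2
    have h3 := hrl (σ s) (σ t) h1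
    rw [hσ s hs t ht] at h3
    have h4 := hcv (σ t - σ s)
    rcases le_total r (√(g (σ t0) (σ t - σ s) (σ t - σ s))) with h | h
    · rw [min_eq_left h] at h3
      linarith
    · rw [min_eq_right h] at h3
      linarith
  set δ := min (r / 4) (c * r / 2) with hδ
  have hδ0 : 0 < δ := lt_min (by positivity) (by positivity)
  refine ⟨Real.toNNReal (2 / c), Icc 0 L ∩ Metric.ball t0 δ,
    inter_mem_nhdsWithin _ (Metric.ball_mem_nhds t0 hδ0), ?_⟩
  apply LipschitzOnWith.of_dist_le_mul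
  intro s hs t ht
  have hs1 : |s - t0| < δ := by simpa [Real.dist_eq] using hs.2
  have ht1 : |t - t0| < δ := by simpa [Real.dist_eq] using ht.2
  have hd1 : δ ≤ r / 4 := min_le_left _ _
  have hd2 : δ ≤ c * r / 2 := min_le_right _ _
  have h1 : ‖σ s - σ t0‖ ≤ r := by
    have := key t0 ht0 s hs.1 (by simpa using hr.le) (by rw [abs_sub_comm]; linarith)
    rw [abs_sub_comm] at this
    have h5 : c * ‖σ s - σ t0‖ ≤ c * r := by linarith
    exact le_of_mul_le_mul_left h5 hc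
  have h2 : |s - t| < r / 2 := by
    have := abs_sub_le s t0 t
    rw [abs_sub_comm t0 t] at this
    linarith
  have h3 := key s hs.1 t ht.1 h1 h2
  rw [Real.coe_toNNReal _ (by positivity), dist_eq_norm, norm_sub_rev, Real.dist_eq,
    div_mul_eq_mul_div, le_div_iff₀ hc]
  linarith

lemma dbr_unit {g : Met n} (hg : Riem g) (hdb : DBP g) (hlow : LowP g) {σ : ℝ → E n} {L : ℝ}
    (hL : 0 < L) (hσ : ∀ s ∈ Icc 0 L, ∀ t ∈ Icc 0 L, dd g (σ s) (σ t) = |s - t|)
    {t : ℝ} (ht : t ∈ Icc 0 L) {v : E n} (hv : HasDerivWithinAt σ v (Icc 0 L) t) :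
    g (σ t) v v = 1 := by
  have hne : (𝓝[Icc 0 L \ {t}] t).NeBot := by
    have := (uniqueDiffOn_Icc hL t ht).accPt
    rwa [accPt_principal_iff_nhdsWithin] at this
  have hsl := hasDerivWithinAt_iff_tendsto_slope.1 hv
  have hc : Continuous fun u : E n => √(g (σ t) u u) := by fun_prop
  have hA : Tendsto (fun s => √(g (σ t) (slope σ t s) (slope σ t s))) (𝓝[Icc 0 L \ {t}] t)
      (𝓝 (√(g (σ t) v v))) := (hc.tendsto v).comp hsl
  have hform : ∀ s, s ≠ t → √(g (σ t) (σ s - σ t) (σ s - σ t)) =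
      |t - s| * √(g (σ t) (slope σ t s) (slope σ t s)) := by
    intro s hs
    have h1 : σ s - σ t = (s - t) • slope σ t s := by
      rw [slope_def_module, smul_smul, mul_inv_cancel₀ (sub_ne_zero.2 hs), one_smul]
    rw [h1]
    have h2 : g (σ t) ((s - t) • slope σ t s) ((s - t) • slope σ t s) =
        (t - s) ^ 2 * g (σ t) (slope σ t s) (slope σ t s) := by
      simp only [map_smul, ContinuousLinearMap.smul_apply, smul_eq_mul]
      ring
    rw [h2, Real.sqrt_mul (sq_nonneg _), Real.sqrt_sq_eq_abs]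
  have hcont : Tendsto σ (𝓝[Icc 0 L \ {t}] t) (𝓝 (σ t)) :=
    hv.continuousWithinAt.tendsto.mono_left (nhdsWithin_mono _ diff_subset)
  have hid : Tendsto (fun s : ℝ => |t - s|) (𝓝[Icc 0 L \ {t}] t) (𝓝 0) := by
    have : Tendsto (fun s : ℝ => |t - s|) (𝓝 t) (𝓝 |t - t|) :=
      (by fun_prop : Continuous fun s : ℝ => |t - s|).tendsto t
    simpa using this.mono_left nhdsWithin_le_nhds
  set A := √(g (σ t) v v) with hAdef
  have hA0 : 0 ≤ A := Real.sqrt_nonneg _
  have hup : ∀ ε : ℝ, 0 < ε → 1 ≤ (1 + ε) * A := by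
    intro ε hε
    obtain ⟨r, hr, hru⟩ := hdb.upp (σ t) ε hε
    refine ge_of_tendsto (hA.const_mul (1 + ε)) ?_
    have h1 : ∀ᶠ s in 𝓝[Icc 0 L \ {t}] t, σ s ∈ Metric.closedBall (σ t) r :=
      hcont (Metric.closedBall_mem_nhds _ hr)
    filter_upwards [h1, self_mem_nhdsWithin] with s hs1 hs2
    have hst : s ≠ t := hs2.2
    have h2 := hru (σ t) (σ s) (by simpa using hr.le) (by simpa [dist_eq_norm] using hs1)
    have h3 := hdb.le_seg (σ t) (σ s)
    rw [hσ t ht s hs2.1] at h3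
    rw [hform s hst] at h2
    have h4 : 0 < |t - s| := abs_pos.2 (sub_ne_zero.2 hst.symm)
    have h5 : |t - s| * 1 ≤ |t - s| * ((1 + ε) * √(g (σ t) (slope σ t s) (slope σ t s))) := by
      linarith
    exact le_of_mul_le_mul_left h5 h4
  have hlo : ∀ ε : ℝ, 0 < ε → ε < 1 → (1 - ε) * A ≤ 1 := by
    intro ε hε hε1
    obtain ⟨r, hr, hrl⟩ := hlow (σ t) ε hε
    refine le_of_tendsto (hA.const_mul (1 - ε)) ?_
    have h1 : ∀ᶠ s in 𝓝[Icc 0 L \ {t}] t, |t - s| < (1 - ε) * r :=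
      hid (Iio_mem_nhds (mul_pos (by linarith) hr))
    filter_upwards [h1, self_mem_nhdsWithin] with s hs1 hs2
    have hst : s ≠ t := hs2.2
    have h2 := hrl (σ t) (σ s) (by simpa using hr.le)
    rw [hσ t ht s hs2.1, hform s hst] at h2
    have h4 : 0 < |t - s| := abs_pos.2 (sub_ne_zero.2 hst.symm)
    rcases le_total r (|t - s| * √(g (σ t) (slope σ t s) (slope σ t s))) with h | h
    · rw [min_eq_left h] at h2
      linarith
    · rw [min_eq_right h] at h2
      have h5 : |t - s| * ((1 - ε) * √(g (σ t) (slope σ t s) (slope σ t s))) ≤ |t - s| * 1 := by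
        linarith
      exact le_of_mul_le_mul_left h5 h4
  have hA1 : A = 1 := by
    apply le_antisymm
    · by_contra h
      replace h := not_le.1 h
      have h1 := hlo ((A - 1) / (2 * A)) (by positivity)
        (by rw [div_lt_one (by positivity)]; linarith)
      have h2 : (1 - (A - 1) / (2 * A)) * A = (A + 1) / 2 := by
        field_simp
        ring
      linarith
    · by_contra h
      replace h := not_le.1 h
      have h1 := hup (1 - A) (by linarith)
      nlinarith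
  rw [hAdef] at hA1
  exact Real.sqrt_eq_one.1 hA1

/-- Differentiation of a variation under the integral sign. -/
lemma dbr_var {V : Type} [NormedAddCommGroup V] [NormedSpace ℝ V] [FiniteDimensional ℝ V]
    {H : V → ℝ} (hH : ContDiff ℝ 1 H) {P Q : ℝ → V} {L R : ℝ}
    (hP : AEStronglyMeasurable P (volume.restrict (uIoc 0 L)))
    (hQ : AEStronglyMeasurable Q (volume.restrict (uIoc 0 L)))
    (hPb : ∀ t ∈ uIoc 0 L, ‖P t‖ ≤ R) (hQb : ∀ t ∈ uIoc 0 L, ‖Q t‖ ≤ R) :
    (∀ e : ℝ, |e| ≤ 1 → IntervalIntegrable (fun t => H (P t + e • Q t)) volume 0 L) ∧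
    HasDerivAt (fun e : ℝ => ∫ t in (0 : ℝ)..L, H (P t + e • Q t))
      (∫ t in (0 : ℝ)..L, fderiv ℝ H (P t) (Q t)) 0 := by
  have hc0 : Continuous H := hH.continuous
  have hc1 : Continuous (fderiv ℝ H) := hH.continuous_fderiv (by norm_num)
  have hK : IsCompact (Metric.closedBall (0 : V) (2 * R)) := isCompact_closedBall _ _
  obtain ⟨C0, hC0⟩ := hK.exists_bound_of_continuousOn hc0.continuousOn
  obtain ⟨C1, hC1⟩ := hK.exists_bound_of_continuousOn hc1.continuousOn
  have hmem : ∀ e : ℝ, |e| ≤ 1 → ∀ t ∈ uIoc 0 L,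
      P t + e • Q t ∈ Metric.closedBall (0 : V) (2 * R) := by
    intro e he t ht
    rw [mem_closedBall_zero_iff]
    have h1 := norm_add_le (P t) (e • Q t)
    rw [norm_smul, Real.norm_eq_abs] at h1
    have h2 := hPb t ht
    have h3 := hQb t ht
    have h4 : |e| * ‖Q t‖ ≤ 1 * ‖Q t‖ := mul_le_mul_of_nonneg_right he (norm_nonneg _)
    linarith
  have hmeas : ∀ e : ℝ, AEStronglyMeasurable (fun t => H (P t + e • Q t))
      (volume.restrict (uIoc 0 L)) := fun e =>
    hc0.comp_aestronglyMeasurable (hP.add (hQ.const_smul e))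
  have hint : ∀ e : ℝ, |e| ≤ 1 → IntervalIntegrable (fun t => H (P t + e • Q t)) volume 0 L := by
    intro e he
    rw [intervalIntegrable_iff]
    have hcst : IntervalIntegrable (fun _ : ℝ => C0) volume 0 L := intervalIntegrable_const
    rw [intervalIntegrable_iff] at hcst
    refine Integrable.mono' hcst (hmeas e) ?_
    filter_upwards [ae_restrict_mem measurableSet_uIoc] with t ht
    exact hC0 _ (hmem e he t ht)
  refine ⟨hint, ?_⟩
  have hmain := intervalIntegral.hasDerivAt_integral_of_dominated_loc_of_deriv_le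
    (μ := volume) (a := 0) (b := L) (F := fun (e : ℝ) t => H (P t + e • Q t))
    (F' := fun (e : ℝ) t => fderiv ℝ H (P t + e • Q t) (Q t)) (x₀ := 0) (s := Icc (-1) 1)
    (bound := fun _ => C1 * R) (Icc_mem_nhds (by norm_num) (by norm_num))
    (Eventually.of_forall hmeas) (hint 0 (by simp)) ?_ ?_ intervalIntegrable_const ?_
  · simpa using hmain.2
  · have h1 : Continuous fun z : V × V => fderiv ℝ H z.1 z.2 := by fun_prop
    exact h1.comp_aestronglyMeasurable ((hP.add (hQ.const_smul (0 : ℝ))).prodMk hQ)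
  · refine Eventually.of_forall fun t ht e he => ?_
    have he' : |e| ≤ 1 := abs_le.2 he
    have h1 := hC1 _ (hmem e he' t ht)
    refine ((fderiv ℝ H (P t + e • Q t)).le_opNorm (Q t)).trans ?_
    exact mul_le_mul h1 (hQb t ht) (norm_nonneg _) ((norm_nonneg _).trans h1)
  · refine Eventually.of_forall fun t _ e _ => ?_
    have h1 : HasDerivAt (fun e : ℝ => P t + e • Q t) (Q t) e := by
      simpa using ((hasDerivAt_id e).smul_const (Q t)).const_add (P t)
    exact ((hH.differentiable (by norm_num)) _).hasFDerivAt.comp_hasDerivAt e h1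

/-- The lemma of du Bois-Reymond. -/
lemma dbr_lemma {u q : ℝ → ℝ} {L R : ℝ} (hL : 0 < L)
    (hu : AEStronglyMeasurable u volume) (hq : AEStronglyMeasurable q volume)
    (hub : ∀ t ∈ Icc 0 L, |u t| ≤ R) (hqb : ∀ t ∈ Icc 0 L, |q t| ≤ R)
    (h : ∀ (ψ : ℝ → ℝ) (S : ℝ), AEStronglyMeasurable ψ volume → (∀ t ∈ Icc 0 L, |ψ t| ≤ S) →
      ∫ t in (0 : ℝ)..L, ψ t = 0 →
      ∫ t in (0 : ℝ)..L, ((∫ s in (0 : ℝ)..t, ψ s) * q t + ψ t * u t) = 0) :
    ∃ c : ℝ, ∀ᵐ t, t ∈ Icc 0 L → u t = c + ∫ s in (0 : ℝ)..t, q s := by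
  have hI : ∀ {f : ℝ → ℝ} {S : ℝ}, AEStronglyMeasurable f volume → (∀ t ∈ Icc 0 L, |f t| ≤ S) →
      IntervalIntegrable f volume 0 L := by
    intro f S hf hb
    rw [intervalIntegrable_iff_integrableOn_Icc_of_le hL.le]
    refine Measure.integrableOn_of_bounded (M := S) (by simp) hf ?_
    filter_upwards [ae_restrict_mem measurableSet_Icc] with t ht
    exact hb t ht
  have huI : uIcc 0 L = Icc 0 L := uIcc_of_le hL.le
  have hqI := hI hq hqb
  set p : ℝ → ℝ := fun t => ∫ s in (0 : ℝ)..(max 0 (min t L)), q s with hp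
  have hpe : ∀ t ∈ Icc 0 L, p t = ∫ s in (0 : ℝ)..t, q s := by
    intro t ht
    simp only [hp, min_eq_left ht.2, max_eq_right ht.1]
  have hp0 : ContinuousOn (fun t => ∫ s in (0 : ℝ)..t, q s) (Icc 0 L) := by
    rw [← huI]
    exact intervalIntegral.continuousOn_primitive_interval' hqI left_mem_uIcc
  have hpc : Continuous p := by
    refine hp0.comp_continuous (f := fun t : ℝ => max 0 (min t L)) (by fun_prop) fun t => ?_
    exact ⟨le_max_left _ _, max_le hL.le (min_le_right _ _)⟩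
  obtain ⟨R1, hR1⟩ := isCompact_Icc.exists_bound_of_continuousOn (hpc.continuousOn (s := Icc 0 L))
  set c : ℝ := (∫ t in (0 : ℝ)..L, (u t - p t)) / L with hc
  set ψ : ℝ → ℝ := fun t => u t - p t - c with hψ
  have hψm : AEStronglyMeasurable ψ volume :=
    (hu.sub hpc.aestronglyMeasurable).sub aestronglyMeasurable_const
  have hψb : ∀ t ∈ Icc 0 L, |ψ t| ≤ R + R1 + |c| := by
    intro t ht
    have h1 := hub t ht
    have h2 : |p t| ≤ R1 := hR1 t ht
    have h3 := abs_sub (u t - p t) c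
    have h4 := abs_sub (u t) (p t)
    simp only [hψ]
    linarith
  have huI' := hI hu hub
  have hpI : IntervalIntegrable p volume 0 L := hpc.intervalIntegrable _ _
  have hψI := hI hψm hψb
  have hψ0 : ∫ t in (0 : ℝ)..L, ψ t = 0 := by
    simp only [hψ]
    rw [intervalIntegral.integral_sub (huI'.sub hpI) intervalIntegrable_const]
    simp only [intervalIntegral.integral_const, sub_zero, smul_eq_mul, hc]
    field_simp
    ring
  have h1 := h ψ _ hψm hψb hψ0
  have hφ := hψI.absolutelyContinuousOnInterval_intervalIntegral (c := 0) left_mem_uIcc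
  have hpa := hqI.absolutelyContinuousOnInterval_intervalIntegral (c := 0) left_mem_uIcc
  have h2 := hφ.integral_deriv_mul_eq_sub hpa
  simp only [hψ0, intervalIntegral.integral_same, zero_mul, sub_zero] at h2
  have h3 : ∫ t in (0 : ℝ)..L, (ψ t * p t + (∫ s in (0 : ℝ)..t, ψ s) * q t) = 0 := by
    refine Eq.trans ?_ h2
    apply intervalIntegral.integral_congr_ae
    filter_upwards [hψI.ae_hasDerivAt_integral, hqI.ae_hasDerivAt_integral] with t h4 h5 ht
    have ht' : t ∈ uIcc 0 L := uIoc_subset_uIcc ht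
    rw [(h4 ht' 0 left_mem_uIcc).deriv, (h5 ht' 0 left_mem_uIcc).deriv, hpe t (huI ▸ ht')]
  have hφq : IntervalIntegrable (fun t => (∫ s in (0 : ℝ)..t, ψ s) * q t) volume 0 L :=
    hqI.continuousOn_mul hφ.continuousOn
  have hψp : IntervalIntegrable (fun t => ψ t * p t) volume 0 L :=
    hψI.mul_continuousOn hpc.continuousOn
  have hψu : IntervalIntegrable (fun t => ψ t * u t) volume 0 L := by
    refine hI (S := (R + R1 + |c|) * R) (hψm.mul hu) fun t ht => ?_
    rw [abs_mul]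
    exact mul_le_mul (hψb t ht) (hub t ht) (abs_nonneg _) ((abs_nonneg _).trans (hψb t ht))
  rw [intervalIntegral.integral_add hφq hψu] at h1
  rw [intervalIntegral.integral_add hψp hφq] at h3
  have h4 : ∫ t in (0 : ℝ)..L, ψ t * ψ t = 0 := by
    have h5 : ∀ t, ψ t * ψ t = ψ t * u t - ψ t * p t - c * ψ t := by
      intro t
      simp only [hψ]
      ring
    simp_rw [h5]
    rw [intervalIntegral.integral_sub (hψu.sub hψp) (hψI.const_mul c),
      intervalIntegral.integral_sub hψu hψp, intervalIntegral.integral_const_mul, hψ0]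
    linarith
  have hψψ : IntervalIntegrable (fun t => ψ t * ψ t) volume 0 L := by
    refine hI (S := (R + R1 + |c|) * (R + R1 + |c|)) (hψm.mul hψm) fun t ht => ?_
    rw [abs_mul]
    exact mul_le_mul (hψb t ht) (hψb t ht) (abs_nonneg _) ((abs_nonneg _).trans (hψb t ht))
  rw [intervalIntegral.integral_eq_zero_iff_of_le_of_nonneg_ae hL.le
    (Eventually.of_forall fun t => mul_self_nonneg _) hψψ] at h4
  refine ⟨c, ?_⟩
  have h6 : ∀ᵐ t, t ∈ Ioc 0 L → ψ t * ψ t = 0 := (ae_restrict_iff' measurableSet_Ioc).1 h4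
  have h7 : ∀ᵐ t : ℝ, t ≠ 0 := by simp [ae_iff, measure_singleton]
  filter_upwards [h6, h7] with t h8 h9 ht
  have h10 := mul_self_eq_zero.1 (h8 ⟨lt_of_le_of_ne ht.1 h9.symm, ht.2⟩)
  rw [← hpe t ht]
  simp only [hψ] at h10
  linarith

end Pool.Agent.MP_3ee8cb_gt.CR
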