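import Pool.Agent.MP_3ee8cb_gt.CR.SpecA

/-! Continuity, reversibility and the Lipschitz bound of the geodesic flow. -/

namespace Pool.Agent.MP_3ee8cb_gt.CR

open Set MeasureTheory

variable {n : ℕ}

theorem fl_inv {g : Met n} (hg : Riem g) (x : E n) : (g x).IsInvertible := by
  have hinj : Function.Injective (g x : E n →ₗ[ℝ] (E n →L[ℝ] ℝ)) := by
    refine (injective_iff_map_eq_zero _).2 fun v hv => ?_
    by_contra h0
    have h1 := hg.pos x v h0
    have h2 : g x v = 0 := hv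
    rw [h2] at h1
    exact lt_irrefl _ h1
  have hdim : Module.finrank ℝ (E n) = Module.finrank ℝ (E n →L[ℝ] ℝ) := by
    rw [← (LinearMap.toContinuousLinearMap (𝕜 := ℝ) (E := E n) (F' := ℝ)).finrank_eq]
    exact Subspace.dual_finrank_eq.symm
  exact ⟨(LinearMap.linearEquivOfInjective _ hinj hdim).toContinuousLinearEquiv, by ext; rfl⟩

theorem fl_pos {g : Met n} {Φ : ℝ → UT g → UT g} (hΦ : IsFlow g Φ) (p : UT g) :
    Continuous fun t => (Φ t p).1.1 :=
  continuous_iff_continuousAt.2 fun t => (hΦ.vel p t).continuousAt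

theorem fl_vel {g : Met n} {Φ : ℝ → UT g → UT g} (hg : Riem g) (hΦ : IsFlow g Φ) (p : UT g) :
    Continuous fun t => (Φ t p).1.2 := by
  have h1 : Continuous fun t => g (Φ t p).1.1 (Φ t p).1.2 :=
    continuous_clm_apply.2 fun w =>
      continuous_iff_continuousAt.2 fun t => (hΦ.geo p t w).continuousAt
  have h2 : Continuous fun x : E n => (g x).inverse :=
    continuous_iff_continuousAt.2 fun x =>
      ((fl_inv hg x).contDiffAt_map_inverse (n := 0)).continuousAt.comp
        hg.smooth.continuous.continuousAt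
  have h3 := (h2.comp (fl_pos hΦ p)).clm_apply h1
  refine h3.congr fun t => ?_
  exact ((fl_inv hg _).inverse_apply_eq).2 rfl

theorem fl_ng {g : Met n} (p : UT g) : ng (ng p) = p := by
  apply Subtype.ext
  simp [ng]

theorem fl_rev {g : Met n} {Φ : ℝ → UT g → UT g} (hΦ : IsFlow g Φ) (hu : UniP g) (p : UT g)
    {t : ℝ} (ht : 0 ≤ t) : Φ t (ng p) = ng (Φ (-t) p) := by
  have h1 : GeoOn g (fun s => (Φ s (ng p)).1.1) (fun s => (Φ s (ng p)).1.2) 0 t :=
    fun s _ => ⟨(hΦ.vel _ s).hasDerivWithinAt, fun w => (hΦ.geo _ s w).hasDerivWithinAt⟩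
  have h2 : GeoOn g (fun s => (Φ (-s) p).1.1) (fun s => -(Φ (-s) p).1.2) 0 t := by
    intro s _
    refine ⟨?_, fun w => ?_⟩
    · have := (hΦ.vel p (-s)).scomp s (hasDerivAt_neg s)
      simp only [neg_smul, one_smul] at this
      exact this.hasDerivWithinAt
    · have := ((hΦ.geo p (-s) w).scomp s (hasDerivAt_neg s)).neg
      simp only [neg_smul, one_smul, neg_neg] at this
      simp only [map_neg, ContinuousLinearMap.neg_apply, neg_neg]
      exact this.hasDerivWithinAt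
  have h3 := hu _ _ _ _ 0 t h1 h2 (by simp [hΦ.zero, ng]) (by simp [hΦ.zero, ng]) t ⟨ht, le_rfl⟩
  exact Subtype.ext (Prod.ext h3.1 h3.2)

theorem fl_lip {g : Met n} {Φ : ℝ → UT g → UT g} (hg : Riem g) (hΦ : IsFlow g Φ) (hl : LenP g)
    (p : UT g) {s t : ℝ} (h : s ≤ t) : dd g (Φ s p).1.1 (Φ t p).1.1 ≤ t - s := by
  have h1 := hl.2 (fun s => (Φ s p).1.1) (fun s => (Φ s p).1.2) s t h (fun u _ => hΦ.vel p u)
    (fl_vel hg hΦ p).continuousOn
  have h2 : ∀ u, √(g (Φ u p).1.1 (Φ u p).1.2 (Φ u p).1.2) = 1 := fun u => by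
    rw [(Φ u p).2, Real.sqrt_one]
  simp only [h2] at h1
  simpa using h1

theorem fl : SFL := by
  intro n g Φ hg hΦ hd hl hu
  refine ⟨fun p => ((fl_pos hΦ p).prodMk (fl_vel hg hΦ p)).subtype_mk _, fun t p => ?_,
    fun p s t => ?_⟩
  · rcases le_total 0 t with ht | ht
    · exact fl_rev hΦ hu p ht
    · have h1 := fl_rev hΦ hu (ng p) (neg_nonneg.2 ht)
      rw [fl_ng, neg_neg] at h1
      rw [h1, fl_ng]
  · rcases le_total s t with h | h
    · rw [abs_sub_comm]
      exact (fl_lip hg hΦ hl p h).trans (le_abs_self _)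
    · rw [hd.symm]
      exact (fl_lip hg hΦ hl p h).trans (le_abs_self _)

end Pool.Agent.MP_3ee8cb_gt.CR
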