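import Pool.Agent.MP_3ee8cb_gt.CR.SpecB

/-! The fibre integral of the Jacobian in an orthonormal frame. -/

namespace Pool.Agent.MP_3ee8cb_gt.CR

open Set MeasureTheory
open scoped RealInnerProductSpace

variable {n : ℕ}

theorem ja_det_adj (f : E n →ₗ[ℝ] E n) : LinearMap.det f.adjoint = LinearMap.det f := by
  let b := EuclideanSpace.basisFun (Fin n) ℝ
  rw [← LinearMap.det_toMatrix b.toBasis, LinearMap.toMatrix_adjoint, Matrix.det_conjTranspose,
    LinearMap.det_toMatrix, star_trivial]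

theorem ja_det_ne (R : E n ≃L[ℝ] E n) : (R : E n →L[ℝ] E n).det ≠ 0 :=
  (LinearEquiv.isUnit_det' R.toLinearEquiv).ne_zero

/-- The volume of the dual ball in a frame. -/
theorem ja_W (g : Met n) (x : E n) (R : E n ≃L[ℝ] E n) (hR : ∀ a b, g x (R a) (R b) = ⟪a, b⟫) :
    W g x = ENNReal.ofReal |(R : E n →L[ℝ] E n).det|⁻¹ * volume (Metric.closedBall (0 : E n) 1) := by
  let f : E n →ₗ[ℝ] E n := (R : E n →L[ℝ] E n)
  have hf : ∀ a, f a = R a := fun _ => rfl
  have hd : LinearMap.det f.adjoint = (R : E n →L[ℝ] E n).det := ja_det_adj f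
  have hs : {P : E n | ∃ u, g x u u ≤ 1 ∧ ∀ w, ⟪P, w⟫ = g x u w} =
      f.adjoint ⁻¹' Metric.closedBall 0 1 := by
    ext P
    simp only [mem_ofPred_eq, mem_preimage, mem_closedBall_zero_iff]
    constructor
    · rintro ⟨u, hu, h⟩
      obtain ⟨a, rfl⟩ := R.surjective u
      have h1 : f.adjoint P = a := by
        refine ext_inner_right ℝ fun b => ?_
        rw [LinearMap.adjoint_inner_left, hf, h, hR]
      rw [hR, real_inner_self_eq_norm_sq] at hu
      rw [h1]
      nlinarith [norm_nonneg a]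
    · intro h
      refine ⟨R (f.adjoint P), ?_, fun w => ?_⟩
      · rw [hR, real_inner_self_eq_norm_sq]
        nlinarith [norm_nonneg (f.adjoint P)]
      · obtain ⟨b, rfl⟩ := R.surjective w
        rw [hR, LinearMap.adjoint_inner_left, hf]
  unfold W
  rw [hs, Measure.addHaar_preimage_linearMap _ (by rw [hd]; exact ja_det_ne R), hd, abs_inv]

/-- The cone integral. -/
theorem ja_cone (hn : 0 < n) (hC : ConeP n) {A : V n →L[ℝ] V n} (hA : Lor A) :
    ∫⁻ k, ENNReal.ofReal ‖k‖⁻¹ *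
      (Metric.closedBall (0 : E n) 1).indicator (fun k => ENNReal.ofReal ‖k‖) (ca A k) =
      volume (Metric.closedBall (0 : E n) 1) := by
  have : Nonempty (Fin n) := ⟨⟨0, hn⟩⟩
  have hm : Measurable ((Metric.closedBall (0 : E n) 1).indicator fun k => ENNReal.ofReal ‖k‖) :=
    (measurable_norm.ennreal_ofReal).indicator measurableSet_closedBall
  have hw : Measurable fun k : E n => ENNReal.ofReal ‖k‖⁻¹ := measurable_norm.inv.ennreal_ofReal
  have h1 := (hC A hA).lintegral_comp hm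
  have h2 := lintegral_withDensity_eq_lintegral_mul volume hw (hm.comp (hC A hA).measurable)
  refine (h2.symm.trans h1).trans ?_
  unfold nu
  rw [lintegral_withDensity_eq_lintegral_mul _ hw hm,
    ← measure_sdiff_null (s := Metric.closedBall (0 : E n) 1) (measure_singleton 0),
    ← lintegral_indicator_one (measurableSet_closedBall.diff (measurableSet_singleton 0))]
  refine lintegral_congr fun k => ?_
  by_cases h0 : k = 0
  · simp [h0]
  · by_cases hk : k ∈ Metric.closedBall (0 : E n) 1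
    · rw [indicator_of_mem (show k ∈ Metric.closedBall (0 : E n) 1 \ {0} from ⟨hk, h0⟩),
        Pi.mul_apply, indicator_of_mem hk, ← ENNReal.ofReal_mul (by positivity),
        inv_mul_cancel₀ (norm_ne_zero_iff.2 h0), ENNReal.ofReal_one, Pi.one_apply]
    · rw [indicator_of_notMem (show k ∉ Metric.closedBall (0 : E n) 1 \ {0} from fun h => hk h.1),
        Pi.mul_apply, indicator_of_notMem hk, mul_zero]

theorem ja : SJA := by
  intro n hn hL hD hC g x y R A T J hR hA hy hT
  have hb0 : volume (Metric.closedBall (0 : E n) 1) ≠ 0 :=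
    (Metric.measure_closedBall_pos _ _ one_pos).ne'
  have hRd := ja_det_ne R
  have hRp : 0 < |(R : E n →L[ℝ] E n).det| := abs_pos.2 hRd
  refine ⟨?_, ?_, ?_⟩
  rotate_left
  · rw [ja_W g x R hR]
    exact mul_ne_zero (ENNReal.ofReal_pos.2 (inv_pos.2 hRp)).ne' hb0
  · rw [ja_W g x R hR]
    exact ENNReal.mul_ne_top ENNReal.ofReal_ne_top measure_closedBall_lt_top.ne
  obtain ⟨A', hA', -, hAA⟩ := hL.inv A hA
  have hc : ∀ k, A (cn (ca A' k)) = cn k := fun k => by rw [← hL.acn A' hA', hAA]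
  have hca : ∀ k, ca A (ca A' k) = k := fun k => by rw [ca, hc]; rfl
  have hB : ∀ k, -B (up y) (cn k) = ‖ca A' k‖ := fun k => by
    rw [← hy, ← hc, hA.pres]
    simp [B, cn]
  have hdet : ∀ k, k ≠ 0 → |((qL k).comp T).det| =
      |J.det| * |(R : E n →L[ℝ] E n).det|⁻¹ * (‖k‖⁻¹ * ‖ca A' k‖) := fun k hk => by
    have h0 := hL.ane A' hA' k hk
    obtain ⟨-, L, -, -, hLq, hLd⟩ := hD A (ca A' k) hA h0
    rw [hca] at hLq hLd
    have e : (((qL k).comp T : E n →L[ℝ] E n) : E n →ₗ[ℝ] E n) ∘ₗ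
        ((R : E n →L[ℝ] E n) : E n →ₗ[ℝ] E n) =
        (L : E n →ₗ[ℝ] E n) ∘ₗ ((-1 : ℝ) • (J : E n →ₗ[ℝ] E n)) := by
      refine LinearMap.ext fun a => ?_
      show qL k (T (R a)) = L ((-1 : ℝ) • J a)
      rw [hLq, hT, neg_one_smul, neg_neg]
    have e2 := congrArg (fun f => |LinearMap.det f|) e
    simp only [LinearMap.det_comp, LinearMap.det_smul, abs_mul, abs_pow, abs_neg, abs_one, one_pow,
      one_mul] at e2
    have e3 : |((qL k).comp T).det| * |(R : E n →L[ℝ] E n).det| = |L.det| * |J.det| := e2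
    rw [hLd] at e3
    rw [eq_div_of_mul_eq hRp.ne' e3]
    ring
  have hS : {k : E n | k ≠ 0 ∧ -B (up y) (cn k) ≤ 1} =
      {0}ᶜ ∩ ca A' ⁻¹' Metric.closedBall 0 1 := by
    ext k
    simp only [mem_ofPred_eq, mem_inter_iff, mem_compl_iff, mem_singleton_iff, mem_preimage,
      mem_closedBall_zero_iff, hB]
  have hm : MeasurableSet ({0}ᶜ ∩ ca A' ⁻¹' Metric.closedBall (0 : E n) 1) :=
    (measurableSet_singleton 0).compl.inter ((hC A' hA').measurable measurableSet_closedBall)
  rw [hS, ja_W g x R hR, ← mul_assoc, ← ENNReal.ofReal_mul (abs_nonneg _), ← ja_cone hn hC hA',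
    ← lintegral_const_mul' _ _ ENNReal.ofReal_ne_top, ← lintegral_indicator hm]
  refine lintegral_congr fun k => ?_
  by_cases h0 : k = 0
  · rw [indicator_of_notMem (fun h => h.1 h0), h0]
    simp
  · by_cases hk : ca A' k ∈ Metric.closedBall (0 : E n) 1
    · rw [indicator_of_mem (show k ∈ {0}ᶜ ∩ ca A' ⁻¹' Metric.closedBall (0 : E n) 1 from ⟨h0, hk⟩),
        indicator_of_mem hk, hdet k h0, ENNReal.ofReal_mul (by positivity),
        ENNReal.ofReal_mul (p := ‖k‖⁻¹) (by positivity)]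
    · rw [indicator_of_notMem (fun h => hk h.2), indicator_of_notMem hk, mul_zero, mul_zero]

end Pool.Agent.MP_3ee8cb_gt.CR
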