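import Pool.Agent.MP_3ee8cb_gt.CR.Defs

/-! Riemannian distance, geodesics, Busemann data: definitions and statements of the rows. -/

namespace Pool.Agent.MP_3ee8cb_gt.CR

open Set MeasureTheory
open scoped RealInnerProductSpace

variable {n : ℕ}

/-! distance -/

/-- Length of a straight segment. -/
noncomputable def seg (g : Met n) (x y : E n) : ℝ :=
  ∫ t in (0 : ℝ)..1, √(g (x + t • (y - x)) (y - x) (y - x))

/-- The Riemannian distance (dual definition). -/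
noncomputable def dd (g : Met n) (x y : E n) : ℝ :=
  sSup {r | ∃ u : E n → ℝ, (∀ a b, u b - u a ≤ seg g a b) ∧ r = u y - u x}

structure DBP (g : Met n) : Prop where
  refl : ∀ x, dd g x x = 0
  nonneg : ∀ x y, 0 ≤ dd g x y
  symm : ∀ x y, dd g x y = dd g y x
  tri : ∀ x y z, dd g x z ≤ dd g x y + dd g y z
  le_seg : ∀ x y, dd g x y ≤ seg g x y
  test : ∀ u : E n → ℝ, (∀ a b, u b - u a ≤ seg g a b) → ∀ x y, u y - u x ≤ dd g x y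
  cont : Continuous fun a : E n × E n => dd g a.1 a.2
  add : ∀ (a b : E n) (s : ℝ), 0 ≤ s → s ≤ 1 →
    seg g a (a + s • (b - a)) + seg g (a + s • (b - a)) b = seg g a b
  upp : ∀ (x : E n) (ε : ℝ), 0 < ε → ∃ r, 0 < r ∧ ∀ y z, ‖y - x‖ ≤ r → ‖z - x‖ ≤ r →
    seg g y z ≤ (1 + ε) * √(g x (z - y) (z - y))

def LowP (g : Met n) : Prop := ∀ (x : E n) (ε : ℝ), 0 < ε → ∃ r, 0 < r ∧ ∀ y z, ‖y - x‖ ≤ r →
  (1 - ε) * min r √(g x (z - y) (z - y)) ≤ dd g y z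

def MidP (g : Met n) : Prop := ∀ (x y : E n) (s ε : ℝ), 0 ≤ s → s ≤ dd g x y → 0 < ε →
  ∃ w, dd g x w = s ∧ dd g w y ≤ dd g x y - s + ε

def LenP (g : Met n) : Prop :=
  (∀ (c : ℝ → E n) (a b : ℝ) (K : NNReal), a ≤ b → LipschitzOnWith K c (Icc a b) →
    dd g (c a) (c b) ≤ ∫ t in a..b, √(g (c t) (deriv c t) (deriv c t))) ∧
  ∀ (c c' : ℝ → E n) (a b : ℝ), a ≤ b → (∀ t ∈ Icc a b, HasDerivAt c (c' t) t) →
    ContinuousOn c' (Icc a b) → dd g (c a) (c b) ≤ ∫ t in a..b, √(g (c t) (c' t) (c' t))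

def InvP (g : Met n) (Γ : Type) [Group Γ] [MulAction Γ (E n)] : Prop :=
  ∀ (γ : Γ) (x y : E n), dd g (γ • x) (γ • y) = dd g x y

def ProP (g : Met n) : Prop := ∀ (x : E n) (R : ℝ), Bornology.IsBounded {y | dd g x y ≤ R}

def GeoP (g : Met n) : Prop := ∀ x y : E n, ∃ σ : ℝ → E n, σ 0 = x ∧ σ (dd g x y) = y ∧
  ∀ s ∈ Icc 0 (dd g x y), ∀ t ∈ Icc 0 (dd g x y), dd g (σ s) (σ t) = |s - t|

/-- The geodesic equation on an interval. -/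
def GeoOn (g : Met n) (c c' : ℝ → E n) (a b : ℝ) : Prop := ∀ t ∈ Icc a b,
  HasDerivWithinAt c (c' t) (Icc a b) t ∧ ∀ w, HasDerivWithinAt (fun s => g (c s) (c' s) w)
    (fderiv ℝ g (c t) w (c' t) (c' t) / 2) (Icc a b) t

def DbrP (g : Met n) : Prop := ∀ (σ : ℝ → E n) (L : ℝ), 0 < L →
  (∀ s ∈ Icc 0 L, ∀ t ∈ Icc 0 L, dd g (σ s) (σ t) = |s - t|) →
    ∃ σ', GeoOn g σ σ' 0 L ∧ g (σ 0) (σ' 0) (σ' 0) = 1

def UniP (g : Met n) : Prop := ∀ (c c' e e' : ℝ → E n) (a b : ℝ), GeoOn g c c' a b →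
  GeoOn g e e' a b → c a = e a → c' a = e' a → ∀ t ∈ Icc a b, c t = e t ∧ c' t = e' t

/-- The opposite vector. -/
def ng {g : Met n} (p : UT g) : UT g := ⟨(p.1.1, -p.1.2), by simpa using p.2⟩

/-- Facts on the flow. -/
structure FlP (g : Met n) (Φ : ℝ → UT g → UT g) : Prop where
  cont : ∀ p, Continuous fun t => Φ t p
  rev : ∀ t p, Φ t (ng p) = ng (Φ (-t) p)
  lip : ∀ p s t, dd g (Φ s p).1.1 (Φ t p).1.1 ≤ |s - t|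

def HrP (g : Met n) (Φ : ℝ → UT g → UT g) : Prop :=
  ∀ x y : E n, ∃ p : UT g, p.1.1 = x ∧ (Φ (dd g x y) p).1.1 = y

def ScP (g : Met n) (Φ : ℝ → UT g → UT g) : Prop := ∀ R : ℝ, ∃ C : ℝ, ∀ (p : UT g) (h : E n),
  ‖p.1.1‖ ≤ R → ‖h‖ ≤ R → dd g (p.1.1 + h) (Φ 1 p).1.1 ≤ 1 - g p.1.1 p.1.2 h + C * ‖h‖ ^ 2

def SDB : Prop := ∀ (n : ℕ) (g : Met n), Riem g → DBP g
def SLOW : Prop := ∀ (n : ℕ) (g : Met n), Riem g → DBP g → LowP g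
def SMID : Prop := ∀ (n : ℕ) (g : Met n), Riem g → DBP g → MidP g
def SLEN : Prop := ∀ (n : ℕ) (g : Met n), Riem g → DBP g → LenP g
def SINV : Prop := ∀ (n : ℕ) (g : Met n) (Γ : Type) [Group Γ] [MulAction Γ (E n)], Riem g →
  Deck g Γ → DBP g → LenP g → InvP g Γ
def SPRO : Prop := ∀ (n : ℕ) (g : Met n) (Γ : Type) [Group Γ] [MulAction Γ (E n)], Riem g →
  Deck g Γ → DBP g → LowP g → MidP g → InvP g Γ → ProP g
def SGEO : Prop := ∀ (n : ℕ) (g : Met n), Riem g → DBP g → LowP g → MidP g → ProP g → GeoP g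
def SDBR : Prop := ∀ (n : ℕ) (g : Met n), Riem g → DBP g → LowP g → LenP g → DbrP g
def SUNI : Prop := ∀ (n : ℕ) (g : Met n), Riem g → UniP g
def SFL : Prop := ∀ (n : ℕ) (g : Met n) (Φ : ℝ → UT g → UT g), Riem g → IsFlow g Φ → DBP g →
  LenP g → UniP g → FlP g Φ
def SHR : Prop := ∀ (n : ℕ) (g : Met n) (Φ : ℝ → UT g → UT g), 0 < n → Riem g → IsFlow g Φ →
  GeoP g → DbrP g → UniP g → DBP g → HrP g Φ
def SSC : Prop := ∀ (n : ℕ) (g : Met n) (Φ : ℝ → UT g → UT g), Riem g → IsFlow g Φ → DBP g →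
  LenP g → ProP g → FlP g Φ → ScP g Φ

/-- All facts on one Riemannian manifold. -/
structure RP (g : Met n) (Γ : Type) [Group Γ] [MulAction Γ (E n)] (Φ : ℝ → UT g → UT g) :
    Prop where
  riem : Riem g
  deck : Deck g Γ
  flow : IsFlow g Φ
  db : DBP g
  low : LowP g
  inv : InvP g Γ
  pro : ProP g
  uni : UniP g
  fl : FlP g Φ
  hr : HrP g Φ
  sc : ScP g Φ

/-- Lift of the conjugacy to the universal covers. -/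
def SLIFT : Prop := ∀ (n : ℕ) (g h : Met n) (Γ Λ : Type) [Group Γ] [Group Λ] [MulAction Γ (E n)]
  [MulAction Λ (E n)] (Φ : ℝ → UT g → UT g) (Ψ : ℝ → UT h → UT h) (f : UM g Γ ≃ₜ UM h Λ),
  3 ≤ n → RP g Γ Φ → RP h Λ Ψ →
  (∀ t p q, f (Quot.mk _ p) = Quot.mk _ q → f (Quot.mk _ (Φ t p)) = Quot.mk _ (Ψ t q)) →
  ∃ (ρ : Γ ≃* Λ) (F : UT g ≃ₜ UT h), (∀ t p, F (Φ t p) = Ψ t (F p)) ∧
    ∀ (γ : Γ) (p q : UT g), q.1 = tm γ p.1 → (F q).1 = tm (ρ γ) (F p).1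

/-- Fundamental domains. -/
def FdP (n : ℕ) (Γ : Type) [Group Γ] [MulAction Γ (E n)] : Prop := Countable Γ ∧
  ∀ x₀ : E n, ∃ D : Set (E n), MeasurableSet D ∧ Bornology.IsBounded D ∧ D ∈ nhds x₀ ∧
    (∀ x : E n, ∃ γ : Γ, γ • x ∈ D) ∧ ∀ (γ : Γ) (x : E n), x ∈ D → γ • x ∈ D → γ = 1

def SFD : Prop := ∀ (n : ℕ) (g : Met n) (Γ : Type) [Group Γ] [MulAction Γ (E n)],
  Deck g Γ → FdP n Γ

/-! conjugacy with a flow on pairs of boundary vectors -/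

/-- A pairing of boundary vectors. -/
structure Bd (l : E n → E n → ℝ) : Prop where
  cont : Continuous fun w : E n × E n => l w.1 w.2
  symm : ∀ a b, l a b = l b a
  nonneg : ∀ a b, 0 ≤ l a b
  hom : ∀ (t : ℝ) a b, 0 ≤ t → l (t • a) b = t * l a b
  self : ∀ a, l a a = 0
  zero : ∀ a b, a ≠ 0 → b ≠ 0 → l a b = 0 → ∃ t : ℝ, 0 < t ∧ b = t • a
  neg : ∀ a, l a (-a) = 2 * ‖a‖ ^ 2

/-- An action on boundary vectors. -/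
structure Act (l : E n → E n → ℝ) {Γ : Type} [Group Γ] (a : Γ → E n → E n) : Prop where
  ne : ∀ γ k, k ≠ 0 → a γ k ≠ 0
  hom : ∀ γ (t : ℝ) k, 0 < t → k ≠ 0 → a γ (t • k) = t • a γ k
  inv : ∀ γ k k', k ≠ 0 → k' ≠ 0 → l (a γ k) (a γ k') = l k k'
  one : ∀ k, k ≠ 0 → a 1 k = k
  mul : ∀ γ δ k, k ≠ 0 → a (γ * δ) k = a γ (a δ k)

structure Conj (g : Met n) {Γ : Type} [Group Γ] [MulAction Γ (E n)] (Φ : ℝ → UT g → UT g)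
    (l : E n → E n → ℝ) (a : Γ → E n → E n) (φ : UT g → E n × E n) (ψ : E n × E n → UT g) :
    Prop where
  bd : Bd l
  act : Act l a
  cont : Continuous φ
  mem : ∀ p, l (φ p).1 (φ p).2 = 2
  icont : ContinuousOn ψ {w | l w.1 w.2 = 2}
  left : ∀ p, ψ (φ p) = p
  right : ∀ w : E n × E n, l w.1 w.2 = 2 → φ (ψ w) = w
  flow : ∀ t p, φ (Φ t p) = (Real.exp t • (φ p).1, Real.exp (-t) • (φ p).2)
  equi : ∀ (γ : Γ) (p q : UT g), q.1 = tm γ p.1 → φ q = (a γ (φ p).1, a γ (φ p).2)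

/-- An invariant gauge that vanishes on the diagonal. -/
def gap (l : E n → E n → ℝ) (w w' : E n × E n) : ℝ :=
  l w.1 w'.1 + l w.2 w'.2 + |l w.1 w'.2 - 2| + |l w'.1 w.2 - 2|

structure UcP (g : Met n) (l : E n → E n → ℝ) (φ : UT g → E n × E n) : Prop where
  foot : ∀ ε : ℝ, 0 < ε → ∃ δ, 0 < δ ∧ ∀ p p', gap l (φ p) (φ p') ≤ δ → dd g p.1.1 p'.1.1 ≤ ε
  lam : ∀ ε : ℝ, 0 < ε → ∃ δ, 0 < δ ∧ ∀ p p', gap l (φ p) (φ p') ≤ δ →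
    |l (φ (ng p)).1 (φ p).1 - l (φ (ng p')).1 (φ p').1| ≤ ε
  bdd : ∃ D : ℝ, ∀ p p', p.1.1 = p'.1.1 → l (φ p).1 (φ p').1 ≤ D ∧ l (φ p).1 (φ p').2 ≤ D ∧
    l (φ p).2 (φ p').1 ≤ D ∧ l (φ p).2 (φ p').2 ≤ D

def MinP (g : Met n) (Φ : ℝ → UT g → UT g) : Prop :=
  ∀ p s t, dd g (Φ s p).1.1 (Φ t p).1.1 = |s - t|

/-- The Busemann function of a geodesic. -/
noncomputable def bus (g : Met n) (Φ : ℝ → UT g → UT g) (p : UT g) (x : E n) : ℝ :=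
  ⨅ t : ℝ, (dd g x (Φ t p).1.1 - t)

structure BuP (g : Met n) (Γ : Type) [Group Γ] [MulAction Γ (E n)] (Φ : ℝ → UT g → UT g)
    (φ : UT g → E n × E n) : Prop where
  lip : ∀ p x y, bus g Φ p x - bus g Φ p y ≤ dd g x y
  self : ∀ p t, bus g Φ p (Φ t p).1.1 = -t
  asym : ∀ p p', (φ p).1 = (φ p').1 → ∀ x, bus g Φ p x = bus g Φ p' x
  shift : ∀ p t x, bus g Φ (Φ t p) x = bus g Φ p x + t
  opp : ∀ p x, 0 ≤ bus g Φ p x + bus g Φ (ng p) x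
  equi : ∀ (γ : Γ) (p q : UT g), q.1 = tm γ p.1 → ∀ x, bus g Φ q (γ • x) = bus g Φ p x

def ExP (g : Met n) (φ : UT g → E n × E n) : Prop := ∀ x k : E n, k ≠ 0 →
  ∃ (p : UT g) (t : ℝ), p.1.1 = x ∧ 0 < t ∧ (φ p).1 = t • k

def TayP (g : Met n) (Φ : ℝ → UT g → UT g) : Prop := ∀ R : ℝ, ∃ C : ℝ, ∀ (p : UT g) (x : E n),
  ‖p.1.1‖ ≤ R → ‖x‖ ≤ R → |bus g Φ p x + g p.1.1 p.1.2 (x - p.1.1)| ≤ C * ‖x - p.1.1‖ ^ 2

def FlipP (g : Met n) (Φ : ℝ → UT g → UT g) (l : E n → E n → ℝ) (φ : UT g → E n × E n) : Prop :=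
  ∀ p p' : UT g, l (φ p').1 (φ p).2 ≤ 2 * Real.exp (bus g Φ p' p.1.1)

/-- Busemann data. -/
structure BD (g : Met n) {Γ : Type} [Group Γ] [MulAction Γ (E n)] (l : E n → E n → ℝ)
    (a : Γ → E n → E n) (β : E n → E n → ℝ) (v m : E n → E n → E n) (X : E n × E n → E n) :
    Prop where
  pos : ∀ x k, k ≠ 0 → 0 < β x k
  hom : ∀ x k (t : ℝ), k ≠ 0 → 0 < t →
    β x (t • k) = t * β x k ∧ v x (t • k) = v x k ∧ m x (t • k) = m x k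
  cb : ContinuousOn (fun w : E n × E n => β w.1 w.2) {w | w.2 ≠ 0}
  cv : ContinuousOn (fun w : E n × E n => v w.1 w.2) {w | w.2 ≠ 0}
  cm : ContinuousOn (fun w : E n × E n => m w.1 w.2) {w | w.2 ≠ 0}
  unit : ∀ x k, k ≠ 0 → g x (v x k) (v x k) = 1
  onto : ∀ x u, g x u u = 1 → ∃ k, k ≠ 0 ∧ v x k = u
  tay : ∀ R : ℝ, ∃ C : ℝ, ∀ x x' k, ‖x‖ ≤ R → ‖x'‖ ≤ R → k ≠ 0 →
    |Real.log (β x' k) - Real.log (β x k) + g x (v x k) (x' - x)| ≤ C * ‖x' - x‖ ^ 2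
  sup : ∀ x k k', k ≠ 0 → k' ≠ 0 → l k' (m x k) ≤ 2 * β x k'
  tou : ∀ x k, k ≠ 0 → l k (m x k) = 2 * β x k
  inj : ∀ x x' k, k ≠ 0 → m x k = m x' k → x = x'
  cX : ContinuousOn X {w | l w.1 w.2 = 2}
  mX : ∀ w : E n × E n, l w.1 w.2 = 2 → m (X w) w.1 = w.2
  equi : ∀ (γ : Γ) x k, k ≠ 0 → β (γ • x) (a γ k) = β x k ∧ m (γ • x) (a γ k) = a γ (m x k)
  join : ∀ x x', x ≠ x' → ∃ (c : ℝ → E n) (k : E n) (T : ℝ), k ≠ 0 ∧ 0 < T ∧ c 0 = x ∧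
    c T = x' ∧ ∀ t, HasDerivAt c (v (c t) k) t

/-- A statement about a conjugacy. -/
def OnConj (P : ∀ (n : ℕ) (g : Met n) (Γ : Type) [Group Γ] [MulAction Γ (E n)]
    (_ : ℝ → UT g → UT g) (_ : E n → E n → ℝ) (_ : Γ → E n → E n) (_ : UT g → E n × E n),
    Prop) : Prop :=
  ∀ (n : ℕ) (g : Met n) (Γ : Type) [Group Γ] [MulAction Γ (E n)] (Φ : ℝ → UT g → UT g)
    (l : E n → E n → ℝ) (a : Γ → E n → E n) (φ : UT g → E n × E n) (ψ : E n × E n → UT g),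
    RP g Γ Φ → Conj g Φ l a φ ψ → P n g Γ Φ l a φ

def SUC : Prop := OnConj fun _ g _ _ _ _ l _ φ => UcP g l φ
def SMIN : Prop := OnConj fun _ g _ _ _ Φ l _ φ => UcP g l φ → MinP g Φ
def SBU : Prop := OnConj fun _ g Γ _ _ Φ l _ φ => UcP g l φ → MinP g Φ → BuP g Γ Φ φ
def SEX : Prop := OnConj fun _ g _ _ _ Φ l _ φ => UcP g l φ → MinP g Φ → ExP g φ
def STAY : Prop := OnConj fun _ g Γ _ _ Φ _ _ φ => BuP g Γ Φ φ → TayP g Φ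
def SFLIP : Prop := OnConj fun _ g Γ _ _ Φ l _ φ => UcP g l φ → BuP g Γ Φ φ → FlipP g Φ l φ
def SBD : Prop := OnConj fun _ g Γ _ _ Φ l a φ => BuP g Γ Φ φ → ExP g φ → TayP g Φ →
  FlipP g Φ l φ → ∃ β v m X, BD g l a β v m X

/-! measure theory -/

def SAREA : Prop := ∀ (n : ℕ) (f : E n × E n → E n × E n) (K : NNReal) (s : Set (E n × E n)),
  LipschitzWith K f → MeasurableSet s →
    volume (f '' s) ≤ ∫⁻ z in s, ENNReal.ofReal |(fderiv ℝ f z).det| ∧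
    (InjOn f s → ∫⁻ z in s, ENNReal.ofReal |(fderiv ℝ f z).det| ≤ volume (f '' s))

def SBLK : Prop := ∀ (n : ℕ) (f : E n × E n →L[ℝ] E n × E n) (P M N : E n →L[ℝ] E n),
  ((∀ a, f a = (P a.1, N a.1 + M a.2)) → f.det = P.det * M.det) ∧
  ((∀ a, f a = (P a.2, N a.2 + M a.1)) → |f.det| = |P.det| * |M.det|)

def SMOR : Prop := ∀ (H ι : Type) [NormedAddCommGroup H] [InnerProductSpace ℝ H]
  [FiniteDimensional ℝ H] (A : Set ι) (c : ι → ℝ) (s w : ι → H) (R : ℝ), (∀ i ∈ A, ‖s i‖ ≤ R) →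
  (∀ i ∈ A, ∀ j ∈ A, c j + ⟪s j, w i⟫ ≤ c i + ⟪s i, w i⟫) →
    ∃ N : H → H, LipschitzWith 1 N ∧ (∀ i ∈ A, N (w i + s i) = s i) ∧
      ∀ z, DifferentiableAt ℝ N z → ∀ u u', ⟪fderiv ℝ N z u, u'⟫ = ⟪u, fderiv ℝ N z u'⟫

def SSV : Prop := ∀ (n : ℕ) (A : Set (E n × E n)) (S : E n → E n → ℝ) (P Q : E n × E n → E n)
  (C : ℝ), MeasurableSet A → Bornology.IsBounded A → Bornology.IsBounded (P '' A) →
  ContinuousOn P A → ContinuousOn Q A →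
  (∀ a ∈ A, ∀ b ∈ A, S b.1 a.2 ≤ S a.1 a.2 + ⟪P a, b.1 - a.1⟫ + C * ‖b.1 - a.1‖ ^ 2) →
  (∀ a ∈ A, ∀ b ∈ A, S a.1 a.2 + ⟪Q a, b.2 - a.2⟫ ≤ S a.1 b.2) →
  InjOn (fun a => (a.2, Q a)) A →
    volume ((fun a => (a.1, P a)) '' A) ≤ volume ((fun a => (a.2, Q a)) '' A)

def SPACK : Prop := ∀ (X Γ : Type) [MeasurableSpace X] [Group Γ] [Countable Γ] (μ : Measure X)
  (T : Γ → X → X) (Ω E₁ E₂ : Set X), (∀ γ, MeasurePreserving (T γ) μ μ) →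
  (∀ γ, ∀ z ∈ Ω, T γ z ∈ Ω ∧ T γ⁻¹ (T γ z) = z) → MeasurableSet Ω → MeasurableSet E₁ → E₁ ⊆ Ω →
  E₂ ⊆ Ω → (∀ γ δ, ∀ z ∈ Ω, T γ z ∈ E₁ → T δ z ∈ E₁ → γ = δ) →
  (∀ z ∈ E₁, ∃ γ, ∃ z' ∈ E₂, z = T γ z') → μ E₁ ≤ μ E₂

/-- The volume of the dual unit ball. -/
noncomputable def W (g : Met n) (x : E n) : ENNReal :=
  volume {P : E n | ∃ u, g x u u ≤ 1 ∧ ∀ w, ⟪P, w⟫ = g x u w}

/-- Supporting covectors. -/
structure Qd (l : E n → E n → ℝ) (q : E n → E n → E n) : Prop where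
  cont : ContinuousOn (fun w : E n × E n => q w.1 w.2) {w | w.1 ≠ 0 ∧ 0 < l w.1 w.2}
  sup : ∀ k m k', k ≠ 0 → 0 < l k m → 2 * ⟪q k m, k'⟫ ≤ l k' m
  tou : ∀ k m, k ≠ 0 → 0 < l k m → 2 * ⟪q k m, k⟫ = l k m
  inj : ∀ k m m', k ≠ 0 → 0 < l k m → 0 < l k m' → q k m = q k m' → m = m'

/-- The image of the unit ball bundle over `D`. -/
def E1 (β : E n → E n → ℝ) (m q : E n → E n → E n) (D : Set (E n)) : Set (E n × E n) :=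
  (fun a : E n × E n => (a.2, q a.2 (m a.1 a.2))) '' {a | a.1 ∈ D ∧ a.2 ≠ 0 ∧ β a.1 a.2 ≤ 1}

def SW : Prop := ∀ (n : ℕ) (g : Met n), Riem g → Measurable (W g) ∧
  (∀ D : Set (E n), Bornology.IsBounded D → ∫⁻ x in D, W g x ≠ ⊤) ∧
  ∀ D : Set (E n), MeasurableSet D → 0 < n → ∫⁻ x in D, W g x ≤
    volume {z : E n × E n | z.1 ∈ D ∧ ∃ u, u ≠ 0 ∧ g z.1 u u ≤ 1 ∧ ∀ w, ⟪z.2, w⟫ = g z.1 u w}

def SLEFT : Prop := ∀ (n : ℕ) (g : Met n) (Γ : Type) [Group Γ] [MulAction Γ (E n)]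
  (l : E n → E n → ℝ) (a : Γ → E n → E n) (β : E n → E n → ℝ) (v m q : E n → E n → E n)
  (X : E n × E n → E n) (D : Set (E n)), Riem g → BD g l a β v m X → Qd l q → MeasurableSet D →
  Bornology.IsBounded D → MeasurableSet (E1 β m q D) ∧
    volume {z : E n × E n | z.1 ∈ D ∧ ∃ u, u ≠ 0 ∧ g z.1 u u ≤ 1 ∧ ∀ w, ⟪z.2, w⟫ = g z.1 u w} ≤
      volume (E1 β m q D)

def SNUC : Prop := ∀ (n : ℕ) (X : Type) [MeasurableSpace X] (μ : Measure X) [IsFiniteMeasure μ]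
  (a b : X → E n) (J : E n →L[ℝ] E n), AEStronglyMeasurable a μ → AEStronglyMeasurable b μ →
  (∀ᵐ x ∂μ, ‖a x‖ = 1 ∧ ‖b x‖ = 1) → μ.real univ ≤ n → (∀ u, J u = ∫ x, ⟪b x, u⟫ • a x ∂μ) →
    |J.det| ≤ 1 ∧ (1 ≤ |J.det| → ∀ᵐ x ∂μ, J (b x) = a x)

end Pool.Agent.MP_3ee8cb_gt.CR
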