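import Pool.Agent.MP_3ee8cb_gt.CR.SpecA

/-! The real hyperbolic side: definitions and statements of the rows. -/

namespace Pool.Agent.MP_3ee8cb_gt.CR

open Set MeasureTheory
open scoped RealInnerProductSpace

variable {n : ℕ}

/-- Minkowski space. -/
abbrev V (n : ℕ) := ℝ × E n

/-- The Lorentz form. -/
noncomputable def B (z w : V n) : ℝ := ⟪z.2, w.2⟫ - z.1 * w.1

noncomputable def lp (a b : E n) : ℝ := ‖a‖ * ‖b‖ - ⟪a, b⟫

/-- The light cone as a graph. -/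
noncomputable def cn (k : E n) : V n := (‖k‖, k)

/-- The hyperboloid as a graph. -/
noncomputable def up (y : E n) : V n := (√(1 + ‖y‖ ^ 2), y)

/-- Orthochronous Lorentz maps. -/
structure Lor (A : V n →L[ℝ] V n) : Prop where
  pres : ∀ z w, B (A z) (A w) = B z w
  pos : 0 < (A (1, 0)).1

noncomputable def ca (A : V n →L[ℝ] V n) (k : E n) : E n := (A (cn k)).2

/-- The covector of `-B z` on the light cone at `k`. -/
noncomputable def qL (k : E n) : V n →L[ℝ] E n :=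
  (ContinuousLinearMap.fst ℝ ℝ (E n)).smulRight (‖k‖⁻¹ • k) - ContinuousLinearMap.snd ℝ ℝ (E n)

theorem qL_apply (k : E n) (z : V n) : qL k z = z.1 • (‖k‖⁻¹ • k) - z.2 := rfl

noncomputable def qq (k m : E n) : E n := (1 / 2 : ℝ) • qL k (cn m)

/-- The cotangent lift. -/
noncomputable def TA (A : V n →L[ℝ] V n) (w : E n × E n) : E n × E n :=
  (ca A w.1, qL (ca A w.1) (A (0, -w.2)))

/-- The invariant measure on the light cone. -/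
noncomputable def nu (n : ℕ) : Measure (E n) :=
  volume.withDensity fun k => ENNReal.ofReal ‖k‖⁻¹

/-- `h` is `c` times the hyperbolic metric. -/
def IsHyp (c : ℝ) (h : Met n) : Prop :=
  ∀ x u v, h x u v = c * (⟪u, v⟫ - ⟪x, u⟫ * ⟪x, v⟫ / (1 + ‖x‖ ^ 2))

structure LorP (n : ℕ) : Prop where
  bd : Bd (lp : E n → E n → ℝ)
  qd : Qd (lp : E n → E n → ℝ) qq
  cc : ∀ a b : E n, B (cn a) (cn b) = -lp a b
  uu : ∀ y : E n, B (up y) (up y) = -1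
  ell : ∀ y k : E n, k ≠ 0 → 0 < -B (up y) (cn k)
  cone : ∀ z : V n, B z z = 0 → 0 ≤ z.1 → cn z.2 = z
  hyp : ∀ z : V n, B z z = -1 → 0 < z.1 → up z.2 = z
  fut : ∀ A : V n →L[ℝ] V n, Lor A → ∀ z, B z z ≤ 0 → 0 < z.1 → 0 < (A z).1
  acn : ∀ A : V n →L[ℝ] V n, Lor A → ∀ k, A (cn k) = cn (ca A k)
  ane : ∀ A : V n →L[ℝ] V n, Lor A → ∀ k, k ≠ 0 → ca A k ≠ 0
  inv : ∀ A : V n →L[ℝ] V n, Lor A → ∃ A', Lor A' ∧ (∀ z, A' (A z) = z) ∧ ∀ z, A (A' z) = z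
  tra : ∀ y : E n, ∃ A, Lor A ∧ A (1, 0) = up y
  qin : ∀ (k : E n) (z : V n), k ≠ 0 → ⟪qL k z, k⟫ = -B z (cn k)
  ta : ∀ A : V n →L[ℝ] V n, Lor A → ∀ (k : E n) (z : V n), k ≠ 0 →
    TA A (k, qL k z) = (ca A k, qL (ca A k) (A z))
  qon : ∀ k q : E n, k ≠ 0 → 0 < ⟪q, k⟫ → ∃ y, qL k (up y) = q

/-- A representation by Lorentz maps. -/
structure Rep {Γ : Type} [Group Γ] (A : Γ → V n →L[ℝ] V n) : Prop where
  lor : ∀ γ, Lor (A γ)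
  one : ∀ z, A 1 z = z
  mul : ∀ γ δ z, A (γ * δ) z = A γ (A δ z)

def HfP (h : Met n) (Ψ : ℝ → UT h → UT h) : Prop := ∀ (t : ℝ) (q : UT h), (Ψ t q).1 =
  (Real.cosh t • q.1.1 + Real.sinh t • q.1.2, Real.sinh t • q.1.1 + Real.cosh t • q.1.2)

def SLOR : Prop := ∀ n : ℕ, LorP n
def SHRI : Prop := ∀ (n : ℕ) (h : Met n), IsHyp 1 h → Riem h
def SHFL : Prop := ∀ (n : ℕ) (h : Met n) (Ψ : ℝ → UT h → UT h), IsHyp 1 h → IsFlow h Ψ →
  UniP h → FlP h Ψ → HfP h Ψ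
def SISO : Prop := ∀ (n : ℕ) (h : Met n) (Λ : Type) [Group Λ] [MulAction Λ (E n)]
  (Ψ : ℝ → UT h → UT h), LorP n → IsHyp 1 h → RP h Λ Ψ → HfP h Ψ →
  ∃ A : Λ → V n →L[ℝ] V n, Rep A ∧ ∀ (γ : Λ) (y : E n), A γ (up y) = up (γ • y)
def SCONJ : Prop := ∀ (n : ℕ) (g h : Met n) (Γ Λ : Type) [Group Γ] [Group Λ] [MulAction Γ (E n)]
  [MulAction Λ (E n)] (Φ : ℝ → UT g → UT g) (Ψ : ℝ → UT h → UT h) (A : Λ → V n →L[ℝ] V n)
  (ρ : Γ ≃* Λ) (F : UT g ≃ₜ UT h), 0 < n → LorP n → IsHyp 1 h → Deck h Λ → HfP h Ψ → Rep A →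
  (∀ (γ : Λ) (y : E n), A γ (up y) = up (γ • y)) → (∀ t p, F (Φ t p) = Ψ t (F p)) →
  (∀ (γ : Γ) (p q : UT g), q.1 = tm γ p.1 → (F q).1 = tm (ρ γ) (F p).1) →
  ∃ φ ψ, Conj g Φ lp (fun γ => ca (A (ρ γ))) φ ψ

/-- Determinants of the cone action and of its cotangent lift. -/
def DetP (n : ℕ) : Prop := ∀ (A : V n →L[ℝ] V n) (k : E n), Lor A → k ≠ 0 →
  ∃ D L : E n →L[ℝ] E n, HasFDerivAt (ca A) D k ∧ |D.det| = ‖ca A k‖ / ‖k‖ ∧
    (∀ q, L q = qL (ca A k) (A (0, -q))) ∧ |L.det| = ‖k‖ / ‖ca A k‖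

def ConeP (n : ℕ) : Prop :=
  ∀ A : V n →L[ℝ] V n, Lor A → MeasurePreserving (ca A) (nu n) (nu n)

def CotP (n : ℕ) : Prop :=
  ∀ A : V n →L[ℝ] V n, Lor A → MeasurePreserving (TA A) volume volume

def SDET : Prop := ∀ n : ℕ, LorP n → DetP n
def SCONE : Prop := ∀ n : ℕ, 0 < n → LorP n → DetP n → ConeP n
def SCOT : Prop := ∀ n : ℕ, 0 < n → LorP n → DetP n → CotP n

/-! the barycentre map -/

noncomputable def Y (β : E n → E n → ℝ) (x : E n) : V n :=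
  ∫ k, Real.exp (-β x k) • cn k ∂nu n

noncomputable def Fm (β : E n → E n → ℝ) (x : E n) : E n :=
  ((√(-B (Y β x) (Y β x)))⁻¹ • Y β x).2

noncomputable def Z (F : E n → E n) (x : E n) : E n →L[ℝ] V n := fderiv ℝ (fun x => up (F x)) x

/-- All data on `M`. -/
structure HD (g : Met n) {Γ : Type} [Group Γ] [MulAction Γ (E n)] (A : Γ → V n →L[ℝ] V n)
    (β : E n → E n → ℝ) (v m : E n → E n → E n) (X : E n × E n → E n) : Prop where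
  pos : 0 < n
  riem : Riem g
  deck : Deck g Γ
  lor : LorP n
  rep : Rep A
  bd : BD g lp (fun γ => ca (A γ)) β v m X

structure YaP (β : E n → E n → ℝ) : Prop where
  low : ∀ R : ℝ, ∃ c : ℝ, 0 < c ∧ ∀ x k, ‖x‖ ≤ R → k ≠ 0 →
    c * ‖k‖ ≤ β x k ∧ β x k ≤ c⁻¹ * ‖k‖
  ne : ∀ᵐ k ∂nu n, k ≠ 0
  dom : ∀ (c : ℝ) (j : ℕ), 0 < c → Integrable (fun k : E n => ‖k‖ ^ (j + 1) *
    Real.exp (-(c * ‖k‖))) (nu n)
  int : ∀ x, Integrable (fun k => Real.exp (-β x k) • cn k) (nu n)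
  int' : ∀ x, Integrable (fun k => (β x k * Real.exp (-β x k)) • cn k) (nu n)

def YtP (β : E n → E n → ℝ) : Prop := ∀ x, B (Y β x) (Y β x) < 0 ∧ 0 < (Y β x).1

def YeP {Γ : Type} [Group Γ] [MulAction Γ (E n)] (A : Γ → V n →L[ℝ] V n)
    (β : E n → E n → ℝ) : Prop := ∀ (γ : Γ) x, Y β (γ • x) = A γ (Y β x)

def YhP (β : E n → E n → ℝ) : Prop := ∀ x y : E n,
  ∫ k, β x k * Real.exp (-β x k) * -B (up y) (cn k) ∂nu n ≤
    n * ∫ k, Real.exp (-β x k) * -B (up y) (cn k) ∂nu n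

def YdP (g : Met n) (β : E n → E n → ℝ) (v : E n → E n → E n) : Prop :=
  ContDiff ℝ 1 (Y β) ∧ ∀ x u, fderiv ℝ (Y β) x u =
    ∫ k, (β x k * Real.exp (-β x k) * g x (v x k) u) • cn k ∂nu n

/-- An equivariant map of class `C¹`. -/
structure EqF {Γ : Type} [Group Γ] [MulAction Γ (E n)] (A : Γ → V n →L[ℝ] V n)
    (F : E n → E n) : Prop where
  smooth : ContDiff ℝ 1 F
  equi : ∀ (γ : Γ) x, up (F (γ • x)) = A γ (up (F x))

structure FfP (β : E n → E n → ℝ) : Prop where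
  lift : ∀ x, up (Fm β x) = (√(-B (Y β x) (Y β x)))⁻¹ • Y β x
  der : ∀ x u, Z (Fm β) x u = (√(-B (Y β x) (Y β x)))⁻¹ •
    (fderiv ℝ (Y β) x u + B (fderiv ℝ (Y β) x u) (up (Fm β x)) • up (Fm β x))

/-- The fibre integral of the Jacobian. -/
noncomputable def I (F : E n → E n) (x : E n) : ENNReal :=
  ∫⁻ k in {k : E n | k ≠ 0 ∧ -B (up (F x)) (cn k) ≤ 1},
    ENNReal.ofReal |((qL k).comp (Z F x)).det|

def Good (F : E n → E n) (v : E n → E n → E n) (x : E n) : Prop :=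
  ∀ k, k ≠ 0 → Z F x (v x k) = (-B (up (F x)) (cn k))⁻¹ • cn k - up (F x)

def JacP (g : Met n) (F : E n → E n) (v : E n → E n → E n) : Prop :=
  ∀ x, I F x ≤ W g x ∧ (W g x ≤ I F x → Good F v x)

def E2 (F : E n → E n) (D : Set (E n)) : Set (E n × E n) :=
  (fun a : E n × E n => (a.2, qL a.2 (up (F a.1)))) ''
    {a | a.1 ∈ D ∧ a.2 ≠ 0 ∧ -B (up (F a.1)) (cn a.2) ≤ 1}

/-- A statement about the data on `M`. -/
def OnHD (P : ∀ (n : ℕ) (_ : Met n) (Γ : Type) [Group Γ] [MulAction Γ (E n)]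
    (_ : Γ → V n →L[ℝ] V n) (_ : E n → E n → ℝ) (_ _ : E n → E n → E n), Prop) : Prop :=
  ∀ (n : ℕ) (g : Met n) (Γ : Type) [Group Γ] [MulAction Γ (E n)] (A : Γ → V n →L[ℝ] V n)
    (β : E n → E n → ℝ) (v m : E n → E n → E n) (X : E n × E n → E n),
    HD g A β v m X → P n g Γ A β v m

def SYA : Prop := OnHD fun _ _ _ _ _ _ β _ _ => YaP β
def SYT : Prop := OnHD fun _ _ _ _ _ _ β _ _ => YaP β → YtP β
def SYE : Prop := OnHD fun n _ _ _ _ A β _ _ => ConeP n → YaP β → YeP A β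
def SYH : Prop := OnHD fun _ _ _ _ _ _ β _ _ => YaP β → YhP β
def SYD : Prop := OnHD fun _ g _ _ _ _ β v _ => YaP β → YdP g β v
def SFF : Prop := OnHD fun _ g _ _ _ A β v _ => YtP β → YeP A β → YdP g β v →
  EqF A (Fm β) ∧ FfP β

def SFRAME : Prop := ∀ (n : ℕ) (g : Met n) (x : E n), Riem g →
  ∃ R : E n ≃L[ℝ] E n, ∀ a b, g x (R a) (R b) = ⟪a, b⟫

def JaP (n : ℕ) : Prop := ∀ (g : Met n) (x y : E n) (R : E n ≃L[ℝ] E n) (A : V n →L[ℝ] V n)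
  (T : E n →L[ℝ] V n) (J : E n →L[ℝ] E n), (∀ a b, g x (R a) (R b) = ⟪a, b⟫) → Lor A →
  A (1, 0) = up y → (∀ a, T (R a) = A (0, J a)) →
  ∫⁻ k in {k : E n | k ≠ 0 ∧ -B (up y) (cn k) ≤ 1}, ENNReal.ofReal |((qL k).comp T).det| =
    ENNReal.ofReal |J.det| * W g x ∧ W g x ≠ 0 ∧ W g x ≠ ⊤

def SJA : Prop := ∀ n : ℕ, 0 < n → LorP n → DetP n → ConeP n → JaP n
def SJB : Prop := OnHD fun n g _ _ _ _ β v _ => JaP n → YaP β → YtP β → YhP β → YdP g β v →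
  FfP β → JacP g (Fm β) v

def SRIGHT : Prop := ∀ (n : ℕ) (F : E n → E n) (D : Set (E n)), ContDiff ℝ 1 F →
  MeasurableSet D → volume (E2 F D) ≤ ∫⁻ x in D, I F x

def SBRW : Prop := ∀ (n : ℕ) (G : E n → E n) (C : ℝ), Continuous G →
  (∀ y, -B (up (G y)) (up y) ≤ C) → Function.Surjective G

def SSURJ : Prop := OnHD fun _ _ _ _ _ A β _ _ => YaP β → ∀ F, EqF A F → Function.Surjective F

def SCOV : Prop := OnHD fun n _ Γ _ _ A β _ m => CotP n → Countable Γ → ∀ F D, EqF A F →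
  Function.Surjective F → (∀ x : E n, ∃ γ : Γ, γ • x ∈ D) →
  (∀ (γ : Γ) (x : E n), x ∈ D → γ • x ∈ D → γ = 1) → MeasurableSet (E1 β m qq D) →
  volume (E1 β m qq D) ≤ volume (E2 F D)

def SGOOD : Prop := OnHD fun n g _ _ _ _ _ v _ => ∀ (F : E n → E n) (D : Set (E n)) (x : E n),
  ContDiff ℝ 1 F → JacP g F v → MeasurableSet D → D ∈ nhds x → Measurable (W g) →
  ∫⁻ x in D, W g x ≠ ⊤ → ∫⁻ x in D, W g x ≤ ∫⁻ x in D, I F x → Good F v x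

def SEND : Prop := OnHD fun n g _ _ _ _ _ v _ => ∀ (h : Met n) (F : E n → E n), IsHyp 1 h →
  ContDiff ℝ 1 F → (∀ x, Good F v x) → Function.Injective F ∧
    ∀ x u w, h (F x) (fderiv ℝ F x u) (fderiv ℝ F x w) = g x u w

/-- The theorem for curvature `-1/c`. -/
def Main (c : ℝ) : Prop := ∀ (n : ℕ) (g h : Met n) (Γ Λ : Type) [Group Γ] [Group Λ]
  [MulAction Γ (E n)] [MulAction Λ (E n)] (Φ : ℝ → UT g → UT g) (Ψ : ℝ → UT h → UT h)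
  (f : UM g Γ ≃ₜ UM h Λ), 3 ≤ n → Riem g → IsHyp c h → Deck g Γ → Deck h Λ → IsFlow g Φ →
  IsFlow h Ψ →
  (∀ t p q, f (Quot.mk _ p) = Quot.mk _ q → f (Quot.mk _ (Φ t p)) = Quot.mk _ (Ψ t q)) →
  ∃ (F : E n → E n) (ρ : Γ ≃* Λ), Function.Bijective F ∧ ContDiff ℝ 1 F ∧
    (∀ x u v, h (F x) (fderiv ℝ F x u) (fderiv ℝ F x v) = g x u v) ∧
    ∀ (γ : Γ) x, F (γ • x) = ρ γ • F x

def SSCALE : Prop := Main 1 → ∀ c : ℝ, 0 < c → Main c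

end Pool.Agent.MP_3ee8cb_gt.CR
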